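import Pool.Agent.Lib_MP_112ba8_w.Defs

/-!
# Piece ALG: algebra of trigonometric polynomials

(helper5) Basic facts on `ev`, `st`, `nrm`, `Len`, `Prm`, `Dom`, `NR`, `NB`.
-/

namespace Pool.Agent.MomW

open Filter Topology MeasureTheory
open Pool.Agent.SixthMoment (QQ ln fr osc)
open Pool.Agent.ZetaMoment (wt Wm C0 aG DP)

/-! ## values -/

lemma ev_eq_sum (t : ℝ) (f : TP) : ev t f = f.coeff.sum fun q a => (a : ℂ) * osc q t := by
  unfold ev
  rw [AddMonoidAlgebra.lift_apply]
  refine Finsupp.sum_congr fun q _ => ?_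
  rw [Complex.real_smul]
  rfl

lemma ev_single (t : ℝ) (q : QQ) (a : ℝ) :
    ev t (AddMonoidAlgebra.single q a) = (a : ℂ) * osc q t := by
  unfold ev
  rw [AddMonoidAlgebra.lift_single, Complex.real_smul]
  rfl

lemma ev_cont (f : TP) : Continuous fun t => ev t f := by
  have h : (fun t => ev t f) = fun t => ∑ q ∈ f.coeff.support, (f.coeff q : ℂ) * osc q t := by
    funext t
    rw [ev_eq_sum]
    rfl
  rw [h]
  exact continuous_finsetSum _ fun q _ =>
    continuous_const.mul (Pool.Agent.SixthMoment.osc_cont q)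

lemma norm_ev_le (t : ℝ) (f : TP) : ‖ev t f‖ ≤ nrm f := by
  rw [ev_eq_sum]
  unfold nrm Finsupp.sum
  refine (norm_sum_le _ _).trans (Finset.sum_le_sum fun q _ => ?_)
  rw [norm_mul, Pool.Agent.SixthMoment.osc_norm, mul_one, Complex.norm_real, Real.norm_eq_abs]

lemma st_single (q : QQ) (a : ℝ) :
    st (AddMonoidAlgebra.single q a) = AddMonoidAlgebra.single (-q) a := by
  unfold st
  rw [AddMonoidAlgebra.mapDomainAlgHom_apply, AddMonoidAlgebra.mapDomain_single]
  rfl

lemma coeff_st (f : TP) (q : QQ) : (st f).coeff q = f.coeff (-q) := by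
  unfold st
  rw [AddMonoidAlgebra.mapDomainAlgHom_apply]
  have h1 : (AddMonoidAlgebra.mapDomain (⇑(negAddMonoidHom : QQ →+ QQ)) f).coeff =
      Finsupp.mapDomain (⇑(negAddMonoidHom : QQ →+ QQ)) f.coeff := rfl
  rw [h1]
  have h2 := Finsupp.mapDomain_apply (f := (⇑(negAddMonoidHom : QQ →+ QQ)))
    (fun a b h => neg_injective h) f.coeff (-q)
  rw [show (negAddMonoidHom : QQ →+ QQ) (-q) = q from neg_neg q] at h2
  exact h2

lemma st_st (f : TP) : st (st f) = f := by
  refine AddMonoidAlgebra.ext (Finsupp.ext fun q => ?_)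
  rw [coeff_st, coeff_st, neg_neg]

/-- every element is a finite sum of monomials -/
lemma eq_sum_single (f : TP) :
    f = ∑ q ∈ f.coeff.support, AddMonoidAlgebra.single q (f.coeff q) := by
  conv_lhs => rw [← AddMonoidAlgebra.sum_coeff_single f]
  rfl

lemma ev_st (t : ℝ) (f : TP) : ev t (st f) = (starRingEnd ℂ) (ev t f) := by
  rw [eq_sum_single f, map_sum, map_sum, map_sum, map_sum]
  refine Finset.sum_congr rfl fun q _ => ?_
  rw [st_single, ev_single, ev_single, map_mul, Complex.conj_ofReal,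
    Pool.Agent.SixthMoment.osc_conj]

/-! ## supports -/

lemma coeff_mul_eq (f g : TP) (q : QQ) {s s' : Finset QQ} (hs : f.coeff.support ⊆ s)
    (hs' : g.coeff.support ⊆ s') : (f * g).coeff q =
      ∑ a ∈ s, ∑ b ∈ s', (open Classical in if a + b = q then f.coeff a * g.coeff b else 0) := by
  classical
  rw [AddMonoidAlgebra.coeff_mul]
  unfold Finsupp.sum
  have h1 : ∀ a, ∑ b ∈ g.coeff.support, (if a + b = q then f.coeff a * g.coeff b else 0) =
      ∑ b ∈ s', (if a + b = q then f.coeff a * g.coeff b else 0) := by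
    intro a
    refine Finset.sum_subset hs' fun b _ hb => ?_
    rw [Finsupp.notMem_support_iff.mp hb, mul_zero, ite_self]
  rw [Finset.sum_congr rfl fun a _ => h1 a]
  refine Finset.sum_subset hs fun a _ ha => Finset.sum_eq_zero fun b _ => ?_
  rw [Finsupp.notMem_support_iff.mp ha, zero_mul, ite_self]

lemma mem_support_mul {f g : TP} {q : QQ} (hq : q ∈ (f * g).coeff.support) :
    ∃ a ∈ f.coeff.support, ∃ b ∈ g.coeff.support, a + b = q := by
  classical
  rw [Finsupp.mem_support_iff, coeff_mul_eq f g q subset_rfl subset_rfl] at hq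
  obtain ⟨a, ha, h1⟩ := Finset.exists_ne_zero_of_sum_ne_zero hq
  obtain ⟨b, hb, h2⟩ := Finset.exists_ne_zero_of_sum_ne_zero h1
  refine ⟨a, ha, b, hb, ?_⟩
  by_contra h
  rw [if_neg h] at h2
  exact h2 rfl

/-- all frequencies satisfy `P` -/
def SP (f : TP) (P : QQ → Prop) : Prop := ∀ q ∈ f.coeff.support, P q

lemma SP.add {f g : TP} {P : QQ → Prop} (hf : SP f P) (hg : SP g P) : SP (f + g) P := by
  classical
  intro q hq
  have h1 := Finsupp.support_add (g₁ := f.coeff) (g₂ := g.coeff) hq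
  rcases Finset.mem_union.mp h1 with h | h
  · exact hf q h
  · exact hg q h

lemma SP.zero (P : QQ → Prop) : SP 0 P := by
  intro q hq
  exact absurd rfl (Finsupp.mem_support_iff.mp hq)

lemma SP.smul {f : TP} {P : QQ → Prop} (a : ℝ) (hf : SP f P) : SP (a • f) P := by
  intro q hq
  refine hf q ?_
  rw [Finsupp.mem_support_iff] at hq ⊢
  intro h
  apply hq
  rw [AddMonoidAlgebra.coeff_smul, Finsupp.smul_apply, h, smul_zero]

lemma SP.sum {ι : Type*} (s : Finset ι) (f : ι → TP) {P : QQ → Prop} (h : ∀ i ∈ s, SP (f i) P) :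
    SP (∑ i ∈ s, f i) P := by
  classical
  induction s using Finset.induction_on with
  | empty => exact SP.zero P
  | insert i s hi ih =>
    rw [Finset.sum_insert hi]
    exact (h i (Finset.mem_insert_self i s)).add (ih fun j hj => h j (Finset.mem_insert_of_mem hj))

lemma SP.single {P : QQ → Prop} {q : QQ} (hq : P q) (a : ℝ) :
    SP (AddMonoidAlgebra.single q a) P := by
  classical
  intro r hr
  have h1 : r ∈ (Finsupp.single q a).support := hr
  have h2 := Finsupp.support_single_subset h1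
  rw [Finset.mem_singleton] at h2
  rw [h2]
  exact hq

lemma SP.one {P : QQ → Prop} (h : P 0) : SP 1 P := by
  rw [AddMonoidAlgebra.one_def]
  exact SP.single h 1

lemma SP.mul {f g : TP} {P P' P'' : QQ → Prop} (hf : SP f P) (hg : SP g P')
    (h : ∀ a b, P a → P' b → P'' (a + b)) : SP (f * g) P'' := by
  intro q hq
  obtain ⟨a, ha, b, hb, rfl⟩ := mem_support_mul hq
  exact h a b (hf a ha) (hg b hb)

lemma SP.st {f : TP} {P : QQ → Prop} (hf : SP f P) (h : ∀ q, P q → P (-q)) : SP (st f) P := by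
  intro q hq
  rw [Finsupp.mem_support_iff, coeff_st] at hq
  have h1 := h _ (hf (-q) (Finsupp.mem_support_iff.mpr hq))
  rwa [neg_neg] at h1

/-! ## the norm -/

lemma nrm_eq {f : TP} {s : Finset QQ} (hs : f.coeff.support ⊆ s) :
    nrm f = ∑ q ∈ s, |f.coeff q| := by
  unfold nrm
  exact Finsupp.sum_of_support_subset _ hs _ (by intro q _; exact abs_zero)

lemma nrm_nonneg (f : TP) : 0 ≤ nrm f := by
  rw [nrm_eq subset_rfl]
  exact Finset.sum_nonneg fun q _ => abs_nonneg _

lemma nrm_zero : nrm 0 = 0 := by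
  unfold nrm
  rw [AddMonoidAlgebra.coeff_zero]
  exact Finsupp.sum_zero_index

lemma nrm_single (q : QQ) (a : ℝ) : nrm (AddMonoidAlgebra.single q a) = |a| := by
  unfold nrm
  rw [AddMonoidAlgebra.coeff_single]
  exact Finsupp.sum_single_index abs_zero

lemma nrm_one : nrm 1 = 1 := by
  rw [AddMonoidAlgebra.one_def, nrm_single, abs_one]

lemma nrm_add_le (f g : TP) : nrm (f + g) ≤ nrm f + nrm g := by
  classical
  rw [nrm_eq (f := f + g) (s := f.coeff.support ∪ g.coeff.support) Finsupp.support_add,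
    nrm_eq (f := f) (s := f.coeff.support ∪ g.coeff.support) Finset.subset_union_left,
    nrm_eq (f := g) (s := f.coeff.support ∪ g.coeff.support) Finset.subset_union_right,
    ← Finset.sum_add_distrib]
  exact Finset.sum_le_sum fun q _ => abs_add_le _ _

lemma nrm_sum_le {ι : Type*} (s : Finset ι) (f : ι → TP) :
    nrm (∑ i ∈ s, f i) ≤ ∑ i ∈ s, nrm (f i) := by
  classical
  induction s using Finset.induction_on with
  | empty => rw [Finset.sum_empty, Finset.sum_empty, nrm_zero]
  | insert i s hi ih =>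
    rw [Finset.sum_insert hi, Finset.sum_insert hi]
    exact (nrm_add_le _ _).trans (by linarith)

lemma nrm_smul (a : ℝ) (f : TP) : nrm (a • f) = |a| * nrm f := by
  have h1 : (a • f).coeff.support ⊆ f.coeff.support := by
    intro q hq
    exact (SP.smul (P := fun q => q ∈ f.coeff.support) a fun q h => h) q hq
  rw [nrm_eq h1, nrm_eq (f := f) subset_rfl, Finset.mul_sum]
  refine Finset.sum_congr rfl fun q _ => ?_
  rw [AddMonoidAlgebra.coeff_smul, Finsupp.smul_apply, smul_eq_mul, abs_mul]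

lemma mul_eq_sum (f g : TP) : f * g = ∑ a ∈ f.coeff.support, ∑ b ∈ g.coeff.support,
    AddMonoidAlgebra.single (a + b) (f.coeff a * g.coeff b) :=
  AddMonoidAlgebra.mul_def f g

lemma nrm_mul_le (f g : TP) : nrm (f * g) ≤ nrm f * nrm g := by
  rw [mul_eq_sum, nrm_eq (f := f) subset_rfl, nrm_eq (f := g) subset_rfl,
    Finset.sum_mul_sum]
  refine (nrm_sum_le _ _).trans (Finset.sum_le_sum fun a _ => ?_)
  refine (nrm_sum_le _ _).trans (Finset.sum_le_sum fun b _ => ?_)
  rw [nrm_single, abs_mul]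

lemma nrm_pow_le (f : TP) (n : ℕ) : nrm (f ^ n) ≤ nrm f ^ n := by
  induction n with
  | zero => rw [pow_zero, pow_zero, nrm_one]
  | succ n ih =>
    rw [pow_succ, pow_succ]
    exact (nrm_mul_le _ _).trans (mul_le_mul_of_nonneg_right ih (nrm_nonneg f))

lemma nrm_st_le (f : TP) : nrm (st f) ≤ nrm f := by
  conv_lhs => rw [eq_sum_single f, map_sum]
  refine (nrm_sum_le _ _).trans (le_of_eq ?_)
  rw [nrm_eq (f := f) subset_rfl]
  refine Finset.sum_congr rfl fun q _ => ?_
  rw [st_single, nrm_single]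

lemma nrm_st (f : TP) : nrm (st f) = nrm f := by
  refine le_antisymm (nrm_st_le f) ?_
  have h := nrm_st_le (st f)
  rwa [st_st] at h

/-! ## length and primes -/

lemma Len.mono {f : TP} {B C : ℝ} (h : Len f B) (hBC : B ≤ C) : Len f C := fun q hq =>
  (h q hq).trans hBC

lemma Len.mul {f g : TP} {B C : ℝ} (hf : Len f B) (hg : Len g C) : Len (f * g) (B + C) :=
  SP.mul (P := fun q => ln q ≤ B) (P' := fun q => ln q ≤ C) (P'' := fun q => ln q ≤ B + C) hf hg
    fun a b ha hb => (Pool.Agent.SixthMoment.ln_add_le a b).trans (add_le_add ha hb)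

lemma Len_one : Len 1 0 :=
  SP.one (P := fun q => ln q ≤ 0) (by rw [Pool.Agent.SixthMoment.ln_zero])

lemma Len.pow {f : TP} {B : ℝ} (hf : Len f B) (n : ℕ) : Len (f ^ n) (n * B) := by
  induction n with
  | zero =>
    rw [pow_zero, Nat.cast_zero, zero_mul]
    exact Len_one
  | succ n ih =>
    rw [pow_succ]
    refine (ih.mul hf).mono (le_of_eq ?_)
    push_cast
    ring

lemma Len.st {f : TP} {B : ℝ} (hf : Len f B) : Len (st f) B :=
  SP.st (P := fun q => ln q ≤ B) hf fun q h => by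
    change ln (-q) ≤ B
    rwa [Pool.Agent.SixthMoment.ln_neg]

lemma Len.add {f g : TP} {B : ℝ} (hf : Len f B) (hg : Len g B) : Len (f + g) B :=
  SP.add (P := fun q => ln q ≤ B) hf hg

lemma Len.smul {f : TP} {B : ℝ} (a : ℝ) (hf : Len f B) : Len (a • f) B :=
  SP.smul (P := fun q => ln q ≤ B) a hf

lemma Len.sum {ι : Type*} (s : Finset ι) (f : ι → TP) {B : ℝ} (h : ∀ i ∈ s, Len (f i) B) :
    Len (∑ i ∈ s, f i) B :=
  SP.sum (P := fun q => ln q ≤ B) s f h

lemma Len.aeval {f : TP} {B : ℝ} (hB : 0 ≤ B) (hf : Len f B) (Q : Polynomial ℝ) :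
    Len (Polynomial.aeval f Q) (Q.natDegree * B) := by
  rw [Polynomial.aeval_eq_sum_range]
  refine Len.sum _ _ fun i hi => (((hf.pow i).mono ?_).smul _)
  have h1 : (i : ℝ) ≤ Q.natDegree := by
    exact_mod_cast Nat.lt_succ_iff.mp (Finset.mem_range.mp hi)
  exact mul_le_mul_of_nonneg_right h1 hB

lemma ln_ip (p : Nat.Primes) : ln (ip p) = Real.log ((p : ℕ) : ℝ) := by
  unfold Pool.Agent.SixthMoment.ln ip
  rw [Finsupp.sum_single_index]
  · rw [Int.cast_one, abs_one, one_mul]
  · rw [Int.cast_zero, abs_zero, zero_mul]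

lemma SP_XX (S : Finset Nat.Primes) {P : QQ → Prop} (h : ∀ p ∈ S, P (ip p))
    (h' : ∀ p ∈ S, P (-ip p)) : SP (XX S) P := by
  unfold XX PS
  refine SP.smul _ (SP.add (SP.sum _ _ fun p hp => SP.single (h p hp) _) ?_)
  rw [map_sum]
  refine SP.sum _ _ fun p hp => ?_
  rw [st_single]
  exact SP.single (h' p hp) _

lemma Len_XX {u v L : ℝ} (hvL : 0 ≤ v * L) : Len (XX (BP u v L)) (v * L) := by
  have _ := hvL
  refine SP_XX _ (P := fun q => ln q ≤ v * L) (fun p hp => ?_) (fun p hp => ?_)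
  · rw [ln_ip]
    exact (mem_BP.mp hp).2
  · rw [Pool.Agent.SixthMoment.ln_neg, ln_ip]
    exact (mem_BP.mp hp).2

lemma Prm.mono {f : TP} {S S' : Set Nat.Primes} (h : Prm f S) (hS : S ⊆ S') : Prm f S' :=
  fun q hq p hp => hS (h q hq p hp)

lemma Prm.mul {f g : TP} {S : Set Nat.Primes} (hf : Prm f S) (hg : Prm g S) :
    Prm (f * g) S := by
  classical
  refine SP.mul (P := fun q => ∀ p ∈ q.support, p ∈ S) (P' := fun q => ∀ p ∈ q.support, p ∈ S)
    (P'' := fun q => ∀ p ∈ q.support, p ∈ S) hf hg fun a b ha hb p hp => ?_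
  rcases Finset.mem_union.mp (Finsupp.support_add hp) with h | h
  · exact ha p h
  · exact hb p h

lemma Prm_one (S : Set Nat.Primes) : Prm 1 S := by
  refine SP.one (P := fun q => ∀ p ∈ q.support, p ∈ S) fun p hp => ?_
  exact absurd rfl (Finsupp.mem_support_iff.mp hp)

lemma Prm.pow {f : TP} {S : Set Nat.Primes} (hf : Prm f S) (n : ℕ) : Prm (f ^ n) S := by
  induction n with
  | zero =>
    rw [pow_zero]
    exact Prm_one S
  | succ n ih =>
    rw [pow_succ]
    exact ih.mul hf

lemma Prm.st {f : TP} {S : Set Nat.Primes} (hf : Prm f S) : Prm (st f) S := by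
  refine SP.st (P := fun q => ∀ p ∈ q.support, p ∈ S) hf fun q h p hp => h p ?_
  rw [Finsupp.mem_support_iff] at hp ⊢
  intro h0
  apply hp
  rw [Finsupp.neg_apply, h0, neg_zero]

lemma Prm.aeval {f : TP} {S : Set Nat.Primes} (hf : Prm f S) (Q : Polynomial ℝ) :
    Prm (Polynomial.aeval f Q) S := by
  rw [Polynomial.aeval_eq_sum_range]
  exact SP.sum (P := fun q => ∀ p ∈ q.support, p ∈ S) _ _ fun i _ => SP.smul _ (hf.pow i)

lemma Prm_XX (S : Finset Nat.Primes) : Prm (XX S) S := by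
  classical
  refine SP_XX S (P := fun q => ∀ p ∈ q.support, p ∈ (S : Set Nat.Primes)) (fun p hp r hr => ?_)
    (fun p hp r hr => ?_)
  · have h1 : r ∈ (Finsupp.single p (1 : ℤ)).support := hr
    rw [Finset.mem_singleton.mp (Finsupp.support_single_subset h1)]
    exact hp
  · have h1 : r ∈ (Finsupp.single p (1 : ℤ)).support := by
      rw [Finsupp.mem_support_iff] at hr ⊢
      intro h0
      apply hr
      rw [Finsupp.neg_apply]
      unfold ip
      rw [h0, neg_zero]
    rw [Finset.mem_singleton.mp (Finsupp.support_single_subset h1)]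
    exact hp

/-! ## the functionals -/

lemma wr_nonneg {r : ℝ} (hr : 0 ≤ r) (q : QQ) : 0 ≤ wr r q := by
  unfold wr
  split_ifs
  · positivity
  · exact le_rfl

lemma Om_zero : Om 0 = 0 := Finsupp.sum_zero_index

lemma Om_add (a b : QQ) : Om (a + b) = Om a + Om b :=
  Finsupp.sum_add_index' (fun _ => rfl) fun _ _ _ => rfl

lemma Om_nonneg {q : QQ} (hq : 0 ≤ q) : 0 ≤ Om q := Finset.sum_nonneg fun p _ => hq p

lemma Om_pos {q : QQ} (hq : 0 ≤ q) (h : q ≠ 0) : 0 < Om q := by
  obtain ⟨p, hp⟩ : ∃ p, q p ≠ 0 := by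
    by_contra h1
    push Not at h1
    exact h (Finsupp.ext h1)
  have h1 : 0 < q p := lt_of_le_of_ne (hq p) (Ne.symm hp)
  refine lt_of_lt_of_le h1 ?_
  exact Finset.single_le_sum (f := fun p => q p) (fun i _ => hq i) (Finsupp.mem_support_iff.mpr hp)

lemma wr_zero_right (r : ℝ) : wr r 0 = 1 := by
  unfold wr
  rw [if_pos le_rfl, Om_zero, Pool.Agent.SixthMoment.ln_zero]
  simp

/-- linear functional with the weights `φ` -/
noncomputable def lf (φ : QQ → ℝ) (f : TP) : ℝ := f.coeff.sum fun q a => a * φ q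

lemma lf_eq (φ : QQ → ℝ) {f : TP} {s : Finset QQ} (hs : f.coeff.support ⊆ s) :
    lf φ f = ∑ q ∈ s, f.coeff q * φ q :=
  Finsupp.sum_of_support_subset _ hs _ (by intro q _; exact zero_mul _)

lemma lf_add (φ : QQ → ℝ) (f g : TP) : lf φ (f + g) = lf φ f + lf φ g := by
  classical
  rw [lf_eq φ (f := f + g) (s := f.coeff.support ∪ g.coeff.support) Finsupp.support_add,
    lf_eq φ (f := f) (s := f.coeff.support ∪ g.coeff.support) Finset.subset_union_left,
    lf_eq φ (f := g) (s := f.coeff.support ∪ g.coeff.support) Finset.subset_union_right,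
    ← Finset.sum_add_distrib]
  refine Finset.sum_congr rfl fun q _ => ?_
  rw [AddMonoidAlgebra.coeff_add, Finsupp.add_apply, add_mul]

lemma lf_smul (φ : QQ → ℝ) (a : ℝ) (f : TP) : lf φ (a • f) = a * lf φ f := by
  have h1 : (a • f).coeff.support ⊆ f.coeff.support := by
    intro q hq
    exact (SP.smul (P := fun q => q ∈ f.coeff.support) a fun q h => h) q hq
  rw [lf_eq φ h1, lf_eq φ (f := f) subset_rfl, Finset.mul_sum]
  refine Finset.sum_congr rfl fun q _ => ?_
  rw [AddMonoidAlgebra.coeff_smul, Finsupp.smul_apply, smul_eq_mul, mul_assoc]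

lemma lf_zero (φ : QQ → ℝ) : lf φ 0 = 0 := by
  unfold lf
  rw [AddMonoidAlgebra.coeff_zero]
  exact Finsupp.sum_zero_index

lemma lf_single (φ : QQ → ℝ) (q : QQ) (a : ℝ) :
    lf φ (AddMonoidAlgebra.single q a) = a * φ q := by
  unfold lf
  rw [AddMonoidAlgebra.coeff_single]
  exact Finsupp.sum_single_index (zero_mul _)

lemma lf_sum {ι : Type*} (φ : QQ → ℝ) (s : Finset ι) (f : ι → TP) :
    lf φ (∑ i ∈ s, f i) = ∑ i ∈ s, lf φ (f i) := by
  classical
  induction s using Finset.induction_on with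
  | empty => rw [Finset.sum_empty, Finset.sum_empty, lf_zero]
  | insert i s hi ih => rw [Finset.sum_insert hi, Finset.sum_insert hi, lf_add, ih]

lemma lf_mul (φ : QQ → ℝ) (f g : TP) : lf φ (f * g) = ∑ a ∈ f.coeff.support,
    ∑ b ∈ g.coeff.support, f.coeff a * g.coeff b * φ (a + b) := by
  rw [mul_eq_sum, lf_sum]
  refine Finset.sum_congr rfl fun a _ => ?_
  rw [lf_sum]
  refine Finset.sum_congr rfl fun b _ => ?_
  rw [lf_single]

lemma NR_eq_lf (r : ℝ) (f : TP) : NR r f = lf (wr r) f := rfl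

lemma NB_eq_lf (β : ℝ → ℝ) (B : ℝ) (f : TP) :
    NB β B f = lf (fun q => wr 1 q * β (ln q / B)) f := rfl

lemma NR_add (r : ℝ) (f g : TP) : NR r (f + g) = NR r f + NR r g := lf_add _ f g

lemma NR_smul (r a : ℝ) (f : TP) : NR r (a • f) = a * NR r f := lf_smul _ a f

lemma NR_zero (r : ℝ) : NR r 0 = 0 := lf_zero _

lemma NR_single (r : ℝ) (q : QQ) (a : ℝ) : NR r (AddMonoidAlgebra.single q a) = a * wr r q :=
  lf_single _ q a

lemma NR_one (r : ℝ) : NR r 1 = 1 := by
  rw [AddMonoidAlgebra.one_def, NR_single, wr_zero_right, one_mul]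

lemma NR_sum {ι : Type*} (r : ℝ) (s : Finset ι) (f : ι → TP) :
    NR r (∑ i ∈ s, f i) = ∑ i ∈ s, NR r (f i) := lf_sum _ s f

/-- the constant coefficient -/
lemma NR_coeff_zero (f : TP) : NR 0 f = f.coeff 0 := by
  classical
  rw [NR_eq_lf, lf_eq (wr 0) (f := f) (s := insert 0 f.coeff.support) (Finset.subset_insert _ _),
    Finset.sum_eq_single_of_mem (0 : QQ) (Finset.mem_insert_self _ _), wr_zero_right, mul_one]
  intro q _ hq
  unfold wr
  split_ifs with h
  · have h1 : (Om q).toNat ≠ 0 := by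
      have := Om_pos h hq
      omega
    rw [zero_pow h1, zero_mul, mul_zero]
  · rw [mul_zero]

lemma disj_apply {a b : QQ} {S S' : Set Nat.Primes} (ha : ∀ p ∈ a.support, p ∈ S)
    (hb : ∀ p ∈ b.support, p ∈ S') (h : Disjoint S S') (p : Nat.Primes) : a p = 0 ∨ b p = 0 := by
  by_contra hc
  push Not at hc
  exact Set.disjoint_left.mp h (ha p (Finsupp.mem_support_iff.mpr hc.1))
    (hb p (Finsupp.mem_support_iff.mpr hc.2))

lemma nonneg_add_iff {a b : QQ} {S S' : Set Nat.Primes} (ha : ∀ p ∈ a.support, p ∈ S)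
    (hb : ∀ p ∈ b.support, p ∈ S') (h : Disjoint S S') : 0 ≤ a + b ↔ 0 ≤ a ∧ 0 ≤ b := by
  constructor
  · intro h0
    constructor
    · intro p
      have h1 := h0 p
      rcases disj_apply ha hb h p with h2 | h2
      · rw [h2]; exact le_rfl
      · rw [Finsupp.add_apply, h2, add_zero] at h1
        exact h1
    · intro p
      have h1 := h0 p
      rcases disj_apply ha hb h p with h2 | h2
      · rw [Finsupp.add_apply, h2, zero_add] at h1
        exact h1
      · rw [h2]; exact le_rfl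
  · exact fun h0 => add_nonneg h0.1 h0.2

lemma ln_eq_fr {q : QQ} (hq : 0 ≤ q) : ln q = fr q := by
  unfold Pool.Agent.SixthMoment.fr Pool.Agent.SixthMoment.ln
  refine Finsupp.sum_congr fun p _ => ?_
  have h1 : (0 : ℝ) ≤ (q p : ℝ) := by exact_mod_cast hq p
  rw [abs_of_nonneg h1]

lemma ln_add_eq {a b : QQ} (ha : 0 ≤ a) (hb : 0 ≤ b) : ln (a + b) = ln a + ln b := by
  rw [ln_eq_fr ha, ln_eq_fr hb, ln_eq_fr (add_nonneg ha hb), Pool.Agent.SixthMoment.fr_add]

lemma wr_add_nonneg (r : ℝ) {a b : QQ} (ha : 0 ≤ a) (hb : 0 ≤ b) :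
    wr r (a + b) = wr r a * wr r b := by
  unfold wr
  rw [if_pos ha, if_pos hb, if_pos (add_nonneg ha hb), Om_add,
    Int.toNat_add (Om_nonneg ha) (Om_nonneg hb), ln_add_eq ha hb, pow_add, add_div, neg_add,
    Real.exp_add]
  ring

lemma wr_add_disj (r : ℝ) {a b : QQ} {S S' : Set Nat.Primes} (ha : ∀ p ∈ a.support, p ∈ S)
    (hb : ∀ p ∈ b.support, p ∈ S') (h : Disjoint S S') : wr r (a + b) = wr r a * wr r b := by
  by_cases h0 : 0 ≤ a ∧ 0 ≤ b
  · exact wr_add_nonneg r h0.1 h0.2
  · have h1 : ¬ 0 ≤ a + b := fun hc => h0 ((nonneg_add_iff ha hb h).mp hc)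
    have h2 : wr r (a + b) = 0 := if_neg h1
    rw [h2]
    rcases not_and_or.mp h0 with h3 | h3
    · have h4 : wr r a = 0 := if_neg h3
      rw [h4, zero_mul]
    · have h4 : wr r b = 0 := if_neg h3
      rw [h4, mul_zero]

/-- multiplicativity over disjoint sets of primes -/
lemma NR_mul_disj (r : ℝ) {f g : TP} {S S' : Set Nat.Primes} (hf : Prm f S) (hg : Prm g S')
    (h : Disjoint S S') : NR r (f * g) = NR r f * NR r g := by
  rw [NR_eq_lf, NR_eq_lf, NR_eq_lf, lf_mul, lf_eq (wr r) (f := f) subset_rfl,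
    lf_eq (wr r) (f := g) subset_rfl, Finset.sum_mul_sum]
  refine Finset.sum_congr rfl fun a ha => Finset.sum_congr rfl fun b hb => ?_
  rw [wr_add_disj r (hf a ha) (hg b hb) h]
  ring

lemma Prm_prod {n : ℕ} (f : ℕ → TP) (S : ℕ → Set Nat.Primes)
    (hf : ∀ i < n, Prm (f i) (S i)) :
    Prm (∏ i ∈ Finset.range n, f i) (⋃ i ∈ Finset.range n, S i) := by
  induction n with
  | zero =>
    rw [Finset.range_zero, Finset.prod_empty]
    exact Prm_one _
  | succ n ih =>
    rw [Finset.prod_range_succ]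
    refine Prm.mul ?_ ?_
    · refine (ih fun i hi => hf i (Nat.lt_succ_of_lt hi)).mono ?_
      intro p hp
      rw [Set.mem_iUnion₂] at hp ⊢
      obtain ⟨i, hi, h⟩ := hp
      exact ⟨i, Finset.mem_range.mpr (Nat.lt_succ_of_lt (Finset.mem_range.mp hi)), h⟩
    · refine (hf n (Nat.lt_succ_self n)).mono ?_
      intro p hp
      rw [Set.mem_iUnion₂]
      exact ⟨n, Finset.mem_range.mpr (Nat.lt_succ_self n), hp⟩

lemma NR_prod_disj (r : ℝ) {n : ℕ} (f : ℕ → TP) (S : ℕ → Set Nat.Primes)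
    (hf : ∀ i < n, Prm (f i) (S i)) (h : ∀ i < n, ∀ j < i, Disjoint (S i) (S j)) :
    NR r (∏ i ∈ Finset.range n, f i) = ∏ i ∈ Finset.range n, NR r (f i) := by
  induction n with
  | zero => rw [Finset.range_zero, Finset.prod_empty, Finset.prod_empty, NR_one]
  | succ n ih =>
    rw [Finset.prod_range_succ, Finset.prod_range_succ,
      NR_mul_disj r (Prm_prod f S fun i hi => hf i (Nat.lt_succ_of_lt hi))
        (hf n (Nat.lt_succ_self n)) ?_,
      ih (fun i hi => hf i (Nat.lt_succ_of_lt hi)) fun i hi => h i (Nat.lt_succ_of_lt hi)]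
    rw [Set.disjoint_iUnion₂_left]
    intro i hi
    exact (h n (Nat.lt_succ_self n) i (Finset.mem_range.mp hi)).symm

/-! ## domination -/

lemma Dom.coeff_nonneg {f g : TP} (h : Dom f g) (q : QQ) : 0 ≤ g.coeff q :=
  (abs_nonneg _).trans (h q)

lemma Dom.mul {f f' g g' : TP} (h : Dom f g) (h' : Dom f' g') : Dom (f * f') (g * g') := by
  classical
  intro q
  rw [coeff_mul_eq f f' q (s := f.coeff.support ∪ g.coeff.support)
      (s' := f'.coeff.support ∪ g'.coeff.support) Finset.subset_union_left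
      Finset.subset_union_left,
    coeff_mul_eq g g' q (s := f.coeff.support ∪ g.coeff.support)
      (s' := f'.coeff.support ∪ g'.coeff.support) Finset.subset_union_right
      Finset.subset_union_right]
  refine (Finset.abs_sum_le_sum_abs _ _).trans (Finset.sum_le_sum fun a _ => ?_)
  refine (Finset.abs_sum_le_sum_abs _ _).trans (Finset.sum_le_sum fun b _ => ?_)
  split_ifs
  · rw [abs_mul]
    exact mul_le_mul (h a) (h' b) (abs_nonneg _) (h.coeff_nonneg a)
  · rw [abs_zero]

lemma Dom_one : Dom 1 1 := by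
  classical
  intro q
  refine le_of_eq (abs_of_nonneg ?_)
  rw [AddMonoidAlgebra.one_def, AddMonoidAlgebra.coeff_single, Finsupp.single_apply]
  split_ifs
  · exact zero_le_one
  · exact le_rfl

lemma Dom.pow {f g : TP} (h : Dom f g) (n : ℕ) : Dom (f ^ n) (g ^ n) := by
  induction n with
  | zero =>
    rw [pow_zero, pow_zero]
    exact Dom_one
  | succ n ih =>
    rw [pow_succ, pow_succ]
    exact ih.mul h

lemma Dom.prod {n : ℕ} (f g : ℕ → TP) (h : ∀ i < n, Dom (f i) (g i)) :
    Dom (∏ i ∈ Finset.range n, f i) (∏ i ∈ Finset.range n, g i) := by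
  induction n with
  | zero =>
    rw [Finset.range_zero, Finset.prod_empty, Finset.prod_empty]
    exact Dom_one
  | succ n ih =>
    rw [Finset.prod_range_succ, Finset.prod_range_succ]
    exact (ih fun i hi => h i (Nat.lt_succ_of_lt hi)).mul (h n (Nat.lt_succ_self n))

lemma pab_coeff (Q : Polynomial ℝ) (n : ℕ) : (pab Q).coeff n = |Q.coeff n| := by
  classical
  unfold pab Polynomial.sum
  rw [Polynomial.finset_sum_coeff]
  simp only [Polynomial.coeff_monomial]
  rw [Finset.sum_ite_eq']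
  split_ifs with h
  · rfl
  · rw [Polynomial.notMem_support_iff.mp h, abs_zero]

lemma pab_natDegree_le (Q : Polynomial ℝ) : (pab Q).natDegree ≤ Q.natDegree := by
  rw [Polynomial.natDegree_le_iff_coeff_eq_zero]
  intro n hn
  rw [pab_coeff, Polynomial.coeff_eq_zero_of_natDegree_lt hn, abs_zero]

lemma Dom_aeval {X : TP} (hX : ∀ q, 0 ≤ X.coeff q) (Q : Polynomial ℝ) :
    Dom (Polynomial.aeval X Q) (Polynomial.aeval X (pab Q)) := by
  have hX' : Dom X X := fun q => (abs_of_nonneg (hX q)).le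
  intro q
  rw [Polynomial.aeval_eq_sum_range' (Nat.lt_succ_self Q.natDegree),
    Polynomial.aeval_eq_sum_range' (Nat.lt_succ_of_le (pab_natDegree_le Q)),
    AddMonoidAlgebra.coeff_sum, AddMonoidAlgebra.coeff_sum, Finsupp.finset_sum_apply,
    Finsupp.finset_sum_apply]
  refine (Finset.abs_sum_le_sum_abs _ _).trans (Finset.sum_le_sum fun i _ => ?_)
  rw [AddMonoidAlgebra.coeff_smul, AddMonoidAlgebra.coeff_smul, Finsupp.smul_apply,
    Finsupp.smul_apply, smul_eq_mul, smul_eq_mul, pab_coeff, abs_mul]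
  exact mul_le_mul_of_nonneg_left ((hX'.pow i) q) (abs_nonneg _)

lemma PS_nonneg (S : Finset Nat.Primes) (q : QQ) : 0 ≤ (PS S).coeff q := by
  classical
  unfold PS
  rw [AddMonoidAlgebra.coeff_sum, Finsupp.finset_sum_apply]
  refine Finset.sum_nonneg fun p _ => ?_
  rw [AddMonoidAlgebra.coeff_single, Finsupp.single_apply]
  split_ifs
  · positivity
  · exact le_rfl

lemma XX_nonneg (S : Finset Nat.Primes) (q : QQ) : 0 ≤ (XX S).coeff q := by
  unfold XX
  rw [AddMonoidAlgebra.coeff_smul, Finsupp.smul_apply, AddMonoidAlgebra.coeff_add,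
    Finsupp.add_apply, coeff_st, smul_eq_mul]
  have h1 := PS_nonneg S q
  have h2 := PS_nonneg S (-q)
  positivity

lemma NR_mono {r : ℝ} (hr : 0 ≤ r) {f g : TP} (h : Dom f g) : |NR r f| ≤ NR r g := by
  classical
  rw [NR_eq_lf, NR_eq_lf, lf_eq (wr r) (f := f) (s := f.coeff.support ∪ g.coeff.support)
      Finset.subset_union_left,
    lf_eq (wr r) (f := g) (s := f.coeff.support ∪ g.coeff.support) Finset.subset_union_right]
  refine (Finset.abs_sum_le_sum_abs _ _).trans (Finset.sum_le_sum fun q _ => ?_)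
  rw [abs_mul, abs_of_nonneg (wr_nonneg hr q)]
  exact mul_le_mul_of_nonneg_right (h q) (wr_nonneg hr q)

/-! ## real values -/

lemma st_XX (S : Finset Nat.Primes) : st (XX S) = XX S := by
  unfold XX
  rw [map_smul, map_add, st_st, add_comm]

end Pool.Agent.MomW
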