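import Pool.Agent.Lib_MP_112ba8_w.Defs

/-!
# Piece GA: Gaussian averages

PROOF. Polynomials times `exp (-x²/s)` are integrable (`integrable_rpow_mul_exp_neg_mul_sq`,
`integrable_pow_mul_exp_neg_mul_sq`-type lemmas, induction on the polynomial), which gives
linearity. `GE_one`: `integral_gaussian`. `GE_rec`: integrate by parts
(`integral_mul_deriv_eq_deriv_mul_of_integrable` or the total derivative
`integral_of_hasDerivAt_of_tendsto`): the derivative of `(x+m)^n e^{-x²/s}` is
`n (x+m)^{n-1} e^{-x²/s} - (2x/s) (x+m)^n e^{-x²/s}`, whose integral is zero, and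
`x = (x + m) - m`.
-/

namespace Pool.Agent.MomW

open Filter Topology MeasureTheory

private lemma ga_int0 {s : ℝ} (hs : 0 < s) (Q : Polynomial ℝ) : Integrable
    fun x : ℝ => Q.eval x * (Real.exp (-(x ^ 2 / s)) / Real.sqrt (Real.pi * s)) := by
  induction Q using Polynomial.induction_on' with
  | add p q hp hq =>
    refine (hp.add hq).congr (Filter.Eventually.of_forall fun x => ?_)
    simp only [Pi.add_apply, Polynomial.eval_add]
    ring
  | monomial n a =>
    have h := integrable_rpow_mul_exp_neg_mul_sq (b := 1 / s) (by positivity)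
      (s := (n : ℝ)) (by have := Nat.cast_nonneg (α := ℝ) n; linarith)
    refine (h.const_mul (a / Real.sqrt (Real.pi * s))).congr
      (Filter.Eventually.of_forall fun x => ?_)
    simp only [Real.rpow_natCast, Polynomial.eval_monomial]
    have : -(1 / s) * x ^ 2 = -(x ^ 2 / s) := by ring
    rw [this]
    ring

theorem GE_integrable {s : ℝ} (hs : 0 < s) (m : ℝ) (Q : Polynomial ℝ) : Integrable
    fun x : ℝ => Q.eval (x + m) * (Real.exp (-(x ^ 2 / s)) / Real.sqrt (Real.pi * s)) := by
  refine (ga_int0 hs (Q.comp (Polynomial.X + Polynomial.C m))).congr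
    (Filter.Eventually.of_forall fun x => ?_)
  simp [Polynomial.eval_comp]

theorem GE_add {s : ℝ} (hs : 0 < s) (m : ℝ) (P Q : Polynomial ℝ) :
    GE s m (P + Q) = GE s m P + GE s m Q := by
  unfold GE
  rw [← integral_add (GE_integrable hs m P) (GE_integrable hs m Q)]
  refine integral_congr_ae (Filter.Eventually.of_forall fun x => ?_)
  simp only [Polynomial.eval_add]
  ring

theorem GE_smul (s m a : ℝ) (Q : Polynomial ℝ) : GE s m (a • Q) = a * GE s m Q := by
  unfold GE
  rw [← integral_const_mul]
  refine integral_congr_ae (Filter.Eventually.of_forall fun x => ?_)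
  simp only [Polynomial.eval_smul, smul_eq_mul]
  ring

theorem GE_one {s : ℝ} (hs : 0 < s) (m : ℝ) : GE s m 1 = 1 := by
  unfold GE
  have h1 : ∀ x : ℝ, (Polynomial.eval (x + m) (1 : Polynomial ℝ)) *
      (Real.exp (-(x ^ 2 / s)) / Real.sqrt (Real.pi * s)) =
      (Real.sqrt (Real.pi * s))⁻¹ * Real.exp (-(1 / s) * x ^ 2) := by
    intro x
    have : -(1 / s) * x ^ 2 = -(x ^ 2 / s) := by ring
    rw [this, Polynomial.eval_one]
    ring
  simp only [h1]
  rw [integral_const_mul, integral_gaussian]
  have h2 : Real.pi / (1 / s) = Real.pi * s := by field_simp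
  rw [h2]
  have h3 : 0 < Real.sqrt (Real.pi * s) := Real.sqrt_pos.2 (by positivity)
  field_simp

private lemma ga_hd {s : ℝ} (hs : 0 < s) (P : Polynomial ℝ) (m x : ℝ) :
    HasDerivAt (fun x : ℝ => P.eval (x + m) *
      (Real.exp (-(x ^ 2 / s)) / Real.sqrt (Real.pi * s)))
      ((P.derivative.eval (x + m) - 2 * x / s * P.eval (x + m)) *
        (Real.exp (-(x ^ 2 / s)) / Real.sqrt (Real.pi * s))) x := by
  have h1 : HasDerivAt (fun x : ℝ => P.eval (x + m)) (P.derivative.eval (x + m)) x := by
    have h := HasDerivAt.comp (h := fun y : ℝ => y + m) x (P.hasDerivAt (x + m))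
      ((hasDerivAt_id x).add_const m)
    rw [mul_one] at h
    exact h
  have h2 : HasDerivAt (fun x : ℝ => -(x ^ 2 / s)) (-(2 * x / s)) x := by
    have h := ((hasDerivAt_pow 2 x).div_const s).neg
    refine h.congr_deriv ?_
    simp
  have h3 := (h2.exp).div_const (Real.sqrt (Real.pi * s))
  have h4 := h1.mul h3
  refine h4.congr_deriv ?_
  ring

private lemma ga_ibp {s : ℝ} (hs : 0 < s) (m : ℝ) (P : Polynomial ℝ) :
    GE s m ((Polynomial.X - Polynomial.C m) * P) = s / 2 * GE s m P.derivative := by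
  have h0 : ∫ x : ℝ, ((P.derivative.eval (x + m) - 2 * x / s * P.eval (x + m)) *
        (Real.exp (-(x ^ 2 / s)) / Real.sqrt (Real.pi * s))) = 0 := by
    refine integral_eq_zero_of_hasDerivAt_of_integrable (fun x => ga_hd hs P m x) ?_
      (GE_integrable hs m P)
    have h1 := (GE_integrable hs m P.derivative).sub
      ((GE_integrable hs m ((Polynomial.X - Polynomial.C m) * P)).const_mul (2 / s))
    refine h1.congr (Filter.Eventually.of_forall fun x => ?_)
    simp only [Pi.sub_apply, Polynomial.eval_mul, Polynomial.eval_sub, Polynomial.eval_X,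
      Polynomial.eval_C]
    ring
  have h2 : ∫ x : ℝ, ((P.derivative.eval (x + m) - 2 * x / s * P.eval (x + m)) *
        (Real.exp (-(x ^ 2 / s)) / Real.sqrt (Real.pi * s))) =
      GE s m P.derivative - 2 / s * GE s m ((Polynomial.X - Polynomial.C m) * P) := by
    unfold GE
    rw [← integral_const_mul, ← integral_sub (GE_integrable hs m P.derivative)
      ((GE_integrable hs m ((Polynomial.X - Polynomial.C m) * P)).const_mul (2 / s))]
    refine integral_congr_ae (Filter.Eventually.of_forall fun x => ?_)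
    simp only [Polynomial.eval_mul, Polynomial.eval_sub, Polynomial.eval_X,
      Polynomial.eval_C]
    ring
  rw [h2] at h0
  have h3 : 2 / s * GE s m ((Polynomial.X - Polynomial.C m) * P) = GE s m P.derivative := by
    linarith
  rw [← h3]
  field_simp

private lemma ga_C {s : ℝ} (hs : 0 < s) (m a : ℝ) (P : Polynomial ℝ) :
    GE s m (Polynomial.C a * P) = a * GE s m P := by
  rw [← Polynomial.smul_eq_C_mul, GE_smul]

theorem GE_X {s : ℝ} (hs : 0 < s) (m : ℝ) : GE s m Polynomial.X = m := by
  have h1 := ga_ibp hs m 1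
  rw [Polynomial.derivative_one] at h1
  have h2 : GE s m (0 : Polynomial ℝ) = 0 := by simp [GE]
  have h3 : (Polynomial.X : Polynomial ℝ) =
      (Polynomial.X - Polynomial.C m) * 1 + Polynomial.C m * 1 := by ring
  rw [h3, GE_add hs, h1, ga_C hs, GE_one hs, h2]
  ring

theorem GE_rec {s : ℝ} (hs : 0 < s) (m : ℝ) (n : ℕ) :
    GE s m (Polynomial.X ^ (n + 2)) =
      m * GE s m (Polynomial.X ^ (n + 1)) + (n + 1) * (s / 2) * GE s m (Polynomial.X ^ n) := by
  have h1 := ga_ibp hs m (Polynomial.X ^ (n + 1))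
  have h2 : (Polynomial.derivative (Polynomial.X ^ (n + 1)) : Polynomial ℝ) =
      Polynomial.C ((n : ℝ) + 1) * Polynomial.X ^ n := by
    rw [Polynomial.derivative_X_pow]
    simp
  rw [h2, ga_C hs] at h1
  have h3 : (Polynomial.X ^ (n + 2) : Polynomial ℝ) =
      (Polynomial.X - Polynomial.C m) * Polynomial.X ^ (n + 1) +
        Polynomial.C m * Polynomial.X ^ (n + 1) := by ring
  rw [h3, GE_add hs, h1, ga_C hs]
  ring

/-- positivity for even powers -/
theorem GE_even_nonneg (s m : ℝ) (Q : Polynomial ℝ) (n : ℕ) : 0 ≤ GE s m (Q ^ (2 * n)) := by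
  unfold GE
  refine integral_nonneg fun x => ?_
  have h1 : 0 ≤ (Q ^ (2 * n)).eval (x + m) := by
    rw [Polynomial.eval_pow]
    exact (even_two_mul n).pow_nonneg _
  have h2 : 0 ≤ Real.exp (-(x ^ 2 / s)) / Real.sqrt (Real.pi * s) := by positivity
  exact mul_nonneg h1 h2

end Pool.Agent.MomW
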