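import Pool.Agent.Lib_MP_112ba8_w.PrimeWeak
import Pool.Agent.Lib_MP_112ba8_w.Alg
import Pool.Agent.Lib_MP_112ba8_w.Gauss

/-!
# Piece BL: the block polynomials become Gaussian

PROOF. By linearity (`NR_add`, `NR_smul`, `GE_add`, `GE_smul`, `Polynomial.induction_on`) it is
enough to treat `Q = X^m`. Put `S = BP u v L`, for `p ∈ S` let
`x_p = (1/2) p^{-1/2} (single (ip p) 1 + single (-ip p) 1)` (so `XX S = ∑_{p∈S} x_p`), and for a
finite set `S' ` of primes `A_m(S') = NR r (XX S' ^ m)`. All coefficients are nonnegative, so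
`0 ≤ A_m(S') ≤ A_m(S)` for `S' ⊆ S` (`NR_mono`, `Dom.pow`).

(a) `NR r (x_p) = r/(2p)`, `NR r (x_p²) = 1/(2p) + r²/(4p²)`, and for `j ≥ 1`
`0 ≤ NR r (x_p^j) ≤ (max 1 r)^j p^{-j/2}` (`nrm_pow_le`, `wr r q ≤ (max 1 r)^{|Om q|}`).

(b) `NR` is multiplicative over disjoint primes (`NR_mul_disj`), so with `S_p = S \ {p}`
`A_{m+1}(S) = ∑_{p ∈ S} NR r (x_p (x_p + XX S_p)^m)
 = ∑_p ∑_{j ≤ m} C(m,j) NR r (x_p^{j+1}) A_{m-j}(S_p)`.

(c) Uniform bound: by (a), (b) and induction `sup_L A_m(S) < ∞` (strong induction on `m`;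
`∑_{p∈S} 1/p` is bounded by `prime_block`).

(d) `|A_m(S) - A_m(S_p)| ≤ ∑_{j≥1} C(m,j) NR r (x_p^j) A_{m-j}(S_p) ≤ C p^{-1/2} ≤ C e^{-uL/2}`.

(e) So `A_{m+1}(S) = (r/2) (∑_{p∈S} 1/p) A_m(S) + m (1/2) (∑_{p∈S} 1/p) A_{m-1}(S) + o(1)`
(the terms `j ≥ 2` are `O(∑ p^{-3/2}) = O(e^{-uL/2} ∑ 1/p)`); with `s = log (v/u)`
(`prime_block`) the limit satisfies the recursion `GE_rec` of `GE s (r s/2) (X^m)`, and
`A_0 = 1`, `A_1 = (r/2) ∑ 1/p → r s/2 = GE s (r s/2) X`.
-/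

namespace Pool.Agent.MomW

open Filter Topology MeasureTheory
open Pool.Agent.SixthMoment (QQ ln fr osc)

/-! ## the local quantities -/

/-- `p^{-1/2}` -/
private noncomputable def bl_c (p : Nat.Primes) : ℝ := ((p : ℕ) : ℝ) ^ (-(1 / 2) : ℝ)

private lemma bl_c_pos (p : Nat.Primes) : 0 < bl_c p :=
  Real.rpow_pos_of_pos (by exact_mod_cast p.2.pos) _

private lemma bl_c_exp (p : Nat.Primes) :
    bl_c p = Real.exp (-(Real.log ((p : ℕ) : ℝ) / 2)) := by
  have hp : (0 : ℝ) < ((p : ℕ) : ℝ) := by exact_mod_cast p.2.pos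
  rw [bl_c, Real.rpow_def_of_pos hp]
  congr 1
  ring

private lemma bl_c_sq (p : Nat.Primes) : bl_c p ^ 2 = 1 / ((p : ℕ) : ℝ) := by
  have hp : (0 : ℝ) < ((p : ℕ) : ℝ) := by exact_mod_cast p.2.pos
  rw [bl_c_exp, ← Real.exp_nat_mul, one_div, ← Real.exp_log (inv_pos.mpr hp), Real.log_inv]
  congr 1
  push_cast
  ring

private lemma bl_c_le_one (p : Nat.Primes) : bl_c p ≤ 1 := by
  have hp : (1 : ℝ) ≤ ((p : ℕ) : ℝ) := by exact_mod_cast p.2.one_lt.le
  rw [bl_c_exp, Real.exp_le_one_iff]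
  have := Real.log_nonneg hp
  linarith

private lemma bl_st_single (q : QQ) (a : ℝ) :
    st (AddMonoidAlgebra.single q a) = AddMonoidAlgebra.single (-q) a := by
  unfold st
  simp

private lemma bl_XX_singleton (p : Nat.Primes) :
    XX {p} = AddMonoidAlgebra.single (ip p) (bl_c p / 2) +
      AddMonoidAlgebra.single (-ip p) (bl_c p / 2) := by
  unfold XX PS
  rw [Finset.sum_singleton, bl_st_single, smul_add, AddMonoidAlgebra.smul_single,
    AddMonoidAlgebra.smul_single]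
  have h : (1 / 2 : ℝ) • (((p : ℕ) : ℝ) ^ (-(1 / 2) : ℝ)) = bl_c p / 2 := by
    rw [smul_eq_mul, bl_c]
    ring
  rw [h]

private lemma bl_XX_sum (S : Finset Nat.Primes) : XX S = ∑ p ∈ S, XX {p} := by
  unfold XX PS
  simp only [Finset.sum_singleton, map_sum]
  rw [← Finset.smul_sum, Finset.sum_add_distrib]

private lemma bl_XX_erase [DecidableEq Nat.Primes] {S : Finset Nat.Primes} {p : Nat.Primes}
    (hp : p ∈ S) : XX S = XX {p} + XX (S.erase p) := by
  rw [bl_XX_sum S, bl_XX_sum (S.erase p), Finset.add_sum_erase S (fun p => XX {p}) hp]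

/-! ## weights -/

private lemma bl_wr_single_nonneg {r : ℝ} (p : Nat.Primes) {k : ℤ} (hk : 0 ≤ k) :
    wr r (Finsupp.single p k) = r ^ k.toNat * bl_c p ^ k.toNat := by
  have h0 : (0 : QQ) ≤ Finsupp.single p k := by
    rw [Finsupp.single_nonneg]
    exact hk
  have hOm : Om (Finsupp.single p k) = k := by
    unfold Om
    rw [Finsupp.sum_single_index rfl]
  have hln : ln (Finsupp.single p k) = (k.toNat : ℝ) * Real.log ((p : ℕ) : ℝ) := by
    unfold Pool.Agent.SixthMoment.ln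
    rw [Finsupp.sum_single_index (by simp)]
    have h1 : ((k.toNat : ℤ) : ℝ) = (k : ℝ) := by rw [Int.toNat_of_nonneg hk]
    have h2 : (0 : ℝ) ≤ (k : ℝ) := by exact_mod_cast hk
    rw [abs_of_nonneg h2, ← h1]
    push_cast
    rfl
  unfold wr
  rw [if_pos h0, hOm, hln, bl_c_exp, ← Real.exp_nat_mul]
  congr 2
  ring

private lemma bl_wr_single_neg {r : ℝ} (p : Nat.Primes) {k : ℤ} (hk : k < 0) :
    wr r (Finsupp.single p k) = 0 := by
  unfold wr
  rw [if_neg]
  rw [Finsupp.single_nonneg]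
  exact not_le.mpr hk

private lemma bl_wr_le {r M : ℝ} (hr : 0 ≤ r) (hrM : r ≤ M) (hM : 1 ≤ M) (p : Nat.Primes)
    {k : ℤ} {j : ℕ} (hk : k ≤ j) : wr r (Finsupp.single p k) ≤ M ^ j := by
  rcases le_or_gt 0 k with h | h
  · rw [bl_wr_single_nonneg p h]
    have h1 : r ^ k.toNat ≤ M ^ k.toNat := pow_le_pow_left₀ hr hrM _
    have h2 : M ^ k.toNat ≤ M ^ j := pow_le_pow_right₀ hM (by omega)
    have h3 : bl_c p ^ k.toNat ≤ 1 := pow_le_one₀ (bl_c_pos p).le (bl_c_le_one p)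
    have h4 : 0 ≤ bl_c p ^ k.toNat := pow_nonneg (bl_c_pos p).le _
    have h5 : 0 ≤ M ^ j := by positivity
    calc r ^ k.toNat * bl_c p ^ k.toNat ≤ M ^ j * 1 :=
          mul_le_mul (h1.trans h2) h3 h4 h5
      _ = M ^ j := mul_one _
  · rw [bl_wr_single_neg p h]
    positivity

private lemma bl_smul_ip (p : Nat.Primes) (i j : ℕ) :
    i • ip p + j • (-ip p) = Finsupp.single p ((i : ℤ) - j) := by
  unfold ip
  rw [smul_neg, Finsupp.smul_single, Finsupp.smul_single, ← Finsupp.single_neg,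
    ← Finsupp.single_add]
  congr 1
  simp
  ring

private lemma bl_NR_natCast (r : ℝ) (f : TP) (n : ℕ) : NR r (f * (n : TP)) = n * NR r f := by
  have h : f * (n : TP) = (n : ℝ) • f := by
    rw [Algebra.smul_def, map_natCast, mul_comm]
  rw [h, NR_smul]

/-- the powers of `x_p` -/
private lemma bl_pow_le {r M : ℝ} (hr : 0 ≤ r) (hrM : r ≤ M) (hM : 1 ≤ M) (p : Nat.Primes)
    (j : ℕ) : NR r (XX {p} ^ j) ≤ (M * bl_c p) ^ j := by
  have ha : 0 ≤ bl_c p / 2 := by have := bl_c_pos p; positivity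
  rw [bl_XX_singleton, add_pow, NR_sum]
  have h1 : (M * bl_c p) ^ j = ∑ i ∈ Finset.range (j + 1),
      (bl_c p / 2) ^ i * (bl_c p / 2) ^ (j - i) * (j.choose i : ℝ) * M ^ j := by
    rw [← Finset.sum_mul, ← add_pow, add_halves, mul_pow, mul_comm]
  rw [h1]
  refine Finset.sum_le_sum fun i hi => ?_
  rw [bl_NR_natCast, AddMonoidAlgebra.single_pow, AddMonoidAlgebra.single_pow,
    AddMonoidAlgebra.single_mul_single, NR_single, bl_smul_ip]
  have h2 : wr r (Finsupp.single p ((i : ℤ) - ((j - i : ℕ) : ℤ))) ≤ M ^ j := by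
    refine bl_wr_le hr hrM hM p ?_
    have := Finset.mem_range.mp hi
    omega
  have h3 : 0 ≤ (j.choose i : ℝ) * ((bl_c p / 2) ^ i * (bl_c p / 2) ^ (j - i)) := by positivity
  calc (j.choose i : ℝ) * ((bl_c p / 2) ^ i * (bl_c p / 2) ^ (j - i) *
        wr r (Finsupp.single p ((i : ℤ) - ((j - i : ℕ) : ℤ))))
      = ((j.choose i : ℝ) * ((bl_c p / 2) ^ i * (bl_c p / 2) ^ (j - i))) *
        wr r (Finsupp.single p ((i : ℤ) - ((j - i : ℕ) : ℤ))) := by ring
    _ ≤ ((j.choose i : ℝ) * ((bl_c p / 2) ^ i * (bl_c p / 2) ^ (j - i))) * M ^ j :=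
        mul_le_mul_of_nonneg_left h2 h3
    _ = _ := by ring

private lemma bl_one (r : ℝ) (p : Nat.Primes) :
    NR r (XX {p} ^ 1) = r / 2 * bl_c p ^ 2 := by
  have e1 : ip p = Finsupp.single p (1 : ℤ) := rfl
  have e2 : -ip p = Finsupp.single p (-1 : ℤ) := by
    rw [e1, ← Finsupp.single_neg]
  rw [pow_one, bl_XX_singleton, NR_add, NR_single, NR_single, e2, e1,
    bl_wr_single_nonneg p (by norm_num : (0 : ℤ) ≤ 1), bl_wr_single_neg p (by norm_num)]
  norm_num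
  ring

private lemma bl_two (r : ℝ) (p : Nat.Primes) :
    NR r (XX {p} ^ 2) = 1 / 2 * bl_c p ^ 2 + r ^ 2 / 4 * bl_c p ^ 4 := by
  have h : ∀ a b : TP, (a + b) ^ 2 = a * a + (2 : ℝ) • (a * b) + b * b := by
    intro a b
    rw [Algebra.smul_def]
    have : (algebraMap ℝ TP) 2 = 2 := map_ofNat _ _
    rw [this]
    ring
  have e1 : ip p + ip p = Finsupp.single p (2 : ℤ) := by
    unfold ip
    rw [← Finsupp.single_add]
    norm_num
  have e2 : -ip p + -ip p = Finsupp.single p (-2 : ℤ) := by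
    rw [← neg_add, e1, ← Finsupp.single_neg]
  rw [bl_XX_singleton, h, NR_add, NR_add, NR_smul, AddMonoidAlgebra.single_mul_single,
    AddMonoidAlgebra.single_mul_single, AddMonoidAlgebra.single_mul_single, NR_single, NR_single,
    NR_single, e1, e2, add_neg_cancel, wr_zero_right,
    bl_wr_single_nonneg p (by norm_num : (0 : ℤ) ≤ 2), bl_wr_single_neg p (by norm_num)]
  have : (2 : ℤ).toNat = 2 := rfl
  rw [this]
  ring

private lemma bl_nonneg {r : ℝ} (hr : 0 ≤ r) (S : Finset Nat.Primes) (m : ℕ) :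
    0 ≤ NR r (XX S ^ m) := by
  have h : Dom (XX S) (XX S) := fun q => (abs_of_nonneg (XX_nonneg S q)).le
  exact (abs_nonneg _).trans (NR_mono hr (h.pow m))

/-! ## the expansion -/

private lemma bl_split [DecidableEq Nat.Primes] (r : ℝ) {S : Finset Nat.Primes} {p : Nat.Primes}
    (hp : p ∈ S) (i m : ℕ) : NR r (XX {p} ^ i * XX S ^ m) =
      ∑ j ∈ Finset.range (m + 1), (m.choose j : ℝ) *
        (NR r (XX {p} ^ (i + j)) * NR r (XX (S.erase p) ^ (m - j))) := by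
  rw [bl_XX_erase hp, add_pow, Finset.mul_sum, NR_sum]
  refine Finset.sum_congr rfl fun j _ => ?_
  have h1 : XX {p} ^ i * (XX {p} ^ j * XX (S.erase p) ^ (m - j) * (m.choose j : TP)) =
      (XX {p} ^ (i + j) * XX (S.erase p) ^ (m - j)) * (m.choose j : TP) := by
    rw [pow_add]
    ring
  rw [h1, bl_NR_natCast]
  congr 1
  refine NR_mul_disj r ((Prm_XX {p}).pow _) ((Prm_XX (S.erase p)).pow _) ?_
  rw [Finset.disjoint_coe]
  exact Finset.disjoint_singleton_left.mpr (Finset.notMem_erase p S)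

private lemma bl_succ [DecidableEq Nat.Primes] (r : ℝ) (S : Finset Nat.Primes) (m : ℕ) :
    NR r (XX S ^ (m + 1)) = ∑ p ∈ S, ∑ j ∈ Finset.range (m + 1), (m.choose j : ℝ) *
        (NR r (XX {p} ^ (j + 1)) * NR r (XX (S.erase p) ^ (m - j))) := by
  have h1 : XX S ^ (m + 1) = ∑ p ∈ S, XX {p} ^ 1 * XX S ^ m := by
    rw [← Finset.sum_mul, pow_succ, mul_comm]
    simp only [pow_one]
    rw [← bl_XX_sum]
  rw [h1, NR_sum]
  refine Finset.sum_congr rfl fun p hp => ?_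
  rw [bl_split r hp]
  refine Finset.sum_congr rfl fun j _ => ?_
  rw [add_comm 1 j]

/-! ## bounds -/

private lemma bl_succ_le {r M : ℝ} (hr : 0 ≤ r) (hrM : r ≤ M) (hM : 1 ≤ M) (p : Nat.Primes)
    {j m : ℕ} (hj : j ≤ m) : NR r (XX {p} ^ (j + 1)) ≤ M ^ (m + 1) * bl_c p ^ 2 := by
  have hc := bl_c_pos p
  have hM0 : 0 < M := by linarith
  rcases Nat.eq_zero_or_pos j with h | h
  · subst h
    rw [zero_add, bl_one]
    have h1 : M ^ 1 ≤ M ^ (m + 1) := pow_le_pow_right₀ hM (by omega)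
    have h2 : r / 2 ≤ M ^ (m + 1) := by
      rw [pow_one] at h1
      linarith
    exact mul_le_mul_of_nonneg_right h2 (by positivity)
  · refine (bl_pow_le hr hrM hM p (j + 1)).trans ?_
    rw [mul_pow]
    refine mul_le_mul (pow_le_pow_right₀ hM (by omega)) ?_ (by positivity) (by positivity)
    exact pow_le_pow_of_le_one hc.le (bl_c_le_one p) (by omega)

private lemma bl_sum_choose (n : ℕ) : ∑ j ∈ Finset.range (n + 1), (n.choose j : ℝ) = 2 ^ n := by
  exact_mod_cast Nat.sum_range_choose n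

private lemma bl_bound {r : ℝ} (hr : 0 ≤ r) (σ : ℝ) (m : ℕ) : ∃ K : ℝ, 0 ≤ K ∧
    ∀ k ≤ m, ∀ S : Finset Nat.Primes, ∑ p ∈ S, 1 / ((p : ℕ) : ℝ) ≤ σ →
      NR r (XX S ^ k) ≤ K := by
  classical
  set M : ℝ := max 1 r with hMdef
  have hM : 1 ≤ M := le_max_left _ _
  have hrM : r ≤ M := le_max_right _ _
  have hM0 : 0 < M := by linarith
  induction m with
  | zero =>
    refine ⟨1, zero_le_one, fun k hk S _ => ?_⟩
    have : k = 0 := by omega
    rw [this, pow_zero, NR_one]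
  | succ m ih =>
    obtain ⟨K, hK, h⟩ := ih
    refine ⟨max K (σ * (2 ^ m * (M ^ (m + 1) * K))), le_max_of_le_left hK, fun k hk S hS => ?_⟩
    rcases Nat.lt_or_ge k (m + 1) with hk' | hk'
    · exact (h k (by omega) S hS).trans (le_max_left _ _)
    · have : k = m + 1 := by omega
      subst this
      refine le_trans ?_ (le_max_right _ _)
      rw [bl_succ]
      have h1 : ∀ p ∈ S, ∑ j ∈ Finset.range (m + 1), (m.choose j : ℝ) *
          (NR r (XX {p} ^ (j + 1)) * NR r (XX (S.erase p) ^ (m - j))) ≤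
          1 / ((p : ℕ) : ℝ) * (2 ^ m * (M ^ (m + 1) * K)) := by
        intro p hp
        rw [← bl_sum_choose m, Finset.sum_mul, Finset.mul_sum]
        refine Finset.sum_le_sum fun j hj => ?_
        have hj' := Finset.mem_range.mp hj
        have hS' : ∑ q ∈ S.erase p, 1 / ((q : ℕ) : ℝ) ≤ σ :=
          (Finset.sum_le_sum_of_subset_of_nonneg (Finset.erase_subset p S)
            (fun q _ _ => by positivity)).trans hS
        have h2 := h (m - j) (by omega) (S.erase p) hS'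
        have h3 := bl_succ_le hr hrM hM p (show j ≤ m by omega)
        rw [bl_c_sq] at h3
        have h4 := bl_nonneg hr (S.erase p) (m - j)
        have h5 : 0 ≤ M ^ (m + 1) * (1 / ((p : ℕ) : ℝ)) := by positivity
        have h6 := mul_le_mul h3 h2 h4 h5
        calc (m.choose j : ℝ) * (NR r (XX {p} ^ (j + 1)) * NR r (XX (S.erase p) ^ (m - j)))
            ≤ (m.choose j : ℝ) * (M ^ (m + 1) * (1 / ((p : ℕ) : ℝ)) * K) :=
              mul_le_mul_of_nonneg_left h6 (by positivity)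
          _ = _ := by ring
      refine (Finset.sum_le_sum h1).trans ?_
      rw [← Finset.sum_mul]
      exact mul_le_mul_of_nonneg_right hS (by positivity)

private lemma bl_diff {r K M : ℝ} [DecidableEq Nat.Primes] (hr : 0 ≤ r) (hrM : r ≤ M)
    (hM : 1 ≤ M) (hK : 0 ≤ K) {S : Finset Nat.Primes} {p : Nat.Primes} (hp : p ∈ S) (m : ℕ)
    (h : ∀ k ≤ m, NR r (XX (S.erase p) ^ k) ≤ K) :
    |NR r (XX S ^ m) - NR r (XX (S.erase p) ^ m)| ≤ 2 ^ m * (M ^ m * K) * bl_c p := by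
  have hc := bl_c_pos p
  have hM0 : 0 < M := by linarith
  have h0 := bl_split r hp 0 m
  rw [pow_zero, one_mul, Finset.sum_range_succ'] at h0
  simp only [zero_add, Nat.choose_zero_right, Nat.cast_one, one_mul, pow_zero, NR_one,
    Nat.sub_zero] at h0
  rw [h0, add_sub_cancel_right]
  have h1 : ∀ j ∈ Finset.range m, |(m.choose (j + 1) : ℝ) *
      (NR r (XX {p} ^ (j + 1)) * NR r (XX (S.erase p) ^ (m - (j + 1))))| ≤
      (m.choose (j + 1) : ℝ) * (M ^ m * K * bl_c p) := by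
    intro j hj
    have hj' := Finset.mem_range.mp hj
    have h2 := bl_nonneg hr {p} (j + 1)
    have h3 := bl_nonneg hr (S.erase p) (m - (j + 1))
    rw [abs_of_nonneg (by positivity)]
    refine mul_le_mul_of_nonneg_left ?_ (by positivity)
    have h4 : NR r (XX {p} ^ (j + 1)) ≤ M ^ m * bl_c p := by
      refine (bl_pow_le hr hrM hM p (j + 1)).trans ?_
      rw [mul_pow]
      refine mul_le_mul (pow_le_pow_right₀ hM (by omega)) ?_ (by positivity) (by positivity)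
      calc bl_c p ^ (j + 1) ≤ bl_c p ^ 1 :=
            pow_le_pow_of_le_one hc.le (bl_c_le_one p) (by omega)
        _ = bl_c p := pow_one _
    have h5 := h (m - (j + 1)) (by omega)
    calc NR r (XX {p} ^ (j + 1)) * NR r (XX (S.erase p) ^ (m - (j + 1)))
        ≤ (M ^ m * bl_c p) * K := mul_le_mul h4 h5 h3 (by positivity)
      _ = _ := by ring
  refine (Finset.abs_sum_le_sum_abs _ _).trans ((Finset.sum_le_sum h1).trans ?_)
  rw [← Finset.sum_mul]
  have h6 : ∑ j ∈ Finset.range m, (m.choose (j + 1) : ℝ) ≤ 2 ^ m := by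
    have h7 := bl_sum_choose m
    rw [Finset.sum_range_succ'] at h7
    simp only [Nat.choose_zero_right, Nat.cast_one] at h7
    linarith
  calc (∑ j ∈ Finset.range m, (m.choose (j + 1) : ℝ)) * (M ^ m * K * bl_c p)
      ≤ 2 ^ m * (M ^ m * K * bl_c p) := mul_le_mul_of_nonneg_right h6 (by positivity)
    _ = _ := by ring

/-- the local contribution to the recursion -/
private lemma bl_local {r K M : ℝ} [DecidableEq Nat.Primes] (hr : 0 ≤ r) (hrM : r ≤ M)
    (hM : 1 ≤ M) (hK : 0 ≤ K) {S : Finset Nat.Primes} {p : Nat.Primes} (hp : p ∈ S) (m : ℕ)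
    (h : ∀ k ≤ m + 1, NR r (XX (S.erase p) ^ k) ≤ K) :
    |(∑ j ∈ Finset.range (m + 2), ((m + 1).choose j : ℝ) *
        (NR r (XX {p} ^ (j + 1)) * NR r (XX (S.erase p) ^ (m + 1 - j)))) -
      bl_c p ^ 2 * (r / 2 * NR r (XX S ^ (m + 1)) + (m + 1) / 2 * NR r (XX S ^ m))| ≤
      (2 ^ (m + 1) * (M ^ (m + 2) * K) + (m + 1) * (r ^ 2 / 4 * K + 2 ^ m * (M ^ m * K)) +
        r / 2 * (2 ^ (m + 1) * (M ^ (m + 1) * K))) * bl_c p ^ 3 := by
  have hc := bl_c_pos p
  have hc1 := bl_c_le_one p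
  have hM0 : 0 < M := by linarith
  have hd1 := bl_diff hr hrM hM hK hp (m + 1) h
  have hd0 := bl_diff hr hrM hM hK hp m (fun k hk => h k (by omega))
  rw [Finset.sum_range_succ', Finset.sum_range_succ']
  simp only [zero_add, Nat.choose_zero_right, Nat.cast_one, one_mul, Nat.choose_one_right,
    Nat.sub_zero, Nat.add_sub_cancel, Nat.reduceAdd]
  rw [bl_one, bl_two]
  set A1 := NR r (XX S ^ (m + 1)) with hA1
  set A0 := NR r (XX S ^ m) with hA0
  set B1 := NR r (XX (S.erase p) ^ (m + 1)) with hB1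
  set B0 := NR r (XX (S.erase p) ^ m) with hB0
  have hB0n : 0 ≤ B0 := bl_nonneg hr _ _
  have hB0K : B0 ≤ K := h m (by omega)
  have h1 : ∀ j ∈ Finset.range m, |((m + 1).choose (j + 1 + 1) : ℝ) *
      (NR r (XX {p} ^ (j + 1 + 1 + 1)) * NR r (XX (S.erase p) ^ (m + 1 - (j + 1 + 1))))| ≤
      ((m + 1).choose (j + 1 + 1) : ℝ) * (M ^ (m + 2) * K * bl_c p ^ 3) := by
    intro j hj
    have hj' := Finset.mem_range.mp hj
    have h2 := bl_nonneg hr {p} (j + 1 + 1 + 1)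
    have h3 := bl_nonneg hr (S.erase p) (m + 1 - (j + 1 + 1))
    rw [abs_of_nonneg (by positivity)]
    refine mul_le_mul_of_nonneg_left ?_ (by positivity)
    have h4 : NR r (XX {p} ^ (j + 1 + 1 + 1)) ≤ M ^ (m + 2) * bl_c p ^ 3 := by
      refine (bl_pow_le hr hrM hM p (j + 1 + 1 + 1)).trans ?_
      rw [mul_pow]
      refine mul_le_mul (pow_le_pow_right₀ hM (by omega)) ?_ (by positivity) (by positivity)
      exact pow_le_pow_of_le_one hc.le hc1 (by omega)
    have h5 := h (m + 1 - (j + 1 + 1)) (by omega)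
    calc NR r (XX {p} ^ (j + 1 + 1 + 1)) * NR r (XX (S.erase p) ^ (m + 1 - (j + 1 + 1)))
        ≤ (M ^ (m + 2) * bl_c p ^ 3) * K := mul_le_mul h4 h5 h3 (by positivity)
      _ = _ := by ring
  have hT : |∑ j ∈ Finset.range m, ((m + 1).choose (j + 1 + 1) : ℝ) *
      (NR r (XX {p} ^ (j + 1 + 1 + 1)) * NR r (XX (S.erase p) ^ (m + 1 - (j + 1 + 1))))| ≤
      2 ^ (m + 1) * (M ^ (m + 2) * K) * bl_c p ^ 3 := by
    refine (Finset.abs_sum_le_sum_abs _ _).trans ((Finset.sum_le_sum h1).trans ?_)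
    rw [← Finset.sum_mul]
    have h6 : ∑ j ∈ Finset.range m, ((m + 1).choose (j + 1 + 1) : ℝ) ≤ 2 ^ (m + 1) := by
      have h7 := bl_sum_choose (m + 1)
      rw [Finset.sum_range_succ', Finset.sum_range_succ'] at h7
      simp only [Nat.choose_zero_right, Nat.cast_one] at h7
      have h8 : (0 : ℝ) ≤ ((m + 1).choose (0 + 1) : ℝ) := Nat.cast_nonneg _
      linarith
    calc (∑ j ∈ Finset.range m, ((m + 1).choose (j + 1 + 1) : ℝ)) *
          (M ^ (m + 2) * K * bl_c p ^ 3)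
        ≤ 2 ^ (m + 1) * (M ^ (m + 2) * K * bl_c p ^ 3) :=
          mul_le_mul_of_nonneg_right h6 (by positivity)
      _ = _ := by ring
  set T := ∑ j ∈ Finset.range m, ((m + 1).choose (j + 1 + 1) : ℝ) *
      (NR r (XX {p} ^ (j + 1 + 1 + 1)) * NR r (XX (S.erase p) ^ (m + 1 - (j + 1 + 1)))) with hTdef
  have hm1 : ((m + 1 : ℕ) : ℝ) = (m : ℝ) + 1 := by push_cast; ring
  have heq : T + ((m + 1 : ℕ) : ℝ) * ((1 / 2 * bl_c p ^ 2 + r ^ 2 / 4 * bl_c p ^ 4) * B0) +
      r / 2 * bl_c p ^ 2 * B1 - bl_c p ^ 2 * (r / 2 * A1 + (m + 1) / 2 * A0) =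
      T + ((m : ℝ) + 1) * (r ^ 2 / 4 * bl_c p ^ 4 * B0) -
        ((m : ℝ) + 1) * (1 / 2 * bl_c p ^ 2 * (A0 - B0)) - r / 2 * bl_c p ^ 2 * (A1 - B1) := by
    rw [hm1]
    ring
  have hgoal : |T + ((m : ℝ) + 1) * (r ^ 2 / 4 * bl_c p ^ 4 * B0) -
        ((m : ℝ) + 1) * (1 / 2 * bl_c p ^ 2 * (A0 - B0)) - r / 2 * bl_c p ^ 2 * (A1 - B1)| ≤
      (2 ^ (m + 1) * (M ^ (m + 2) * K) + (m + 1) * (r ^ 2 / 4 * K + 2 ^ m * (M ^ m * K)) +
        r / 2 * (2 ^ (m + 1) * (M ^ (m + 1) * K))) * bl_c p ^ 3 := by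
    have e1 : |((m : ℝ) + 1) * (r ^ 2 / 4 * bl_c p ^ 4 * B0)| ≤
        ((m : ℝ) + 1) * (r ^ 2 / 4 * K) * bl_c p ^ 3 := by
      rw [abs_of_nonneg (by positivity)]
      have h7 : bl_c p ^ 4 ≤ bl_c p ^ 3 := pow_le_pow_of_le_one hc.le hc1 (by omega)
      have h8 : bl_c p ^ 4 * B0 ≤ bl_c p ^ 3 * K :=
        mul_le_mul h7 hB0K hB0n (by positivity)
      calc ((m : ℝ) + 1) * (r ^ 2 / 4 * bl_c p ^ 4 * B0)
          = ((m : ℝ) + 1) * (r ^ 2 / 4) * (bl_c p ^ 4 * B0) := by ring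
        _ ≤ ((m : ℝ) + 1) * (r ^ 2 / 4) * (bl_c p ^ 3 * K) :=
            mul_le_mul_of_nonneg_left h8 (by positivity)
        _ = _ := by ring
    have e2 : |((m : ℝ) + 1) * (1 / 2 * bl_c p ^ 2 * (A0 - B0))| ≤
        ((m : ℝ) + 1) * (2 ^ m * (M ^ m * K)) * bl_c p ^ 3 := by
      have : |((m : ℝ) + 1) * (1 / 2 * bl_c p ^ 2 * (A0 - B0))| =
          ((m : ℝ) + 1) * (1 / 2 * bl_c p ^ 2) * |A0 - B0| := by
        rw [abs_mul, abs_mul, abs_of_nonneg (by positivity : (0 : ℝ) ≤ (m : ℝ) + 1),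
          abs_of_nonneg (by positivity : (0 : ℝ) ≤ 1 / 2 * bl_c p ^ 2)]
        ring
      rw [this]
      calc ((m : ℝ) + 1) * (1 / 2 * bl_c p ^ 2) * |A0 - B0|
          ≤ ((m : ℝ) + 1) * (1 / 2 * bl_c p ^ 2) * (2 ^ m * (M ^ m * K) * bl_c p) :=
            mul_le_mul_of_nonneg_left hd0 (by positivity)
        _ = 1 / 2 * (((m : ℝ) + 1) * (2 ^ m * (M ^ m * K)) * bl_c p ^ 3) := by ring
        _ ≤ 1 * (((m : ℝ) + 1) * (2 ^ m * (M ^ m * K)) * bl_c p ^ 3) :=
            mul_le_mul_of_nonneg_right (by norm_num) (by positivity)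
        _ = _ := one_mul _
    have e3 : |r / 2 * bl_c p ^ 2 * (A1 - B1)| ≤
        r / 2 * (2 ^ (m + 1) * (M ^ (m + 1) * K)) * bl_c p ^ 3 := by
      rw [abs_mul, abs_of_nonneg (by positivity : (0 : ℝ) ≤ r / 2 * bl_c p ^ 2)]
      calc r / 2 * bl_c p ^ 2 * |A1 - B1|
          ≤ r / 2 * bl_c p ^ 2 * (2 ^ (m + 1) * (M ^ (m + 1) * K) * bl_c p) :=
            mul_le_mul_of_nonneg_left hd1 (by positivity)
        _ = _ := by ring
    have t1 := abs_sub (T + ((m : ℝ) + 1) * (r ^ 2 / 4 * bl_c p ^ 4 * B0) -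
        ((m : ℝ) + 1) * (1 / 2 * bl_c p ^ 2 * (A0 - B0))) (r / 2 * bl_c p ^ 2 * (A1 - B1))
    have t2 := abs_sub (T + ((m : ℝ) + 1) * (r ^ 2 / 4 * bl_c p ^ 4 * B0))
        (((m : ℝ) + 1) * (1 / 2 * bl_c p ^ 2 * (A0 - B0)))
    have t3 := abs_add_le T (((m : ℝ) + 1) * (r ^ 2 / 4 * bl_c p ^ 4 * B0))
    linarith
  rw [← heq] at hgoal
  exact hgoal

/-- the recursion with error term -/
private lemma bl_rec {r : ℝ} (hr : 0 ≤ r) (σ : ℝ) (m : ℕ) : ∃ K : ℝ, 0 ≤ K ∧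
    ∀ (S : Finset Nat.Primes) (δ : ℝ), ∑ p ∈ S, 1 / ((p : ℕ) : ℝ) ≤ σ →
      (∀ p ∈ S, bl_c p ≤ δ) → 0 ≤ δ →
      |NR r (XX S ^ (m + 2)) - (∑ p ∈ S, 1 / ((p : ℕ) : ℝ)) *
        (r / 2 * NR r (XX S ^ (m + 1)) + (m + 1) / 2 * NR r (XX S ^ m))| ≤ K * δ := by
  classical
  obtain ⟨K, hK, h⟩ := bl_bound hr σ (m + 1)
  set M : ℝ := max 1 r with hMdef
  have hM : 1 ≤ M := le_max_left _ _
  have hrM : r ≤ M := le_max_right _ _
  have hM0 : 0 < M := by linarith
  set C : ℝ := 2 ^ (m + 1) * (M ^ (m + 2) * K) +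
    (m + 1) * (r ^ 2 / 4 * K + 2 ^ m * (M ^ m * K)) +
        r / 2 * (2 ^ (m + 1) * (M ^ (m + 1) * K)) with hC
  have hC0 : 0 ≤ C := by positivity
  refine ⟨C * max σ 0, by positivity, fun S δ hS hδ hδ0 => ?_⟩
  rw [bl_succ r S (m + 1), Finset.sum_mul, ← Finset.sum_sub_distrib]
  refine (Finset.abs_sum_le_sum_abs _ _).trans ?_
  have h1 : ∀ p ∈ S, |(∑ j ∈ Finset.range (m + 1 + 1), ((m + 1).choose j : ℝ) *
        (NR r (XX {p} ^ (j + 1)) * NR r (XX (S.erase p) ^ (m + 1 - j)))) -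
      1 / ((p : ℕ) : ℝ) * (r / 2 * NR r (XX S ^ (m + 1)) + (m + 1) / 2 * NR r (XX S ^ m))| ≤
      1 / ((p : ℕ) : ℝ) * (C * δ) := by
    intro p hp
    have hS' : ∑ q ∈ S.erase p, 1 / ((q : ℕ) : ℝ) ≤ σ :=
      (Finset.sum_le_sum_of_subset_of_nonneg (Finset.erase_subset p S)
        (fun q _ _ => by positivity)).trans hS
    have h2 := bl_local hr hrM hM hK hp m (fun k hk => h k hk _ hS')
    rw [← hC, pow_succ (bl_c p) 2, bl_c_sq] at h2
    refine h2.trans ?_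
    have h3 : 1 / ((p : ℕ) : ℝ) * bl_c p ≤ 1 / ((p : ℕ) : ℝ) * δ :=
      mul_le_mul_of_nonneg_left (hδ p hp) (by positivity)
    calc C * (1 / ((p : ℕ) : ℝ) * bl_c p) ≤ C * (1 / ((p : ℕ) : ℝ) * δ) :=
          mul_le_mul_of_nonneg_left h3 hC0
      _ = _ := by ring
  refine (Finset.sum_le_sum h1).trans ?_
  rw [← Finset.sum_mul]
  calc (∑ p ∈ S, 1 / ((p : ℕ) : ℝ)) * (C * δ) ≤ max σ 0 * (C * δ) :=
        mul_le_mul_of_nonneg_right (hS.trans (le_max_left _ _)) (by positivity)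
    _ = _ := by ring

/-! ## the limit -/

private lemma bl_pow_limit {u v r : ℝ} (hu : 0 < u) (huv : u < v) (hr : 0 ≤ r) (m : ℕ) :
    Tendsto (fun L : ℝ => NR r (XX (BP u v L) ^ m)) atTop
      (𝓝 (GE (Real.log (v / u)) (r * Real.log (v / u) / 2) (Polynomial.X ^ m))) := by
  classical
  set s : ℝ := Real.log (v / u) with hs
  have hs0 : 0 < s := Real.log_pos ((one_lt_div hu).mpr huv)
  have hσ : Tendsto (fun L : ℝ => ∑ p ∈ BP u v L, 1 / ((p : ℕ) : ℝ)) atTop (𝓝 s) :=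
    prime_block hu huv.le
  induction m using Nat.strong_induction_on with
  | _ m ih =>
    match m with
    | 0 =>
      simp only [pow_zero, NR_one]
      rw [GE_one hs0]
      exact tendsto_const_nhds
    | 1 =>
      have h1 : ∀ L : ℝ, NR r (XX (BP u v L) ^ 1) =
          r / 2 * ∑ p ∈ BP u v L, 1 / ((p : ℕ) : ℝ) := by
        intro L
        rw [pow_one, bl_XX_sum, NR_sum, Finset.mul_sum]
        refine Finset.sum_congr rfl fun p _ => ?_
        rw [← bl_c_sq, ← bl_one, pow_one]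
      have h2 : GE s (r * s / 2) (Polynomial.X ^ 1) = r / 2 * s := by
        rw [pow_one, GE_X hs0]
        ring
      simp only [h1]
      rw [h2]
      exact hσ.const_mul _
    | m + 2 =>
      have i1 := ih (m + 1) (by omega)
      have i0 := ih m (by omega)
      rw [GE_rec hs0]
      obtain ⟨K, hK, h⟩ := bl_rec hr (s + 1) m
      have hmain : Tendsto (fun L : ℝ => (∑ p ∈ BP u v L, 1 / ((p : ℕ) : ℝ)) *
          (r / 2 * NR r (XX (BP u v L) ^ (m + 1)) +
            (m + 1) / 2 * NR r (XX (BP u v L) ^ m))) atTop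
          (𝓝 (s * (r / 2 * GE s (r * s / 2) (Polynomial.X ^ (m + 1)) +
            (m + 1) / 2 * GE s (r * s / 2) (Polynomial.X ^ m)))) :=
        hσ.mul ((i1.const_mul _).add (i0.const_mul _))
      have herr : Tendsto (fun L : ℝ => NR r (XX (BP u v L) ^ (m + 2)) -
          (∑ p ∈ BP u v L, 1 / ((p : ℕ) : ℝ)) *
          (r / 2 * NR r (XX (BP u v L) ^ (m + 1)) +
            (m + 1) / 2 * NR r (XX (BP u v L) ^ m))) atTop (𝓝 0) := by
        have hδ : Tendsto (fun L : ℝ => K * Real.exp (-(u * L / 2))) atTop (𝓝 0) := by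
          have h1 : Tendsto (fun L : ℝ => u * L / 2) atTop atTop :=
            (tendsto_id.const_mul_atTop hu).atTop_div_const two_pos
          have h2 := (Real.tendsto_exp_neg_atTop_nhds_zero.comp h1).const_mul K
          simpa using h2
        refine squeeze_zero_norm' ?_ hδ
        filter_upwards [hσ.eventually_le_const (lt_add_one s)] with L hL
        rw [Real.norm_eq_abs]
        refine h (BP u v L) _ hL (fun p hp => ?_) (Real.exp_pos _).le
        rw [bl_c_exp, Real.exp_le_exp]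
        have := (mem_BP.mp hp).1
        linarith
      have hsum := herr.add hmain
      simp only [sub_add_cancel, zero_add] at hsum
      have e : s * (r / 2 * GE s (r * s / 2) (Polynomial.X ^ (m + 1)) +
            (m + 1) / 2 * GE s (r * s / 2) (Polynomial.X ^ m)) =
          r * s / 2 * GE s (r * s / 2) (Polynomial.X ^ (m + 1)) +
            (m + 1) * (s / 2) * GE s (r * s / 2) (Polynomial.X ^ m) := by ring
      rw [e] at hsum
      exact hsum

theorem block_limit {u v r : ℝ} (hu : 0 < u) (huv : u < v) (hr : 0 ≤ r) (Q : Polynomial ℝ) :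
    Tendsto (fun L : ℝ => NR r (Polynomial.aeval (XX (BP u v L)) Q)) atTop
      (𝓝 (GE (Real.log (v / u)) (r * Real.log (v / u) / 2) Q)) := by
  have hs0 : 0 < Real.log (v / u) := Real.log_pos ((one_lt_div hu).mpr huv)
  induction Q using Polynomial.induction_on' with
  | add P Q hP hQ =>
    have h := hP.add hQ
    rw [GE_add hs0]
    refine h.congr fun L => ?_
    rw [map_add, NR_add]
  | monomial n a =>
    have h1 : (Polynomial.monomial n a : Polynomial ℝ) = a • Polynomial.X ^ n := by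
      rw [Polynomial.smul_eq_C_mul, Polynomial.C_mul_X_pow_eq_monomial]
    rw [h1, GE_smul]
    refine ((bl_pow_limit hu huv hr n).const_mul a).congr fun L => ?_
    rw [map_smul, map_pow, Polynomial.aeval_X, NR_smul]

end Pool.Agent.MomW
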