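import Pool.Agent.Lib_MP_112ba8_w.Tail
import Pool.Agent.Lib_MP_112ba8_w.BlockLim

/-!
# Piece BK: products over the blocks, used in the assembly

(helper5)
-/

namespace Pool.Agent.MomW

open Filter Topology MeasureTheory
open Pool.Agent.SixthMoment (QQ ln fr osc)
open Pool.Agent.ZetaMoment (wt Wm C0 aG DP)

/-- the polynomial of the block `j` -/
noncomputable def XB (w ρ : ℝ) (k j : ℕ) (L : ℝ) : TP :=
  XX (BP (2 * w / k ^ 2 * ρ ^ j) (2 * w / k ^ 2 * ρ ^ (j + 1)) L)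

/-- the primes of the block `j` -/
def SB (w ρ : ℝ) (k j : ℕ) (L : ℝ) : Set Nat.Primes :=
  {p | 2 * w / k ^ 2 * ρ ^ j * L < Real.log ((p : ℕ) : ℝ) ∧
    Real.log ((p : ℕ) : ℝ) ≤ 2 * w / k ^ 2 * ρ ^ (j + 1) * L}

lemma Prm_XB (w ρ : ℝ) (k j : ℕ) (L : ℝ) : Prm (XB w ρ k j L) (SB w ρ k j L) := by
  refine (Prm_XX _).mono fun p hp => ?_
  exact mem_BP.mp hp

lemma SB_disj {w ρ L : ℝ} (hw : 0 < w) (hρ : 1 < ρ) (hL : 0 ≤ L) (k : ℕ) {i j : ℕ} (h : j < i) :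
    Disjoint (SB w ρ k i L) (SB w ρ k j L) := by
  rw [Set.disjoint_left]
  intro p hp hp'
  have h1 : 2 * w / (k : ℝ) ^ 2 * ρ ^ (j + 1) * L ≤ 2 * w / (k : ℝ) ^ 2 * ρ ^ i * L := by
    refine mul_le_mul_of_nonneg_right (mul_le_mul_of_nonneg_left ?_ (by positivity)) hL
    exact pow_le_pow_right₀ hρ.le h
  have h2 := hp.1
  have h3 := hp'.2
  linarith

/-- product of block polynomials -/
noncomputable def PB (w ρ : ℝ) (k J : ℕ) (Q : ℕ → Polynomial ℝ) (L : ℝ) : TP :=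
  ∏ j ∈ Finset.range J, Polynomial.aeval (XB w ρ k j L) (Q j)

lemma NR_PB (r : ℝ) {w ρ L : ℝ} (hw : 0 < w) (hρ : 1 < ρ) (hL : 0 ≤ L) (k J : ℕ)
    (Q : ℕ → Polynomial ℝ) : NR r (PB w ρ k J Q L) =
      ∏ j ∈ Finset.range J, NR r (Polynomial.aeval (XB w ρ k j L) (Q j)) :=
  NR_prod_disj r _ (fun j => SB w ρ k j L) (fun j _ => (Prm_XB w ρ k j L).aeval (Q j))
    fun _ _ _ h => SB_disj hw hρ hL k h

theorem PB_tendsto {w ρ r : ℝ} (hw : 0 < w) (hρ : 1 < ρ) (hr : 0 ≤ r) {k : ℕ} (hk : 1 ≤ k) (J : ℕ)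
    (Q : ℕ → Polynomial ℝ) : Tendsto (fun L : ℝ => NR r (PB w ρ k J Q L)) atTop
      (𝓝 (∏ j ∈ Finset.range J, GE (Real.log ρ) (r * Real.log ρ / 2) (Q j))) := by
  have hρ0 : 0 < ρ := by linarith
  have hk0 : (0 : ℝ) < k := by exact_mod_cast hk
  have h1 : ∀ j ∈ Finset.range J, Tendsto (fun L : ℝ =>
      NR r (Polynomial.aeval (XB w ρ k j L) (Q j))) atTop
      (𝓝 (GE (Real.log ρ) (r * Real.log ρ / 2) (Q j))) := by
    intro j _
    have hu : 0 < 2 * w / (k : ℝ) ^ 2 * ρ ^ j := by positivity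
    have huv : 2 * w / (k : ℝ) ^ 2 * ρ ^ j < 2 * w / (k : ℝ) ^ 2 * ρ ^ (j + 1) := by
      have h0 : 2 * w / (k : ℝ) ^ 2 * ρ ^ (j + 1) = 2 * w / (k : ℝ) ^ 2 * ρ ^ j * ρ := by ring
      rw [h0]
      exact lt_mul_of_one_lt_right hu hρ
    have h2 := block_limit hu huv hr (Q j)
    have h3 : 2 * w / (k : ℝ) ^ 2 * ρ ^ (j + 1) / (2 * w / (k : ℝ) ^ 2 * ρ ^ j) = ρ := by
      rw [div_eq_iff hu.ne']
      ring
    rw [h3] at h2
    exact h2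
  refine (tendsto_finsetProd _ h1).congr' ?_
  filter_upwards [eventually_ge_atTop (0 : ℝ)] with L hL
  rw [NR_PB r hw hρ hL]

lemma Len_prod {n : ℕ} (f : ℕ → TP) (B : ℕ → ℝ) (h : ∀ i < n, Len (f i) (B i)) :
    Len (∏ i ∈ Finset.range n, f i) (∑ i ∈ Finset.range n, B i) := by
  induction n with
  | zero =>
    rw [Finset.range_zero, Finset.prod_empty, Finset.sum_empty]
    exact Len_one
  | succ n ih =>
    rw [Finset.prod_range_succ, Finset.sum_range_succ]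
    exact (ih fun i hi => h i (Nat.lt_succ_of_lt hi)).mul (h n (Nat.lt_succ_self n))

lemma Len_PB {w ρ L : ℝ} (hw : 0 < w) (hρ : 1 < ρ) (hL : 0 ≤ L) (k J : ℕ)
    (Q : ℕ → Polynomial ℝ) : Len (PB w ρ k J Q L) (∑ j ∈ Finset.range J,
      (Q j).natDegree * (2 * w / k ^ 2 * ρ ^ (j + 1) * L)) := by
  have hρ0 : 0 < ρ := by linarith
  refine Len_prod _ _ fun j _ => ?_
  have h1 : 0 ≤ 2 * w / (k : ℝ) ^ 2 * ρ ^ (j + 1) * L := by positivity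
  exact Len.aeval h1 (Len_XX h1) (Q j)

lemma nrm_prod_le {n : ℕ} (f : ℕ → TP) (B : ℕ → ℝ) (h : ∀ i < n, nrm (f i) ≤ B i) :
    nrm (∏ i ∈ Finset.range n, f i) ≤ ∏ i ∈ Finset.range n, B i := by
  induction n with
  | zero => rw [Finset.range_zero, Finset.prod_empty, Finset.prod_empty, nrm_one]
  | succ n ih =>
    rw [Finset.prod_range_succ, Finset.prod_range_succ]
    refine (nrm_mul_le _ _).trans (mul_le_mul (ih fun i hi => h i (Nat.lt_succ_of_lt hi))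
      (h n (Nat.lt_succ_self n)) (nrm_nonneg _) ?_)
    exact Finset.prod_nonneg fun i hi => (nrm_nonneg _).trans
      (h i (Nat.lt_succ_of_lt (Finset.mem_range.mp hi)))

lemma nrm_PB {w ρ L : ℝ} (hw : 0 < w) (hρ : 1 < ρ) (hL : 0 ≤ L) (k J : ℕ)
    (Q : ℕ → Polynomial ℝ) : nrm (PB w ρ k J Q L) ≤ (∏ j ∈ Finset.range J, cb (Q j)) *
      Real.exp (∑ j ∈ Finset.range J,
        (Q j).natDegree * (2 * w / k ^ 2 * ρ ^ (j + 1) * L)) := by
  have hρ0 : 0 < ρ := by linarith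
  rw [Real.exp_sum, ← Finset.prod_mul_distrib]
  refine nrm_prod_le _ _ fun j _ => ?_
  have h1 : 0 ≤ 2 * w / (k : ℝ) ^ 2 * ρ ^ (j + 1) * L := by positivity
  rw [Real.exp_nat_mul]
  exact nrm_aeval_le (Real.one_le_exp h1) (nrm_XX_le _ _ L) (Q j)

/-- all primes of the blocks -/
def SA (w ρ : ℝ) (k J : ℕ) (L : ℝ) : Set Nat.Primes :=
  {p | 2 * w / k ^ 2 * L < Real.log ((p : ℕ) : ℝ) ∧
    Real.log ((p : ℕ) : ℝ) ≤ 2 * w / k ^ 2 * ρ ^ J * L}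

lemma Prm_PB {w ρ L : ℝ} (hw : 0 < w) (hρ : 1 < ρ) (hL : 0 ≤ L) (k J : ℕ)
    (Q : ℕ → Polynomial ℝ) : Prm (PB w ρ k J Q L) (SA w ρ k J L) := by
  have hρ0 : 0 < ρ := by linarith
  refine (Prm_prod _ (fun j => SB w ρ k j L)
    (fun j _ => (Prm_XB w ρ k j L).aeval (Q j))).mono ?_
  intro p hp
  rw [Set.mem_iUnion₂] at hp
  obtain ⟨j, hj, h1, h2⟩ := hp
  rw [Finset.mem_range] at hj
  constructor
  · refine lt_of_le_of_lt ?_ h1
    have h3 : 1 ≤ ρ ^ j := one_le_pow₀ hρ.le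
    refine mul_le_mul_of_nonneg_right ?_ hL
    exact le_mul_of_one_le_right (by positivity) h3
  · refine h2.trans ?_
    refine mul_le_mul_of_nonneg_right (mul_le_mul_of_nonneg_left ?_ (by positivity)) hL
    exact pow_le_pow_right₀ hρ.le hj

lemma Om_PB {w ρ L ε : ℝ} (hw : 0 < w) (hρ : 1 < ρ) (hL : 0 < L) {k : ℕ} (hk : 1 ≤ k)
    (J : ℕ) (Q : ℕ → Polynomial ℝ) {q : QQ} (hq : q ∈ (PB w ρ k J Q L).coeff.support)
    (h0 : 0 ≤ q) (h : ε / 16 * L < ln q) : ε / (32 * w * ρ ^ J) * k ^ 2 ≤ (Om q : ℝ) := by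
  have hρ0 : 0 < ρ := by linarith
  have hk0 : (0 : ℝ) < k := by exact_mod_cast hk
  have h1 := ln_le_Om h0 (v := 2 * w / k ^ 2 * ρ ^ J * L)
    fun p hp => (Prm_PB hw hρ hL.le k J Q q hq p hp).2
  have h2 : ε / 16 * L ≤ (Om q : ℝ) * (2 * w / k ^ 2 * ρ ^ J * L) := h.le.trans h1
  have h3 : ε / 16 ≤ (Om q : ℝ) * (2 * w / k ^ 2 * ρ ^ J) := by
    have h4 : ε / 16 * L ≤ ((Om q : ℝ) * (2 * w / k ^ 2 * ρ ^ J)) * L := by linarith
    exact le_of_mul_le_mul_right h4 hL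
  have h5 : (Om q : ℝ) * (2 * w / k ^ 2 * ρ ^ J) = (Om q : ℝ) * (2 * w * ρ ^ J) / k ^ 2 := by
    ring
  rw [h5, le_div_iff₀ (by positivity)] at h3
  rw [div_mul_eq_mul_div, div_le_iff₀ (by positivity)]
  nlinarith

lemma Dom_PB (w ρ : ℝ) (k J : ℕ) (Q : ℕ → Polynomial ℝ) (L : ℝ) (n : ℕ) :
    Dom (PB w ρ k J (fun j => Q j ^ n) L) (PB w ρ k J (fun j => pab (Q j) ^ n) L) := by
  refine Dom.prod _ _ fun j _ => ?_
  rw [map_pow, map_pow]
  exact (Dom_aeval (XX_nonneg _) (Q j)).pow n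

/-- values of the block products are real -/
lemma ev_PB (w ρ : ℝ) (k J : ℕ) (Q : ℕ → Polynomial ℝ) (L : ℝ) (t : ℝ) :
    ∃ x : ℝ, ∀ n : ℕ, ev t (PB w ρ k J (fun j => Q j ^ n) L) = (x : ℂ) ^ n := by
  have h1 : st (PB w ρ k J Q L) = PB w ρ k J Q L := by
    unfold PB
    rw [map_prod]
    refine Finset.prod_congr rfl fun j _ => ?_
    exact st_aeval (st_XX _) _
  obtain ⟨x, hx⟩ := ev_real h1 t
  refine ⟨x, fun n => ?_⟩
  rw [← hx, ← map_pow]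
  congr 1
  unfold PB
  rw [← Finset.prod_pow]
  refine Finset.prod_congr rfl fun j _ => ?_
  rw [map_pow]

/-- the pointwise condition of the main inequality -/
lemma ev_cond (R P1 P2 : TP) (t x : ℝ) {k : ℕ} (hk : 1 ≤ k) (h1 : ev t P1 = (x : ℂ) ^ (4 * k - 2))
    (h2 : ev t P2 = (x : ℂ) ^ (4 * k)) : ∃ y : ℝ, 0 ≤ y ∧
      ev t (R ^ k * st R ^ k * P2) = (y : ℂ) ∧
      ‖ev t (R ^ k * st R ^ (k - 1) * P1)‖ ^ (2 * k) = y ^ (2 * k - 1) := by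
  set z := ev t R with hz
  have hst : ev t (st R) = (starRingEnd ℂ) z := ev_st t R
  refine ⟨‖z‖ ^ (2 * k) * x ^ (4 * k), ?_, ?_, ?_⟩
  · have : 0 ≤ x ^ (4 * k) := by
      rw [show 4 * k = 2 * (2 * k) by ring, pow_mul]
      positivity
    positivity
  · rw [map_mul, map_mul, map_pow, map_pow, hst, h2, ← mul_pow, Complex.mul_conj,
      Complex.normSq_eq_norm_sq]
    push_cast
    ring
  · rw [map_mul, map_mul, map_pow, map_pow, hst, h1, norm_mul, norm_mul, norm_pow, norm_pow,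
      norm_pow, RCLike.norm_conj, Complex.norm_real, Real.norm_eq_abs]
    obtain ⟨m, rfl⟩ : ∃ m, k = m + 1 := ⟨k - 1, by omega⟩
    have e1 : m + 1 - 1 = m := by omega
    have e2 : 4 * (m + 1) - 2 = 2 * (2 * m + 1) := by omega
    have e3 : 2 * (m + 1) - 1 = 2 * m + 1 := by omega
    have e4 : 4 * (m + 1) = 2 * (2 * (m + 1)) := by ring
    rw [e1, e2, e3, e4, pow_mul |x|, sq_abs, pow_mul x]
    ring

end Pool.Agent.MomW
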