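import Pool.Agent.Lib_MP_112ba8_w.HermB

/-!
# Piece HC: the gain of a block

PROOF. Choose `η ≤ 1` with `η (3 c s + 3 c² s + 1) ≤ δ/2`, `a = 1 - η/6`, `d = ⌊c² s k/4⌋`,
`B = Bp s a k d`, `μ = GE s 0 (B^{4k})`, `ν = GE s (s/2) (B^{4k-2})`, `S = Sd d`, and use
`herm_two`.

* `natDegree B = d` (`He_natDegree`; composition with a nonconstant linear polynomial).
* `μ > 0` by the first inequality, then `ν > 0` by the second one.
* With `E = exp (2√(skad)(1-η) - 2d(1+η)² - s/4)`: `(E/4)^{2k} μ^{2k} ≤ S^{4k} ν^{2k}` and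
  `S^{4k} ≤ e^{ηk²} μ`, so `(E/4)^{2k} e^{-ηk²} μ^{2k-1} ≤ ν^{2k}`; and
  `2k (2√(skad)(1-η) - 2d(1+η)² - s/4 - log 4) - ηk² ≥ k² (s(2c - c²) - δ)` for large `k`, since
  `4kd(1+η)² ≤ c²sk²(1+η)²`, `4k√(skad)(1-η) ≥ 2csk²(1-η)√a √(1 - 4/(c²sk))`, `√a ≥ 1 - η/6`.
* Fourth claim: `pab B = (pab (He d)).comp (C (1/√(ska)) * X)`, so by `He_pab`
  `|(pab B)(x)| ≤ (|x|/√(ska) + √d)^d`. Put `N = d(4k-2) ≤ c²sk²`. For large `k`
  (`d ≥ c²sk/8`), `√(skad) ≥ c₁ k` with `c₁ > 0`, so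
  `(|x + ks/2|/√(ska) + √d)^N ≤ √d^N (1 + (|x| + ks/2)/(c₁k))^N
   ≤ √d^N exp (c²sk|x|/c₁ + c²s²k²/(2c₁))`, and `∫ e^{Ak|x| - x²/s} dx ≤ 2 √(πs) e^{A²k²s/4}`.
  Hence the left side is at most `√d^N e^{C₁k²}`. On the other side
  `ν ≥ (E/4) μ/S² ≥ (E/4) e^{-ηk²} S^{4k-2} ≥ e^{-C₂k²} √d^N` by `Sd_lower`
  (`S^{4k-2} ≥ √d^N e^{-d(2k-1)}`).
-/

namespace Pool.Agent.MomW

open Filter Topology MeasureTheory Polynomial

lemma hc_pab_coeff (Q : ℝ[X]) (n : ℕ) : (pab Q).coeff n = |Q.coeff n| := by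
  unfold pab
  rw [Polynomial.sum_def, Polynomial.finsetSum_coeff]
  simp only [Polynomial.coeff_monomial]
  rw [Finset.sum_ite_eq' Q.support n (fun i => |Q.coeff i|)]
  by_cases h : n ∈ Q.support
  · rw [if_pos h]
  · rw [if_neg h, Polynomial.notMem_support_iff.mp h, abs_zero]

lemma hc_pab_comp (Q : ℝ[X]) {b : ℝ} (hb : 0 ≤ b) :
    pab (Q.comp (C b * X)) = (pab Q).comp (C b * X) := by
  ext n
  rw [hc_pab_coeff, Polynomial.comp_C_mul_X_coeff, Polynomial.comp_C_mul_X_coeff, hc_pab_coeff,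
    abs_mul, abs_of_nonneg (pow_nonneg hb n)]

lemma hc_Bp_natDegree {s a : ℝ} {k d : ℕ} (h : 0 < s * k * a) : (Bp s a k d).natDegree = d := by
  unfold Bp
  rw [Polynomial.natDegree_comp, He_natDegree, Polynomial.natDegree_C_mul_X, mul_one]
  exact (one_div_pos.mpr (Real.sqrt_pos.mpr h)).ne'

/-- the Gaussian weight -/
noncomputable def hc_w (s x : ℝ) : ℝ := Real.exp (-(x ^ 2 / s)) / Real.sqrt (Real.pi * s)

lemma hc_w_nonneg (s x : ℝ) : 0 ≤ hc_w s x :=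
  div_nonneg (Real.exp_pos _).le (Real.sqrt_nonneg _)

lemma hc_w_integrable {s : ℝ} (hs : 0 < s) : Integrable (hc_w s) := by
  have h := GE_integrable hs 0 1
  simp only [Polynomial.eval_one, one_mul] at h
  exact h

lemma hc_w_integral {s : ℝ} (hs : 0 < s) : ∫ x, hc_w s x = 1 := by
  have h := GE_one hs 0
  unfold GE at h
  simpa [hc_w] using h

lemma hc_w_shift {s : ℝ} (hs : 0 < s) (A x : ℝ) :
    Real.exp (A * x) * hc_w s x = Real.exp (A ^ 2 * s / 4) * hc_w s (x - A * s / 2) := by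
  unfold hc_w
  rw [mul_div_assoc', mul_div_assoc', ← Real.exp_add, ← Real.exp_add]
  congr 2
  field_simp
  ring

lemma hc_abs_le {s : ℝ} (hs : 0 < s) (A x : ℝ) :
    Real.exp (A * |x|) * hc_w s x ≤
      Real.exp (A ^ 2 * s / 4) * (hc_w s (x - A * s / 2) + hc_w s (x - -A * s / 2)) := by
  have h1 : Real.exp (A * |x|) ≤ Real.exp (A * x) + Real.exp (-A * x) := by
    rcases le_total 0 x with hx | hx
    · rw [abs_of_nonneg hx]
      linarith [Real.exp_pos (-A * x)]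
    · rw [abs_of_nonpos hx, show A * -x = -A * x by ring]
      linarith [Real.exp_pos (A * x)]
  calc Real.exp (A * |x|) * hc_w s x ≤ (Real.exp (A * x) + Real.exp (-A * x)) * hc_w s x :=
        mul_le_mul_of_nonneg_right h1 (hc_w_nonneg s x)
    _ = Real.exp (A * x) * hc_w s x + Real.exp (-A * x) * hc_w s x := by ring
    _ = _ := by
        rw [hc_w_shift hs, hc_w_shift hs, neg_sq]
        ring

lemma hc_int_le {s : ℝ} (hs : 0 < s) {A K : ℝ} (hK : 0 ≤ K) {f : ℝ → ℝ}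
    (hf : Integrable fun x => f x * hc_w s x) (h : ∀ x, f x ≤ K * Real.exp (A * |x|)) :
    ∫ x, f x * hc_w s x ≤ 2 * K * Real.exp (A ^ 2 * s / 4) := by
  have hi1 : Integrable fun x => hc_w s (x - A * s / 2) := (hc_w_integrable hs).comp_sub_right _
  have hi2 : Integrable fun x => hc_w s (x - -A * s / 2) := (hc_w_integrable hs).comp_sub_right _
  have e1 : ∫ x, hc_w s (x - A * s / 2) = 1 := by
    rw [integral_sub_right_eq_self (hc_w s)]
    exact hc_w_integral hs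
  have e2 : ∫ x, hc_w s (x - -A * s / 2) = 1 := by
    rw [integral_sub_right_eq_self (hc_w s)]
    exact hc_w_integral hs
  have hg : Integrable fun x => K * (Real.exp (A ^ 2 * s / 4) *
      (hc_w s (x - A * s / 2) + hc_w s (x - -A * s / 2))) :=
    ((hi1.add hi2).const_mul _).const_mul _
  calc ∫ x, f x * hc_w s x ≤ ∫ x, K * (Real.exp (A ^ 2 * s / 4) *
      (hc_w s (x - A * s / 2) + hc_w s (x - -A * s / 2))) := by
        refine integral_mono hf hg fun x => ?_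
        calc f x * hc_w s x ≤ K * Real.exp (A * |x|) * hc_w s x :=
              mul_le_mul_of_nonneg_right (h x) (hc_w_nonneg s x)
          _ = K * (Real.exp (A * |x|) * hc_w s x) := by ring
          _ ≤ _ := mul_le_mul_of_nonneg_left (hc_abs_le hs A x) hK
    _ = K * (Real.exp (A ^ 2 * s / 4) * (1 + 1)) := by
        rw [integral_const_mul, integral_const_mul, integral_add hi1 hi2, e1, e2]
    _ = _ := by ring

lemma hc_four {μ ν S E η Y : ℝ} {k : ℕ} (hk : 1 ≤ k) (hS : 0 < S) (hμ : 0 < μ)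
    (h1 : Real.exp (-(η * k ^ 2)) * S ^ (4 * k) ≤ μ)
    (h2 : 1 / 4 * Real.exp E * μ ≤ S ^ 2 * ν)
    (hY : Y ≤ 2 * k * (E - Real.log 4) - η * k ^ 2) :
    Real.exp Y * μ ^ (2 * k - 1) ≤ ν ^ (2 * k) := by
  have hS2 : 0 < S ^ 2 := by positivity
  have hν : 0 < ν := by
    have h3 : 0 < 1 / 4 * Real.exp E * μ := by positivity
    exact (pos_iff_pos_of_mul_pos (h3.trans_le h2)).mp hS2
  have h4 : Real.exp (E - Real.log 4) = 1 / 4 * Real.exp E := by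
    rw [Real.exp_sub, Real.exp_log (by norm_num)]
    ring
  rw [← h4] at h2
  have h5 : (Real.exp (E - Real.log 4) * μ) ^ (2 * k) ≤ (S ^ 2 * ν) ^ (2 * k) :=
    pow_le_pow_left₀ (by positivity) h2 _
  have h6 : S ^ (4 * k) ≤ Real.exp (η * k ^ 2) * μ := by
    have h7 := mul_le_mul_of_nonneg_left h1 (Real.exp_pos (η * k ^ 2)).le
    rwa [← mul_assoc, ← Real.exp_add, add_neg_cancel, Real.exp_zero, one_mul] at h7
  rw [mul_pow, mul_pow, ← pow_mul, ← Real.exp_nat_mul] at h5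
  have e1 : μ ^ (2 * k) = μ * μ ^ (2 * k - 1) := by
    rw [← pow_succ']
    congr 1
    omega
  rw [e1, show 2 * (2 * k) = 4 * k by ring] at h5
  have h8 : Real.exp (((2 * k : ℕ) : ℝ) * (E - Real.log 4)) * (μ * μ ^ (2 * k - 1)) ≤
      Real.exp (η * k ^ 2) * μ * ν ^ (2 * k) :=
    h5.trans (mul_le_mul_of_nonneg_right h6 (by positivity))
  have h9 : Real.exp (((2 * k : ℕ) : ℝ) * (E - Real.log 4)) * μ ^ (2 * k - 1) ≤
      Real.exp (η * k ^ 2) * ν ^ (2 * k) := by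
    have h10 : μ * (Real.exp (((2 * k : ℕ) : ℝ) * (E - Real.log 4)) * μ ^ (2 * k - 1)) ≤
        μ * (Real.exp (η * k ^ 2) * ν ^ (2 * k)) := by
      calc _ = Real.exp (((2 * k : ℕ) : ℝ) * (E - Real.log 4)) * (μ * μ ^ (2 * k - 1)) := by ring
        _ ≤ _ := h8
        _ = _ := by ring
    exact le_of_mul_le_mul_left h10 hμ
  have h11 : Real.exp Y ≤ Real.exp (((2 * k : ℕ) : ℝ) * (E - Real.log 4) - η * k ^ 2) := by
    refine Real.exp_le_exp.mpr (hY.trans (le_of_eq ?_))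
    push_cast
    ring
  calc Real.exp Y * μ ^ (2 * k - 1)
      ≤ Real.exp (((2 * k : ℕ) : ℝ) * (E - Real.log 4) - η * k ^ 2) * μ ^ (2 * k - 1) :=
        mul_le_mul_of_nonneg_right h11 (by positivity)
    _ = Real.exp (-(η * k ^ 2)) *
        (Real.exp (((2 * k : ℕ) : ℝ) * (E - Real.log 4)) * μ ^ (2 * k - 1)) := by
        rw [sub_eq_add_neg, Real.exp_add]
        ring
    _ ≤ Real.exp (-(η * k ^ 2)) * (Real.exp (η * k ^ 2) * ν ^ (2 * k)) :=
        mul_le_mul_of_nonneg_left h9 (Real.exp_pos _).le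
    _ = ν ^ (2 * k) := by
        rw [← mul_assoc, ← Real.exp_add, neg_add_cancel, Real.exp_zero, one_mul]

lemma hc_sqrt_lower {s c a k d : ℝ} (hs : 0 < s) (hc : 0 < c) (ha : 0 ≤ a) (ha1 : a ≤ 1)
    (hk : 0 < k) (hk2 : 8 ≤ c ^ 2 * s * k) (hd : c ^ 2 * s * k / 4 - 1 ≤ d) :
    a * (c * s * k / 2 - 2 / c) ≤ Real.sqrt (s * k * a * d) := by
  have h0 : 0 ≤ c * s * k / 2 - 2 / c := by
    rw [sub_nonneg, div_le_div_iff₀ hc (by norm_num)]
    nlinarith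
  refine Real.le_sqrt_of_sq_le ?_
  have h1 : (c * s * k / 2 - 2 / c) ^ 2 ≤ s * k * d := by
    have h2 : (c * s * k / 2 - 2 / c) * (c * s * k / 2) = s * k * (c ^ 2 * s * k / 4 - 1) := by
      field_simp
      ring
    have h3 : 0 < 2 / c := by positivity
    have h4 : s * k * (c ^ 2 * s * k / 4 - 1) ≤ s * k * d :=
      mul_le_mul_of_nonneg_left hd (by positivity)
    nlinarith [mul_nonneg h0 h3.le]
  have h5 : 0 ≤ s * k * d := (sq_nonneg _).trans h1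
  calc (a * (c * s * k / 2 - 2 / c)) ^ 2 = a ^ 2 * (c * s * k / 2 - 2 / c) ^ 2 := by ring
    _ ≤ a ^ 2 * (s * k * d) := mul_le_mul_of_nonneg_left h1 (sq_nonneg a)
    _ ≤ a * (s * k * d) := by
        refine mul_le_mul_of_nonneg_right ?_ h5
        nlinarith
    _ = s * k * a * d := by ring

lemma hc_sqrt_lower2 {s c a k d : ℝ} (hs : 0 < s) (hc : 0 < c) (ha : 5 / 6 ≤ a)
    (hk : 0 < k) (hk2 : 8 ≤ c ^ 2 * s * k) (hd : c ^ 2 * s * k / 4 - 1 ≤ d) :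
    c * s * k / 4 ≤ Real.sqrt (s * k * a * d) := by
  refine Real.le_sqrt_of_sq_le ?_
  have h1 : c ^ 2 * s * k / 8 ≤ d := by linarith
  have h2 : 0 < s * k := by positivity
  have h3 : 5 / 6 * (c ^ 2 * s * k / 8) ≤ a * d :=
    mul_le_mul ha h1 (by positivity) (by linarith)
  have h4 : s * k * (5 / 6 * (c ^ 2 * s * k / 8)) ≤ s * k * (a * d) :=
    mul_le_mul_of_nonneg_left h3 h2.le
  have h5 : 0 ≤ c ^ 2 * s ^ 2 * k ^ 2 := by positivity
  nlinarith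

lemma hc_exponent {s c δ η k d R : ℝ} (hs : 0 < s) (hc : 0 < c) (hη : 0 < η)
    (hη1 : η ≤ 1) (hη2 : η * (3 * c * s + 3 * c ^ 2 * s + 1) ≤ δ / 2) (hk : 0 < k)
    (hd : d ≤ c ^ 2 * s * k / 4)
    (hk3 : 8 / c + s / 2 + 2 * Real.log 4 ≤ k * (δ / 2))
    (hR : (1 - η / 6) * (c * s * k / 2 - 2 / c) ≤ R) :
    k ^ 2 * (s * (2 * c - c ^ 2) - δ) ≤
      2 * k * ((2 * R * (1 - η) - 2 * d * (1 + η) ^ 2 - s / 4) - Real.log 4) - η * k ^ 2 := by
  have h1 : 4 * k * (1 - η) * ((1 - η / 6) * (c * s * k / 2 - 2 / c)) ≤ 4 * k * (1 - η) * R :=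
    mul_le_mul_of_nonneg_left hR (mul_nonneg (by positivity) (by linarith))
  have h2 : 4 * k * (1 - η) * ((1 - η / 6) * (c * s * k / 2 - 2 / c)) =
      2 * c * s * k ^ 2 * ((1 - η) * (1 - η / 6)) - 8 / c * k * ((1 - η) * (1 - η / 6)) := by
    ring
  have h3 : (1 - η) * (1 - η / 6) ≤ 1 := by nlinarith
  have h4 : 1 - 7 / 6 * η ≤ (1 - η) * (1 - η / 6) := by nlinarith
  have h5 : 0 ≤ 8 / c * k := by positivity
  have h6 : 0 ≤ 2 * c * s * k ^ 2 := by positivity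
  have h7 : 8 / c * k * ((1 - η) * (1 - η / 6)) ≤ 8 / c * k * 1 :=
    mul_le_mul_of_nonneg_left h3 h5
  have h8 : 2 * c * s * k ^ 2 * (1 - 7 / 6 * η) ≤
      2 * c * s * k ^ 2 * ((1 - η) * (1 - η / 6)) := mul_le_mul_of_nonneg_left h4 h6
  have h9 : (1 + η) ^ 2 ≤ 1 + 3 * η := by nlinarith
  have h10 : 4 * k * d * (1 + η) ^ 2 ≤ c ^ 2 * s * k ^ 2 * (1 + 3 * η) := by
    have h11 : 4 * k * d ≤ c ^ 2 * s * k ^ 2 := by nlinarith
    exact mul_le_mul h11 h9 (sq_nonneg _) (by positivity)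
  have h12 : k * (8 / c + s / 2 + 2 * Real.log 4) ≤ k * (k * (δ / 2)) :=
    mul_le_mul_of_nonneg_left hk3 hk.le
  have h13 : η * (3 * c * s + 3 * c ^ 2 * s + 1) * k ^ 2 ≤ δ / 2 * k ^ 2 :=
    mul_le_mul_of_nonneg_right hη2 (sq_nonneg k)
  have h14 : 0 ≤ η * c * s * k ^ 2 := by positivity
  nlinarith


lemma hc_pab_eval {s a k : ℝ} {d : ℕ} {kn : ℕ} (hkn : (kn : ℝ) = k) (x : ℝ) :
    (pab (Bp s a kn d)).eval x = (pab (He d)).eval (1 / Real.sqrt (s * k * a) * x) := by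
  have hb : 0 ≤ 1 / Real.sqrt (s * k * a) := div_nonneg zero_le_one (Real.sqrt_nonneg _)
  unfold Bp
  rw [hkn, hc_pab_comp (He d) hb, Polynomial.eval_comp]
  simp

lemma hc_pow_bound {s c a : ℝ} {k d : ℕ} (hs : 0 < s) (hc : 0 < c) (ha : 0 < a) (hk : 1 ≤ k)
    (hd1 : 1 ≤ d) (hd : (d : ℝ) ≤ c ^ 2 * s * k / 4)
    (hR : c * s * k / 4 ≤ Real.sqrt (s * k * a * d)) (x : ℝ) :
    ((pab (Bp s a k d) ^ (4 * k - 2)).eval (x + k * s / 2)) ≤
      (Real.sqrt d ^ (d * (4 * k - 2)) * Real.exp (2 * c * s * k ^ 2)) *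
        Real.exp (4 * c * k * |x|) := by
  have hk0 : (0 : ℝ) < k := by exact_mod_cast hk
  have hd0 : (0 : ℝ) < d := by exact_mod_cast hd1
  have hsd : 0 < Real.sqrt d := Real.sqrt_pos.mpr hd0
  have hska : 0 < s * k * a := by positivity
  have hR0 : 0 < Real.sqrt (s * k * a * d) := Real.sqrt_pos.mpr (by positivity)
  set z : ℝ := x + k * s / 2 with hz
  have hza : |z| ≤ |x| + k * s / 2 := by
    rw [hz]
    refine (abs_add_le _ _).trans (le_of_eq ?_)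
    rw [abs_of_nonneg (by positivity : 0 ≤ (k : ℝ) * s / 2)]
  have h1 : |(pab (Bp s a k d)).eval z| ≤
      (Real.sqrt d * Real.exp (|z| / Real.sqrt (s * k * a * d))) ^ d := by
    rw [hc_pab_eval rfl]
    refine (He_pab d _).trans (pow_le_pow_left₀ (by positivity) ?_ d)
    have h2 : |1 / Real.sqrt (s * k * a) * z| =
        Real.sqrt d * (|z| / Real.sqrt (s * k * a * d)) := by
      rw [abs_mul, abs_of_nonneg (by positivity), Real.sqrt_mul hska.le]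
      field_simp
    rw [h2]
    have h3 : |z| / Real.sqrt (s * k * a * d) + 1 ≤
        Real.exp (|z| / Real.sqrt (s * k * a * d)) := Real.add_one_le_exp _
    nlinarith
  have h4 : ((pab (Bp s a k d) ^ (4 * k - 2)).eval z) ≤
      ((Real.sqrt d * Real.exp (|z| / Real.sqrt (s * k * a * d))) ^ d) ^ (4 * k - 2) := by
    rw [Polynomial.eval_pow]
    refine (le_abs_self _).trans ?_
    rw [abs_pow]
    exact pow_le_pow_left₀ (abs_nonneg _) h1 _
  refine h4.trans ?_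
  have e1 : ((Real.sqrt d * Real.exp (|z| / Real.sqrt (s * k * a * d))) ^ d) ^ (4 * k - 2) =
      Real.sqrt d ^ (d * (4 * k - 2)) *
        Real.exp (((d * (4 * k - 2) : ℕ) : ℝ) * (|z| / Real.sqrt (s * k * a * d))) := by
    rw [← pow_mul, mul_pow, Real.exp_nat_mul]
  have e2 : Real.sqrt d ^ (d * (4 * k - 2)) * Real.exp (2 * c * s * k ^ 2) *
      Real.exp (4 * c * k * |x|) = Real.sqrt d ^ (d * (4 * k - 2)) *
        Real.exp (2 * c * s * k ^ 2 + 4 * c * k * |x|) := by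
    rw [Real.exp_add]
    ring
  rw [e1, e2]
  have hpos : 0 ≤ Real.sqrt d ^ (d * (4 * k - 2)) := by positivity
  refine mul_le_mul_of_nonneg_left ?_ hpos
  refine Real.exp_le_exp.mpr ?_
  have h5 : ((d * (4 * k - 2) : ℕ) : ℝ) ≤ c ^ 2 * s * k ^ 2 := by
    have h6 : ((d * (4 * k - 2) : ℕ) : ℝ) ≤ ((d * (4 * k) : ℕ) : ℝ) := by
      exact_mod_cast Nat.mul_le_mul_left d (Nat.sub_le _ _)
    refine h6.trans ?_
    push_cast
    nlinarith
  have h7 : |z| / Real.sqrt (s * k * a * d) ≤ |z| / (c * s * k / 4) :=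
    div_le_div_of_nonneg_left (abs_nonneg _) (by positivity) hR
  calc ((d * (4 * k - 2) : ℕ) : ℝ) * (|z| / Real.sqrt (s * k * a * d))
      ≤ c ^ 2 * s * k ^ 2 * (|z| / (c * s * k / 4)) :=
        mul_le_mul h5 h7 (by positivity) (by positivity)
    _ = 4 * c * k * |z| := by field_simp
    _ ≤ 4 * c * k * (|x| + k * s / 2) := mul_le_mul_of_nonneg_left hza (by positivity)
    _ = 2 * c * s * k ^ 2 + 4 * c * k * |x| := by ring

lemma hc_five {s c a η ν μ R : ℝ} {k d : ℕ} (hs : 0 < s) (hc : 0 < c) (ha : 0 < a) (hk : 1 ≤ k)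
    (hη0 : 0 < η) (hη1 : η ≤ 1) (hR0 : 0 ≤ R)
    (hd1 : 1 ≤ d) (hd : (d : ℝ) ≤ c ^ 2 * s * k / 4)
    (hR : c * s * k / 4 ≤ Real.sqrt (s * k * a * d))
    (h1 : Real.exp (-(η * k ^ 2)) * Sd d ^ (4 * k) ≤ μ)
    (h2 : 1 / 4 * Real.exp (2 * R * (1 - η) - 2 * d * (1 + η) ^ 2 - s / 4) * μ ≤ Sd d ^ 2 * ν) :
    GE s (k * s / 2) (pab (Bp s a k d) ^ (4 * k - 2)) ≤
      Real.exp ((4 + 2 * c * s + 7 * c ^ 2 * s + s) * k ^ 2) * ν := by
  have hk0 : (0 : ℝ) < k := by exact_mod_cast hk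
  have hk1 : (1 : ℝ) ≤ k := by exact_mod_cast hk
  have hd0 : (0 : ℝ) < d := by exact_mod_cast hd1
  have hsd : 0 < Real.sqrt d := Real.sqrt_pos.mpr hd0
  have hS0 : Real.sqrt d ^ d * Real.exp (-(d / 2)) ≤ Sd d := Sd_lower d hd1
  have hS : 0 < Sd d := lt_of_lt_of_le (by positivity) hS0
  -- upper bound
  have hup : GE s (k * s / 2) (pab (Bp s a k d) ^ (4 * k - 2)) ≤
      2 * (Real.sqrt d ^ (d * (4 * k - 2)) * Real.exp (2 * c * s * k ^ 2)) *
        Real.exp ((4 * c * k) ^ 2 * s / 4) := by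
    refine hc_int_le hs (by positivity) ?_ (hc_pow_bound hs hc ha hk hd1 hd hR)
    exact GE_integrable hs _ _
  -- lower bound
  have h4 : Real.exp (2 * R * (1 - η) - 2 * d * (1 + η) ^ 2 - s / 4 - 2) ≤
      1 / 4 * Real.exp (2 * R * (1 - η) - 2 * d * (1 + η) ^ 2 - s / 4) := by
    rw [Real.exp_sub _ 2, div_eq_mul_inv, mul_comm]
    refine mul_le_mul_of_nonneg_right ?_ (Real.exp_pos _).le
    rw [one_div]
    refine inv_anti₀ (by norm_num) ?_
    have := Real.add_one_le_exp (1 : ℝ)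
    have h5 : Real.exp 2 = Real.exp 1 * Real.exp 1 := by rw [← Real.exp_add]; norm_num
    rw [h5]
    nlinarith
  have h6 : Real.exp (-(8 * d) - s / 4 - 2) ≤
      1 / 4 * Real.exp (2 * R * (1 - η) - 2 * d * (1 + η) ^ 2 - s / 4) := by
    refine le_trans (Real.exp_le_exp.mpr ?_) h4
    have h7 : 0 ≤ 2 * R * (1 - η) := mul_nonneg (by positivity) (by linarith)
    have h8 : (1 + η) ^ 2 ≤ 4 := by nlinarith
    nlinarith
  have h9 : Real.exp (-(8 * d) - s / 4 - 2) * (Real.exp (-(η * k ^ 2)) * Sd d ^ (4 * k)) ≤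
      Sd d ^ 2 * ν :=
    (mul_le_mul h6 h1 (by positivity) (by positivity)).trans h2
  have h10 : Real.exp (-(8 * d) - s / 4 - 2) * (Real.exp (-(η * k ^ 2)) * Sd d ^ (4 * k - 2)) ≤
      ν := by
    have e1 : Sd d ^ (4 * k) = Sd d ^ 2 * Sd d ^ (4 * k - 2) := by
      rw [← pow_add]
      congr 1
      omega
    rw [e1] at h9
    have h11 : Sd d ^ 2 * (Real.exp (-(8 * d) - s / 4 - 2) *
        (Real.exp (-(η * k ^ 2)) * Sd d ^ (4 * k - 2))) ≤ Sd d ^ 2 * ν := by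
      calc _ = Real.exp (-(8 * d) - s / 4 - 2) *
          (Real.exp (-(η * k ^ 2)) * (Sd d ^ 2 * Sd d ^ (4 * k - 2))) := by ring
        _ ≤ _ := h9
    exact le_of_mul_le_mul_left h11 (by positivity)
  have h12 : Real.sqrt d ^ (d * (4 * k - 2)) * Real.exp (-(c ^ 2 * s * k ^ 2 / 2)) ≤
      Sd d ^ (4 * k - 2) := by
    refine le_trans ?_ (pow_le_pow_left₀ (by positivity) hS0 _)
    rw [mul_pow, ← pow_mul, ← Real.exp_nat_mul]
    refine mul_le_mul_of_nonneg_left (Real.exp_le_exp.mpr ?_) (by positivity)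
    have h13 : ((4 * k - 2 : ℕ) : ℝ) ≤ 4 * k := by
      have : ((4 * k - 2 : ℕ) : ℝ) ≤ ((4 * k : ℕ) : ℝ) := by exact_mod_cast Nat.sub_le _ _
      simpa using this
    have h14 : ((4 * k - 2 : ℕ) : ℝ) * (d / 2) ≤ 4 * k * (c ^ 2 * s * k / 4 / 2) :=
      mul_le_mul h13 (by linarith) (by positivity) (by positivity)
    nlinarith
  have h15 : Real.exp (-(8 * d) - s / 4 - 2 - η * k ^ 2 - c ^ 2 * s * k ^ 2 / 2) *
      Real.sqrt d ^ (d * (4 * k - 2)) ≤ ν := by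
    refine le_trans (le_of_eq ?_) ((mul_le_mul_of_nonneg_left (mul_le_mul_of_nonneg_left h12
      (Real.exp_pos (-(η * k ^ 2))).le) (Real.exp_pos (-(8 * d) - s / 4 - 2)).le).trans h10)
    rw [sub_eq_add_neg _ (c ^ 2 * s * k ^ 2 / 2), sub_eq_add_neg _ (η * k ^ 2), Real.exp_add,
      Real.exp_add]
    ring
  refine hup.trans ?_
  refine le_trans ?_ (mul_le_mul_of_nonneg_left h15 (Real.exp_pos _).le)
  have e2 : ∀ X Y Z : ℝ, Real.exp X * (Real.exp Y * Z) = Z * Real.exp (X + Y) := by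
    intro X Y Z
    rw [Real.exp_add]
    ring
  rw [e2]
  have h16 : (2 : ℝ) ≤ Real.exp 1 := by
    have := Real.add_one_le_exp (1 : ℝ)
    linarith
  calc 2 * (Real.sqrt d ^ (d * (4 * k - 2)) * Real.exp (2 * c * s * k ^ 2)) *
        Real.exp ((4 * c * k) ^ 2 * s / 4)
      = Real.sqrt d ^ (d * (4 * k - 2)) * (2 * (Real.exp (2 * c * s * k ^ 2) *
        Real.exp ((4 * c * k) ^ 2 * s / 4))) := by ring
    _ ≤ Real.sqrt d ^ (d * (4 * k - 2)) * (Real.exp 1 * (Real.exp (2 * c * s * k ^ 2) *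
        Real.exp ((4 * c * k) ^ 2 * s / 4))) := by
        refine mul_le_mul_of_nonneg_left ?_ (by positivity)
        exact mul_le_mul_of_nonneg_right h16 (by positivity)
    _ ≤ _ := by
        refine mul_le_mul_of_nonneg_left ?_ (by positivity)
        rw [← Real.exp_add, ← Real.exp_add]
        refine Real.exp_le_exp.mpr ?_
        have hkk : (k : ℝ) ≤ k ^ 2 := by nlinarith
        have hkk1 : (1 : ℝ) ≤ k ^ 2 := by nlinarith
        have hcs : 0 < c ^ 2 * s := by positivity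
        have h17 : (d : ℝ) ≤ c ^ 2 * s * k ^ 2 / 4 := by nlinarith
        have h18 : η * k ^ 2 ≤ 1 * k ^ 2 := mul_le_mul_of_nonneg_right hη1 (sq_nonneg _)
        have h19 : s ≤ s * k ^ 2 := by nlinarith
        nlinarith

theorem hermite_gain {s c δ : ℝ} (hs : 0 < s) (hc : 0 < c) (hδ : 0 < δ) : ∃ C : ℝ,
    ∀ᶠ k : ℕ in atTop, ∃ B : ℝ[X],
      4 * (k : ℝ) * B.natDegree ≤ c ^ 2 * s * k ^ 2 ∧
      0 < GE s 0 (B ^ (4 * k)) ∧ 0 < GE s (s / 2) (B ^ (4 * k - 2)) ∧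
      Real.exp (k ^ 2 * (s * (2 * c - c ^ 2) - δ)) * GE s 0 (B ^ (4 * k)) ^ (2 * k - 1) ≤
        GE s (s / 2) (B ^ (4 * k - 2)) ^ (2 * k) ∧
      GE s (k * s / 2) (pab B ^ (4 * k - 2)) ≤
        Real.exp (C * k ^ 2) * GE s (s / 2) (B ^ (4 * k - 2)) := by
  have hcs : 0 < 3 * c * s + 3 * c ^ 2 * s + 1 := by positivity
  obtain ⟨η, hη0, hη1, hη2⟩ : ∃ η : ℝ, 0 < η ∧ η ≤ 1 ∧
      η * (3 * c * s + 3 * c ^ 2 * s + 1) ≤ δ / 2 := by
    refine ⟨min 1 (δ / 2 / (3 * c * s + 3 * c ^ 2 * s + 1)), ?_, min_le_left _ _, ?_⟩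
    · exact lt_min one_pos (by positivity)
    · refine (mul_le_mul_of_nonneg_right (min_le_right _ _) hcs.le).trans (le_of_eq ?_)
      field_simp
  refine ⟨4 + 2 * c * s + 7 * c ^ 2 * s + s, ?_⟩
  have hcs2 : 0 < c ^ 2 * s := by positivity
  have ev1 : ∀ᶠ k : ℕ in atTop, 8 / (c ^ 2 * s) ≤ (k : ℝ) :=
    tendsto_natCast_atTop_atTop.eventually_ge_atTop _
  have ev2 : ∀ᶠ k : ℕ in atTop, (8 / c + s / 2 + 2 * Real.log 4) / (δ / 2) ≤ (k : ℝ) :=
    tendsto_natCast_atTop_atTop.eventually_ge_atTop _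
  filter_upwards [herm_two hs hc hη0 hη1, ev1, ev2, eventually_ge_atTop 1] with k hk hk2 hk3 hk1
  obtain ⟨h1, h2⟩ := hk _ rfl _ rfl
  set d : ℕ := ⌊c ^ 2 * s * k / 4⌋₊ with hd
  set a : ℝ := 1 - η / 6 with ha
  have hk0 : (0 : ℝ) < k := by exact_mod_cast hk1
  have hk8 : 8 ≤ c ^ 2 * s * k := by
    rw [div_le_iff₀ hcs2] at hk2
    linarith
  have hkd : 8 / c + s / 2 + 2 * Real.log 4 ≤ k * (δ / 2) := by
    rwa [div_le_iff₀ (by positivity)] at hk3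
  have ha0 : 5 / 6 ≤ a := by rw [ha]; linarith
  have ha1 : a ≤ 1 := by rw [ha]; linarith
  have hdle : (d : ℝ) ≤ c ^ 2 * s * k / 4 := Nat.floor_le (by positivity)
  have hdge : c ^ 2 * s * k / 4 - 1 ≤ (d : ℝ) := (Nat.sub_one_lt_floor _).le
  have hd1 : 1 ≤ d := by
    have : (1 : ℝ) ≤ d := by linarith
    exact_mod_cast this
  have hd0 : (0 : ℝ) < d := by exact_mod_cast hd1
  have hsd : 0 < Real.sqrt d := Real.sqrt_pos.mpr hd0
  have hS : 0 < Sd d := lt_of_lt_of_le (by positivity) (Sd_lower d hd1)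
  have hμ : 0 < GE s 0 (Bp s a k d ^ (4 * k)) := lt_of_lt_of_le (by positivity) h1
  have hν : 0 < GE s (s / 2) (Bp s a k d ^ (4 * k - 2)) := by
    have h3 := lt_of_lt_of_le (by positivity) h2
    exact (pos_iff_pos_of_mul_pos h3).mp (by positivity)
  refine ⟨Bp s a k d, ?_, hμ, hν, ?_, ?_⟩
  · rw [hc_Bp_natDegree (by positivity)]
    nlinarith
  · refine hc_four hk1 hS hμ h1 h2 ?_
    exact hc_exponent hs hc hη0 hη1 hη2 hk0 hdle hkd
      (hc_sqrt_lower hs hc (by linarith) ha1 hk0 hk8 hdge)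
  · exact hc_five hs hc (by linarith) hk1 hη0 hη1 (Real.sqrt_nonneg _) hd1 hdle
      (hc_sqrt_lower2 hs hc ha0 hk0 hk8 hdge) h1 h2


end Pool.Agent.MomW
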