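import Mathlib

/-!
# Piece PA: choice of the parameters

(helper5)
-/

namespace Pool.Agent.MomW

open Filter Topology

/-- `Ψ(w) = log (w/(1+w)) - 1/(1+w)`, a primitive of `(1+2w)/(w (1+w)²)` -/
noncomputable def Psi (w : ℝ) : ℝ := Real.log w - Real.log (1 + w) - 1 / (1 + w)

lemma len_step {w ρ : ℝ} (hw : 0 < w) (hρ : 1 < ρ) :
    Real.log ρ * (w * ρ) / (1 + w * ρ) ^ 2 ≤ ρ * (1 / (1 + w) - 1 / (1 + w * ρ)) := by
  have hρ0 : 0 < ρ := by linarith
  have hwρ : 0 < w * ρ := mul_pos hw hρ0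
  have hle : w ≤ w * ρ := le_mul_of_one_le_right hw.le hρ.le
  have h1 : Real.log ρ ≤ ρ - 1 := Real.log_le_sub_one_of_pos hρ0
  have h2 : ρ * (1 / (1 + w) - 1 / (1 + w * ρ)) = (ρ - 1) * (w * ρ) / ((1 + w) * (1 + w * ρ)) := by
    have e1 : (1 + w) ≠ 0 := by positivity
    have e2 : (1 + w * ρ) ≠ 0 := by positivity
    field_simp
    ring
  rw [h2]
  have h3 : (1 + w) * (1 + w * ρ) ≤ (1 + w * ρ) ^ 2 := by nlinarith
  exact div_le_div₀ (by nlinarith) (mul_le_mul_of_nonneg_right h1 hwρ.le) (by positivity) h3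

lemma gain_step {w ρ : ℝ} (hw : 0 < w) (hρ : 1 < ρ) :
    Psi (w * ρ) - Psi w ≤ Real.log ρ * ((1 + 2 * w) / (1 + w) ^ 2) := by
  have hρ0 : 0 < ρ := by linarith
  have hlog : 0 < Real.log ρ := Real.log_pos hρ
  have hder : ∀ x : ℝ, HasDerivAt (fun x : ℝ => Psi (w * Real.exp x))
      ((1 + 2 * (w * Real.exp x)) / (1 + w * Real.exp x) ^ 2) x := by
    intro x
    have hy : 0 < w * Real.exp x := mul_pos hw (Real.exp_pos x)
    have h1 : HasDerivAt (fun x : ℝ => w * Real.exp x) (w * Real.exp x) x :=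
      (Real.hasDerivAt_exp x).const_mul w
    have h2 : HasDerivAt (fun x : ℝ => 1 + w * Real.exp x) (w * Real.exp x) x := h1.const_add 1
    have h3 := ((h1.log hy.ne').sub (h2.log (by positivity))).sub
      ((hasDerivAt_const x (1 : ℝ)).div h2 (by positivity))
    refine h3.congr_deriv ?_
    have e2 : (1 + w * Real.exp x) ≠ 0 := by positivity
    have e3 : w * Real.exp x ≠ 0 := hy.ne'
    rw [div_self e3]
    field_simp
    ring
  obtain ⟨c, hc, hc'⟩ := exists_hasDerivAt_eq_slope (fun x : ℝ => Psi (w * Real.exp x))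
    (fun x => (1 + 2 * (w * Real.exp x)) / (1 + w * Real.exp x) ^ 2) hlog
    (continuousOn_of_forall_continuousAt fun x _ => (hder x).continuousAt) (fun x _ => hder x)
  rw [Real.exp_zero, mul_one, Real.exp_log hρ0, sub_zero, eq_div_iff hlog.ne'] at hc'
  rw [← hc', mul_comm]
  refine mul_le_mul_of_nonneg_left ?_ hlog.le
  have hy : w ≤ w * Real.exp c :=
    le_mul_of_one_le_right hw.le (Real.one_le_exp hc.1.le)
  set y := w * Real.exp c
  have hy0 : 0 < y := lt_of_lt_of_le hw hy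
  rw [div_le_div_iff₀ (by positivity) (by positivity)]
  have h1 : w * (1 + y) ≤ y * (1 + w) := by nlinarith
  have h2 : (w * (1 + y)) ^ 2 ≤ (y * (1 + w)) ^ 2 := by
    apply pow_le_pow_left₀ (by positivity) h1
  nlinarith

lemma Psi_ge {w : ℝ} (hw : 0 < w) : -(2 / w) ≤ Psi w := by
  unfold Psi
  have h1 : Real.log (1 + w) - Real.log w ≤ 1 / w := by
    rw [← Real.log_div (by positivity) hw.ne']
    refine (Real.log_le_sub_one_of_pos (by positivity)).trans (le_of_eq ?_)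
    field_simp
    ring
  have h2 : 1 / (1 + w) ≤ 1 / w := one_div_le_one_div_of_le hw (by linarith)
  have h3 : 2 / w = 1 / w + 1 / w := by ring
  linarith

lemma Psi_le {w : ℝ} (hw : 0 < w) : Psi w ≤ Real.log w - 1 := by
  unfold Psi
  have h1 := Real.one_sub_inv_le_log_of_pos (x := 1 + w) (by positivity)
  rw [one_div]
  linarith

/-- sums over the blocks -/
lemma len_sum {w ρ : ℝ} (hw : 0 < w) (hρ : 1 < ρ) (J : ℕ) :
    ∑ j ∈ Finset.range J, Real.log ρ * (w * ρ ^ (j + 1)) / (1 + w * ρ ^ (j + 1)) ^ 2 ≤ ρ := by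
  have hρ0 : 0 < ρ := by linarith
  have h1 : ∀ J : ℕ, ∑ j ∈ Finset.range J,
      Real.log ρ * (w * ρ ^ (j + 1)) / (1 + w * ρ ^ (j + 1)) ^ 2 ≤
      ρ * (1 / (1 + w) - 1 / (1 + w * ρ ^ J)) := by
    intro J
    induction J with
    | zero => simp
    | succ J ih =>
      rw [Finset.sum_range_succ]
      have h2 := len_step (w := w * ρ ^ J) (by positivity) hρ
      have h3 : w * ρ ^ J * ρ = w * ρ ^ (J + 1) := by ring
      rw [h3] at h2
      linarith
  refine (h1 J).trans ?_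
  have h2 : 1 / (1 + w) ≤ 1 := by
    rw [div_le_one (by positivity)]
    linarith
  have h3 : 0 ≤ 1 / (1 + w * ρ ^ J) := by positivity
  nlinarith

lemma gain_sum {w ρ : ℝ} (hw : 0 < w) (hρ : 1 < ρ) (J : ℕ) :
    Psi (w * ρ ^ (J + 1)) - Psi (w * ρ) ≤
      ∑ j ∈ Finset.range J, Real.log ρ *
        ((1 + 2 * (w * ρ ^ (j + 1))) / (1 + w * ρ ^ (j + 1)) ^ 2) := by
  have hρ0 : 0 < ρ := by linarith
  induction J with
  | zero => simp
  | succ J ih =>
    rw [Finset.sum_range_succ]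
    have h2 := gain_step (w := w * ρ ^ (J + 1)) (by positivity) hρ
    have h3 : w * ρ ^ (J + 1) * ρ = w * ρ ^ (J + 1 + 1) := by ring
    rw [h3] at h2
    linarith

/-- choice of the parameters -/
theorem params {η : ℝ} (hη : 0 < η) : ∃ (ε w ρ θ : ℝ) (J : ℕ), 0 < ε ∧ ε < 1 ∧ 0 < w ∧
    w ≤ ε / 128 ∧ 1 < ρ ∧ 0 < θ ∧ θ ≤ 1 ∧
    ∑ j ∈ Finset.range J, 2 * (θ / (1 + w * ρ ^ (j + 1))) ^ 2 * Real.log ρ *
      (w * ρ ^ (j + 1)) ≤ 2 - ε - ε / 16 ∧
    1 - η ≤ Real.log w + ∑ j ∈ Finset.range J, Real.log ρ *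
      (2 * (θ / (1 + w * ρ ^ (j + 1))) - (θ / (1 + w * ρ ^ (j + 1))) ^ 2) := by
  have h1 : Tendsto (fun x : ℝ => x * Real.log x - x * Real.log 128 + (1 - x) * (1 - 2 * x))
      (𝓝[>] 0) (𝓝 1) := by
    have e1 : Tendsto (fun x : ℝ => x * Real.log x) (𝓝[>] 0) (𝓝 0) := by
      have h := Real.continuous_mul_log.tendsto 0
      simp only [zero_mul] at h
      exact h.mono_left nhdsWithin_le_nhds
    have e2 : Tendsto (fun x : ℝ => -(x * Real.log 128) + (1 - x) * (1 - 2 * x))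
        (𝓝[>] 0) (𝓝 1) := by
      have h : Continuous fun x : ℝ => -(x * Real.log 128) + (1 - x) * (1 - 2 * x) := by
        fun_prop
      have h2 := h.tendsto 0
      simp only [zero_mul, neg_zero, zero_add, sub_zero, mul_zero, mul_one] at h2
      exact h2.mono_left nhdsWithin_le_nhds
    have e3 := e1.add e2
    rw [zero_add] at e3
    refine e3.congr fun x => ?_
    ring
  have h2 := h1.eventually (lt_mem_nhds (by linarith : 1 - η < 1))
  have h3 : ∀ᶠ x : ℝ in 𝓝[>] 0, x < 1 / 2 :=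
    nhdsWithin_le_nhds (gt_mem_nhds (by norm_num))
  obtain ⟨ε, ⟨hε1, hε2⟩, hε0⟩ := ((h2.and h3).and self_mem_nhdsWithin).exists
  have hε0 : 0 < ε := hε0
  set w := ε / 128 with hw
  have hw0 : 0 < w := by positivity
  set ρ := 1 + ε with hρ
  have hρ1 : 1 < ρ := by linarith
  have hρ0 : 0 < ρ := by linarith
  obtain ⟨J, hJ⟩ := pow_unbounded_of_one_lt (2 / (ε * w)) hρ1
  have hJ' : 2 / (w * ρ ^ (J + 1)) ≤ ε := by
    rw [div_le_iff₀ (by positivity)]
    rw [div_lt_iff₀ (by positivity)] at hJ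
    have h5 : ρ ^ J ≤ ρ ^ (J + 1) := pow_le_pow_right₀ hρ1.le (Nat.le_succ J)
    have h6 : ρ ^ J * (ε * w) ≤ ρ ^ (J + 1) * (ε * w) :=
      mul_le_mul_of_nonneg_right h5 (by positivity)
    nlinarith
  refine ⟨ε, w, ρ, 1 - ε, J, hε0, by linarith, hw0, le_rfl, hρ1, by linarith, by linarith, ?_, ?_⟩
  · have h5 := len_sum hw0 hρ1 J
    have h6 : ∑ j ∈ Finset.range J, 2 * ((1 - ε) / (1 + w * ρ ^ (j + 1))) ^ 2 * Real.log ρ *
        (w * ρ ^ (j + 1)) = 2 * (1 - ε) ^ 2 * ∑ j ∈ Finset.range J,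
          Real.log ρ * (w * ρ ^ (j + 1)) / (1 + w * ρ ^ (j + 1)) ^ 2 := by
      rw [Finset.mul_sum]
      refine Finset.sum_congr rfl fun j _ => ?_
      rw [div_pow]
      ring
    rw [h6]
    have h7 : 2 * (1 - ε) ^ 2 * ∑ j ∈ Finset.range J,
          Real.log ρ * (w * ρ ^ (j + 1)) / (1 + w * ρ ^ (j + 1)) ^ 2 ≤ 2 * (1 - ε) ^ 2 * ρ :=
      mul_le_mul_of_nonneg_left h5 (by positivity)
    refine h7.trans ?_
    rw [hρ]
    have h8 : 2 * (1 - ε) ^ 2 * (1 + ε) = 2 * (1 - ε) * (1 - ε ^ 2) := by ring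
    rw [h8]
    nlinarith [mul_pos hε0 hε0]
  · have h5 := gain_sum hw0 hρ1 J
    have h6 : ∀ j ∈ Finset.range J, (1 - ε) * (Real.log ρ *
        ((1 + 2 * (w * ρ ^ (j + 1))) / (1 + w * ρ ^ (j + 1)) ^ 2)) ≤ Real.log ρ *
      (2 * ((1 - ε) / (1 + w * ρ ^ (j + 1))) - ((1 - ε) / (1 + w * ρ ^ (j + 1))) ^ 2) := by
      intro j _
      have hlog : 0 ≤ Real.log ρ := Real.log_nonneg hρ1.le
      have hy : 0 < w * ρ ^ (j + 1) := by positivity
      set y := w * ρ ^ (j + 1)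
      rw [← mul_assoc, mul_comm (1 - ε) (Real.log ρ), mul_assoc]
      refine mul_le_mul_of_nonneg_left ?_ hlog
      have e1 : 2 * ((1 - ε) / (1 + y)) - ((1 - ε) / (1 + y)) ^ 2 =
          (1 - ε) * ((1 + 2 * y + ε) / (1 + y) ^ 2) := by
        have : (1 + y) ≠ 0 := by positivity
        field_simp
        ring
      rw [e1]
      refine mul_le_mul_of_nonneg_left ?_ (by linarith)
      exact div_le_div_of_nonneg_right (by linarith) (by positivity)
    have h7 := Finset.sum_le_sum h6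
    rw [← Finset.mul_sum] at h7
    have h8 : (1 - ε) * (Psi (w * ρ ^ (J + 1)) - Psi (w * ρ)) ≤ (1 - ε) *
        ∑ j ∈ Finset.range J, Real.log ρ *
        ((1 + 2 * (w * ρ ^ (j + 1))) / (1 + w * ρ ^ (j + 1)) ^ 2) :=
      mul_le_mul_of_nonneg_left h5 (by linarith)
    have h9 := Psi_ge (w := w * ρ ^ (J + 1)) (by positivity)
    have h10 := Psi_le (w := w * ρ) (by positivity)
    rw [Real.log_mul hw0.ne' hρ0.ne'] at h10
    have h11 : Real.log ρ ≤ ε := by
      have := Real.log_le_sub_one_of_pos hρ0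
      linarith
    have h12 : 1 - Real.log w - 2 * ε ≤ Psi (w * ρ ^ (J + 1)) - Psi (w * ρ) := by linarith
    have h13 := mul_le_mul_of_nonneg_left h12 (by linarith : 0 ≤ 1 - ε)
    have h14 : Real.log w = Real.log ε - Real.log 128 := by
      rw [hw, Real.log_div hε0.ne' (by norm_num)]
    rw [h14] at h13 ⊢
    nlinarith

end Pool.Agent.MomW
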