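import Pool.Agent.Lib_MP_112ba8_w.Vec
import Pool.Agent.Lib_MP_112ba8_w.Alg

/-!
# Piece SA: Dirichlet polynomials as elements of the group algebra

PROOF. `Dp N f = ∑_{1 ≤ n ≤ N} f(n) n^{-1/2} single (vec n)`. `vec` is injective on `n ≥ 1` and
additive (Vec.lean), so (induction on `k`) `Dp N f ^ k = ∑_{1 ≤ n ≤ N^k} (tr N f)^k (n) n^{-1/2}
single (vec n)`: use `ArithmeticFunction.mul_apply` (sum over `divisorsAntidiagonal`) and
`(tr N f)^k n = 0` for `n > N^k`. Then `(P * st P).coeff 0 = ∑_q (P.coeff q)²`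
(`AddMonoidAlgebra.coeff_mul`, `coeff_st`), which is the sum over `n` of
`((tr N f)^k n)² / n`.
`Dp_nrm`: `∑_{n ≤ N} n^{-1/2} ≤ 2 √N`.
-/

namespace Pool.Agent.MomW

open Filter Topology MeasureTheory
open Pool.Agent.SixthMoment (QQ ln fr osc)
open Pool.Agent.ZetaMoment (wt Wm C0 aG DP tr)

/-- Dirichlet polynomial -/
noncomputable def Dp (N : ℕ) (f : ArithmeticFunction ℝ) : TP :=
  ∑ n ∈ Finset.Icc 1 N, AddMonoidAlgebra.single (vec n) (f n * (Real.sqrt n)⁻¹)

private lemma coeff_Dp (N : ℕ) (f : ArithmeticFunction ℝ) (q : QQ) :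
    (Dp N f).coeff q = ∑ n ∈ Finset.Icc 1 N,
      (open Classical in if vec n = q then f n * (Real.sqrt n)⁻¹ else 0) := by
  classical
  unfold Dp
  rw [AddMonoidAlgebra.coeff_sum, Finsupp.finset_sum_apply]
  refine Finset.sum_congr rfl fun n _ => ?_
  rw [AddMonoidAlgebra.coeff_single_apply]

private lemma coeff_Dp_vec (N : ℕ) (f : ArithmeticFunction ℝ) {m : ℕ} (hm : m ∈ Finset.Icc 1 N) :
    (Dp N f).coeff (vec m) = f m * (Real.sqrt m)⁻¹ := by
  classical
  rw [coeff_Dp, Finset.sum_eq_single m]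
  · rw [if_pos rfl]
  · intro n hn hnm
    rw [if_neg]
    intro h
    exact hnm (vec_inj (by have := (Finset.mem_Icc.mp hn).1; omega)
      (by have := (Finset.mem_Icc.mp hm).1; omega) h)
  · intro h
    exact absurd hm h

private lemma Dp_mul {A B : ℕ} {f g : ArithmeticFunction ℝ} (hf : Pool.Agent.ZetaMoment.Supp f A)
    (hg : Pool.Agent.ZetaMoment.Supp g B) : Dp A f * Dp B g = Dp (A * B) (f * g) := by
  classical
  have key : ∀ n : ℕ, n ∈ Finset.Icc 1 (A * B) →
      ∑ x ∈ (Finset.Icc 1 A ×ˢ Finset.Icc 1 B).filter (fun x => x.1 * x.2 = n),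
        (AddMonoidAlgebra.single (vec x.1) (f x.1 * (Real.sqrt x.1)⁻¹) *
          AddMonoidAlgebra.single (vec x.2) (g x.2 * (Real.sqrt x.2)⁻¹) : TP) =
      AddMonoidAlgebra.single (vec n) ((f * g) n * (Real.sqrt n)⁻¹) := by
    intro n hn
    have hn1 := Finset.mem_Icc.mp hn
    have hn0 : n ≠ 0 := by omega
    rw [ArithmeticFunction.mul_apply, Finset.sum_mul]
    rw [show (AddMonoidAlgebra.single (vec n) (∑ i ∈ n.divisorsAntidiagonal,
        f i.1 * g i.2 * (Real.sqrt n)⁻¹) : TP) = ∑ i ∈ n.divisorsAntidiagonal,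
        (AddMonoidAlgebra.single (vec n) (f i.1 * g i.2 * (Real.sqrt n)⁻¹) : TP) from
        map_sum (AddMonoidAlgebra.singleAddHom (vec n)) _ _]
    have hsub : (Finset.Icc 1 A ×ˢ Finset.Icc 1 B).filter (fun x => x.1 * x.2 = n) ⊆
        n.divisorsAntidiagonal := by
      intro x hx
      rw [Finset.mem_filter] at hx
      exact Nat.mem_divisorsAntidiagonal.mpr ⟨hx.2, hn0⟩
    rw [← Finset.sum_subset hsub]
    · refine Finset.sum_congr rfl fun x hx => ?_
      rw [Finset.mem_filter, Finset.mem_product, Finset.mem_Icc, Finset.mem_Icc] at hx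
      obtain ⟨⟨⟨h1, _⟩, ⟨h2, _⟩⟩, h3⟩ := hx
      rw [AddMonoidAlgebra.single_mul_single, ← vec_mul (by omega) (by omega), h3]
      congr 1
      have h4 : Real.sqrt (n : ℝ) = Real.sqrt (x.1 : ℝ) * Real.sqrt (x.2 : ℝ) := by
        rw [← Real.sqrt_mul (Nat.cast_nonneg _), ← h3]
        push_cast
        rfl
      rw [h4, mul_inv]
      ring
    · intro x hx hx'
      have hxd := Nat.mem_divisorsAntidiagonal.mp hx
      have h1 : x.1 ≠ 0 := by
        rintro h0
        rw [h0, zero_mul] at hxd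
        exact hn0 hxd.1.symm
      have h2 : x.2 ≠ 0 := by
        rintro h0
        rw [h0, mul_zero] at hxd
        exact hn0 hxd.1.symm
      have h3 : f x.1 * g x.2 = 0 := by
        by_cases ha : A < x.1
        · rw [hf _ ha, zero_mul]
        · by_cases hb : B < x.2
          · rw [hg _ hb, mul_zero]
          · exfalso
            apply hx'
            rw [Finset.mem_filter, Finset.mem_product, Finset.mem_Icc, Finset.mem_Icc]
            refine ⟨⟨⟨?_, ?_⟩, ⟨?_, ?_⟩⟩, hxd.1⟩ <;> omega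
      rw [h3, zero_mul, AddMonoidAlgebra.single_zero]
  unfold Dp
  rw [Finset.sum_mul_sum, ← Finset.sum_product',
    ← Finset.sum_fiberwise_of_maps_to (s := Finset.Icc 1 A ×ˢ Finset.Icc 1 B)
      (t := Finset.Icc 1 (A * B)) (g := fun x => x.1 * x.2)]
  · exact Finset.sum_congr rfl key
  · intro x hx
    rw [Finset.mem_product, Finset.mem_Icc, Finset.mem_Icc] at hx
    rw [Finset.mem_Icc]
    exact ⟨Nat.mul_pos (by omega) (by omega), Nat.mul_le_mul (by omega) (by omega)⟩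

private lemma Dp_tr (N : ℕ) (f : ArithmeticFunction ℝ) : Dp N f = Dp N (tr N f) := by
  unfold Dp
  refine Finset.sum_congr rfl fun n hn => ?_
  rw [Pool.Agent.ZetaMoment.tr_apply, if_pos (Finset.mem_Icc.mp hn).2]

private lemma Dp_one : Dp 1 1 = 1 := by
  unfold Dp
  rw [Finset.Icc_self, Finset.sum_singleton, vec_one, ArithmeticFunction.one_one]
  simp only [Nat.cast_one, Real.sqrt_one, inv_one, mul_one]
  rfl

private lemma Dp_pow (N k : ℕ) (f : ArithmeticFunction ℝ) :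
    Dp N f ^ k = Dp (N ^ k) (tr N f ^ k) := by
  induction k with
  | zero =>
    rw [pow_zero, pow_zero, pow_zero, Dp_one]
  | succ k ih =>
    rw [pow_succ, ih, pow_succ, pow_succ, Dp_tr N f,
      Dp_mul ((Pool.Agent.ZetaMoment.tr_supp N f).pow k) (Pool.Agent.ZetaMoment.tr_supp N f)]

private lemma sum_inv_sqrt (N : ℕ) :
    ∑ n ∈ Finset.Icc 1 N, (Real.sqrt n)⁻¹ ≤ 2 * Real.sqrt N := by
  induction N with
  | zero => simp
  | succ N ih =>
    rw [Finset.sum_Icc_succ_top (by omega)]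
    have h1 : (0 : ℝ) ≤ Real.sqrt N := Real.sqrt_nonneg _
    have h2 : (0 : ℝ) < Real.sqrt ((N + 1 : ℕ) : ℝ) := by
      apply Real.sqrt_pos.mpr
      positivity
    have h3 : Real.sqrt N ^ 2 = N := Real.sq_sqrt (Nat.cast_nonneg _)
    have h4 : Real.sqrt ((N + 1 : ℕ) : ℝ) ^ 2 = N + 1 := by
      rw [Real.sq_sqrt (Nat.cast_nonneg _)]
      push_cast
      ring
    have h5 : (Real.sqrt ((N + 1 : ℕ) : ℝ))⁻¹ ≤
        2 * Real.sqrt ((N + 1 : ℕ) : ℝ) - 2 * Real.sqrt N := by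
      rw [inv_le_iff_one_le_mul₀ h2]
      nlinarith [sq_nonneg (Real.sqrt ((N + 1 : ℕ) : ℝ) - Real.sqrt N)]
    linarith

theorem Dp_nonneg (N : ℕ) {f : ArithmeticFunction ℝ} (hf : ∀ n, 0 ≤ f n) (q : QQ) :
    0 ≤ (Dp N f).coeff q := by
  rw [coeff_Dp]
  refine Finset.sum_nonneg fun n _ => ?_
  split_ifs
  · exact mul_nonneg (hf n) (inv_nonneg.mpr (Real.sqrt_nonneg _))
  · exact le_rfl

theorem Dp_le (N : ℕ) {f : ArithmeticFunction ℝ} (hf : ∀ n, f n ≤ 1) (q : QQ) :
    (Dp N f).coeff q ≤ wr 1 q := by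
  by_cases h : ∃ n ∈ Finset.Icc 1 N, vec n = q
  · obtain ⟨n, hn, rfl⟩ := h
    rw [coeff_Dp_vec N f hn, wr_one_vec (by have := (Finset.mem_Icc.mp hn).1; omega)]
    have h1 := mul_le_mul_of_nonneg_right (hf n) (inv_nonneg.mpr (Real.sqrt_nonneg (n : ℝ)))
    rwa [one_mul] at h1
  · push Not at h
    rw [coeff_Dp, Finset.sum_eq_zero fun n hn => if_neg (h n hn)]
    exact wr_nonneg zero_le_one q

theorem Dp_Len (N : ℕ) (hN : 1 ≤ N) (f : ArithmeticFunction ℝ) : Len (Dp N f) (Real.log N) := by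
  have _ := hN
  refine SP.sum (P := fun q => ln q ≤ Real.log N) _ _ fun n hn => SP.single ?_ _
  obtain ⟨h1, h2⟩ := Finset.mem_Icc.mp hn
  rw [ln_vec (by omega)]
  exact Real.log_le_log (by exact_mod_cast h1) (by exact_mod_cast h2)

theorem Dp_Prm (N : ℕ) (f : ArithmeticFunction ℝ) (S : Set Nat.Primes)
    (h : ∀ n : ℕ, n ≠ 0 → f n ≠ 0 → ∀ p : Nat.Primes, (p : ℕ) ∣ n → p ∈ S) :
    Prm (Dp N f) S := by
  refine SP.sum (P := fun q => ∀ p ∈ q.support, p ∈ S) _ _ fun n hn => ?_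
  have hn0 : n ≠ 0 := by have := (Finset.mem_Icc.mp hn).1; omega
  by_cases hf : f n = 0
  · rw [hf, zero_mul, AddMonoidAlgebra.single_zero]
    exact SP.zero _
  · exact SP.single (P := fun q => ∀ p ∈ q.support, p ∈ S)
      (fun p hp => h n hn0 hf p ((mem_support_vec hn0).mp hp)) _

theorem Dp_nrm (N : ℕ) {f : ArithmeticFunction ℝ} (hf : ∀ n, |f n| ≤ 1) :
    nrm (Dp N f) ≤ 2 * Real.sqrt N := by
  refine le_trans (nrm_sum_le _ _) (le_trans (Finset.sum_le_sum fun n _ => ?_) (sum_inv_sqrt N))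
  rw [nrm_single, abs_mul, abs_of_nonneg (inv_nonneg.mpr (Real.sqrt_nonneg (n : ℝ)))]
  have h1 := mul_le_mul_of_nonneg_right (hf n) (inv_nonneg.mpr (Real.sqrt_nonneg (n : ℝ)))
  rwa [one_mul] at h1

theorem Dp_sq (N k : ℕ) (f : ArithmeticFunction ℝ) :
    (Dp N f ^ k * st (Dp N f) ^ k).coeff 0 = ∑' n : ℕ, ((tr N f ^ k : ArithmeticFunction ℝ) n) ^ 2 / n := by
  classical
  rw [← map_pow, Dp_pow]
  set g : ArithmeticFunction ℝ := tr N f ^ k with hg
  have hsupp : Pool.Agent.ZetaMoment.Supp g (N ^ k) := (Pool.Agent.ZetaMoment.tr_supp N f).pow k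
  rw [tsum_eq_sum (s := Finset.Icc 1 (N ^ k))]
  · have h1 : Dp (N ^ k) g * st (Dp (N ^ k) g) = ∑ m ∈ Finset.Icc 1 (N ^ k),
        ∑ n ∈ Finset.Icc 1 (N ^ k), AddMonoidAlgebra.single (vec m + -vec n)
          (g m * (Real.sqrt m)⁻¹ * (g n * (Real.sqrt n)⁻¹)) := by
      unfold Dp
      rw [map_sum, Finset.sum_mul_sum]
      refine Finset.sum_congr rfl fun m _ => Finset.sum_congr rfl fun n _ => ?_
      rw [st_single, AddMonoidAlgebra.single_mul_single]
    rw [h1, AddMonoidAlgebra.coeff_sum, Finsupp.finset_sum_apply]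
    refine Finset.sum_congr rfl fun m hm => ?_
    rw [AddMonoidAlgebra.coeff_sum, Finsupp.finset_sum_apply, Finset.sum_eq_single m]
    · rw [AddMonoidAlgebra.coeff_single_apply, if_pos (add_neg_cancel _)]
      have h2 : (0 : ℝ) ≤ m := Nat.cast_nonneg _
      have h3 : (Real.sqrt m)⁻¹ * (Real.sqrt m)⁻¹ = (m : ℝ)⁻¹ := by
        rw [← mul_inv, Real.mul_self_sqrt h2]
      calc g m * (Real.sqrt m)⁻¹ * (g m * (Real.sqrt m)⁻¹)
          = g m ^ 2 * ((Real.sqrt m)⁻¹ * (Real.sqrt m)⁻¹) := by ring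
        _ = g m ^ 2 / m := by rw [h3, div_eq_mul_inv]
    · intro n hn hnm
      rw [AddMonoidAlgebra.coeff_single_apply, if_neg]
      intro h
      apply hnm
      refine (vec_inj (by have := (Finset.mem_Icc.mp hm).1; omega)
        (by have := (Finset.mem_Icc.mp hn).1; omega) ?_).symm
      exact eq_of_sub_eq_zero (by rw [sub_eq_add_neg]; exact h)
    · intro h
      exact absurd hm h
  · intro n hn
    rw [Finset.mem_Icc, not_and_or, not_le, not_le] at hn
    rcases hn with h | h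
    · have h0 : n = 0 := by omega
      rw [h0, ArithmeticFunction.map_zero]
      simp
    · rw [hsupp n h]
      simp

end Pool.Agent.MomW
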