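import Pool.Agent.Lib_MP_112ba8_w.PrimeWeak
import Pool.Agent.Lib_MP_112ba8_w.SmallA

/-!
# Piece SM: the small primes

PROOF. Put `h = min 1 (z/4)`, `v = 2 w₀ / k²`, `y = h/v`, `L = log T`, `X = exp (ε L / (32 k))`.
Let `f_L` be the completely multiplicative function (`ZetaMoment.cmf`, Profile.lean) with
`f_L(p) = e^{-y log p / L}` if `log p ≤ v L`, and `0` otherwise, so `f_L` is `Good`
(`cmf_good`), `f_L(n) → 1` for every `n ≥ 1` (`cmf_tendsto`), and put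
`R = Dp ⌊X⌋₊ f_L` (SmallA.lean).

* `0 ≤ R.coeff q ≤ wr 1 q`, `Prm`, `Len`: `Dp_nonneg`, `Dp_le`, `Dp_Prm`, `Dp_Len`;
  `nrm R ≤ 2 √X ≤ X` for large `T` (`Dp_nrm`), so `nrm R ^ (2k) ≤ X^{2k} = T^{ε/16} ≤ T`.
* `(R^k * st R^k).coeff 0 = ∑_n ((tr f)^k n)² / n` (`Dp_sq`).
* Truncation (Rankin): `(f^k n)² - ((tr f)^k n)² ≤ 2 f^k(n) (f^k n - (tr f)^k n)` and
  `f^k(n) - (tr f)^k (n) ≤ k (f^{k-1} * g)(n)` with `g(n) = f(n) 1_{n > X} ≤ X^{-σ} n^σ f(n)`,
  `σ = h/(v L) = y/L` (`pow_sub_pow_le` in Poly.lean; compare Rankin2.lean). Hence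
  `(R^k st R^k)_0 ≥ FG(f,..,f; f,..,f) - 2 k X^{-σ} FG(f',f,..,f; f,..,f)`, with
  `f'(n) = n^σ f(n)` completely multiplicative, `f'(p) = 1` for `log p ≤ vL` and `0` otherwise
  (`Good` again) and `X^{-σ} = exp (-(ε/(32k)) h k²/(2 w₀)) = exp (-ε h k/(64 w₀)) ≤ e^{-2hk}`.
* `FG_tendsto` (Gen.lean, `ι = Fin k`) with `prime_small`: since
  `∑_p f(p)²/p - log L → C0 + el0 v (2y)` and `∑_p f'(p) f(p)/p - log L → C0 + el0 v y`,
  `FG(f;f)/L^{k²} → aG · exp (k² el0 v (2y))` and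
  `FG(f',f,..;f)/L^{k²} → aG · exp ((k²-k) el0 v (2y) + k el0 v y)`; the quotient of the limits is
  `exp (k ∫_0^1 (e^{-hx} - e^{-2hx}) dx/x) ≤ e^{hk}` (`y v = h`).
* So for `k ≥ K(h)` (with `2 k e^{-2hk} e^{hk} ≤ 1/4`) and all large `T`:
  `(R^k st R^k)_0 ≥ (1/2) aG exp (k² el0 v (2y)) L^{k²}`, and
  `el0 v (2y) = γ + log v - ∫_0^1 (1 - e^{-2hx}) dx/x ≥ γ + log v - 2h`; finally
  `2h ≤ z/2` and `log 2 ≤ k² z/2` for `k ≥ K`.
-/

namespace Pool.Agent.MomW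

open Filter Topology MeasureTheory
open Pool.Agent.SixthMoment (QQ ln fr osc)
open Pool.Agent.ZetaMoment (wt Wm C0 aG DP)

/-! ## the integrals -/

lemma sm_le (s x : ℝ) (hs : 0 ≤ s) (hx : 0 ≤ x) : (1 - Real.exp (-(s * x))) / x ≤ s := by
  rcases hx.eq_or_lt with h | h
  · rw [← h]; simpa using hs
  · rw [div_le_iff₀ h]
    have := Real.add_one_le_exp (-(s * x))
    linarith

lemma sm_nn (s x : ℝ) (hs : 0 ≤ s) (hx : 0 ≤ x) : 0 ≤ (1 - Real.exp (-(s * x))) / x := by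
  refine div_nonneg ?_ hx
  have : Real.exp (-(s * x)) ≤ 1 := Real.exp_le_one_iff.mpr (by nlinarith)
  linarith

lemma sm_int (s : ℝ) (hs : 0 ≤ s) :
    IntervalIntegrable (fun x : ℝ => (1 - Real.exp (-(s * x))) / x) volume 0 1 := by
  have h1 : IntervalIntegrable (fun _ : ℝ => s) volume 0 1 := intervalIntegrable_const
  refine h1.mono_fun' ?_ ?_
  · exact (by fun_prop : Measurable fun x : ℝ => (1 - Real.exp (-(s * x))) / x).aestronglyMeasurable
  · refine (ae_restrict_mem measurableSet_uIoc).mono fun x hx => ?_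
    rw [Set.uIoc_of_le zero_le_one] at hx
    change ‖(1 - Real.exp (-(s * x))) / x‖ ≤ s
    rw [Real.norm_of_nonneg (sm_nn s x hs hx.1.le)]
    exact sm_le s x hs hx.1.le

lemma sm_J_le (s : ℝ) (hs : 0 ≤ s) :
    ∫ x in (0 : ℝ)..1, (1 - Real.exp (-(s * x))) / x ≤ s := by
  have h := intervalIntegral.integral_mono_on zero_le_one (sm_int s hs)
    (intervalIntegrable_const (c := s)) (fun x hx => sm_le s x hs hx.1)
  simpa using h

lemma sm_J_sub (s : ℝ) (hs : 0 ≤ s) :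
    (∫ x in (0 : ℝ)..1, (1 - Real.exp (-(2 * s * x))) / x) -
      ∫ x in (0 : ℝ)..1, (1 - Real.exp (-(s * x))) / x ≤ s := by
  rw [← intervalIntegral.integral_sub (sm_int (2 * s) (by positivity)) (sm_int s hs)]
  have h := intervalIntegral.integral_mono_on zero_le_one
    ((sm_int (2 * s) (by positivity)).sub (sm_int s hs))
    (intervalIntegrable_const (c := s)) (fun x hx => ?_)
  · simpa using h
  · rw [← sub_div]
    rcases hx.1.eq_or_lt with h | h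
    · rw [← h]; simpa using hs
    · rw [div_le_iff₀ h]
      have h1 := Real.add_one_le_exp (-(s * x))
      have h2 : Real.exp (-(2 * s * x)) = Real.exp (-(s * x)) * Real.exp (-(s * x)) := by
        rw [← Real.exp_add]; congr 1; ring
      have h3 : Real.exp (-(s * x)) ≤ 1 := Real.exp_le_one_iff.mpr (by nlinarith)
      have h4 := Real.exp_pos (-(s * x))
      rw [h2]
      nlinarith

/-! ## the weights -/

/-- the weight of the prime `p` -/
noncomputable def sm_w (v y L : ℝ) (p : ℕ) : ℝ :=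
  if Real.log (p : ℝ) ≤ v * L then Real.exp (-(y * Real.log p / L)) else 0

/-- the completely multiplicative weight -/
noncomputable def sm_f (v y L : ℝ) : ArithmeticFunction ℝ := ZetaMoment.cmf (sm_w v y L)

lemma sm_w_nonneg (v y L : ℝ) (p : ℕ) : 0 ≤ sm_w v y L p := by
  unfold sm_w; split_ifs
  · exact (Real.exp_pos _).le
  · exact le_rfl

lemma sm_w_le {v y L : ℝ} (hy : 0 ≤ y) (hL : 0 < L) (p : ℕ) : sm_w v y L p ≤ 1 := by
  unfold sm_w; split_ifs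
  · refine Real.exp_le_one_iff.mpr ?_
    have := Real.log_natCast_nonneg p
    have : 0 ≤ y * Real.log p / L := by positivity
    linarith
  · exact zero_le_one

lemma sm_good (v : ℝ) {y L : ℝ} (hy : 0 ≤ y) (hL : 0 < L) : ZetaMoment.Good (sm_f v y L) :=
  ZetaMoment.cmf_good (fun p _ => sm_w_nonneg v y L p) fun p _ => sm_w_le hy hL p

lemma sm_le_one (v : ℝ) {y L : ℝ} (hy : 0 ≤ y) (hL : 0 < L) (n : ℕ) : sm_f v y L n ≤ 1 := by
  refine ((sm_good v hy hL).le n).trans ?_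
  rw [ZetaMoment.pw_apply]; split_ifs <;> simp

lemma sm_tendsto {v : ℝ} (hv : 0 < v) (y : ℝ) (n : ℕ) :
    Tendsto (fun L => sm_f v y L n) atTop (𝓝 (ZetaMoment.pw 0 n)) := by
  refine ZetaMoment.cmf_tendsto (h := fun L => sm_w v y L) (fun p _ => ?_) n
  have h1 : Tendsto (fun L : ℝ => Real.exp (-(y * Real.log p / L))) atTop (𝓝 1) := by
    have h2 : Tendsto (fun L : ℝ => y * Real.log p / L) atTop (𝓝 0) :=
      tendsto_const_nhds.div_atTop tendsto_id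
    have h3 := h2.neg.rexp
    simpa using h3
  refine h1.congr' ?_
  filter_upwards [eventually_ge_atTop (Real.log p / v)] with L hL
  rw [div_le_iff₀ hv] at hL
  rw [sm_w, if_pos (by linarith)]

lemma sm_pair (v y y' L : ℝ) (p : Nat.Primes) :
    sm_f v y L p * sm_f v y' L p / ((p : ℕ) : ℝ) =
      if Real.log ((p : ℕ) : ℝ) ≤ v * L then
        Real.exp (-((y + y') * Real.log ((p : ℕ) : ℝ) / L)) / ((p : ℕ) : ℝ) else 0 := by
  rw [sm_f, sm_f, ZetaMoment.cmf_prime _ p.2, ZetaMoment.cmf_prime _ p.2, sm_w, sm_w]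
  split_ifs
  · rw [← Real.exp_add]; congr 2; ring
  · simp

lemma sm_pair_zero {v y y' L : ℝ} {p : Nat.Primes} (hp : p ∉ BP 0 v L) :
    sm_f v y L p * sm_f v y' L p / ((p : ℕ) : ℝ) = 0 := by
  rw [sm_pair, if_neg]
  intro h
  refine hp (mem_BP.mpr ⟨?_, h⟩)
  rw [zero_mul]
  exact Real.log_pos (by exact_mod_cast p.2.one_lt)

lemma sm_summable (v y y' L : ℝ) :
    Summable fun p : Nat.Primes => sm_f v y L p * sm_f v y' L p / ((p : ℕ) : ℝ) :=
  summable_of_ne_finset_zero (s := BP 0 v L) fun _ hp => sm_pair_zero hp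

lemma sm_tsum (v y y' L : ℝ) :
    ∑' p : Nat.Primes, sm_f v y L p * sm_f v y' L p / ((p : ℕ) : ℝ) =
      ∑ p ∈ BP 0 v L, Real.exp (-((y + y') * Real.log ((p : ℕ) : ℝ) / L)) / ((p : ℕ) : ℝ) := by
  rw [tsum_eq_sum (s := BP 0 v L) fun p hp => sm_pair_zero hp]
  refine Finset.sum_congr rfl fun p hp => ?_
  rw [sm_pair, if_pos (mem_BP.mp hp).2]

/-- limit of the correlation sums -/
lemma sm_FG {ι : Type} [Fintype ι] {v : ℝ} (hv : 0 < v) {a b : ι → ℝ} (ha : ∀ i, 0 ≤ a i)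
    (hb : ∀ i, 0 ≤ b i) :
    Tendsto (fun L : ℝ => ZetaMoment.FG (fun i => sm_f v (a i) L) (fun i => sm_f v (b i) L) /
      L ^ (Fintype.card ι * Fintype.card ι)) atTop
      (𝓝 (aG ι * Real.exp (∑ q : ι × ι, el0 v (a q.1 + b q.2)))) := by
  refine ZetaMoment.FG_tendsto (f := fun L i => sm_f v (a i) L) (g := fun L i => sm_f v (b i) L)
    (ℓ := fun i j => el0 v (a i + b j)) ?_ ?_ ?_ ?_ ?_ ?_
  · filter_upwards [eventually_gt_atTop (0 : ℝ)] with L hL i using sm_good v (ha i) hL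
  · filter_upwards [eventually_gt_atTop (0 : ℝ)] with L hL i using sm_good v (hb i) hL
  · exact fun i n => sm_tendsto hv (a i) n
  · exact fun i n => sm_tendsto hv (b i) n
  · exact Eventually.of_forall fun L i j => sm_summable v (a i) (b j) L
  · intro i j
    have h := prime_small hv (add_nonneg (ha i) (hb j))
    refine h.congr fun L => ?_
    rw [sm_tsum]

/-- the twist -/
lemma sm_twist (v y L : ℝ) (n : ℕ) : sm_f v 0 L n = (n : ℝ) ^ (y / L) * sm_f v y L n := by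
  refine ZetaMoment.cmf_twist (fun p hp => ?_) n
  have hp0 : (0 : ℝ) < p := by exact_mod_cast hp.pos
  unfold sm_w
  split_ifs
  · rw [Real.rpow_def_of_pos hp0, ← Real.exp_add]
    congr 1; ring
  · simp

/-! ## truncation -/

lemma sm_pr (m : ℕ) (v y L : ℝ) :
    ZetaMoment.pr (fun _ : Fin (m + 1) => sm_f v y L) = sm_f v y L ^ (m + 1) := by
  simp [ZetaMoment.pr]

/-- one twisted factor -/
def smE (m : ℕ) (y : ℝ) : Fin (m + 1) → ℝ := Fin.cons 0 (fun _ => y)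

lemma smE_nonneg (m : ℕ) {y : ℝ} (hy : 0 ≤ y) (i : Fin (m + 1)) : 0 ≤ smE m y i := by
  refine Fin.cases ?_ (fun i => ?_) i
  · simp [smE]
  · simpa [smE] using hy

lemma sm_pr' (m : ℕ) (v y L : ℝ) :
    ZetaMoment.pr (fun i : Fin (m + 1) => sm_f v (smE m y i) L) =
      sm_f v 0 L * sm_f v y L ^ m := by
  simp [ZetaMoment.pr, smE, Fin.prod_univ_succ]

lemma sm_trunc (m : ℕ) {v y L X : ℝ} (hy : 0 ≤ y) (hL : 0 < L) (hX : 0 < X) (n : ℕ) :
    (sm_f v y L ^ (m + 1)) n - (ZetaMoment.tr ⌊X⌋₊ (sm_f v y L) ^ (m + 1)) n ≤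
      (m + 1) * (X ^ (-(y / L)) * (sm_f v 0 L * sm_f v y L ^ m) n) := by
  set a := sm_f v y L with ha
  have hag : ZetaMoment.Good a := sm_good v hy hL
  set g : ArithmeticFunction ℝ := ⟨fun n => X ^ (-(y / L)) * sm_f v 0 L n, by simp⟩ with hgdef
  have hb : ∀ n, 0 ≤ ZetaMoment.tr ⌊X⌋₊ a n := fun n => ZetaMoment.tr_nonneg hag.nonneg n
  have hba : ∀ n, ZetaMoment.tr ⌊X⌋₊ a n ≤ a n := fun n => ZetaMoment.tr_le hag.nonneg n
  have hN : ∀ n : ℕ, ⌊X⌋₊ < n → X ≤ n := fun n hn => (Nat.lt_of_floor_lt hn).le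
  have hg : ∀ n, a n - ZetaMoment.tr ⌊X⌋₊ a n ≤ g n := fun n =>
    ZetaMoment.truncG_err hag.nonneg (fun n => sm_twist v y L n) (by positivity) hX hN n
  have key := ZetaMoment.pow_sub_pow_le hb hba hg m n
  refine key.trans (le_of_eq ?_)
  congr 1
  rw [ArithmeticFunction.mul_apply, mul_comm (sm_f v 0 L) (a ^ m), ArithmeticFunction.mul_apply,
    Finset.mul_sum]
  refine Finset.sum_congr rfl fun p _ => ?_
  change _ * (X ^ (-(y / L)) * sm_f v 0 L p.2) = _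
  ring

lemma sm_lower (m : ℕ) {v y L X : ℝ} (hy : 0 ≤ y) (hL : 0 < L) (hX : 0 < X) :
    ZetaMoment.FG (fun _ : Fin (m + 1) => sm_f v y L) (fun _ => sm_f v y L) -
      2 * (m + 1) * X ^ (-(y / L)) *
        ZetaMoment.FG (fun i : Fin (m + 1) => sm_f v (smE m y i) L) (fun _ => sm_f v y L) ≤
      ∑' n : ℕ, ((ZetaMoment.tr ⌊X⌋₊ (sm_f v y L) ^ (m + 1) : ArithmeticFunction ℝ) n) ^ 2 / n := by
  set a := sm_f v y L with ha
  have hag : ZetaMoment.Good a := sm_good v hy hL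
  have g0 : ∀ _ : Fin (m + 1), ZetaMoment.Good a := fun _ => hag
  have g1 : ∀ i : Fin (m + 1), ZetaMoment.Good (sm_f v (smE m y i) L) := fun i =>
    sm_good v (smE_nonneg m hy i) hL
  have s0 := ZetaMoment.tG_summable g0 g0 (fun i j => sm_summable v y y L)
  have s1 := ZetaMoment.tG_summable g1 g0 (fun i j => sm_summable v (smE m y i) y L)
  have hpow : ∀ n, 0 ≤ (a ^ (m + 1)) n := fun n => ZetaMoment.pow_nonneg'' hag.nonneg _ n
  have hb0 : ∀ n, 0 ≤ (ZetaMoment.tr ⌊X⌋₊ a ^ (m + 1)) n := fun n =>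
    ZetaMoment.pow_nonneg'' (fun n => ZetaMoment.tr_nonneg hag.nonneg n) _ n
  have hba : ∀ n, (ZetaMoment.tr ⌊X⌋₊ a ^ (m + 1)) n ≤ (a ^ (m + 1)) n := fun n =>
    ZetaMoment.pow_le_pow'' (fun n => ZetaMoment.tr_nonneg hag.nonneg n)
      (fun n => ZetaMoment.tr_le hag.nonneg n) _ n
  have e0 : ∀ n : ℕ, ZetaMoment.tG (fun _ : Fin (m + 1) => a) (fun _ => a) n =
      (a ^ (m + 1)) n * (a ^ (m + 1)) n / n := by
    intro n
    rw [ZetaMoment.tG, sm_pr]
  have e1 : ∀ n : ℕ, ZetaMoment.tG (fun i : Fin (m + 1) => sm_f v (smE m y i) L) (fun _ => a) n =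
      (sm_f v 0 L * a ^ m) n * (a ^ (m + 1)) n / n := by
    intro n
    rw [ZetaMoment.tG, sm_pr, sm_pr']
  have s2 : Summable fun n : ℕ =>
      ((ZetaMoment.tr ⌊X⌋₊ a ^ (m + 1) : ArithmeticFunction ℝ) n) ^ 2 / (n : ℝ) := by
    refine Summable.of_nonneg_of_le (fun n => by positivity) (fun n => ?_) s0
    rw [e0, sq]
    have h1 := hb0 n
    have h2 := hba n
    have h3 := h1.trans h2
    gcongr
  have e2 : ZetaMoment.FG (fun _ : Fin (m + 1) => a) (fun _ => a) -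
      2 * (m + 1) * X ^ (-(y / L)) *
        ZetaMoment.FG (fun i : Fin (m + 1) => sm_f v (smE m y i) L) (fun _ => a) =
      ∑' n : ℕ, (ZetaMoment.tG (fun _ : Fin (m + 1) => a) (fun _ => a) n -
        2 * (m + 1) * X ^ (-(y / L)) *
          ZetaMoment.tG (fun i : Fin (m + 1) => sm_f v (smE m y i) L) (fun _ => a) n) := by
    rw [s0.tsum_sub (s1.mul_left _), tsum_mul_left]
    rfl
  rw [e2]
  refine Summable.tsum_le_tsum (fun n => ?_) (s0.sub (s1.mul_left _)) s2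
  rw [e0, e1]
  have h1 := hb0 n
  have h2 := hba n
  have h3 := hpow n
  have h4 := sm_trunc m (v := v) hy hL hX n
  rw [← ha] at h4
  set A := (a ^ (m + 1)) n
  set B := (ZetaMoment.tr ⌊X⌋₊ a ^ (m + 1)) n
  set C := (sm_f v 0 L * a ^ m) n
  set W := X ^ (-(y / L))
  have h5 : A * A - 2 * (m + 1) * W * (C * A) ≤ B ^ 2 := by
    have h6 : (A - B) * (A + B) ≤ ((m + 1) * (W * C)) * (2 * A) := by
      have h7 : 0 ≤ A - B := by linarith
      calc (A - B) * (A + B) ≤ (A - B) * (2 * A) := by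
            apply mul_le_mul_of_nonneg_left _ h7; linarith
        _ ≤ _ := by
            apply mul_le_mul_of_nonneg_right h4; linarith
    nlinarith
  have h8 : A * A / (n : ℝ) - 2 * (m + 1) * W * (C * A / n) =
      (A * A - 2 * (m + 1) * W * (C * A)) / n := by ring
  rw [h8]
  gcongr

lemma sm_sum0 (m : ℕ) (v y : ℝ) :
    ∑ _q : Fin (m + 1) × Fin (m + 1), el0 v (y + y) = ((m : ℝ) + 1) ^ 2 * el0 v (y + y) := by
  rw [Finset.sum_const, Finset.card_univ, Fintype.card_prod, Fintype.card_fin, nsmul_eq_mul]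
  push_cast; ring

lemma sm_sum1 (m : ℕ) (v y : ℝ) :
    ∑ q : Fin (m + 1) × Fin (m + 1), el0 v (smE m y q.1 + y) =
      ((m : ℝ) + 1) ^ 2 * el0 v (y + y) + ((m : ℝ) + 1) * (el0 v y - el0 v (y + y)) := by
  rw [Fintype.sum_prod_type]
  simp only [Finset.sum_const, Finset.card_univ, Fintype.card_fin, nsmul_eq_mul]
  rw [Fin.sum_univ_succ]
  simp only [smE, Fin.cons_zero, Fin.cons_succ, Finset.sum_const, Finset.card_univ,
    Fintype.card_fin, nsmul_eq_mul, zero_add]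
  push_cast; ring

/-- everything for one fixed `k = m + 1` -/
lemma sm_main (m : ℕ) {ε w₀ z h : ℝ} (hε : 0 < ε) (hw : 0 < w₀)
    (hwε : w₀ ≤ ε / 128) (hh : 0 < h) (hhz : h ≤ z / 4)
    (hk1 : 2 * ((m : ℝ) + 1) * Real.exp (-(h * (m + 1))) ≤ 1 / 4)
    (hk2 : 2 ≤ ((m : ℝ) + 1) ^ 2 * z) :
    ∀ᶠ L : ℝ in atTop,
      aG (Fin (m + 1)) * Real.exp (((m : ℝ) + 1) ^ 2 * (Real.eulerMascheroniConstant +
        Real.log (2 * w₀ / ((m : ℝ) + 1) ^ 2) - z)) * L ^ ((m + 1) * (m + 1)) ≤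
      ∑' n : ℕ, ((ZetaMoment.tr ⌊Real.exp (ε * L / (32 * ((m : ℝ) + 1)))⌋₊
        (sm_f (2 * w₀ / ((m : ℝ) + 1) ^ 2) (h / (2 * w₀ / ((m : ℝ) + 1) ^ 2)) L) ^ (m + 1) :
          ArithmeticFunction ℝ) n) ^ 2 / n := by
  obtain ⟨k, hk⟩ : ∃ k : ℝ, k = (m : ℝ) + 1 := ⟨_, rfl⟩
  rw [← hk] at hk1 hk2 ⊢
  have hk0 : 0 < k := by rw [hk]; positivity
  obtain ⟨v, hv⟩ : ∃ v : ℝ, v = 2 * w₀ / k ^ 2 := ⟨_, rfl⟩
  rw [← hv]
  have hv0 : 0 < v := by rw [hv]; positivity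
  obtain ⟨y, hy⟩ : ∃ y : ℝ, y = h / v := ⟨_, rfl⟩
  rw [← hy]
  have hy0 : 0 < y := by rw [hy]; positivity
  have hyv : y * v = h := by rw [hy]; field_simp
  have t0 := sm_FG (ι := Fin (m + 1)) hv0 (a := fun _ => y) (b := fun _ => y) (fun _ => hy0.le)
    (fun _ => hy0.le)
  have t1 := sm_FG (ι := Fin (m + 1)) hv0 (a := smE m y) (b := fun _ => y)
    (smE_nonneg m hy0.le) (fun _ => hy0.le)
  simp only [Fintype.card_fin] at t0 t1
  rw [sm_sum0, ← hk] at t0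
  rw [sm_sum1, ← hk] at t1
  obtain ⟨A, hA⟩ : ∃ A : ℝ, A = aG (Fin (m + 1)) := ⟨_, rfl⟩
  have hA0 : 0 < A := by rw [hA]; exact Real.exp_pos _
  obtain ⟨e2, he2⟩ : ∃ e2 : ℝ, e2 = el0 v (y + y) := ⟨_, rfl⟩
  obtain ⟨e1, he1⟩ : ∃ e1 : ℝ, e1 = el0 v y := ⟨_, rfl⟩
  rw [← hA, ← he2] at t0
  rw [← hA, ← he2, ← he1] at t1
  rw [← hA]
  -- the constants
  have f1 : Real.eulerMascheroniConstant + Real.log v - z / 2 ≤ e2 := by
    have h1 := sm_J_le (2 * h) (by positivity)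
    have h2 : (y + y) * v = 2 * h := by linarith
    rw [he2, el0]
    simp only [h2]
    linarith
  have f2 : e1 - e2 ≤ h := by
    have h1 := sm_J_sub h hh.le
    have h2 : (y + y) * v = 2 * h := by linarith
    rw [he1, he2, el0, el0]
    simp only [h2, hyv]
    linarith
  -- the limit
  obtain ⟨W, hW⟩ : ∃ W : ℝ, W = Real.exp (-(2 * h * k)) := ⟨_, rfl⟩
  have hW0 : 0 < W := by rw [hW]; exact Real.exp_pos _
  have t2 := t0.sub (t1.const_mul (2 * k * W))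
  have hlim : A * Real.exp (k ^ 2 * (Real.eulerMascheroniConstant + Real.log v - z)) <
      A * Real.exp (k ^ 2 * e2) - 2 * k * W * (A * Real.exp (k ^ 2 * e2 + k * (e1 - e2))) := by
    have g1 : 2 * k * W * Real.exp (k * (e1 - e2)) ≤ 1 / 4 := by
      refine le_trans ?_ hk1
      rw [hW, mul_assoc, ← Real.exp_add]
      gcongr
      nlinarith
    have g2 : Real.exp (k ^ 2 * (Real.eulerMascheroniConstant + Real.log v - z)) <
        3 / 4 * Real.exp (k ^ 2 * e2) := by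
      have g3 : k ^ 2 * (Real.eulerMascheroniConstant + Real.log v - z) ≤ k ^ 2 * e2 - 1 := by
        nlinarith [mul_le_mul_of_nonneg_left f1 (sq_nonneg k)]
      have g4 : Real.exp (k ^ 2 * e2 - 1) < 3 / 4 * Real.exp (k ^ 2 * e2) := by
        rw [Real.exp_sub, div_lt_iff₀ (Real.exp_pos 1)]
        have g5 : (2 : ℝ) < Real.exp 1 := by
          have := Real.exp_one_gt_d9; linarith
        nlinarith [Real.exp_pos (k ^ 2 * e2)]
      exact (Real.exp_le_exp.mpr g3).trans_lt g4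
    have g6 : A * Real.exp (k ^ 2 * e2) -
        2 * k * W * (A * Real.exp (k ^ 2 * e2 + k * (e1 - e2))) =
        A * (Real.exp (k ^ 2 * e2) * (1 - 2 * k * W * Real.exp (k * (e1 - e2)))) := by
      rw [Real.exp_add]; ring
    rw [g6]
    apply mul_lt_mul_of_pos_left _ hA0
    refine g2.trans_le ?_
    nlinarith [Real.exp_pos (k ^ 2 * e2)]
  have hev := t2.eventually (lt_mem_nhds hlim)
  filter_upwards [hev, eventually_gt_atTop (0 : ℝ)] with L h1 hL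
  have hX : 0 < Real.exp (ε * L / (32 * k)) := Real.exp_pos _
  have h2 := sm_lower m (v := v) hy0.le hL hX
  rw [← hk] at h2
  have hP : 0 < L ^ ((m + 1) * (m + 1)) := by positivity
  refine le_trans ?_ h2
  have h3 := (mul_lt_mul_of_pos_right h1 hP).le
  refine h3.trans ?_
  have h4 : (Real.exp (ε * L / (32 * k))) ^ (-(y / L)) ≤ W := by
    rw [← Real.exp_mul, hW]
    apply Real.exp_le_exp.mpr
    have h5 : ε * L / (32 * k) * -(y / L) = -(ε * y / (32 * k)) := by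
      field_simp
    rw [h5]
    have h6 : ε * y / (32 * k) = ε * h * k / (64 * w₀) := by
      rw [hy, hv]; field_simp; ring
    rw [h6, neg_le_neg_iff, le_div_iff₀ (by positivity)]
    have h7 : 128 * w₀ ≤ ε := by linarith
    have h8 : 0 ≤ h * k := by positivity
    nlinarith [mul_le_mul_of_nonneg_left h7 h8]
  have hF : 0 ≤ ZetaMoment.FG (fun i : Fin (m + 1) => sm_f v (smE m y i) L)
      (fun _ => sm_f v y L) :=
    tsum_nonneg fun n => ZetaMoment.tG_nonneg (fun i => sm_good v (smE_nonneg m hy0.le i) hL)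
      (fun _ => sm_good v hy0.le hL) n
  have h9 : (ZetaMoment.FG (fun _ : Fin (m + 1) => sm_f v y L) (fun _ => sm_f v y L) /
      L ^ ((m + 1) * (m + 1)) - 2 * k * W *
      (ZetaMoment.FG (fun i : Fin (m + 1) => sm_f v (smE m y i) L) (fun _ => sm_f v y L) /
      L ^ ((m + 1) * (m + 1)))) * L ^ ((m + 1) * (m + 1)) =
      ZetaMoment.FG (fun _ : Fin (m + 1) => sm_f v y L) (fun _ => sm_f v y L) -
      2 * k * W *
      ZetaMoment.FG (fun i : Fin (m + 1) => sm_f v (smE m y i) L) (fun _ => sm_f v y L) := by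
    field_simp
  rw [h9]
  have h10 : 2 * k * (Real.exp (ε * L / (32 * k))) ^ (-(y / L)) *
      ZetaMoment.FG (fun i : Fin (m + 1) => sm_f v (smE m y i) L) (fun _ => sm_f v y L) ≤
      2 * k * W *
      ZetaMoment.FG (fun i : Fin (m + 1) => sm_f v (smE m y i) L) (fun _ => sm_f v y L) := by
    gcongr
  linarith

lemma sm_ne_zero {v y L : ℝ} {n : ℕ} (hn : sm_f v y L n ≠ 0) {p : Nat.Primes}
    (hp : (p : ℕ) ∣ n) : Real.log ((p : ℕ) : ℝ) ≤ v * L := by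
  obtain ⟨c, hc⟩ := hp
  rw [hc, sm_f, ZetaMoment.cmf_mul, ZetaMoment.cmf_prime _ p.2] at hn
  have h1 := left_ne_zero_of_mul hn
  by_contra h2
  rw [sm_w, if_neg h2] at h1
  exact h1 rfl

theorem small_primes {ε w₀ z : ℝ} (hε : 0 < ε) (hε1 : ε ≤ 1) (hw : 0 < w₀)
    (hwε : w₀ ≤ ε / 128) (hz : 0 < z) :
    ∀ᶠ k : ℕ in atTop, ∀ᶠ T : ℝ in atTop, ∃ R : TP,
      (∀ q, 0 ≤ R.coeff q) ∧ (∀ q, R.coeff q ≤ wr 1 q) ∧
      Prm R {p | Real.log ((p : ℕ) : ℝ) ≤ 2 * w₀ / k ^ 2 * Real.log T} ∧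
      Len R (ε / (32 * k) * Real.log T) ∧ nrm R ^ (2 * k) ≤ T ∧
      aG (Fin k) * Real.exp (k ^ 2 * (Real.eulerMascheroniConstant + Real.log (2 * w₀ / k ^ 2) -
        z)) * Real.log T ^ (k * k) ≤ (R ^ k * st R ^ k).coeff 0 := by
  obtain ⟨h, hh⟩ : ∃ h : ℝ, h = min 1 (z / 4) := ⟨_, rfl⟩
  have hh0 : 0 < h := by rw [hh]; exact lt_min one_pos (by positivity)
  have hhz : h ≤ z / 4 := by rw [hh]; exact min_le_right _ _
  have ev1 := tendsto_natCast_atTop_atTop (R := ℝ) |>.eventually (ZetaMoment.exp_small hh0)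
  have ev2 := tendsto_natCast_atTop_atTop (R := ℝ) |>.eventually (eventually_ge_atTop (2 / z))
  filter_upwards [ev1, ev2, eventually_ge_atTop 1] with k k1 k2 k3
  obtain ⟨m, rfl⟩ : ∃ m, k = m + 1 := ⟨k - 1, by omega⟩
  push_cast at k1 k2 ⊢
  have hk1 : (1 : ℝ) ≤ (m : ℝ) + 1 := by linarith [Nat.cast_nonneg (α := ℝ) m]
  have c1 : 2 * ((m : ℝ) + 1) * Real.exp (-(h * (m + 1))) ≤ 1 / 4 := by
    have h1 : Real.exp (1 - ((m : ℝ) + 1) * h) = Real.exp 1 * Real.exp (-(h * (m + 1))) := by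
      rw [← Real.exp_add]; congr 1; ring
    rw [h1] at k1
    have h2 : (2 : ℝ) ≤ Real.exp 1 := by
      have := Real.exp_one_gt_d9; linarith
    have h3 := Real.exp_pos (-(h * ((m : ℝ) + 1)))
    calc 2 * ((m : ℝ) + 1) * Real.exp (-(h * (m + 1)))
        = ((m : ℝ) + 1) * (2 * Real.exp (-(h * (m + 1)))) := by ring
      _ ≤ ((m : ℝ) + 1) * (Real.exp 1 * Real.exp (-(h * (m + 1)))) := by gcongr
      _ ≤ 1 / 4 := k1
  have c2 : 2 ≤ ((m : ℝ) + 1) ^ 2 * z := by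
    rw [div_le_iff₀ hz] at k2
    nlinarith
  have main := Real.tendsto_log_atTop.eventually (sm_main m hε hw hwε hh0 hhz c1 c2)
  have evT : ∀ᶠ T : ℝ in atTop, (4 : ℝ) ^ (m + 1) ≤ T ^ (31 / 32 : ℝ) :=
    (tendsto_rpow_atTop (by norm_num)).eventually (eventually_ge_atTop _)
  filter_upwards [main, evT, eventually_gt_atTop (1 : ℝ)] with T hT1 hT2 hT3
  have hT0 : 0 < T := by linarith
  have hL : 0 < Real.log T := Real.log_pos hT3
  set L := Real.log T with hLdef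
  set v : ℝ := 2 * w₀ / ((m : ℝ) + 1) ^ 2 with hv
  set y : ℝ := h / v with hy
  have hv0 : 0 < v := by rw [hv]; positivity
  have hy0 : 0 < y := by rw [hy]; positivity
  set X : ℝ := Real.exp (ε * L / (32 * ((m : ℝ) + 1))) with hX
  have hX1 : 1 ≤ X := Real.one_le_exp (by positivity)
  have hN1 : 1 ≤ ⌊X⌋₊ := Nat.le_floor (by simpa using hX1)
  have hNX : (⌊X⌋₊ : ℝ) ≤ X := Nat.floor_le (by linarith)
  have hg := sm_good v hy0.le hL
  refine ⟨Dp ⌊X⌋₊ (sm_f v y L), fun q => Dp_nonneg _ hg.nonneg q,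
    fun q => Dp_le _ (fun n => sm_le_one v hy0.le hL n) q, ?_, ?_, ?_, ?_⟩
  · exact Dp_Prm _ _ _ fun n _ hn p hp => sm_ne_zero hn hp
  · refine (Dp_Len ⌊X⌋₊ hN1 _).mono ?_
    have h1 : Real.log (⌊X⌋₊ : ℝ) ≤ Real.log X :=
      Real.log_le_log (by exact_mod_cast hN1) hNX
    rw [hX, Real.log_exp] at h1
    refine h1.trans (le_of_eq ?_)
    ring
  · have h1 : nrm (Dp ⌊X⌋₊ (sm_f v y L)) ≤ 2 * Real.sqrt X := by
      refine (Dp_nrm ⌊X⌋₊ (fun n => ?_)).trans ?_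
      · rw [abs_of_nonneg (hg.nonneg n)]
        exact sm_le_one v hy0.le hL n
      · gcongr
    have h0 : 0 ≤ nrm (Dp ⌊X⌋₊ (sm_f v y L)) := nrm_nonneg _
    calc nrm (Dp ⌊X⌋₊ (sm_f v y L)) ^ (2 * (m + 1)) ≤ (2 * Real.sqrt X) ^ (2 * (m + 1)) := by
          gcongr
      _ = 4 ^ (m + 1) * X ^ (m + 1) := by
          rw [pow_mul, mul_pow, Real.sq_sqrt (by linarith), mul_pow]; norm_num
      _ ≤ T ^ (31 / 32 : ℝ) * T ^ (1 / 32 : ℝ) := by
          have h2 : X ^ (m + 1) ≤ T ^ (1 / 32 : ℝ) := by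
            rw [hX, ← Real.exp_nat_mul, Real.rpow_def_of_pos hT0]
            apply Real.exp_le_exp.mpr
            have h3 : ((m + 1 : ℕ) : ℝ) * (ε * L / (32 * ((m : ℝ) + 1))) = ε * L / 32 := by
              push_cast; field_simp
            rw [h3, ← hLdef]
            nlinarith
          gcongr
      _ = T := by
          rw [← Real.rpow_add hT0]; norm_num
  · rw [Dp_sq]
    exact hT1

end Pool.Agent.MomW
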