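import Pool.Agent.Lib_MP_112ba8_w.MainIneq
import Pool.Agent.Lib_MP_112ba8_w.Small
import Pool.Agent.Lib_MP_112ba8_w.Blocks
import Pool.Agent.Lib_MP_112ba8_w.HermC
import Pool.Agent.Lib_MP_112ba8_w.ParamW

/-!
# Piece AS: assembly (helper5)
-/

namespace Pool.Agent.MomW

open Filter Topology MeasureTheory
open Pool.Agent.SixthMoment (QQ ln fr osc)
open Pool.Agent.ZetaMoment (wt Wm C0 aG DP)

lemma tail_k {a₀ : ℝ} (C : ℝ) (ha : 0 < a₀) : ∀ᶠ k : ℕ in atTop,
    (k : ℝ) ^ (-(a₀ * (k : ℝ) ^ 2)) * (Real.exp (C * (k : ℝ) ^ 2) + 1) ≤ 1 / 4 := by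
  have h1 : Tendsto (fun k : ℕ => Real.log (k : ℝ)) atTop atTop :=
    Real.tendsto_log_atTop.comp tendsto_natCast_atTop_atTop
  filter_upwards [h1.eventually_ge_atTop ((|C| + 3) / a₀), eventually_ge_atTop 1] with k hk hk1
  have hk0 : (1 : ℝ) ≤ k := by exact_mod_cast hk1
  have hkp : (0 : ℝ) < k := by linarith
  rw [div_le_iff₀ ha] at hk
  have h2 : (1 : ℝ) ≤ (k : ℝ) ^ 2 := one_le_pow₀ hk0
  have h3 : Real.exp (C * (k : ℝ) ^ 2) + 1 ≤ 2 * Real.exp (|C| * (k : ℝ) ^ 2) := by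
    have e1 : Real.exp (C * (k : ℝ) ^ 2) ≤ Real.exp (|C| * (k : ℝ) ^ 2) :=
      Real.exp_le_exp.mpr (mul_le_mul_of_nonneg_right (le_abs_self C) (by positivity))
    have e2 : 1 ≤ Real.exp (|C| * (k : ℝ) ^ 2) := Real.one_le_exp (by positivity)
    linarith
  rw [Real.rpow_def_of_pos hkp]
  calc Real.exp (Real.log k * -(a₀ * (k : ℝ) ^ 2)) * (Real.exp (C * (k : ℝ) ^ 2) + 1)
      ≤ Real.exp (Real.log k * -(a₀ * (k : ℝ) ^ 2)) * (2 * Real.exp (|C| * (k : ℝ) ^ 2)) :=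
        mul_le_mul_of_nonneg_left h3 (Real.exp_pos _).le
    _ = 2 * Real.exp (Real.log k * -(a₀ * (k : ℝ) ^ 2) + |C| * (k : ℝ) ^ 2) := by
        rw [Real.exp_add]; ring
    _ ≤ 2 * Real.exp (-3) := by
        refine mul_le_mul_of_nonneg_left (Real.exp_le_exp.mpr ?_) (by norm_num)
        have e3 : (|C| + 3) * (k : ℝ) ^ 2 ≤ Real.log k * a₀ * (k : ℝ) ^ 2 :=
          mul_le_mul_of_nonneg_right hk (by positivity)
        nlinarith
    _ ≤ 1 / 4 := by
        have e4 : Real.exp (-3) ≤ 1 / 8 := by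
          rw [Real.exp_neg, inv_le_comm₀ (Real.exp_pos _) (by norm_num)]
          have e5 : (2 : ℝ) ≤ Real.exp 1 := by
            have := Real.add_one_le_exp (1 : ℝ)
            linarith
          have e6 : Real.exp 3 = Real.exp 1 ^ 3 := by
            rw [← Real.exp_nat_mul]; norm_num
          rw [e6]
          have e7 : (2 : ℝ) ^ 3 ≤ Real.exp 1 ^ 3 := pow_le_pow_left₀ (by norm_num) e5 3
          norm_num at e7 ⊢
          linarith
        linarith

lemma const_k (A B : ℝ) {η : ℝ} (hη : 0 < η) : ∀ᶠ k : ℕ in atTop,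
    2 * (k : ℝ) * A - B ≤ η * (k : ℝ) ^ 2 := by
  have h1 : Tendsto (fun k : ℕ => (k : ℝ)) atTop atTop := tendsto_natCast_atTop_atTop
  filter_upwards [h1.eventually_ge_atTop ((2 * |A| + |B|) / η), eventually_ge_atTop 1] with k hk hk1
  have hk0 : (1 : ℝ) ≤ k := by exact_mod_cast hk1
  rw [div_le_iff₀ hη] at hk
  have h2 : 2 * (k : ℝ) * A ≤ 2 * k * |A| :=
    mul_le_mul_of_nonneg_left (le_abs_self A) (by positivity)
  have h3 : -B ≤ k * |B| := by
    have := neg_le_abs B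
    have h4 : |B| ≤ k * |B| := le_mul_of_one_le_left (abs_nonneg _) hk0
    linarith
  have h4 : (2 * |A| + |B|) * k ≤ (k * η) * k := mul_le_mul_of_nonneg_right hk (by positivity)
  nlinarith

/-- The inequality for a fixed `k`. -/
theorem fixed_k {ε w ρ κ E C T₀ : ℝ} {β : ℝ → ℝ} {J k : ℕ} (hε : 0 < ε)
    (hw : 0 < w) (hρ : 1 < ρ) (hκ : 0 < κ) (hβ : Cut β) (hk : 1 ≤ k) (hE : 0 < E) (hC : 0 < C)
    (hmain : ∀ T : ℝ, T₀ ≤ T → ∀ F G : TP,
      Len F ((2 - ε) * Real.log T) → Len G ((2 - ε) * Real.log T) →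
      nrm F ≤ T ^ 3 → nrm G ≤ T ^ 3 → 0 ≤ G.coeff 0 →
      (∀ t : ℝ, ∃ x : ℝ, 0 ≤ x ∧ ev t G = (x : ℂ) ∧ ‖ev t F‖ ^ (2 * k) = x ^ (2 * k - 1)) →
      ∀ a b : ℝ, 0 ≤ a → 0 < b →
        κ * a ≤ Wm * NB β (ε / 4 * Real.log T) F - C * (1 + G.coeff 0) * T ^ (-(1 / 4) : ℝ) →
        Wm * G.coeff 0 + C / T ≤ b →
        a ^ (2 * k) / b ^ (2 * k - 1) ≤
          (1 / T) * ∫ t in (0 : ℝ)..T, ‖riemannZeta (1 / 2 + t * Complex.I)‖ ^ (2 * k))
    (B : ℕ → Polynomial ℝ)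
    (hlen : ∑ j ∈ Finset.range J, (4 * (k : ℝ) * (B j).natDegree) * (2 * w / k ^ 2 * ρ ^ (j + 1)) ≤
      2 - ε - ε / 16)
    (hμ : ∀ j ∈ Finset.range J, 0 < GE (Real.log ρ) 0 (B j ^ (4 * k)))
    (hν : ∀ j ∈ Finset.range J, 0 < GE (Real.log ρ) (Real.log ρ / 2) (B j ^ (4 * k - 2)))
    (htail : (k : ℝ) ^ (-(ε / (32 * w * ρ ^ J) * (k : ℝ) ^ 2)) *
      ((∏ j ∈ Finset.range J, GE (Real.log ρ) (k * Real.log ρ / 2) (pab (B j) ^ (4 * k - 2))) +
        ∏ j ∈ Finset.range J, GE (Real.log ρ) (Real.log ρ / 2) (B j ^ (4 * k - 2))) ≤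
      1 / 4 * ∏ j ∈ Finset.range J, GE (Real.log ρ) (Real.log ρ / 2) (B j ^ (4 * k - 2)))
    (hsmall : ∀ᶠ T : ℝ in atTop, ∃ R : TP,
      (∀ q, 0 ≤ R.coeff q) ∧ (∀ q, R.coeff q ≤ wr 1 q) ∧
      Prm R {p | Real.log ((p : ℕ) : ℝ) ≤ 2 * w / k ^ 2 * Real.log T} ∧
      Len R (ε / (32 * k) * Real.log T) ∧ nrm R ^ (2 * k) ≤ T ∧
      E * Real.log T ^ (k * k) ≤ (R ^ k * st R ^ k).coeff 0) :
    ∀ᶠ T : ℝ in atTop,
      2 * Wm / (8 * κ) ^ (2 * k) *
        ((∏ j ∈ Finset.range J, GE (Real.log ρ) (Real.log ρ / 2) (B j ^ (4 * k - 2))) ^ (2 * k) /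
          (∏ j ∈ Finset.range J, GE (Real.log ρ) 0 (B j ^ (4 * k))) ^ (2 * k - 1)) *
        (E * Real.log T ^ (k * k)) ≤
      (1 / T) * ∫ t in (0 : ℝ)..T, ‖riemannZeta (1 / 2 + t * Complex.I)‖ ^ (2 * k) := by
  have hk0 : (0 : ℝ) < k := by exact_mod_cast hk
  have hk1 : (1 : ℝ) ≤ k := by exact_mod_cast hk
  have hρ0 : 0 < ρ := by linarith
  have hWm : 0 < Wm := Pool.Agent.ZetaMoment.Wm_pos
  set Pν := ∏ j ∈ Finset.range J, GE (Real.log ρ) (Real.log ρ / 2) (B j ^ (4 * k - 2)) with hPν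
  set Pμ := ∏ j ∈ Finset.range J, GE (Real.log ρ) 0 (B j ^ (4 * k)) with hPμ
  set Pl := ∏ j ∈ Finset.range J, GE (Real.log ρ) (k * Real.log ρ / 2) (pab (B j) ^ (4 * k - 2))
    with hPl
  have hPν0 : 0 < Pν := Finset.prod_pos hν
  have hPμ0 : 0 < Pμ := Finset.prod_pos hμ
  -- limits of the block products
  have l1 : Tendsto (fun T : ℝ => NR 1 (PB w ρ k J (fun j => B j ^ (4 * k - 2)) (Real.log T)))
      atTop (𝓝 Pν) := by
    have h := (PB_tendsto hw hρ zero_le_one hk J (fun j => B j ^ (4 * k - 2))).comp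
      Real.tendsto_log_atTop
    rw [one_mul] at h
    exact h
  have l0 : Tendsto (fun T : ℝ => NR 0 (PB w ρ k J (fun j => B j ^ (4 * k)) (Real.log T)))
      atTop (𝓝 Pμ) := by
    have h := (PB_tendsto hw hρ le_rfl hk J (fun j => B j ^ (4 * k))).comp
      Real.tendsto_log_atTop
    rw [zero_mul, zero_div] at h
    exact h
  have lk : Tendsto (fun T : ℝ => NR k (PB w ρ k J (fun j => pab (B j) ^ (4 * k - 2))
      (Real.log T))) atTop (𝓝 Pl) :=
    (PB_tendsto hw hρ hk0.le hk J (fun j => pab (B j) ^ (4 * k - 2))).comp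
      Real.tendsto_log_atTop
  have hlogT : Tendsto (fun T : ℝ => E * Real.log T ^ (k * k)) atTop atTop := by
    refine Tendsto.const_mul_atTop hE ?_
    exact (tendsto_pow_atTop (by positivity : k * k ≠ 0)).comp Real.tendsto_log_atTop
  have hT4 : Tendsto (fun T : ℝ => C * (1 + 3 / 2 * Pμ) * T ^ (-(1 / 4) : ℝ)) atTop (𝓝 0) := by
    have h := (tendsto_rpow_neg_atTop (by norm_num : (0 : ℝ) < 1 / 4)).const_mul
      (C * (1 + 3 / 2 * Pμ))
    rwa [mul_zero] at h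
  have hT1 : Tendsto (fun T : ℝ => C / T) atTop (𝓝 0) := tendsto_const_nhds.div_atTop tendsto_id
  set K1 := ∏ j ∈ Finset.range J, cb (B j ^ (4 * k - 2)) with hK1
  set K2 := ∏ j ∈ Finset.range J, cb (B j ^ (4 * k)) with hK2
  have hTε : Tendsto (fun T : ℝ => T ^ ε) atTop atTop := tendsto_rpow_atTop hε
  filter_upwards [hsmall, l1.eventually (lt_mem_nhds (by linarith : 3 / 4 * Pν < Pν)),
    l0.eventually (lt_mem_nhds (by linarith : 1 / 2 * Pμ < Pμ)),
    l0.eventually (gt_mem_nhds (by linarith : Pμ < 3 / 2 * Pμ)),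
    lk.eventually (gt_mem_nhds (by linarith : Pl < Pl + Pν)),
    hlogT.eventually_ge_atTop 1,
    hT4.eventually (gt_mem_nhds (by positivity : 0 < Wm * Pν / 4)),
    hT1.eventually (gt_mem_nhds (by positivity : 0 < Wm * Pμ / 2)),
    eventually_ge_atTop T₀, eventually_gt_atTop (1 : ℝ),
    hTε.eventually_ge_atTop K1, hTε.eventually_ge_atTop K2] with
    T hR e1 e2 e3 e4 e5 e6 e7 hTT₀ hT hTK1 hTK2
  obtain ⟨R, hR0, hR1, hRp, hRl, hRn, hRc⟩ := hR
  have hTp : 0 < T := by linarith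
  set L := Real.log T with hL
  have hL0 : 0 < L := Real.log_pos hT
  set g := PB w ρ k J (fun j => B j ^ (4 * k - 2)) L with hg
  set h := PB w ρ k J (fun j => B j ^ (4 * k)) L with hh
  set gg := PB w ρ k J (fun j => pab (B j) ^ (4 * k - 2)) L with hgg
  set Gs := (R ^ k * st R ^ k).coeff 0 with hGs
  have hGs1 : 1 ≤ Gs := e5.trans hRc
  have hGs0 : 0 < Gs := by linarith
  have hGk : E * L ^ (k * k) ≤ Gs := hRc
  -- primes
  have hdis : Disjoint {p : Nat.Primes | Real.log ((p : ℕ) : ℝ) ≤ 2 * w / k ^ 2 * L}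
      (SA w ρ k J L) := by
    rw [Set.disjoint_left]
    intro p hp hp'
    exact absurd hp'.1 (not_lt.mpr hp)
  -- the constant coefficient
  have hG0 : (R ^ k * st R ^ k * h).coeff 0 = Gs * NR 0 h := by
    rw [← NR_coeff_zero, NR_mul_disj 0 ((hRp.pow k).mul (hRp.st.pow k))
      (Prm_PB hw hρ hL0.le k J _) hdis, NR_coeff_zero]
  -- degrees
  have hdeg : ∀ m : ℕ, m ≤ 4 * k → ∑ j ∈ Finset.range J,
      ((B j ^ m).natDegree : ℝ) * (2 * w / k ^ 2 * ρ ^ (j + 1) * L) ≤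
      (2 - ε - ε / 16) * L := by
    intro m hm
    refine le_trans ?_ (mul_le_mul_of_nonneg_right hlen hL0.le)
    rw [Finset.sum_mul]
    refine Finset.sum_le_sum fun j _ => ?_
    rw [mul_assoc (4 * (k : ℝ) * _)]
    refine mul_le_mul_of_nonneg_right ?_ (by positivity)
    have h1 : (B j ^ m).natDegree ≤ 4 * k * (B j).natDegree :=
      Polynomial.natDegree_pow_le.trans (Nat.mul_le_mul_right _ hm)
    exact_mod_cast h1
  have hRl2 : ∀ m : ℕ, m ≤ k → Len (R ^ k * st R ^ m) (ε / 16 * L) := by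
    intro m hm
    refine ((hRl.pow k).mul (hRl.st.pow m)).mono ?_
    have h1 : (m : ℝ) ≤ k := by exact_mod_cast hm
    have h2 : (k : ℝ) * (ε / (32 * k) * L) + m * (ε / (32 * k) * L) ≤
        (k + k) * (ε / (32 * k) * L) := by
      rw [← add_mul]
      exact mul_le_mul_of_nonneg_right (by linarith) (by positivity)
    refine h2.trans (le_of_eq ?_)
    field_simp
    ring
  have hRn2 : ∀ m : ℕ, m ≤ k → nrm (R ^ k * st R ^ m) ≤ T := by
    intro m hm
    have h1 : nrm (R ^ k * st R ^ m) ≤ nrm R ^ (k + m) := by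
      rw [pow_add]
      refine (nrm_mul_le _ _).trans (mul_le_mul (nrm_pow_le _ _) ?_ (nrm_nonneg _)
        (pow_nonneg (nrm_nonneg _) _))
      refine (nrm_pow_le _ _).trans (le_of_eq ?_)
      rw [nrm_st]
    refine h1.trans ?_
    rcases le_total (nrm R) 1 with h2 | h2
    · exact (pow_le_one₀ (nrm_nonneg R) h2).trans hT.le
    · exact (pow_le_pow_right₀ h2 (by omega)).trans hRn
  have hexp : ∀ m : ℕ, m ≤ 4 * k → (∏ j ∈ Finset.range J, cb (B j ^ m)) ≤ T ^ ε →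
      nrm (PB w ρ k J (fun j => B j ^ m) L) ≤ T ^ 2 := by
    intro m hm hK
    refine (nrm_PB hw hρ hL0.le k J _).trans ?_
    have h1 : Real.exp (∑ j ∈ Finset.range J,
        ((B j ^ m).natDegree : ℝ) * (2 * w / k ^ 2 * ρ ^ (j + 1) * L)) ≤ T ^ (2 - ε) := by
      rw [Real.rpow_def_of_pos hTp]
      refine Real.exp_le_exp.mpr ((hdeg m hm).trans ?_)
      rw [mul_comm (Real.log T)]
      exact mul_le_mul_of_nonneg_right (by linarith) hL0.le
    calc (∏ j ∈ Finset.range J, cb (B j ^ m)) * Real.exp (∑ j ∈ Finset.range J,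
          ((B j ^ m).natDegree : ℝ) * (2 * w / k ^ 2 * ρ ^ (j + 1) * L))
        ≤ T ^ ε * T ^ (2 - ε) := mul_le_mul hK h1 (Real.exp_pos _).le (by positivity)
      _ = T ^ 2 := by
          rw [← Real.rpow_add hTp]
          have : ε + (2 - ε) = ((2 : ℕ) : ℝ) := by push_cast; ring
          rw [this, Real.rpow_natCast]
  have hmul : ∀ x y : TP, nrm x ≤ T → nrm y ≤ T ^ 2 → nrm (x * y) ≤ T ^ 3 := by
    intro x y hx hy
    refine (nrm_mul_le x y).trans ?_
    calc nrm x * nrm y ≤ T * T ^ 2 := mul_le_mul hx hy (nrm_nonneg y) hTp.le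
      _ = T ^ 3 := by ring
  -- the main term
  have hNR : Gs ≤ NR 1 (R ^ k * st R ^ (k - 1)) := by
    have h1 : (R ^ k * st R ^ (k - 1)) * st R = R ^ k * st R ^ k := by
      rw [mul_assoc, ← pow_succ]
      congr 2
      omega
    rw [hGs, ← h1]
    exact coeff_le_NR ((Nn.pow hR0 k).mul ((Nn.st hR0).pow (k - 1))) hR1
  have hTL : TL (ε / 16 * L) g ≤ 1 / 4 * Pν := by
    have h1 := TL_le (Dom_PB w ρ k J B L (4 * k - 2)) hk1 (D := ε / 16 * L)
      (a := ε / (32 * w * ρ ^ J) * (k : ℝ) ^ 2)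
      fun q hq h0 hD => Om_PB hw hρ hL0 hk J _ hq h0 hD
    refine h1.trans (le_trans ?_ htail)
    exact mul_le_mul_of_nonneg_left e4.le (Real.rpow_nonneg hk0.le _)
  have hNB : Gs * (1 / 2 * Pν) ≤ NB β (ε / 4 * L) (R ^ k * st R ^ (k - 1) * g) := by
    have h1 := NB_ge hβ (B := ε / 4 * L) (D := ε / 16 * L) (D1 := ε / 16 * L) (by positivity)
      (by linarith) (f := R ^ k * st R ^ (k - 1)) (g := g)
      ((Nn.pow hR0 k).mul ((Nn.st hR0).pow (k - 1)))
      ((hRp.pow k).mul (hRp.st.pow (k - 1))) (Prm_PB hw hρ hL0.le k J _) hdis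
      (hRl2 (k - 1) (by omega))
    refine le_trans ?_ h1
    refine mul_le_mul hNR ?_ (by positivity) (hGs0.le.trans hNR)
    linarith
  have hfin := hmain T hTT₀ (R ^ k * st R ^ (k - 1) * g) (R ^ k * st R ^ k * h)
    (((hRl2 (k - 1) (by omega)).mul (Len_PB hw hρ hL0.le k J _)).mono (by
      have := hdeg (4 * k - 2) (by omega)
      linarith))
    (((hRl2 k le_rfl).mul (Len_PB hw hρ hL0.le k J _)).mono (by
      have := hdeg (4 * k) le_rfl
      linarith))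
    (hmul _ _ (hRn2 (k - 1) (by omega)) (hexp (4 * k - 2) (by omega) hTK1))
    (hmul _ _ (hRn2 k le_rfl) (hexp (4 * k) le_rfl hTK2))
    (by rw [hG0]; exact mul_nonneg hGs0.le (by linarith))
    (fun t => by
      obtain ⟨x, hx⟩ := ev_PB w ρ k J B L t
      exact ev_cond R _ _ t x hk (hx (4 * k - 2)) (hx (4 * k)))
    (Wm * Gs * Pν / (4 * κ)) (2 * Wm * Gs * Pμ) (by positivity) (by positivity)
    (by
      rw [hG0]
      have h1 : C * (1 + Gs * NR 0 h) * T ^ (-(1 / 4) : ℝ) ≤ Gs * (Wm * Pν / 4) := by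
        have h2 : 1 + Gs * NR 0 h ≤ Gs * (1 + 3 / 2 * Pμ) := by nlinarith
        have h3 : 0 ≤ T ^ (-(1 / 4) : ℝ) := by positivity
        calc C * (1 + Gs * NR 0 h) * T ^ (-(1 / 4) : ℝ)
            ≤ C * (Gs * (1 + 3 / 2 * Pμ)) * T ^ (-(1 / 4) : ℝ) :=
              mul_le_mul_of_nonneg_right (mul_le_mul_of_nonneg_left h2 hC.le) h3
          _ = Gs * (C * (1 + 3 / 2 * Pμ) * T ^ (-(1 / 4) : ℝ)) := by ring
          _ ≤ Gs * (Wm * Pν / 4) := mul_le_mul_of_nonneg_left e6.le hGs0.le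
      have h4 : κ * (Wm * Gs * Pν / (4 * κ)) = Wm * Gs * Pν / 4 := by
        field_simp
      rw [h4]
      have h5 := mul_le_mul_of_nonneg_left hNB hWm.le
      nlinarith)
    (by
      rw [hG0]
      have h1 : Wm * (Gs * NR 0 h) ≤ Wm * (Gs * (3 / 2 * Pμ)) :=
        mul_le_mul_of_nonneg_left (mul_le_mul_of_nonneg_left e3.le hGs0.le) hWm.le
      have h2 : Wm * Pμ / 2 ≤ Gs * (Wm * Pμ / 2) :=
        le_mul_of_one_le_left (by positivity) hGs1
      nlinarith)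
  refine le_trans ?_ hfin
  have e8 : (Wm * Gs * Pν / (4 * κ)) ^ (2 * k) / (2 * Wm * Gs * Pμ) ^ (2 * k - 1) =
      2 * Wm / (8 * κ) ^ (2 * k) * (Pν ^ (2 * k) / Pμ ^ (2 * k - 1)) * Gs := by
    obtain ⟨m, hm⟩ : ∃ m, 2 * k = m + 1 := ⟨2 * k - 1, by omega⟩
    rw [hm, show m + 1 - 1 = m by omega]
    have e9 : (8 * κ) ^ (m + 1) = 2 ^ (m + 1) * (4 * κ) ^ (m + 1) := by
      rw [← mul_pow]; congr 1; ring
    rw [e9, div_pow, mul_pow, mul_pow, mul_pow (2 * Wm * Gs), mul_pow (2 * Wm), mul_pow 2 Wm,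
      pow_succ Gs, pow_succ Wm, pow_succ 2]
    field_simp
  rw [e8]
  exact mul_le_mul_of_nonneg_left hGk (by positivity)

theorem bound_w {η : ℝ} (hη : 0 < η) : ∀ᶠ k : ℕ in atTop, ∀ᶠ T : ℝ in atTop,
    aG (Fin k) * Real.exp ((k : ℝ) ^ 2 * (1 + Real.eulerMascheroniConstant + Real.log 2 - η -
      Real.log ((k : ℝ) ^ 2))) * Real.log T ^ (k * k) ≤
      (1 / T) * ∫ t in (0 : ℝ)..T, ‖riemannZeta (1 / 2 + t * Complex.I)‖ ^ (2 * k) := by
  obtain ⟨ε, w, ρ, θ, J, hε, hε1, hw, hwε, hρ, hθ, hθ1, hlen, hgain⟩ :=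
    params (by positivity : 0 < η / 4)
  have hρ0 : 0 < ρ := by linarith
  have hs : 0 < Real.log ρ := Real.log_pos hρ
  set s := Real.log ρ with hsdef
  set c : ℕ → ℝ := fun j => θ / (1 + w * ρ ^ (j + 1)) with hc
  have hc0 : ∀ j, 0 < c j := fun j => by
    rw [hc]
    positivity
  set δ := η / (4 * (J + 1)) with hδ
  have hδ0 : 0 < δ := by positivity
  obtain ⟨κ, β, hκ, hβ, hmain⟩ := main_ineq
  choose Cj hCj using fun j => hermite_gain hs (hc0 j) hδ0
  have hherm : ∀ᶠ k : ℕ in atTop, ∀ j ∈ Finset.range J, ∃ B : Polynomial ℝ,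
      4 * (k : ℝ) * B.natDegree ≤ c j ^ 2 * s * k ^ 2 ∧
      0 < GE s 0 (B ^ (4 * k)) ∧ 0 < GE s (s / 2) (B ^ (4 * k - 2)) ∧
      Real.exp (k ^ 2 * (s * (2 * c j - c j ^ 2) - δ)) * GE s 0 (B ^ (4 * k)) ^ (2 * k - 1) ≤
        GE s (s / 2) (B ^ (4 * k - 2)) ^ (2 * k) ∧
      GE s (k * s / 2) (pab B ^ (4 * k - 2)) ≤
        Real.exp (Cj j * k ^ 2) * GE s (s / 2) (B ^ (4 * k - 2)) :=
    (Finset.range J).eventually_all.mpr fun j _ => hCj j
  have hsm := small_primes hε hε1.le hw hwε (by positivity : 0 < η / 4)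
  have ht := tail_k (a₀ := ε / (32 * w * ρ ^ J)) (∑ j ∈ Finset.range J, Cj j) (by positivity)
  have hck := const_k (Real.log (8 * κ)) (Real.log (2 * Wm)) (by positivity : 0 < η / 4)
  filter_upwards [hherm, hsm, ht, hck, eventually_ge_atTop 1] with k h1 h2 h3 h4 hk
  have hk0 : (0 : ℝ) < k := by exact_mod_cast hk
  have hWm : 0 < Wm := Pool.Agent.ZetaMoment.Wm_pos
  choose! B hB using h1
  obtain ⟨C, T₀, hC, -, hmT⟩ := hmain ε hε hε1 k hk
  have hPν0 : 0 < ∏ j ∈ Finset.range J, GE s (s / 2) (B j ^ (4 * k - 2)) :=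
    Finset.prod_pos fun j hj => (hB j hj).2.2.1
  have hPμ0 : 0 < ∏ j ∈ Finset.range J, GE s 0 (B j ^ (4 * k)) :=
    Finset.prod_pos fun j hj => (hB j hj).2.1
  have key := fixed_k (E := aG (Fin k) * Real.exp (k ^ 2 * (Real.eulerMascheroniConstant +
      Real.log (2 * w / k ^ 2) - η / 4))) (T₀ := T₀) hε hw hρ hκ hβ hk
    (mul_pos (Real.exp_pos _) (Real.exp_pos _)) hC hmT B ?_ (fun j hj => (hB j hj).2.1)
    (fun j hj => (hB j hj).2.2.1) ?_ h2
  · filter_upwards [key, eventually_ge_atTop (1 : ℝ)] with T hT hT1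
    refine le_trans ?_ hT
    have hL : 0 ≤ Real.log T := Real.log_nonneg hT1
    rw [← hsdef]
    have hprod : Real.exp (k ^ 2 * ∑ j ∈ Finset.range J, (s * (2 * c j - c j ^ 2) - δ)) ≤
        (∏ j ∈ Finset.range J, GE s (s / 2) (B j ^ (4 * k - 2))) ^ (2 * k) /
          (∏ j ∈ Finset.range J, GE s 0 (B j ^ (4 * k))) ^ (2 * k - 1) := by
      rw [le_div_iff₀ (by positivity), ← Finset.prod_pow, ← Finset.prod_pow, Finset.mul_sum,
        Real.exp_sum, ← Finset.prod_mul_distrib]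
      refine Finset.prod_le_prod (fun j hj => ?_) fun j hj => (hB j hj).2.2.2.1
      have := (hB j hj).2.1
      positivity
    have hexp2 : Real.exp ((k : ℝ) ^ 2 * (1 + Real.eulerMascheroniConstant + Real.log 2 - η -
        Real.log ((k : ℝ) ^ 2))) ≤ 2 * Wm / (8 * κ) ^ (2 * k) *
        Real.exp (k ^ 2 * ∑ j ∈ Finset.range J, (s * (2 * c j - c j ^ 2) - δ)) *
        Real.exp (k ^ 2 * (Real.eulerMascheroniConstant +
          Real.log (2 * w / k ^ 2) - η / 4)) := by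
      have e1 : 2 * Wm / (8 * κ) ^ (2 * k) =
          Real.exp (Real.log (2 * Wm) - 2 * k * Real.log (8 * κ)) := by
        rw [Real.exp_sub, Real.exp_log (by positivity)]
        congr 1
        have : 2 * (k : ℝ) * Real.log (8 * κ) = ((2 * k : ℕ) : ℝ) * Real.log (8 * κ) := by
          push_cast; ring
        rw [this, Real.exp_nat_mul, Real.exp_log (by positivity)]
      rw [e1, ← Real.exp_add, ← Real.exp_add]
      refine Real.exp_le_exp.mpr ?_
      have e2 : Real.log (2 * w / (k : ℝ) ^ 2) = Real.log 2 + Real.log w - Real.log ((k : ℝ) ^ 2) := by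
        rw [Real.log_div (by positivity) (by positivity), Real.log_mul (by norm_num) hw.ne']
      rw [e2, Finset.sum_sub_distrib, Finset.sum_const, Finset.card_range, nsmul_eq_mul]
      have e3 : (J : ℝ) * δ ≤ η / 4 := by
        rw [hδ]
        have : (J : ℝ) * (η / (4 * (J + 1))) = (J / (J + 1)) * (η / 4) := by
          field_simp
        rw [this]
        refine mul_le_of_le_one_left (by positivity) ?_
        rw [div_le_one (by positivity)]
        linarith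
      have e4 : 0 ≤ (k : ℝ) ^ 2 * (Real.log w + ∑ j ∈ Finset.range J, s * (2 * c j - c j ^ 2) -
          (J : ℝ) * δ - (1 - η / 4) + η / 4) := by
        refine mul_nonneg (by positivity) ?_
        have := hgain
        linarith
      nlinarith
    calc aG (Fin k) * Real.exp ((k : ℝ) ^ 2 * (1 + Real.eulerMascheroniConstant + Real.log 2 - η -
          Real.log ((k : ℝ) ^ 2))) * Real.log T ^ (k * k)
        ≤ aG (Fin k) * (2 * Wm / (8 * κ) ^ (2 * k) *
        Real.exp (k ^ 2 * ∑ j ∈ Finset.range J, (s * (2 * c j - c j ^ 2) - δ)) *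
        Real.exp (k ^ 2 * (Real.eulerMascheroniConstant +
          Real.log (2 * w / k ^ 2) - η / 4))) * Real.log T ^ (k * k) := by
          refine mul_le_mul_of_nonneg_right ?_ (by positivity)
          exact mul_le_mul_of_nonneg_left hexp2 (Real.exp_pos _).le
      _ = 2 * Wm / (8 * κ) ^ (2 * k) *
        Real.exp (k ^ 2 * ∑ j ∈ Finset.range J, (s * (2 * c j - c j ^ 2) - δ)) *
        (aG (Fin k) * Real.exp (k ^ 2 * (Real.eulerMascheroniConstant +
          Real.log (2 * w / k ^ 2) - η / 4)) * Real.log T ^ (k * k)) := by ring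
      _ ≤ _ := by
          refine mul_le_mul_of_nonneg_right (mul_le_mul_of_nonneg_left hprod (by positivity)) ?_
          have : 0 < aG (Fin k) := Real.exp_pos _
          positivity
  · have h5 : ∀ j ∈ Finset.range J, (4 * (k : ℝ) * (B j).natDegree) *
        (2 * w / k ^ 2 * ρ ^ (j + 1)) ≤ 2 * c j ^ 2 * s * (w * ρ ^ (j + 1)) := by
      intro j hj
      have h6 := mul_le_mul_of_nonneg_right (hB j hj).1
        (by positivity : 0 ≤ 2 * w / (k : ℝ) ^ 2 * ρ ^ (j + 1))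
      refine h6.trans (le_of_eq ?_)
      field_simp
    refine (Finset.sum_le_sum h5).trans ?_
    exact hlen
  · rw [← hsdef]
    have h5 : ∏ j ∈ Finset.range J, GE s (k * s / 2) (pab (B j) ^ (4 * k - 2)) ≤
        Real.exp ((∑ j ∈ Finset.range J, Cj j) * k ^ 2) *
          ∏ j ∈ Finset.range J, GE s (s / 2) (B j ^ (4 * k - 2)) := by
      rw [Finset.sum_mul, Real.exp_sum, ← Finset.prod_mul_distrib]
      refine Finset.prod_le_prod (fun j _ => ?_) fun j hj => (hB j hj).2.2.2.2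
      have e1 : 4 * k - 2 = 2 * (2 * k - 1) := by omega
      rw [e1]
      exact GE_even_nonneg _ _ _ _
    set Pν := ∏ j ∈ Finset.range J, GE s (s / 2) (B j ^ (4 * k - 2)) with hPν
    have h6 : 0 ≤ (k : ℝ) ^ (-(ε / (32 * w * ρ ^ J) * (k : ℝ) ^ 2)) := by positivity
    calc (k : ℝ) ^ (-(ε / (32 * w * ρ ^ J) * (k : ℝ) ^ 2)) *
          ((∏ j ∈ Finset.range J, GE s (k * s / 2) (pab (B j) ^ (4 * k - 2))) + Pν)
        ≤ (k : ℝ) ^ (-(ε / (32 * w * ρ ^ J) * (k : ℝ) ^ 2)) *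
          (Real.exp ((∑ j ∈ Finset.range J, Cj j) * k ^ 2) * Pν + Pν) :=
          mul_le_mul_of_nonneg_left (by linarith) h6
      _ = ((k : ℝ) ^ (-(ε / (32 * w * ρ ^ J) * (k : ℝ) ^ 2)) *
          (Real.exp ((∑ j ∈ Finset.range J, Cj j) * k ^ 2) + 1)) * Pν := by ring
      _ ≤ 1 / 4 * Pν := mul_le_mul_of_nonneg_right h3 hPν0.le

end Pool.Agent.MomW
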