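import Pool.Agent.Lib_MP_112ba8_s.Osc
import Pool.Agent.Lib_MP_112ba8.Final

/-!
Definitions for the lower bound of the high moments of zeta with base `2 e^γ`: trigonometric
polynomials in the `p^{it}` as elements of the group algebra of the positive rationals, block
polynomials, Gaussian averages.
-/

namespace Pool.Agent.MomW

open Filter Topology MeasureTheory
open Pool.Agent.SixthMoment (QQ ln fr osc osc_add osc_zero)
open Pool.Agent.ZetaMoment (wt Wm C0 aG DP)

/-- Trigonometric polynomials in the `p^{it}` with real coefficients: the group algebra of the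
positive rationals (written additively). -/
abbrev TP : Type := AddMonoidAlgebra ℝ QQ

/-- the value at `t`: `single q a ↦ a (h/k)^{it}` for `q = h/k` -/
noncomputable def ev (t : ℝ) : TP →ₐ[ℝ] ℂ :=
  AddMonoidAlgebra.lift ℝ ℂ QQ
    { toFun := fun q => osc q.toAdd t
      map_one' := by rw [toAdd_one, osc_zero]
      map_mul' := fun a b => by rw [toAdd_mul, osc_add] }

/-- the involution `single q a ↦ single (-q) a` (complex conjugation of the values) -/
noncomputable def st : TP →ₐ[ℝ] TP :=
  AddMonoidAlgebra.mapDomainAlgHom ℝ ℝ (negAddMonoidHom : QQ →+ QQ)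

/-- sum of the absolute values of the coefficients -/
noncomputable def nrm (f : TP) : ℝ := f.coeff.sum fun _ a => |a|

/-- all fractions `h/k` of `f` satisfy `log (h k) ≤ B` -/
def Len (f : TP) (B : ℝ) : Prop := ∀ q ∈ f.coeff.support, ln q ≤ B

/-- all fractions of `f` are composed of primes from `S` -/
def Prm (f : TP) (S : Set Nat.Primes) : Prop := ∀ q ∈ f.coeff.support, ∀ p ∈ q.support, p ∈ S

/-- coefficientwise domination `|f| ≤ g` -/
def Dom (f g : TP) : Prop := ∀ q, |f.coeff q| ≤ g.coeff q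

/-- number of prime factors, with sign -/
def Om (q : QQ) : ℤ := q.sum fun _ j => j

/-- `r^{Ω(n)} n^{-1/2}` if the fraction is an integer `n`, and `0` otherwise -/
noncomputable def wr (r : ℝ) (q : QQ) : ℝ :=
  open Classical in if 0 ≤ q then r ^ (Om q).toNat * Real.exp (-(ln q / 2)) else 0

/-- The functional `∑_n f(n) r^{Ω(n)} n^{-1/2}`; `NR 0 f` is the constant coefficient, `NR 1 f` is
the mean value of `ζ(1/2+it) f(t)` over all primes. -/
noncomputable def NR (r : ℝ) (f : TP) : ℝ := f.coeff.sum fun q a => a * wr r q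

/-- the functional `∑_n f(n) n^{-1/2} β(log n / B)` -/
noncomputable def NB (β : ℝ → ℝ) (B : ℝ) (f : TP) : ℝ :=
  f.coeff.sum fun q a => a * (wr 1 q * β (ln q / B))

/-- the prime `p` as a fraction -/
noncomputable def ip (p : Nat.Primes) : QQ := Finsupp.single p 1

/-- `∑_{p ∈ S} p^{-1/2} p^{it}` -/
noncomputable def PS (S : Finset Nat.Primes) : TP :=
  ∑ p ∈ S, AddMonoidAlgebra.single (ip p) (((p : ℕ) : ℝ) ^ (-(1 / 2) : ℝ))

/-- the real part `∑_{p ∈ S} p^{-1/2} cos(t log p)` -/
noncomputable def XX (S : Finset Nat.Primes) : TP := (1 / 2 : ℝ) • (PS S + st (PS S))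

lemma primes_finite (B : ℝ) : {p : Nat.Primes | Real.log ((p : ℕ) : ℝ) ≤ B}.Finite := by
  refine Set.Finite.of_finite_image (f := fun p : Nat.Primes => (p : ℕ)) ?_
    (fun a _ b _ h => Subtype.ext h)
  refine (Set.finite_Iic ⌊Real.exp B⌋₊).subset ?_
  rintro _ ⟨p, hp, rfl⟩
  refine Nat.le_floor ?_
  have hp0 : (0 : ℝ) < ((p : ℕ) : ℝ) := by exact_mod_cast p.2.pos
  rwa [Set.mem_setOf_eq, Real.log_le_iff_le_exp hp0] at hp

/-- the primes with `u L < log p ≤ v L` -/
noncomputable def BP (u v L : ℝ) : Finset Nat.Primes :=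
  open Classical in
  (primes_finite (v * L)).toFinset.filter fun p => u * L < Real.log ((p : ℕ) : ℝ)

lemma mem_BP {u v L : ℝ} {p : Nat.Primes} :
    p ∈ BP u v L ↔ u * L < Real.log ((p : ℕ) : ℝ) ∧ Real.log ((p : ℕ) : ℝ) ≤ v * L := by
  classical
  unfold BP
  rw [Finset.mem_filter, Set.Finite.mem_toFinset, Set.mem_setOf_eq, and_comm]

/-- Gaussian average: `E Q(X + m)` for `X` normal with mean `0` and variance `s / 2`. -/
noncomputable def GE (s m : ℝ) (Q : Polynomial ℝ) : ℝ :=
  ∫ x : ℝ, Q.eval (x + m) * (Real.exp (-(x ^ 2 / s)) / Real.sqrt (Real.pi * s))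

/-- polynomial with the absolute values of the coefficients -/
noncomputable def pab (Q : Polynomial ℝ) : Polynomial ℝ :=
  Q.sum fun n a => Polynomial.monomial n |a|

/-- `log a + γ - ∫_0^1 (1 - e^{-zax}) dx / x` -/
noncomputable def el0 (a z : ℝ) : ℝ :=
  Real.eulerMascheroniConstant + Real.log a -
    ∫ x in (0 : ℝ)..1, (1 - Real.exp (-(z * a * x))) / x

/-- properties of the cut off function of the kernel -/
structure Cut (β : ℝ → ℝ) : Prop where
  nonneg : ∀ x, 0 ≤ β x
  le_one : ∀ x, β x ≤ 1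
  one : ∀ x, |x| ≤ 1 / 2 → β x = 1
  zero : ∀ x, 1 ≤ |x| → β x = 0

end Pool.Agent.MomW
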