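import Pool.Agent.Lib_MP_112ba8_w.Defs

/-!
# Piece HA: bounds for the Hermite polynomials

`He d` are the probabilists' Hermite polynomials (`Polynomial.hermite` of Mathlib over `ℝ`):
`He 0 = 1`, `He (n+1) = X He n - (He n)'`. Put `Sd d = d! d^{-d/2} e^{d/2}`.

PROOFS.
* `He_rec`: first `derivative (He (n+1)) = (n+1) He n` (induction from the definition), then
  `He (n+2) = X He (n+1) - (n+1) He n`.
* `He_upper`: for real `y` the entire function `f(w) = exp (y w - w²/2)` has
  `f^{(n)}(w) = He_n(y - w) f(w)` (induction, by the definition of `He (n+1)`), in particular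
  `iteratedDeriv n f 0 = He_n(y)`. Cauchy's estimate
  (`Complex.norm_iteratedDeriv_le_of_forall_mem_sphere_norm_le`) on the circle `|w| = √d`, with
  `x = Re w`, `Re w² = 2 x² - d`, `|f(w)| = exp (y x - x² + d/2)`:
  `|He_d(y)| ≤ d! d^{-d/2} sup_{|x| ≤ √d} exp (y x - x² + d/2)`, and the exponent is
  `y²/4 + d/2 - (y/2 - x)² ≤ y²/4 + d/2 - (max 0 (|y|/2 - √d))²`.
* `He_lower`, `He_lower'`: let `y ≥ 2√d` and `x_n = (y + √(y² - 4n))/2` for `0 ≤ n ≤ d`
  (`x_n² - y x_n + n = 0`, decreasing in `n`). By induction `He_{n+1}(y) ≥ x_n He_n(y) > 0` for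
  `0 ≤ n < d`: `He_{n+1}/He_n = y - n He_{n-1}/He_n ≥ y - n/x_{n-1} ≥ y - n/x_n = x_n`.
  For `y = 2√d`, `x_n = √d + √(d-n)`, so
  `He_d(2√d) ≥ ∏_{n<d} (√d + √(d-n)) = √d^d ∏_{m=1}^d (1 + √(m/d))`, and
  `∑_{m=1}^d log (1 + √(m/d)) ≥ d ∫_0^1 log (1+√x) dx = d/2` (monotone function, right end
  points; a primitive of `log (1+√x)` is `(x-1) log (1+√x) - x/2 + √x`; or
  `MonotoneOn.integral_le_sum`-type lemmas).
  With `d! ≤ e (d+1) (d/e)^d` (induction or Stirling) we get
  `Sd d ≤ e (d+1) √d^d e^{-d/2} ≤ e (d+1) He_d(2√d) e^{-d}`.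
* `He_mono`: all `He_n` with `n ≤ d` are positive on `[2√d, ∞)` (the induction above works for every
  `y ≥ 2√d`) and `(He_d)' = d He_{d-1}`.
* `He_pab`: `|He|_{n+1}(y) ≤ y |He|_n(y) + n |He|_{n-1}(y)` coefficientwise for `y ≥ 0`, and
  induction on `n ≤ d`: `|He|_n(y) ≤ (y + √d)^n`. (Or from the explicit coefficients
  `coeff_hermite_explicit`.)
-/

namespace Pool.Agent.MomW

open Filter Topology MeasureTheory Polynomial

/-- the probabilists' Hermite polynomials over the reals -/
noncomputable def He (d : ℕ) : ℝ[X] := (Polynomial.hermite d).map (Int.castRingHom ℝ)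

/-- `d! d^{-d/2} e^{d/2}` -/
noncomputable def Sd (d : ℕ) : ℝ := (d.factorial : ℝ) / Real.sqrt d ^ d * Real.exp (d / 2)

private lemma ha_zero : He 0 = 1 := by
  simp [He]

private lemma ha_succ (n : ℕ) : He (n + 1) = X * He n - derivative (He n) := by
  unfold He
  rw [Polynomial.hermite_succ, Polynomial.map_sub, Polynomial.map_mul, Polynomial.map_X,
    Polynomial.derivative_map]

private lemma ha_one : He 1 = X := by
  rw [ha_succ 0, ha_zero]; simp

private lemma ha_der (n : ℕ) : derivative (He (n + 1)) = ((n : ℝ) + 1) • He n := by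
  induction n with
  | zero => rw [zero_add, ha_one, ha_zero]; simp
  | succ n ih =>
    have h1 : He (n + 1 + 1) = X * He (n + 1) - ((n : ℝ) + 1) • He n := by
      rw [ha_succ (n + 1), ih]
    rw [h1, Polynomial.derivative_sub, Polynomial.derivative_mul, Polynomial.derivative_X, ih,
      Polynomial.derivative_smul, one_mul]
    have h2 : He (n + 1) = X * He n - derivative (He n) := ha_succ n
    have h3 : derivative (He n) = X * He n - He (n + 1) := by rw [h2]; ring
    rw [h3, smul_sub, mul_smul_comm]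
    push_cast
    rw [add_smul ((n : ℝ) + 1) 1, one_smul]
    ring

theorem He_rec (n : ℕ) : He (n + 2) = X * He (n + 1) - ((n : ℝ) + 1) • He n := by
  rw [show n + 2 = (n + 1) + 1 from rfl, ha_succ (n + 1), ha_der]

theorem He_natDegree (d : ℕ) : (He d).natDegree = d := by
  unfold He
  rw [Polynomial.natDegree_map_eq_of_injective (RingHom.injective_int (Int.castRingHom ℝ)),
    Polynomial.natDegree_hermite]

private lemma ha_ev_rec (n : ℕ) (y : ℝ) :
    (He (n + 2)).eval y = y * (He (n + 1)).eval y - ((n : ℝ) + 1) * (He n).eval y := by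
  rw [He_rec]; simp

private lemma ha_neg (n : ℕ) (y : ℝ) : (He n).eval (-y) = (-1) ^ n * (He n).eval y := by
  induction n using Nat.strong_induction_on with
  | _ n ih =>
    match n, ih with
    | 0, _ => simp [ha_zero]
    | 1, _ => simp [ha_one]
    | n + 2, ih =>
      rw [ha_ev_rec, ha_ev_rec, ih (n + 1) (by omega), ih n (by omega)]
      ring

theorem He_neg (d : ℕ) (y : ℝ) : |(He d).eval (-y)| = |(He d).eval y| := by
  rw [ha_neg, abs_mul, abs_pow, abs_neg, abs_one, one_pow, one_mul]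

/-- Cauchy estimate -/
private lemma ha_iter (y : ℝ) (n : ℕ) :
    iteratedDeriv n (fun w : ℂ => Complex.exp ((y : ℂ) * w - w ^ 2 / 2)) =
      fun w => aeval ((y : ℂ) - w) (He n) * Complex.exp ((y : ℂ) * w - w ^ 2 / 2) := by
  induction n with
  | zero => funext w; simp [ha_zero]
  | succ n ih =>
    rw [iteratedDeriv_succ, ih]
    funext w
    have h1 : HasDerivAt (fun w : ℂ => aeval ((y : ℂ) - w) (He n))
        (aeval ((y : ℂ) - w) (derivative (He n)) * (-1)) w := by
      have h := (He n).hasDerivAt_aeval ((y : ℂ) - w)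
      exact h.comp w ((hasDerivAt_id w).const_sub (y : ℂ))
    have h2 : HasDerivAt (fun w : ℂ => Complex.exp ((y : ℂ) * w - w ^ 2 / 2))
        (Complex.exp ((y : ℂ) * w - w ^ 2 / 2) * ((y : ℂ) - w)) w := by
      have h3 : HasDerivAt (fun w : ℂ => (y : ℂ) * w - w ^ 2 / 2) ((y : ℂ) - w) w := by
        have h4 := ((hasDerivAt_id w).const_mul (y : ℂ)).sub (((hasDerivAt_id w).pow 2).div_const 2)
        refine h4.congr_deriv ?_
        simp
      exact h3.cexp
    rw [(h1.fun_mul h2).deriv, ha_succ n]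
    simp only [map_sub, map_mul, aeval_X]
    ring

theorem He_upper (d : ℕ) (hd : 1 ≤ d) (y : ℝ) : |(He d).eval y| * Real.exp (-(y ^ 2 / 4)) ≤
    Sd d * Real.exp (-(max 0 (|y| / 2 - Real.sqrt d)) ^ 2) := by
  have hd0 : (0 : ℝ) < d := by exact_mod_cast hd
  have hs : 0 < Real.sqrt d := Real.sqrt_pos.2 hd0
  have hss : Real.sqrt d ^ 2 = d := Real.sq_sqrt hd0.le
  set M : ℝ := max 0 (|y| / 2 - Real.sqrt d) with hM
  have key := Complex.norm_iteratedDeriv_le_of_forall_mem_sphere_norm_le (c := 0)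
    (R := Real.sqrt d) (C := Real.exp (y ^ 2 / 4 + d / 2 - M ^ 2))
    (f := fun w : ℂ => Complex.exp ((y : ℂ) * w - w ^ 2 / 2)) d hs
    (by
      apply Differentiable.diffContOnCl
      fun_prop)
    (by
      intro w hw
      rw [mem_sphere_zero_iff_norm] at hw
      rw [Complex.norm_exp]
      apply Real.exp_le_exp.2
      have h1 : w.re ^ 2 + w.im ^ 2 = d := by
        rw [← hss, ← hw, Complex.sq_norm, Complex.normSq_apply]; ring
      have h2 : ((y : ℂ) * w - w ^ 2 / 2).re = y * w.re - (w.re ^ 2 - w.im ^ 2) / 2 := by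
        simp [pow_two, Complex.sub_re, Complex.mul_re]
      rw [h2]
      have h3 : |w.re| ≤ Real.sqrt d := by
        rw [← Real.sqrt_sq_eq_abs]
        apply Real.sqrt_le_sqrt
        nlinarith [sq_nonneg w.im]
      have h4 : M ^ 2 ≤ (y / 2 - w.re) ^ 2 := by
        have h5 : M ≤ |y / 2 - w.re| := by
          apply max_le (abs_nonneg _)
          have := abs_sub_abs_le_abs_sub (y / 2) w.re
          rw [abs_div, abs_two] at this
          linarith
        have h6 : 0 ≤ M := le_max_left _ _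
        rw [← sq_abs (y / 2 - w.re)]
        exact pow_le_pow_left₀ h6 h5 2
      nlinarith)
  rw [ha_iter] at key
  simp only [mul_zero, sub_zero, ne_eq, OfNat.ofNat_ne_zero, not_false_eq_true, zero_pow, zero_div,
    Complex.exp_zero, mul_one] at key
  have hk : ‖(aeval (y : ℂ) (He d) : ℂ)‖ = |(He d).eval y| := by
    have : (aeval (y : ℂ) (He d) : ℂ) = (((He d).eval y : ℝ) : ℂ) := by
      have := Polynomial.aeval_algebraMap_apply ℂ y (He d)
      simpa using this
    rw [this, Complex.norm_real, Real.norm_eq_abs]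
  rw [hk] at key
  calc |(He d).eval y| * Real.exp (-(y ^ 2 / 4))
      ≤ ((d.factorial : ℝ) * Real.exp (y ^ 2 / 4 + d / 2 - M ^ 2) / Real.sqrt d ^ d) *
          Real.exp (-(y ^ 2 / 4)) := by gcongr
    _ = (d.factorial : ℝ) / Real.sqrt d ^ d *
          (Real.exp (y ^ 2 / 4 + d / 2 - M ^ 2) * Real.exp (-(y ^ 2 / 4))) := by ring
    _ = Sd d * Real.exp (-M ^ 2) := by
        rw [← Real.exp_add, Sd, mul_assoc, ← Real.exp_add]
        congr 2
        ring


private noncomputable def hx (y : ℝ) (n : ℕ) : ℝ := (y + Real.sqrt (y ^ 2 - 4 * n)) / 2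

private lemma hx_pos {y : ℝ} (hy : 0 < y) (n : ℕ) : 0 < hx y n := by
  unfold hx
  have := Real.sqrt_nonneg (y ^ 2 - 4 * n)
  linarith

private lemma hx_anti (y : ℝ) (n : ℕ) : hx y (n + 1) ≤ hx y n := by
  unfold hx
  have : Real.sqrt (y ^ 2 - 4 * ((n + 1 : ℕ) : ℝ)) ≤ Real.sqrt (y ^ 2 - 4 * n) := by
    apply Real.sqrt_le_sqrt
    push_cast
    linarith
  linarith

private lemma hx_eq {y : ℝ} {n : ℕ} (h : 4 * (n : ℝ) ≤ y ^ 2) : hx y n ^ 2 - y * hx y n + n = 0 := by
  unfold hx
  have := Real.sq_sqrt (show 0 ≤ y ^ 2 - 4 * (n : ℝ) by linarith)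
  nlinarith

private lemma hx_step {d : ℕ} {y : ℝ} (hy : 2 * Real.sqrt d ≤ y) (n : ℕ) (hn : n ≤ d) :
    0 < (He n).eval y ∧ (n < d → hx y n * (He n).eval y ≤ (He (n + 1)).eval y) := by
  have hd0 : (0 : ℝ) ≤ d := Nat.cast_nonneg d
  have hy0 : 0 ≤ y := le_trans (by positivity) hy
  have hy2 : 4 * (d : ℝ) ≤ y ^ 2 := by
    have h1 := Real.sq_sqrt hd0
    have h2 := Real.sqrt_nonneg (d : ℝ)
    nlinarith
  induction n with
  | zero =>
    refine ⟨by simp [ha_zero], fun h => ?_⟩
    rw [zero_add, ha_zero, ha_one]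
    simp only [hx, Nat.cast_zero, mul_zero, sub_zero, eval_one, eval_X, mul_one]
    rw [Real.sqrt_sq hy0]
    linarith
  | succ n ih =>
    obtain ⟨ih1, ih2⟩ := ih (by omega)
    have hlt : n < d := by omega
    have ih3 := ih2 hlt
    have hd1 : (0 : ℝ) < d := by
      have : 0 < d := by omega
      exact_mod_cast this
    have hy1 : 0 < y := lt_of_lt_of_le (by positivity) hy
    have hp := hx_pos hy1 n
    have h1 : 0 < (He (n + 1)).eval y := lt_of_lt_of_le (mul_pos hp ih1) ih3
    refine ⟨h1, fun h => ?_⟩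
    rw [show n + 1 + 1 = n + 2 from rfl, ha_ev_rec]
    have hq := hx_pos hy1 (n + 1)
    have hc : ((n + 1 : ℕ) : ℝ) ≤ d := by exact_mod_cast h.le
    have he := hx_eq (y := y) (n := n + 1) (by linarith)
    push_cast at he
    -- (n+1) He n <= (n+1)/x_n He (n+1) <= (n+1)/x_{n+1} He(n+1)
    have h2 : hx y (n + 1) * (He n).eval y ≤ (He (n + 1)).eval y :=
      le_trans (mul_le_mul_of_nonneg_right (hx_anti y n) ih1.le) ih3
    have h3 : (y - hx y (n + 1)) * hx y (n + 1) = (n : ℝ) + 1 := by linarith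
    have h4 : 0 ≤ y - hx y (n + 1) := by
      by_contra hcon
      push Not at hcon
      have : (y - hx y (n + 1)) * hx y (n + 1) < 0 := mul_neg_of_neg_of_pos hcon hq
      have h5 : (0 : ℝ) < (n : ℝ) + 1 := by positivity
      linarith
    have h5 : ((n : ℝ) + 1) * (He n).eval y ≤ (y - hx y (n + 1)) * (He (n + 1)).eval y := by
      rw [← h3, mul_assoc]
      exact mul_le_mul_of_nonneg_left h2 h4
    linarith

private lemma hx_two {d n : ℕ} (_hn : n ≤ d) :
    hx (2 * Real.sqrt d) n = Real.sqrt d + Real.sqrt ((d : ℝ) - n) := by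
  unfold hx
  have hd0 : (0 : ℝ) ≤ d := Nat.cast_nonneg d
  have h1 : (2 * Real.sqrt d) ^ 2 - 4 * (n : ℝ) = 2 ^ 2 * ((d : ℝ) - n) := by
    rw [mul_pow, Real.sq_sqrt hd0]; ring
  rw [h1, Real.sqrt_mul (by norm_num), Real.sqrt_sq (by norm_num)]
  ring

private lemma ha_prod (d : ℕ) (n : ℕ) (hn : n ≤ d) :
    ∏ i ∈ Finset.range n, (Real.sqrt d + Real.sqrt ((d : ℝ) - i)) ≤
      (He n).eval (2 * Real.sqrt d) := by
  induction n with
  | zero => simp [ha_zero]
  | succ n ih =>
    rw [Finset.prod_range_succ]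
    have h := hx_step (d := d) (y := 2 * Real.sqrt d) le_rfl n (by omega)
    have h2 := h.2 (by omega)
    rw [hx_two (by omega : n ≤ d)] at h2
    refine le_trans ?_ h2
    rw [mul_comm]
    exact mul_le_mul_of_nonneg_left (ih (by omega)) (by positivity)

theorem He_lower' (d : ℕ) : Real.sqrt d ^ d ≤ (He d).eval (2 * Real.sqrt d) := by
  refine le_trans ?_ (ha_prod d d le_rfl)
  calc Real.sqrt d ^ d = ∏ _i ∈ Finset.range d, Real.sqrt d := by simp
    _ ≤ _ := by
      apply Finset.prod_le_prod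
      · intro i _; positivity
      · intro i _
        have := Real.sqrt_nonneg ((d : ℝ) - i)
        linarith

/-- a primitive of `log (1 + √x)` -/
private noncomputable def hG (x : ℝ) : ℝ :=
  (x - 1) * Real.log (1 + Real.sqrt x) - x / 2 + Real.sqrt x

private lemma hG_der {x : ℝ} (hx : 0 < x) : HasDerivAt hG (Real.log (1 + Real.sqrt x)) x := by
  have hs : 0 < Real.sqrt x := Real.sqrt_pos.2 hx
  have hss : Real.sqrt x * Real.sqrt x = x := Real.mul_self_sqrt hx.le
  have h1 : HasDerivAt (fun x : ℝ => 1 + Real.sqrt x) (1 / (2 * Real.sqrt x)) x :=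
    (Real.hasDerivAt_sqrt hx.ne').const_add 1
  have h2 := h1.log (by positivity)
  have h3 : HasDerivAt (fun x : ℝ => x - 1) 1 x := (hasDerivAt_id x).sub_const 1
  have h4 := ((h3.fun_mul h2).fun_sub ((hasDerivAt_id x).div_const 2)).fun_add
    (Real.hasDerivAt_sqrt hx.ne')
  refine h4.congr_deriv ?_
  field_simp
  nlinarith

private lemma hG_cont : Continuous hG := by
  unfold hG
  have h1 : Continuous fun x : ℝ => Real.log (1 + Real.sqrt x) := by
    apply Continuous.log
    · exact continuous_const.add Real.continuous_sqrt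
    · intro x
      have := Real.sqrt_nonneg x
      positivity
  exact (((continuous_id.sub continuous_const).mul h1).sub (continuous_id.div_const 2)).add
    Real.continuous_sqrt

private lemma hG_step {a b : ℝ} (ha : 0 ≤ a) (hab : a < b) :
    hG b - hG a ≤ (b - a) * Real.log (1 + Real.sqrt b) := by
  obtain ⟨c, hc, he⟩ := exists_hasDerivAt_eq_slope hG (fun x => Real.log (1 + Real.sqrt x)) hab
    hG_cont.continuousOn (fun x hx => hG_der (lt_of_le_of_lt ha hx.1))
  have hba : 0 < b - a := by linarith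
  rw [eq_div_iff hba.ne'] at he
  rw [← he, mul_comm]
  apply mul_le_mul_of_nonneg_left _ hba.le
  apply Real.log_le_log
  · have := Real.sqrt_nonneg c; positivity
  · have := Real.sqrt_le_sqrt hc.2.le
    linarith

private lemma ha_logsum (d : ℕ) (hd : 1 ≤ d) (n : ℕ) :
    (d : ℝ) * (hG ((n : ℝ) / d) - hG 0) ≤
      ∑ m ∈ Finset.range n, Real.log (1 + Real.sqrt (((m : ℝ) + 1) / d)) := by
  have hd0 : (0 : ℝ) < d := by exact_mod_cast hd
  induction n with
  | zero => simp
  | succ n ih =>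
    rw [Finset.sum_range_succ]
    have h := hG_step (a := (n : ℝ) / d) (b := ((n : ℝ) + 1) / d) (by positivity)
      (by gcongr; linarith)
    have h2 : (d : ℝ) * (((n : ℝ) + 1) / d - (n : ℝ) / d) = 1 := by field_simp; ring
    have h3 := mul_le_mul_of_nonneg_left h hd0.le
    rw [← mul_assoc, h2, one_mul] at h3
    push_cast
    nlinarith

private lemma ha_prod_exp (d : ℕ) (hd : 1 ≤ d) :
    Real.sqrt d ^ d * Real.exp (d / 2) ≤
      ∏ i ∈ Finset.range d, (Real.sqrt d + Real.sqrt ((d : ℝ) - i)) := by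
  have hd0 : (0 : ℝ) < d := by exact_mod_cast hd
  have h1 : ∏ i ∈ Finset.range d, (Real.sqrt d + Real.sqrt ((d : ℝ) - i)) =
      Real.sqrt d ^ d * ∏ m ∈ Finset.range d, (1 + Real.sqrt (((m : ℝ) + 1) / d)) := by
    rw [← Finset.prod_range_reflect]
    rw [show Real.sqrt d ^ d = ∏ _m ∈ Finset.range d, Real.sqrt (d : ℝ) by simp,
      ← Finset.prod_mul_distrib]
    apply Finset.prod_congr rfl
    intro m hm
    rw [Finset.mem_range] at hm
    have h2 : ((d - 1 - m : ℕ) : ℝ) = (d : ℝ) - 1 - m := by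
      rw [Nat.cast_sub (by omega), Nat.cast_sub hd]; simp
    rw [h2, mul_add, mul_one, ← Real.sqrt_mul hd0.le]
    congr 2
    field_simp
    ring
  rw [h1]
  apply mul_le_mul_of_nonneg_left _ (by positivity)
  have h2 : ∏ m ∈ Finset.range d, (1 + Real.sqrt (((m : ℝ) + 1) / d)) =
      Real.exp (∑ m ∈ Finset.range d, Real.log (1 + Real.sqrt (((m : ℝ) + 1) / d))) := by
    rw [Real.exp_sum]
    apply Finset.prod_congr rfl
    intro m _
    rw [Real.exp_log (by positivity)]
  rw [h2]
  apply Real.exp_le_exp.2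
  have h3 := ha_logsum d hd d
  rw [div_self hd0.ne'] at h3
  have h4 : hG 1 - hG 0 = 1 / 2 := by
    unfold hG
    simp
    norm_num
  rw [h4] at h3
  linarith

private lemma ha_fact (d : ℕ) : (d.factorial : ℝ) * Real.exp d ≤ Real.exp 1 * (d + 1) * (d : ℝ) ^ d := by
  match d with
  | 0 => simp
  | m + 1 =>
    have h1 : Stirling.stirlingSeq (m + 1) ≤ Stirling.stirlingSeq 1 :=
      Stirling.stirlingSeq'_antitone (Nat.zero_le m)
    rw [Stirling.stirlingSeq_one, Stirling.stirlingSeq] at h1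
    set n : ℝ := ((m + 1 : ℕ) : ℝ) with hn
    have hn0 : (0 : ℝ) < n := by rw [hn]; positivity
    have h2 : 0 < Real.sqrt (2 * n) * (n / Real.exp 1) ^ (m + 1) := by positivity
    rw [div_le_iff₀ h2, Real.sqrt_mul (by norm_num), div_pow, ← Real.exp_nat_mul, mul_one,
      ← hn] at h1
    have h3 : Real.sqrt n ≤ n + 1 := by
      rw [Real.sqrt_le_left (by linarith)]
      nlinarith
    calc (((m + 1).factorial : ℕ) : ℝ) * Real.exp n
        ≤ Real.exp 1 / Real.sqrt 2 * (Real.sqrt 2 * Real.sqrt n * (n ^ (m + 1) / Real.exp n)) *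
            Real.exp n := by gcongr
      _ = Real.exp 1 * Real.sqrt n * n ^ (m + 1) := by field_simp
      _ ≤ Real.exp 1 * (n + 1) * n ^ (m + 1) := by gcongr

private lemma ha_dd (d : ℕ) : Real.sqrt d ^ d * Real.sqrt d ^ d = (d : ℝ) ^ d := by
  rw [← mul_pow, Real.mul_self_sqrt (Nat.cast_nonneg d)]

theorem He_lower (d : ℕ) (hd : 1 ≤ d) : Sd d ≤
    Real.exp 1 * (d + 1) * ((He d).eval (2 * Real.sqrt d) * Real.exp (-d)) := by
  have hd0 : (0 : ℝ) < d := by exact_mod_cast hd
  have hs : 0 < Real.sqrt d ^ d := pow_pos (Real.sqrt_pos.2 hd0) d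
  have h1 := le_trans (ha_prod_exp d hd) (ha_prod d d le_rfl)
  have h2 := ha_fact d
  have h3 : Sd d ≤ Real.exp 1 * (d + 1) * (Real.sqrt d ^ d * Real.exp (-(d / 2))) := by
    unfold Sd
    rw [div_mul_eq_mul_div, div_le_iff₀ hs]
    have h4 : Real.exp (d / 2 : ℝ) = Real.exp d * Real.exp (-(d / 2)) := by
      rw [← Real.exp_add]; congr 1; ring
    rw [h4]
    calc (d.factorial : ℝ) * (Real.exp d * Real.exp (-(d / 2)))
        = (d.factorial : ℝ) * Real.exp d * Real.exp (-(d / 2)) := by ring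
      _ ≤ Real.exp 1 * (d + 1) * (d : ℝ) ^ d * Real.exp (-(d / 2)) := by gcongr
      _ = _ := by rw [← ha_dd]; ring
  refine le_trans h3 ?_
  apply mul_le_mul_of_nonneg_left _ (by positivity)
  have h5 : Real.sqrt d ^ d * Real.exp (-(d / 2)) =
      Real.sqrt d ^ d * Real.exp (d / 2) * Real.exp (-d) := by
    rw [mul_assoc, ← Real.exp_add]; congr 2; ring
  rw [h5]
  gcongr

theorem Sd_lower (d : ℕ) (hd : 1 ≤ d) : Real.sqrt d ^ d * Real.exp (-(d / 2)) ≤ Sd d := by
  have hd0 : (0 : ℝ) < d := by exact_mod_cast hd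
  have hs : 0 < Real.sqrt d ^ d := pow_pos (Real.sqrt_pos.2 hd0) d
  unfold Sd
  rw [div_mul_eq_mul_div, le_div_iff₀ hs]
  have h1 : (d : ℝ) ^ d ≤ (d.factorial : ℝ) * Real.exp d := by
    have := Real.pow_div_factorial_le_exp (d : ℝ) hd0.le d
    rw [div_le_iff₀ (by positivity)] at this
    linarith
  have h4 : Real.exp (d / 2 : ℝ) = Real.exp d * Real.exp (-(d / 2)) := by
    rw [← Real.exp_add]; congr 1; ring
  rw [h4]
  calc Real.sqrt d ^ d * Real.exp (-(d / 2)) * Real.sqrt d ^ d
      = (d : ℝ) ^ d * Real.exp (-(d / 2)) := by rw [← ha_dd]; ring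
    _ ≤ (d.factorial : ℝ) * Real.exp d * Real.exp (-(d / 2)) := by gcongr
    _ = _ := by ring

theorem He_mono (d : ℕ) {y : ℝ} (hy : 2 * Real.sqrt d ≤ y) :
    (He d).eval (2 * Real.sqrt d) ≤ (He d).eval y := by
  match d, hy with
  | 0, _ => simp [ha_zero]
  | d + 1, hy =>
    have hm : MonotoneOn (fun y => (He (d + 1)).eval y) (Set.Ici (2 * Real.sqrt ((d + 1 : ℕ) : ℝ))) := by
      apply monotoneOn_of_deriv_nonneg (convex_Ici _)
      · exact (He (d + 1)).continuous.continuousOn
      · exact (He (d + 1)).differentiable.differentiableOn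
      · intro x hx
        rw [interior_Ici] at hx
        rw [Polynomial.deriv, ha_der]
        have h := (hx_step (d := d + 1) (y := x) (le_of_lt hx) d (by omega)).1
        simp only [eval_smul, smul_eq_mul]
        positivity
    exact hm (Set.self_mem_Ici) hy hy

private lemma ha_pab_eval (Q : ℝ[X]) (N : ℕ) (hN : Q.natDegree < N) (z : ℝ) :
    (pab Q).eval z = ∑ k ∈ Finset.range N, |Q.coeff k| * z ^ k := by
  unfold pab
  rw [Polynomial.sum_over_range' Q (by simp) N hN, Polynomial.eval_finsetSum]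
  simp

private lemma ha_pab_rec (n : ℕ) {z : ℝ} (hz : 0 ≤ z) : (pab (He (n + 2))).eval z ≤
    z * (pab (He (n + 1))).eval z + ((n : ℝ) + 1) * (pab (He n)).eval z := by
  rw [ha_pab_eval (He (n + 2)) (n + 3) (by rw [He_natDegree]; omega),
    ha_pab_eval (He (n + 1)) (n + 2) (by rw [He_natDegree]; omega),
    ha_pab_eval (He n) (n + 3) (by rw [He_natDegree]; omega)]
  have h1 : ∀ k, |(He (n + 2)).coeff k| ≤
      |(X * He (n + 1)).coeff k| + ((n : ℝ) + 1) * |(He n).coeff k| := by
    intro k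
    rw [He_rec, coeff_sub, coeff_smul, smul_eq_mul]
    refine (abs_sub _ _).trans ?_
    rw [abs_mul, abs_of_nonneg (by positivity : (0 : ℝ) ≤ (n : ℝ) + 1)]
  calc ∑ k ∈ Finset.range (n + 3), |(He (n + 2)).coeff k| * z ^ k
      ≤ ∑ k ∈ Finset.range (n + 3),
          (|(X * He (n + 1)).coeff k| + ((n : ℝ) + 1) * |(He n).coeff k|) * z ^ k := by
        apply Finset.sum_le_sum
        intro k _
        exact mul_le_mul_of_nonneg_right (h1 k) (by positivity)
    _ = ∑ k ∈ Finset.range (n + 3), |(X * He (n + 1)).coeff k| * z ^ k +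
          ((n : ℝ) + 1) * ∑ k ∈ Finset.range (n + 3), |(He n).coeff k| * z ^ k := by
        rw [Finset.mul_sum, ← Finset.sum_add_distrib]
        apply Finset.sum_congr rfl
        intro k _
        ring
    _ = z * ∑ k ∈ Finset.range (n + 2), |(He (n + 1)).coeff k| * z ^ k +
          ((n : ℝ) + 1) * ∑ k ∈ Finset.range (n + 3), |(He n).coeff k| * z ^ k := by
        congr 1
        rw [Finset.sum_range_succ', Finset.mul_sum]
        simp only [coeff_X_mul, mul_coeff_zero, coeff_X_zero, zero_mul, abs_zero, add_zero]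
        apply Finset.sum_congr rfl
        intro k _
        ring

private lemma ha_pab_bound (d : ℕ) {z : ℝ} (hz : 0 ≤ z) (n : ℕ) (hn : n ≤ d) :
    (pab (He n)).eval z ≤ (z + Real.sqrt d) ^ n := by
  induction n using Nat.strong_induction_on with
  | _ n ih =>
    match n, ih, hn with
    | 0, _, _ =>
      rw [ha_pab_eval (He 0) 1 (by rw [He_natDegree]; omega)]
      simp [ha_zero]
    | 1, _, _ =>
      rw [ha_pab_eval (He 1) 2 (by rw [He_natDegree]; omega)]
      have := Real.sqrt_nonneg (d : ℝ)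
      simp only [ha_one, Finset.sum_range_succ, Finset.range_zero, Finset.sum_empty, coeff_X_zero,
        coeff_X_one, abs_zero, abs_one, pow_one, zero_mul, one_mul, zero_add]
      linarith
    | n + 2, ih, hn =>
      have h1 := ih (n + 1) (by omega) (by omega)
      have h2 := ih n (by omega) (by omega)
      have h3 := ha_pab_rec n hz
      have hs := Real.sqrt_nonneg (d : ℝ)
      have hss := Real.sq_sqrt (Nat.cast_nonneg (α := ℝ) d)
      have hnd : (n : ℝ) + 1 ≤ d := by
        have : n + 1 ≤ d := by omega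
        exact_mod_cast this
      set s := Real.sqrt (d : ℝ) with hsdef
      calc (pab (He (n + 2))).eval z
          ≤ z * (pab (He (n + 1))).eval z + ((n : ℝ) + 1) * (pab (He n)).eval z := h3
        _ ≤ z * (z + s) ^ (n + 1) + ((n : ℝ) + 1) * (z + s) ^ n := by gcongr
        _ ≤ z * (z + s) ^ (n + 1) + s ^ 2 * (z + s) ^ n := by
            rw [hss]; gcongr
        _ = (z * (z + s) + s ^ 2) * (z + s) ^ n := by ring
        _ ≤ (z + s) ^ 2 * (z + s) ^ n := by
            gcongr
            nlinarith [mul_nonneg hz hs]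
        _ = (z + s) ^ (n + 2) := by ring

theorem He_pab (d : ℕ) (y : ℝ) : |(pab (He d)).eval y| ≤ (|y| + Real.sqrt d) ^ d := by
  refine le_trans ?_ (ha_pab_bound d (abs_nonneg y) d le_rfl)
  rw [ha_pab_eval (He d) (d + 1) (by rw [He_natDegree]; omega),
    ha_pab_eval (He d) (d + 1) (by rw [He_natDegree]; omega)]
  refine (Finset.abs_sum_le_sum_abs _ _).trans (Finset.sum_le_sum fun k _ => ?_)
  rw [abs_mul, abs_abs, abs_pow]

end Pool.Agent.MomW
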