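import Pool.Agent.Lib_MP_112ba8_w.HermA
import Pool.Agent.Lib_MP_112ba8_w.Gauss

/-!
# Piece HB: integrals of powers of Hermite polynomials

Notation: `s, c, η` fixed, `a = 1 - η/6`, `k → ∞`, `d = ⌊c² s k / 4⌋`,
`B = Bp s a k d = He_d (x / √(s k a))`, `S = Sd d`, `φ(y) = He_d(y)^{4k} e^{-k a y²} ≥ 0`.

PROOF.
(1) Substitutions: `μ := GE s 0 (B^{4k}) = √(ka/π) ∫ φ(y) dy` (`x = √(ska) y`), and
`ν := GE s (s/2) (B^{4k-2}) = √(ka/π) ∫ He_d(y)^{4k-2} exp (-k a y² + √(ska) y - s/4) dy`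
(first `x → x - s/2`, then `x = √(ska) y`).

(2) Lower bound of `μ`: for `y ∈ [2√d, 2√d + 1]`, `He_mono` and `He_lower` give
`φ(y) ≥ (He_d(2√d) e^{-a y²/4})^{4k}` and `a y²/4 ≤ a (√d + 1/2)² ≤ a d + √d + 1`, so
`φ(y) ≥ (S e^{(1-a) d - √d - 2 - log (d+1)})^{4k}` and
`μ ≥ √(ka/π) S^{4k} exp (4k ((1-a) d - √d - 2 - log (d+1)))`. Since `d ≤ c² s k/4` and `1 - a > 0`,
this is `≥ e^{-η k²} S^{4k}` for large `k`: the first claim.

(3) Upper bounds, from `He_upper`:
`φ(y) ≤ S^{4k} exp (4k ((1-a) y²/4 - (max 0 (|y|/2 - √d))²))`.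
 * `|y| ≤ 2√d (1-η)`: `φ ≤ S^{4k} exp (4k (1-a) d (1-η)²)`, and the integral over this range is
   at most `4√d` times that; divided by the bound (2) (without `√(ka/π)`) this is
   `4√d exp (-4kd (1-a)(2η-η²) + 4k (√d + 2 + log (d+1))) → 0`, because `k d ~ c² s k²/4`.
 * `|y| = 2√d (1+t)` with `t ≥ η`: `(1-a) (1+t)² - t² ≤ (1-a) - t²/2`, because
   `(1-a)(2t + t²) ≤ (η/6)(2/η + 1) t² ≤ t²/2`; so `φ ≤ S^{4k} exp (4k (1-a) d - 2 k d t²)` and
   the integral is at most `S^{4k} e^{4k(1-a)d} e^{-kdη²} · 4√d ∫ e^{-kdt²} dt`; divided by the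
   bound (2) it tends to `0` as well.
 So for large `k` the integral of `φ` over the complement of
 `{2√d (1-η) ≤ |y| ≤ 2√d (1+η)}` is at most half of the whole integral, and since `φ` is even
 (`He_neg`), `√(ka/π) ∫_W φ ≥ μ/4`, `W = [2√d (1-η), 2√d (1+η)]`.

(4) On `W`: `He_d(y)² ≤ S² e^{y²/2}` (`He_upper`), so
`S² He_d(y)^{4k-2} exp (-k a y² + √(ska) y - s/4) ≥ φ(y) exp (-y²/2 + √(ska) y - s/4)` and
`-y²/2 + √(ska) y - s/4 ≥ -2d (1+η)² + 2 √(skad) (1-η) - s/4`. The integrand of `ν` is nonnegative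
everywhere, so with (3) the second claim follows.
-/

namespace Pool.Agent.MomW

open Filter Topology MeasureTheory Polynomial

/-- the scaled Hermite polynomial -/
noncomputable def Bp (s a : ℝ) (k d : ℕ) : ℝ[X] :=
  (He d).comp (C (1 / Real.sqrt (s * k * a)) * X)

private lemma hb_eval {s a : ℝ} (k d n : ℕ) (hl : 0 < s * k * a) (y : ℝ) :
    (Bp s a k d ^ n).eval (Real.sqrt (s * k * a) * y) = (He d).eval y ^ n := by
  have h0 : Real.sqrt (s * k * a) ≠ 0 := (Real.sqrt_pos.2 hl).ne'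
  rw [Bp, eval_pow, eval_comp]
  congr 2
  simp only [eval_mul, eval_C, eval_X]
  field_simp

/-- `μ` in the variable `y` -/
private lemma hb_mu {s a : ℝ} (k d n : ℕ) (hs : 0 < s) (hl : 0 < s * k * a) :
    GE s 0 (Bp s a k d ^ n) = Real.sqrt (s * k * a) / Real.sqrt (Real.pi * s) *
      ∫ y : ℝ, (He d).eval y ^ n * Real.exp (-(k * a * y ^ 2)) := by
  set l := Real.sqrt (s * k * a) with hldef
  have hl0 : 0 < l := Real.sqrt_pos.2 hl
  have hl2 : l ^ 2 = s * k * a := Real.sq_sqrt hl.le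
  have h1 := MeasureTheory.Measure.integral_comp_mul_left
    (fun x : ℝ => (Bp s a k d ^ n).eval (x + 0) * (Real.exp (-(x ^ 2 / s)) /
      Real.sqrt (Real.pi * s))) l
  have h2 : ∀ y : ℝ, (Bp s a k d ^ n).eval (l * y + 0) * (Real.exp (-((l * y) ^ 2 / s)) /
      Real.sqrt (Real.pi * s)) =
      (Real.sqrt (Real.pi * s))⁻¹ * ((He d).eval y ^ n * Real.exp (-(k * a * y ^ 2))) := by
    intro y
    rw [add_zero, hb_eval k d n hl y]
    have : (l * y) ^ 2 / s = k * a * y ^ 2 := by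
      rw [mul_pow, hl2]; field_simp
    rw [this]
    ring
  simp only [h2] at h1
  rw [integral_const_mul, abs_of_pos (inv_pos.2 hl0), smul_eq_mul] at h1
  unfold GE
  have h3 : (∫ x : ℝ, (Bp s a k d ^ n).eval (x + 0) * (Real.exp (-(x ^ 2 / s)) /
      Real.sqrt (Real.pi * s))) = l * (l⁻¹ * ∫ x : ℝ, (Bp s a k d ^ n).eval (x + 0) *
      (Real.exp (-(x ^ 2 / s)) / Real.sqrt (Real.pi * s))) := by
    field_simp
  rw [h3, ← h1]
  ring

/-- `ν` in the variable `y` -/
private lemma hb_nu {s a : ℝ} (k d n : ℕ) (hs : 0 < s) (hl : 0 < s * k * a) :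
    GE s (s / 2) (Bp s a k d ^ n) = Real.sqrt (s * k * a) / Real.sqrt (Real.pi * s) *
      ∫ y : ℝ, (He d).eval y ^ n *
        Real.exp (-(k * a * y ^ 2) + Real.sqrt (s * k * a) * y - s / 4) := by
  set l := Real.sqrt (s * k * a) with hldef
  have hl0 : 0 < l := Real.sqrt_pos.2 hl
  have hl2 : l ^ 2 = s * k * a := Real.sq_sqrt hl.le
  have h0 := integral_sub_right_eq_self
    (fun x : ℝ => (Bp s a k d ^ n).eval (x + s / 2) * (Real.exp (-(x ^ 2 / s)) /
      Real.sqrt (Real.pi * s))) (μ := volume) (s / 2)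
  have h1 := MeasureTheory.Measure.integral_comp_mul_left
    (fun x : ℝ => (Bp s a k d ^ n).eval (x - s / 2 + s / 2) *
      (Real.exp (-((x - s / 2) ^ 2 / s)) / Real.sqrt (Real.pi * s))) l
  have h2 : ∀ y : ℝ, (Bp s a k d ^ n).eval (l * y - s / 2 + s / 2) *
      (Real.exp (-((l * y - s / 2) ^ 2 / s)) / Real.sqrt (Real.pi * s)) =
      (Real.sqrt (Real.pi * s))⁻¹ * ((He d).eval y ^ n *
        Real.exp (-(k * a * y ^ 2) + l * y - s / 4)) := by
    intro y
    rw [sub_add_cancel, hb_eval k d n hl y]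
    have : -((l * y - s / 2) ^ 2 / s) = -(k * a * y ^ 2) + l * y - s / 4 := by
      have : (l * y - s / 2) ^ 2 = (s * k * a) * y ^ 2 - s * (l * y) + s ^ 2 / 4 := by
        rw [← hl2]; ring
      rw [this]; field_simp; ring
    rw [this]
    ring
  simp only [h2] at h1
  rw [integral_const_mul, abs_of_pos (inv_pos.2 hl0), smul_eq_mul] at h1
  unfold GE
  rw [← h0]
  have h3 : (∫ x : ℝ, (Bp s a k d ^ n).eval (x - s / 2 + s / 2) *
      (Real.exp (-((x - s / 2) ^ 2 / s)) / Real.sqrt (Real.pi * s))) =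
      l * (l⁻¹ * ∫ x : ℝ, (Bp s a k d ^ n).eval (x - s / 2 + s / 2) *
      (Real.exp (-((x - s / 2) ^ 2 / s)) / Real.sqrt (Real.pi * s))) := by
    rw [← mul_assoc, mul_inv_cancel₀ hl0.ne', one_mul]
  rw [h3, ← h1]
  ring

private lemma hb_int1 {a : ℝ} (k d n : ℕ) (hk : 0 < k * a) :
    Integrable fun y : ℝ => (He d).eval y ^ n * Real.exp (-(k * a * y ^ 2)) := by
  have h1 := (GE_integrable (s := 1 / (k * a)) (by positivity) 0 (He d ^ n)).const_mul
    (Real.sqrt (Real.pi * (1 / (k * a))))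
  have h0 : Real.sqrt (Real.pi * (1 / (k * a))) ≠ 0 :=
    (Real.sqrt_pos.2 (by positivity)).ne'
  refine h1.congr (Filter.Eventually.of_forall fun y => ?_)
  simp only [add_zero, eval_pow]
  have : y ^ 2 / (1 / (k * a)) = k * a * y ^ 2 := by field_simp
  rw [this]
  field_simp

private lemma hb_int2 {s a : ℝ} (k d n : ℕ) (hs : 0 < s) (hl : 0 < s * k * a) :
    Integrable fun y : ℝ => (He d).eval y ^ n *
        Real.exp (-(k * a * y ^ 2) + Real.sqrt (s * k * a) * y - s / 4) := by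
  set l := Real.sqrt (s * k * a) with hldef
  have hl0 : 0 < l := Real.sqrt_pos.2 hl
  have hl2 : l ^ 2 = s * k * a := Real.sq_sqrt hl.le
  have h0 : Real.sqrt (Real.pi * s) ≠ 0 := (Real.sqrt_pos.2 (by positivity)).ne'
  have h1 := (((GE_integrable hs (s / 2) (Bp s a k d ^ n)).comp_sub_right
    (s / 2)).comp_mul_left' hl0.ne').const_mul (Real.sqrt (Real.pi * s))
  refine h1.congr (Filter.Eventually.of_forall fun y => ?_)
  have : -((l * y - s / 2) ^ 2 / s) = -(k * a * y ^ 2) + l * y - s / 4 := by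
    have : (l * y - s / 2) ^ 2 = (s * k * a) * y ^ 2 - s * (l * y) + s ^ 2 / 4 := by
      rw [← hl2]; ring
    rw [this]; field_simp; ring
  simp only [sub_add_cancel]
  rw [this, hb_eval k d n hl y]
  field_simp

/-- pointwise lower bound on `[2√d, 2√d+1]` -/
private lemma hb_low {a : ℝ} (k d : ℕ) (hd : 1 ≤ d) (ha0 : 0 ≤ a) (ha1 : a ≤ 1) {y : ℝ}
    (hy : 2 * Real.sqrt d ≤ y) (hy1 : y ≤ 2 * Real.sqrt d + 1) :
    (Sd d * Real.exp ((1 - a) * d - Real.sqrt d - 2 - Real.log (d + 1))) ^ (4 * k) ≤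
      (He d).eval y ^ (4 * k) * Real.exp (-(k * a * y ^ 2)) := by
  have hd0 : (0 : ℝ) < d + 1 := by positivity
  have hq : 0 ≤ Real.sqrt d := Real.sqrt_nonneg _
  have hq2 : Real.sqrt d ^ 2 = d := Real.sq_sqrt (Nat.cast_nonneg d)
  have hS : 0 ≤ Sd d := by unfold Sd; positivity
  have h1 := He_lower d hd
  have h2 := He_mono d hy
  have hexp : Real.exp (-(k * a * y ^ 2)) = Real.exp (-(a * y ^ 2 / 4)) ^ (4 * k) := by
    rw [← Real.exp_nat_mul]
    congr 1
    push_cast
    ring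
  rw [hexp, ← mul_pow]
  refine pow_le_pow_left₀ (by positivity) ?_ _
  have h3 : Sd d * (Real.exp (d - 1) / (d + 1)) ≤ (He d).eval (2 * Real.sqrt d) := by
    have h4 : Sd d * (Real.exp (d - 1) / (d + 1)) ≤ Real.exp 1 * (d + 1) *
        ((He d).eval (2 * Real.sqrt d) * Real.exp (-d)) * (Real.exp (d - 1) / (d + 1)) :=
      mul_le_mul_of_nonneg_right h1 (by positivity)
    have h5 : Real.exp 1 * (d + 1) *
        ((He d).eval (2 * Real.sqrt d) * Real.exp (-d)) * (Real.exp (d - 1) / (d + 1)) =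
        (He d).eval (2 * Real.sqrt d) * (Real.exp 1 * Real.exp (-d) * Real.exp (d - 1)) := by
      field_simp
    have h6 : Real.exp 1 * Real.exp (-d) * Real.exp ((d : ℝ) - 1) = 1 := by
      rw [← Real.exp_add, ← Real.exp_add]
      have : (1 : ℝ) + -d + (d - 1) = 0 := by ring
      rw [this, Real.exp_zero]
    rw [h5, h6, mul_one] at h4
    exact h4
  have h7 : a * y ^ 2 / 4 ≤ a * d + Real.sqrt d + 1 := by
    have h8 : y ^ 2 ≤ (2 * Real.sqrt d + 1) ^ 2 := by
      refine pow_le_pow_left₀ (by linarith) hy1 2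
    have h9 : a * y ^ 2 ≤ a * (2 * Real.sqrt d + 1) ^ 2 := mul_le_mul_of_nonneg_left h8 ha0
    have h10 : a * (2 * Real.sqrt d + 1) ^ 2 = 4 * a * d + a * (4 * Real.sqrt d + 1) := by
      have : (2 * Real.sqrt d + 1) ^ 2 = 4 * Real.sqrt d ^ 2 + 4 * Real.sqrt d + 1 := by ring
      rw [this, hq2]; ring
    have h11 : a * (4 * Real.sqrt d + 1) ≤ 1 * (4 * Real.sqrt d + 1) :=
      mul_le_mul_of_nonneg_right ha1 (by linarith)
    linarith
  calc Sd d * Real.exp ((1 - a) * d - Real.sqrt d - 2 - Real.log (d + 1))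
      = Sd d * (Real.exp (d - 1) / (d + 1)) * Real.exp (-(a * d + Real.sqrt d + 1)) := by
        have : (1 - a) * d - Real.sqrt d - 2 - Real.log (d + 1) =
          (d - 1) + -(a * d + Real.sqrt d + 1) - Real.log (d + 1) := by ring
        rw [this, Real.exp_sub, Real.exp_add, Real.exp_log hd0]
        ring
    _ ≤ (He d).eval (2 * Real.sqrt d) * Real.exp (-(a * y ^ 2 / 4)) := by
        refine mul_le_mul h3 (Real.exp_le_exp.2 (by linarith)) (Real.exp_pos _).le ?_
        exact le_trans (by positivity) h3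
    _ ≤ (He d).eval y * Real.exp (-(a * y ^ 2 / 4)) :=
        mul_le_mul_of_nonneg_right h2 (Real.exp_pos _).le

/-- the exponent inequality -/
private lemma hb_expo {η t : ℝ} (hη : 0 < η) (hη1 : η ≤ 1) (ht : -1 ≤ t) (h : η ≤ |t|) :
    η / 6 * (1 + t) ^ 2 - (max 0 t) ^ 2 ≤ η / 6 - η ^ 2 / 12 * (1 + t ^ 2) := by
  rcases le_total 0 t with h0 | h0
  · rw [abs_of_nonneg h0] at h
    rw [max_eq_right h0]
    -- η/6 (2t + t^2) - t^2 ≤ - η^2/12 (1+t^2)
    have h1 : η * t ≤ t ^ 2 := by nlinarith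
    have h2 : η ^ 2 ≤ t ^ 2 := by nlinarith
    have h3 : η * t ^ 2 ≤ t ^ 2 := by nlinarith [sq_nonneg t]
    have h4 : η ^ 2 * t ^ 2 ≤ t ^ 2 := by
      have : η ^ 2 ≤ 1 := by nlinarith
      nlinarith [sq_nonneg t]
    nlinarith
  · rw [abs_of_nonpos h0] at h
    rw [max_eq_left h0]
    have h1 : t ^ 2 ≤ 1 := by nlinarith
    have h2 : (1 + t) ^ 2 ≤ (1 - η) ^ 2 := by nlinarith
    have h3 : η / 6 * (1 + t) ^ 2 ≤ η / 6 * (1 - η) ^ 2 :=
      mul_le_mul_of_nonneg_left h2 (by positivity)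
    have h4 : η ^ 2 / 12 * (1 + t ^ 2) ≤ η ^ 2 / 12 * 2 :=
      mul_le_mul_of_nonneg_left (by linarith) (by positivity)
    have h5 : η / 6 * (1 - η) ^ 2 = η / 6 - η ^ 2 / 3 + η ^ 3 / 6 := by ring
    have h6 : η ^ 3 ≤ η ^ 2 := by
      have : η ^ 3 = η * η ^ 2 := by ring
      rw [this]
      nlinarith [sq_nonneg η]
    nlinarith

/-- pointwise upper bound away from the window -/
private lemma hb_up {η : ℝ} (k d : ℕ) (hd : 1 ≤ d) (hη : 0 < η) (hη1 : η ≤ 1) {y : ℝ}
    (hy : 0 ≤ y) (hw : y < 2 * Real.sqrt d * (1 - η) ∨ 2 * Real.sqrt d * (1 + η) < y) :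
    (He d).eval y ^ (4 * k) * Real.exp (-(k * (1 - η / 6) * y ^ 2)) ≤
      (Sd d * Real.exp ((η / 6 - η ^ 2 / 12) * d)) ^ (4 * k) *
        Real.exp (-(k * (η ^ 2 / 12)) * (y - 2 * Real.sqrt d) ^ 2) := by
  have hd0 : (0 : ℝ) < d := by exact_mod_cast hd
  have hq : 0 < Real.sqrt d := Real.sqrt_pos.2 hd0
  have hq2 : Real.sqrt d ^ 2 = d := Real.sq_sqrt (Nat.cast_nonneg d)
  have hS : 0 ≤ Sd d := by unfold Sd; positivity
  set q := Real.sqrt d with hqdef
  have h1 := He_upper d hd y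
  rw [← hqdef, abs_of_nonneg hy] at h1
  set t := y / (2 * q) - 1 with htdef
  have hyt : y = 2 * q * (1 + t) := by rw [htdef]; field_simp; ring
  have ht : -1 ≤ t := by
    have : 0 ≤ y / (2 * q) := by positivity
    linarith
  have htη : η ≤ |t| := by
    rcases hw with h | h
    · have : t < -η := by
        rw [hyt] at h
        have := lt_of_mul_lt_mul_left h (by positivity)
        linarith
      rw [le_abs]; right; linarith
    · have : η < t := by
        rw [hyt] at h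
        have := lt_of_mul_lt_mul_left h (by positivity)
        linarith
      rw [le_abs]; left; linarith
  have h2 := hb_expo hη hη1 ht htη
  have hexp : Real.exp (-(k * (1 - η / 6) * y ^ 2)) =
      Real.exp (-((1 - η / 6) * y ^ 2 / 4)) ^ (4 * k) := by
    rw [← Real.exp_nat_mul]
    congr 1
    push_cast
    ring
  have hexp2 : Real.exp (-(k * (η ^ 2 / 12)) * (y - 2 * q) ^ 2) =
      Real.exp (-(η ^ 2 / 12 * (y - 2 * q) ^ 2 / 4)) ^ (4 * k) := by
    rw [← Real.exp_nat_mul]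
    congr 1
    push_cast
    ring
  have hev : (He d).eval y ^ (4 * k) = |(He d).eval y| ^ (4 * k) := by
    rw [Even.pow_abs]
    exact ⟨2 * k, by ring⟩
  rw [hev, hexp, hexp2, ← mul_pow, ← mul_pow]
  refine pow_le_pow_left₀ (by positivity) ?_ _
  have h3 : |(He d).eval y| * Real.exp (-((1 - η / 6) * y ^ 2 / 4)) =
      (|(He d).eval y| * Real.exp (-(y ^ 2 / 4))) * Real.exp (η / 6 * y ^ 2 / 4) := by
    rw [mul_assoc, ← Real.exp_add]
    congr 2
    ring
  rw [h3]
  refine (mul_le_mul_of_nonneg_right h1 (Real.exp_pos _).le).trans ?_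
  rw [mul_assoc, mul_assoc, ← Real.exp_add, ← Real.exp_add]
  refine mul_le_mul_of_nonneg_left (Real.exp_le_exp.2 ?_) hS
  have h4 : y / 2 - q = q * t := by rw [hyt]; ring
  have h5 : max 0 (y / 2 - q) = q * max 0 t := by
    rw [h4]
    rcases le_total 0 t with h | h
    · rw [max_eq_right h, max_eq_right (by positivity)]
    · rw [max_eq_left h, max_eq_left (mul_nonpos_of_nonneg_of_nonpos hq.le h)]
      ring
  have h6 : η / 6 * y ^ 2 / 4 = d * (η / 6 * (1 + t) ^ 2) := by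
    rw [hyt, ← hq2]; ring
  have h7 : η ^ 2 / 12 * (y - 2 * q) ^ 2 / 4 = d * (η ^ 2 / 12 * t ^ 2) := by
    rw [hyt, ← hq2]; ring
  rw [h5, h6, h7, mul_pow, hq2]
  nlinarith

/-- `φ` is nonnegative -/
private lemma hb_nonneg (k d : ℕ) (r y : ℝ) : 0 ≤ (He d).eval y ^ (4 * k) * Real.exp r := by
  have : 0 ≤ (He d).eval y ^ (4 * k) := Even.pow_nonneg ⟨2 * k, by ring⟩ _
  positivity

/-- `φ` is even, hence the integral is twice the integral over the half line -/
private lemma hb_half (k d : ℕ) (a : ℝ) :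
    ∫ y : ℝ, (He d).eval y ^ (4 * k) * Real.exp (-(k * a * y ^ 2)) =
      2 * ∫ y in Set.Ioi (0 : ℝ), (He d).eval y ^ (4 * k) * Real.exp (-(k * a * y ^ 2)) := by
  have h1 : ∀ y : ℝ, (He d).eval (|y|) ^ (4 * k) * Real.exp (-(k * a * |y| ^ 2)) =
      (He d).eval y ^ (4 * k) * Real.exp (-(k * a * y ^ 2)) := by
    intro y
    rw [sq_abs]
    congr 1
    rcases le_total 0 y with h | h
    · rw [abs_of_nonneg h]
    · rw [abs_of_nonpos h]
      have h2 := He_neg d y
      have h3 : (He d).eval (-y) ^ (4 * k) = |(He d).eval (-y)| ^ (4 * k) := by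
        rw [Even.pow_abs]; exact ⟨2 * k, by ring⟩
      have h4 : (He d).eval y ^ (4 * k) = |(He d).eval y| ^ (4 * k) := by
        rw [Even.pow_abs]; exact ⟨2 * k, by ring⟩
      rw [h3, h4, h2]
  have h5 := integral_comp_abs (f := fun y : ℝ => (He d).eval y ^ (4 * k) *
    Real.exp (-(k * a * y ^ 2)))
  simp only [h1] at h5
  exact h5

/-- lower bound for the integral -/
private lemma hb_intlow {a : ℝ} (k d : ℕ) (hd : 1 ≤ d) (hk : 0 < k * a) (ha0 : 0 ≤ a)
    (ha1 : a ≤ 1) :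
    (Sd d * Real.exp ((1 - a) * d - Real.sqrt d - 2 - Real.log (d + 1))) ^ (4 * k) ≤
      ∫ y in Set.Ioi (0 : ℝ), (He d).eval y ^ (4 * k) * Real.exp (-(k * a * y ^ 2)) := by
  have hd0 : (0 : ℝ) < d := by exact_mod_cast hd
  have hq : 0 < Real.sqrt d := Real.sqrt_pos.2 hd0
  have hint := hb_int1 (a := a) k d (4 * k) hk
  have h1 : (∫ y in Set.Icc (2 * Real.sqrt d) (2 * Real.sqrt d + 1),
      (Sd d * Real.exp ((1 - a) * d - Real.sqrt d - 2 - Real.log (d + 1))) ^ (4 * k)) =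
      (Sd d * Real.exp ((1 - a) * d - Real.sqrt d - 2 - Real.log (d + 1))) ^ (4 * k) := by
    rw [setIntegral_const, Measure.real, Real.volume_Icc]
    have : (2 * Real.sqrt d + 1 - 2 * Real.sqrt d) = 1 := by ring
    rw [this]
    simp
  rw [← h1]
  calc (∫ y in Set.Icc (2 * Real.sqrt d) (2 * Real.sqrt d + 1),
      (Sd d * Real.exp ((1 - a) * d - Real.sqrt d - 2 - Real.log (d + 1))) ^ (4 * k))
      ≤ ∫ y in Set.Icc (2 * Real.sqrt d) (2 * Real.sqrt d + 1),
        (He d).eval y ^ (4 * k) * Real.exp (-(k * a * y ^ 2)) := by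
        refine setIntegral_mono_on ?_ hint.integrableOn measurableSet_Icc ?_
        · exact integrableOn_const (by rw [Real.volume_Icc]; exact ENNReal.ofReal_ne_top)
        · intro y hy
          exact hb_low k d hd ha0 ha1 hy.1 hy.2
    _ ≤ ∫ y in Set.Ioi (0 : ℝ), (He d).eval y ^ (4 * k) * Real.exp (-(k * a * y ^ 2)) := by
        refine setIntegral_mono_set hint.integrableOn
          (Filter.Eventually.of_forall fun y => hb_nonneg k d _ y) ?_
        refine Filter.Eventually.of_forall ?_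
        intro y hy
        exact lt_of_lt_of_le (by positivity) hy.1

/-- concentration in the window -/
private lemma hb_conc {η : ℝ} (k d : ℕ) (hd : 1 ≤ d) (hη : 0 < η) (hη1 : η ≤ 1) (hk : 1 ≤ k)
    (hkb : Real.pi ≤ k * (η ^ 2 / 12))
    (hdb : Real.sqrt d + 3 + Real.log (d + 1) ≤ η ^ 2 / 12 * d) :
    ∫ y in Set.Ioi (0 : ℝ), (He d).eval y ^ (4 * k) *
        Real.exp (-(k * (1 - η / 6) * y ^ 2)) ≤
      2 * ∫ y in Set.Icc (2 * Real.sqrt d * (1 - η)) (2 * Real.sqrt d * (1 + η)),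
        (He d).eval y ^ (4 * k) * Real.exp (-(k * (1 - η / 6) * y ^ 2)) := by
  have hk0 : (0 : ℝ) < k := by exact_mod_cast hk
  have ha : 0 < 1 - η / 6 := by linarith
  have hka : 0 < (k : ℝ) * (1 - η / 6) := by positivity
  have hS : 0 ≤ Sd d := by unfold Sd; positivity
  have hint := hb_int1 (a := 1 - η / 6) k d (4 * k) hka
  have hlow := hb_intlow (a := 1 - η / 6) k d hd hka ha.le (by linarith)
  set φ : ℝ → ℝ := fun y => (He d).eval y ^ (4 * k) *
    Real.exp (-(k * (1 - η / 6) * y ^ 2)) with hφ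
  set W := Set.Icc (2 * Real.sqrt d * (1 - η)) (2 * Real.sqrt d * (1 + η)) with hW
  have hφ0 : ∀ y, 0 ≤ φ y := fun y => hb_nonneg k d _ y
  have hWm : MeasurableSet W := measurableSet_Icc
  have h1 : (∫ y in Set.Ioi (0 : ℝ) ∩ W, φ y) + ∫ y in Set.Ioi (0 : ℝ) \ W, φ y =
      ∫ y in Set.Ioi (0 : ℝ), φ y :=
    integral_inter_add_sdiff hWm hint.integrableOn
  have h2 : (∫ y in Set.Ioi (0 : ℝ) ∩ W, φ y) ≤ ∫ y in W, φ y := by
    refine setIntegral_mono_set hint.integrableOn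
      (Filter.Eventually.of_forall fun y => hφ0 y) ?_
    exact Filter.Eventually.of_forall fun y hy => hy.2
  set b : ℝ := k * (η ^ 2 / 12) with hb
  have hb0 : 0 < b := by positivity
  set A : ℝ := (Sd d * Real.exp ((η / 6 - η ^ 2 / 12) * d)) ^ (4 * k) with hA
  have hA0 : 0 ≤ A := by positivity
  have hG : Integrable fun y : ℝ => A * Real.exp (-b * (y - 2 * Real.sqrt d) ^ 2) :=
    ((integrable_exp_neg_mul_sq hb0).comp_sub_right (2 * Real.sqrt d)).const_mul A
  have h3 : (∫ y in Set.Ioi (0 : ℝ) \ W, φ y) ≤ A := by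
    calc (∫ y in Set.Ioi (0 : ℝ) \ W, φ y)
        ≤ ∫ y in Set.Ioi (0 : ℝ) \ W, A * Real.exp (-b * (y - 2 * Real.sqrt d) ^ 2) := by
          refine setIntegral_mono_on hint.integrableOn hG.integrableOn
            (measurableSet_Ioi.diff hWm) ?_
          intro y hy
          have hy0 : (0 : ℝ) < y := hy.1
          have hyW : y < 2 * Real.sqrt d * (1 - η) ∨ 2 * Real.sqrt d * (1 + η) < y := by
            by_contra hcon
            push Not at hcon
            exact hy.2 ⟨hcon.1, hcon.2⟩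
          exact hb_up k d hd hη hη1 hy0.le hyW
      _ ≤ ∫ y : ℝ, A * Real.exp (-b * (y - 2 * Real.sqrt d) ^ 2) :=
          setIntegral_le_integral hG (Filter.Eventually.of_forall fun y => by
            show 0 ≤ A * Real.exp (-b * (y - 2 * Real.sqrt d) ^ 2)
            positivity)
      _ = A * Real.sqrt (Real.pi / b) := by
          rw [integral_const_mul]
          congr 1
          rw [integral_sub_right_eq_self (fun y : ℝ => Real.exp (-b * y ^ 2))
            (2 * Real.sqrt d), integral_gaussian]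
      _ ≤ A * 1 := by
          refine mul_le_mul_of_nonneg_left ?_ hA0
          have h := Real.sqrt_le_sqrt ((div_le_one hb0).2 hkb)
          rwa [Real.sqrt_one] at h
      _ = A := mul_one A
  have h4 : 2 * A ≤ (Sd d * Real.exp ((1 - (1 - η / 6)) * d - Real.sqrt d - 2 -
      Real.log (d + 1))) ^ (4 * k) := by
    have h5 : Sd d * Real.exp ((η / 6 - η ^ 2 / 12) * d) * Real.exp 1 ≤
        Sd d * Real.exp ((1 - (1 - η / 6)) * d - Real.sqrt d - 2 - Real.log (d + 1)) := by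
      rw [mul_assoc, ← Real.exp_add]
      refine mul_le_mul_of_nonneg_left (Real.exp_le_exp.2 ?_) hS
      nlinarith
    have h6 : (2 : ℝ) ≤ Real.exp 1 ^ (4 * k) := by
      have h7 : (2 : ℝ) ≤ Real.exp 1 := by
        have := Real.add_one_le_exp (1 : ℝ)
        linarith
      calc (2 : ℝ) ≤ Real.exp 1 := h7
        _ = Real.exp 1 ^ 1 := (pow_one _).symm
        _ ≤ Real.exp 1 ^ (4 * k) := pow_le_pow_right₀ (by linarith) (by omega)
    calc 2 * A ≤ Real.exp 1 ^ (4 * k) * A := mul_le_mul_of_nonneg_right h6 hA0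
      _ = (Sd d * Real.exp ((η / 6 - η ^ 2 / 12) * d) * Real.exp 1) ^ (4 * k) := by
          rw [hA, ← mul_pow]; ring_nf
      _ ≤ _ := pow_le_pow_left₀ (by positivity) h5 _
  have h8 : (∫ y in Set.Ioi (0 : ℝ), φ y) ≤ 2 * ∫ y in W, φ y := by
    linarith
  exact h8

private lemma hb_logbd {δ : ℝ} (hδ : 0 < δ) : ∀ᶠ d : ℕ in atTop,
    Real.sqrt d + 3 + Real.log (d + 1) ≤ δ * d := by
  have h1 : Tendsto (fun d : ℕ => Real.sqrt (d : ℝ)) atTop atTop :=
    Real.tendsto_sqrt_atTop.comp tendsto_natCast_atTop_atTop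
  filter_upwards [h1.eventually_ge_atTop (6 / δ + 1)] with d hd
  have hq : 0 ≤ Real.sqrt (d : ℝ) := Real.sqrt_nonneg _
  have hq2 : Real.sqrt (d : ℝ) ^ 2 = d := Real.sq_sqrt (Nat.cast_nonneg d)
  have h2 : Real.log ((d : ℝ) + 1) ≤ 2 * Real.sqrt d := by
    have h3 : (d : ℝ) + 1 ≤ (Real.sqrt d + 1) ^ 2 := by nlinarith
    have h4 : Real.log ((d : ℝ) + 1) ≤ Real.log ((Real.sqrt d + 1) ^ 2) :=
      Real.log_le_log (by positivity) h3
    rw [Real.log_pow] at h4
    have h5 := Real.log_le_sub_one_of_pos (show (0 : ℝ) < Real.sqrt d + 1 by positivity)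
    push_cast at h4
    linarith
  have h6 : 6 / δ * δ = 6 := by field_simp
  set q := Real.sqrt (d : ℝ) with hqdef
  have h7 : 6 + δ ≤ δ * q := by nlinarith
  have h8 : 1 ≤ q := by
    have : 0 < 6 / δ := by positivity
    linarith
  have h9 : δ * d = δ * q * q := by rw [← hq2]; ring
  rw [h9]
  nlinarith

theorem herm_two {s c η : ℝ} (hs : 0 < s) (hc : 0 < c) (hη : 0 < η) (hη1 : η ≤ 1) :
    ∀ᶠ k : ℕ in atTop, ∀ d : ℕ, d = ⌊c ^ 2 * s * k / 4⌋₊ → ∀ a : ℝ, a = 1 - η / 6 →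
      Real.exp (-(η * k ^ 2)) * Sd d ^ (4 * k) ≤ GE s 0 (Bp s a k d ^ (4 * k)) ∧
      1 / 4 * Real.exp (2 * Real.sqrt (s * k * a * d) * (1 - η) - 2 * d * (1 + η) ^ 2 - s / 4) *
        GE s 0 (Bp s a k d ^ (4 * k)) ≤ Sd d ^ 2 * GE s (s / 2) (Bp s a k d ^ (4 * k - 2)) := by
  have hfl : Tendsto (fun k : ℕ => ⌊c ^ 2 * s * (k : ℝ) / 4⌋₊) atTop atTop := by
    refine tendsto_nat_floor_atTop.comp ?_
    have : (fun k : ℕ => c ^ 2 * s * (k : ℝ) / 4) = fun k : ℕ => (c ^ 2 * s / 4) * (k : ℝ) := by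
      ext k; ring
    rw [this]
    exact tendsto_natCast_atTop_atTop.const_mul_atTop (by positivity)
  have hpi : Real.pi < 3.15 := Real.pi_lt_d2
  filter_upwards [hfl.eventually (hb_logbd (δ := η ^ 2 / 12) (by positivity)),
    hfl.eventually_ge_atTop 1, eventually_ge_atTop 4,
    (tendsto_natCast_atTop_atTop (R := ℝ)).eventually_ge_atTop (Real.pi / (η ^ 2 / 12))]
    with k hlog hd1 hk4 hkpi
  intro d hd a ha
  rw [← hd] at hlog hd1
  subst ha
  have hk4' : (4 : ℝ) ≤ k := by exact_mod_cast hk4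
  have hk0 : (0 : ℝ) < k := by linarith
  have ha0 : 0 < 1 - η / 6 := by linarith
  have hka : 0 < (k : ℝ) * (1 - η / 6) := by positivity
  have hl : 0 < s * k * (1 - η / 6) := by positivity
  have hS : 0 ≤ Sd d := by unfold Sd; positivity
  have hkb : Real.pi ≤ k * (η ^ 2 / 12) := by
    have hpos : 0 < η ^ 2 / 12 := by positivity
    rwa [div_le_iff₀ hpos] at hkpi
  have hC0 : 0 < Real.sqrt (s * k * (1 - η / 6)) / Real.sqrt (Real.pi * s) := by
    have h1 := Real.sqrt_pos.2 hl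
    have h2 : 0 < Real.sqrt (Real.pi * s) := Real.sqrt_pos.2 (by positivity)
    positivity
  have hC1 : 1 ≤ Real.sqrt (s * k * (1 - η / 6)) / Real.sqrt (Real.pi * s) := by
    have h2 : 0 < Real.sqrt (Real.pi * s) := Real.sqrt_pos.2 (by positivity)
    rw [one_le_div h2]
    refine Real.sqrt_le_sqrt ?_
    have h3 : Real.pi ≤ k * (1 - η / 6) := by
      have h4 : (4 : ℝ) * (5 / 6) ≤ k * (1 - η / 6) :=
        mul_le_mul hk4' (by linarith) (by norm_num) hk0.le
      linarith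
    calc Real.pi * s ≤ (k * (1 - η / 6)) * s := mul_le_mul_of_nonneg_right h3 hs.le
      _ = s * k * (1 - η / 6) := by ring
  have hint := hb_int1 (a := 1 - η / 6) k d (4 * k) hka
  have hint2 := hb_int2 (a := 1 - η / 6) k d (4 * k - 2) hs hl
  have hhalf := hb_half k d (1 - η / 6)
  have hlow := hb_intlow (a := 1 - η / 6) k d hd1 hka ha0.le (by linarith)
  have hconc := hb_conc k d hd1 hη hη1 (by omega) hkb hlog
  rw [hb_mu k d (4 * k) hs hl, hb_nu k d (4 * k - 2) hs hl, hhalf]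
  set I := ∫ y in Set.Ioi (0 : ℝ), (He d).eval y ^ (4 * k) *
    Real.exp (-(k * (1 - η / 6) * y ^ 2)) with hI
  set K := Real.sqrt (s * k * (1 - η / 6)) / Real.sqrt (Real.pi * s) with hK
  set l := Real.sqrt (s * k * (1 - η / 6)) with hldef
  have hI0 : 0 ≤ I := by
    refine le_trans ?_ hlow
    positivity
  constructor
  · -- first claim
    have h1 : Sd d ^ (4 * k) ≤ I := by
      refine le_trans (pow_le_pow_left₀ hS ?_ _) hlow
      have h2 : 1 ≤ Real.exp ((1 - (1 - η / 6)) * d - Real.sqrt d - 2 - Real.log (d + 1)) := by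
        refine Real.one_le_exp ?_
        have h3 : η ^ 2 / 12 * d ≤ η / 6 * d := by
          refine mul_le_mul_of_nonneg_right ?_ (Nat.cast_nonneg d)
          nlinarith
        linarith
      calc Sd d = Sd d * 1 := (mul_one _).symm
        _ ≤ _ := mul_le_mul_of_nonneg_left h2 hS
    have h4 : Real.exp (-(η * k ^ 2)) ≤ 1 := by
      rw [Real.exp_le_one_iff]
      have : 0 ≤ η * (k : ℝ) ^ 2 := by positivity
      linarith
    calc Real.exp (-(η * k ^ 2)) * Sd d ^ (4 * k) ≤ 1 * Sd d ^ (4 * k) :=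
          mul_le_mul_of_nonneg_right h4 (by positivity)
      _ ≤ 1 * I := by rw [one_mul, one_mul]; exact h1
      _ ≤ K * (2 * I) := mul_le_mul hC1 (by linarith) hI0 hC0.le
  · -- second claim
    set E := Real.exp (2 * Real.sqrt (s * k * (1 - η / 6) * d) * (1 - η) -
      2 * d * (1 + η) ^ 2 - s / 4) with hE
    have hE0 : 0 < E := Real.exp_pos _
    have hsq : Real.sqrt (s * k * (1 - η / 6) * d) = l * Real.sqrt d :=
      Real.sqrt_mul hl.le _
    have hl0 : 0 < l := Real.sqrt_pos.2 hl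
    have hq0 : 0 ≤ Real.sqrt (d : ℝ) := Real.sqrt_nonneg _
    have hq2 : Real.sqrt (d : ℝ) ^ 2 = d := Real.sq_sqrt (Nat.cast_nonneg d)
    have hψ0 : ∀ y r : ℝ, 0 ≤ (He d).eval y ^ (4 * k - 2) * Real.exp r := by
      intro y r
      have : 0 ≤ (He d).eval y ^ (4 * k - 2) := Even.pow_nonneg ⟨2 * k - 1, by omega⟩ _
      positivity
    have hpt : ∀ y ∈ Set.Icc (2 * Real.sqrt d * (1 - η)) (2 * Real.sqrt d * (1 + η)),
        E * ((He d).eval y ^ (4 * k) * Real.exp (-(k * (1 - η / 6) * y ^ 2))) ≤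
        Sd d ^ 2 * ((He d).eval y ^ (4 * k - 2) *
          Real.exp (-(k * (1 - η / 6) * y ^ 2) + l * y - s / 4)) := by
      intro y hy
      have hy0 : 0 ≤ y := le_trans (by
        have : 0 ≤ 1 - η := by linarith
        positivity) hy.1
      have h1 : (He d).eval y ^ 2 ≤ Sd d ^ 2 * Real.exp (y ^ 2 / 2) := by
        have h2 := He_upper d hd1 y
        have h3 : |(He d).eval y| * Real.exp (-(y ^ 2 / 4)) ≤ Sd d := by
          refine h2.trans ?_
          have : Real.exp (-(max 0 (|y| / 2 - Real.sqrt d)) ^ 2) ≤ 1 := by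
            rw [Real.exp_le_one_iff]
            have := sq_nonneg (max 0 (|y| / 2 - Real.sqrt d))
            linarith
          calc _ ≤ Sd d * 1 := mul_le_mul_of_nonneg_left this hS
            _ = Sd d := mul_one _
        have h4 : |(He d).eval y| ≤ Sd d * Real.exp (y ^ 2 / 4) := by
          calc |(He d).eval y| = |(He d).eval y| * Real.exp (-(y ^ 2 / 4)) *
                Real.exp (y ^ 2 / 4) := by
                rw [mul_assoc, ← Real.exp_add, neg_add_cancel, Real.exp_zero, mul_one]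
            _ ≤ _ := mul_le_mul_of_nonneg_right h3 (Real.exp_pos _).le
        calc (He d).eval y ^ 2 = |(He d).eval y| ^ 2 := (sq_abs _).symm
          _ ≤ (Sd d * Real.exp (y ^ 2 / 4)) ^ 2 := pow_le_pow_left₀ (abs_nonneg _) h4 2
          _ = Sd d ^ 2 * Real.exp (y ^ 2 / 2) := by
              rw [mul_pow, ← Real.exp_nat_mul]
              congr 2
              push_cast
              ring
      have h5 : (He d).eval y ^ (4 * k) = (He d).eval y ^ (4 * k - 2) * (He d).eval y ^ 2 := by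
        rw [← pow_add]
        congr 1
        omega
      have h6 : 0 ≤ (He d).eval y ^ (4 * k - 2) := Even.pow_nonneg ⟨2 * k - 1, by omega⟩ _
      have h7 : E * Real.exp (y ^ 2 / 2) ≤ Real.exp (l * y - s / 4) := by
        rw [hE, ← Real.exp_add]
        refine Real.exp_le_exp.2 ?_
        rw [hsq]
        have h8 : 2 * (l * Real.sqrt d) * (1 - η) ≤ l * y := by
          have := mul_le_mul_of_nonneg_left hy.1 hl0.le
          calc 2 * (l * Real.sqrt d) * (1 - η) = l * (2 * Real.sqrt d * (1 - η)) := by ring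
            _ ≤ l * y := this
        have h9 : y ^ 2 / 2 ≤ 2 * d * (1 + η) ^ 2 := by
          have h10 : y ^ 2 ≤ (2 * Real.sqrt d * (1 + η)) ^ 2 :=
            pow_le_pow_left₀ hy0 hy.2 2
          have h11 : (2 * Real.sqrt d * (1 + η)) ^ 2 = 4 * d * (1 + η) ^ 2 := by
            rw [mul_pow, mul_pow, hq2]; ring
          linarith
        linarith
      calc E * ((He d).eval y ^ (4 * k) * Real.exp (-(k * (1 - η / 6) * y ^ 2)))
          = ((He d).eval y ^ (4 * k - 2) * Real.exp (-(k * (1 - η / 6) * y ^ 2))) *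
            (E * (He d).eval y ^ 2) := by rw [h5]; ring
        _ ≤ ((He d).eval y ^ (4 * k - 2) * Real.exp (-(k * (1 - η / 6) * y ^ 2))) *
            (E * (Sd d ^ 2 * Real.exp (y ^ 2 / 2))) := by
            refine mul_le_mul_of_nonneg_left ?_ (by positivity)
            exact mul_le_mul_of_nonneg_left h1 hE0.le
        _ = ((He d).eval y ^ (4 * k - 2) * Real.exp (-(k * (1 - η / 6) * y ^ 2))) *
            Sd d ^ 2 * (E * Real.exp (y ^ 2 / 2)) := by ring
        _ ≤ ((He d).eval y ^ (4 * k - 2) * Real.exp (-(k * (1 - η / 6) * y ^ 2))) *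
            Sd d ^ 2 * Real.exp (l * y - s / 4) := by
            refine mul_le_mul_of_nonneg_left h7 (by positivity)
        _ = _ := by
            have : -(k * (1 - η / 6) * y ^ 2) + l * y - s / 4 =
              -(k * (1 - η / 6) * y ^ 2) + (l * y - s / 4) := by ring
            rw [this, Real.exp_add]
            ring
    set W := Set.Icc (2 * Real.sqrt d * (1 - η)) (2 * Real.sqrt d * (1 + η)) with hW
    have hJ : E * (∫ y in W, (He d).eval y ^ (4 * k) *
        Real.exp (-(k * (1 - η / 6) * y ^ 2))) ≤ Sd d ^ 2 *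
        ∫ y : ℝ, (He d).eval y ^ (4 * k - 2) *
          Real.exp (-(k * (1 - η / 6) * y ^ 2) + l * y - s / 4) := by
      rw [← integral_const_mul, ← integral_const_mul]
      refine (setIntegral_mono_on (hint.const_mul E).integrableOn
        (hint2.const_mul (Sd d ^ 2)).integrableOn measurableSet_Icc hpt).trans ?_
      refine setIntegral_le_integral (hint2.const_mul (Sd d ^ 2))
        (Filter.Eventually.of_forall fun y => ?_)
      exact mul_nonneg (by positivity) (hψ0 y _)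
    set J := ∫ y in W, (He d).eval y ^ (4 * k) *
        Real.exp (-(k * (1 - η / 6) * y ^ 2)) with hJdef
    set N := ∫ y : ℝ, (He d).eval y ^ (4 * k - 2) *
          Real.exp (-(k * (1 - η / 6) * y ^ 2) + l * y - s / 4) with hN
    calc 1 / 4 * E * (K * (2 * I)) = (K * E) * (I / 2) := by ring
      _ ≤ (K * E) * J := mul_le_mul_of_nonneg_left (by linarith) (by positivity)
      _ = K * (E * J) := by ring
      _ ≤ K * (Sd d ^ 2 * N) := mul_le_mul_of_nonneg_left hJ hC0.le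
      _ = Sd d ^ 2 * (K * N) := by ring

end Pool.Agent.MomW
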