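import Pool.Agent.Lib_MP_112ba8_w.Defs

/-!
# Piece KER: a kernel

PROOF. Let `β` be a smooth bump (`ContDiffBump` centred at `0` with inner radius `1/2` and outer
radius `1`), a Schwartz function; `K` is (up to the normalisation of the exponential, `2π`) its
Fourier transform, which is again a Schwartz function, hence integrable, and the claim is Fourier
inversion (`SchwartzMap`/`Continuous.fourierInv_fourier_eq` etc.; compare `ZetaMoment.wS`,
`fourier_decay` in `Lib_MP_112ba8/MeanVal.lean`).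
-/

namespace Pool.Agent.MomW

open Filter Topology MeasureTheory
open scoped FourierTransform SchwartzMap

/-- the bump -/
private noncomputable def kerB : ContDiffBump (0 : ℝ) where
  rIn := 1 / 2
  rOut := 1
  rIn_pos := by norm_num
  rIn_lt_rOut := by norm_num

/-- the bump as a Schwartz function -/
private noncomputable def kerS : SchwartzMap ℝ ℂ :=
  HasCompactSupport.toSchwartzMap (f := fun x => (kerB x : ℂ))
    (kerB.hasCompactSupport.comp_left (g := fun x : ℝ => (x : ℂ)) (by simp))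
    (Complex.ofRealCLM.contDiff.comp kerB.contDiff)

theorem exists_kernel : ∃ (K : ℝ → ℂ) (β : ℝ → ℝ), Cut β ∧ Continuous β ∧ Continuous K ∧
    Integrable K ∧ ∀ x : ℝ, ∫ u : ℝ, K u * Complex.exp (u * x * Complex.I) = (β x : ℂ) := by
  have hpi : (0 : ℝ) < 2 * Real.pi := by positivity
  refine ⟨fun u => (1 / (2 * Real.pi) : ℂ) * (𝓕 kerS : SchwartzMap ℝ ℂ) (u / (2 * Real.pi)),
    fun x => kerB x, ⟨fun x => kerB.nonneg, fun x => kerB.le_one, fun x hx => ?_, fun x hx => ?_⟩,
    kerB.continuous, ?_, ?_, fun x => ?_⟩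
  · refine kerB.one_of_mem_closedBall ?_
    rw [Metric.mem_closedBall, dist_zero_right]
    exact hx
  · refine kerB.zero_of_le_dist ?_
    rw [dist_zero_right]
    exact hx
  · exact continuous_const.mul ((𝓕 kerS : SchwartzMap ℝ ℂ).continuous.comp
      (continuous_id.div_const _))
  · refine Integrable.const_mul ?_ _
    exact ((𝓕 kerS : SchwartzMap ℝ ℂ).integrable (μ := volume)).comp_div hpi.ne'
  · have h1 := Measure.integral_comp_div (fun v : ℝ => (1 / (2 * Real.pi) : ℂ) *
      (𝓕 kerS : SchwartzMap ℝ ℂ) v * Complex.exp (((2 * Real.pi * v : ℝ) : ℂ) * x * Complex.I))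
      (2 * Real.pi)
    have h2 : ∀ u : ℝ, (1 / (2 * Real.pi) : ℂ) * (𝓕 kerS : SchwartzMap ℝ ℂ) (u / (2 * Real.pi)) *
        Complex.exp (u * x * Complex.I) = (1 / (2 * Real.pi) : ℂ) *
        (𝓕 kerS : SchwartzMap ℝ ℂ) (u / (2 * Real.pi)) *
        Complex.exp (((2 * Real.pi * (u / (2 * Real.pi)) : ℝ) : ℂ) * x * Complex.I) := by
      intro u
      rw [mul_div_cancel₀ _ hpi.ne']
    rw [integral_congr_ae (ae_of_all _ h2), h1, abs_of_pos hpi]
    have h3 : 𝓕⁻ (𝓕 (kerS : ℝ → ℂ)) = (kerS : ℝ → ℂ) := by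
      refine kerS.continuous.fourierInv_fourier_eq kerS.integrable ?_
      exact (𝓕 kerS : SchwartzMap ℝ ℂ).integrable
    have h4 := congrFun h3 x
    rw [Real.fourierInv_eq'] at h4
    have h5 : kerS x = ((kerB x : ℝ) : ℂ) := rfl
    rw [h5] at h4
    rw [← h4, Complex.real_smul]
    have h6 : (fun v : ℝ => (1 / (2 * Real.pi) : ℂ) *
      (𝓕 kerS : SchwartzMap ℝ ℂ) v * Complex.exp (((2 * Real.pi * v : ℝ) : ℂ) * x * Complex.I)) =
      fun v : ℝ => (1 / (2 * Real.pi) : ℂ) * (Complex.exp (((2 * Real.pi * inner ℝ v x : ℝ) : ℂ) *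
        Complex.I) • 𝓕 (kerS : ℝ → ℂ) v) := by
      funext v
      rw [smul_eq_mul, mul_assoc]
      congr 1
      rw [mul_comm]
      congr 1
      · congr 1
        simp only [RCLike.inner_apply, conj_trivial]
        push_cast
        ring
    rw [h6, integral_const_mul, ← mul_assoc]
    have h7 : ((2 * Real.pi : ℝ) : ℂ) * (1 / (2 * Real.pi) : ℂ) = 1 := by
      have h8 : ((2 * Real.pi : ℝ) : ℂ) ≠ 0 := by exact_mod_cast hpi.ne'
      push_cast at h8 ⊢
      field_simp
    rw [h7, one_mul]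

end Pool.Agent.MomW
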