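import Pool.Agent.Lib_MP_112ba8_w.ZetaTP
import Pool.Agent.Lib_MP_112ba8_w.Kernel

/-!
# Piece MI: the main inequality (Hoelder with a kernel)

PROOF. Let `K, β` be from `exists_kernel`, `κ = ∫ ‖K‖` (positive, as `β 0 = 1`), `L = log T`,
`B = (ε/4) L > 0`, `K_B(u) = B K(B u)`, so `∫ ‖K_B‖ = κ` and `∫ K_B(u) e^{iux} du = β(x/B)`.
Write `ζ(t) = ζ(1/2+it)`, `M = (1/T) ∫_0^T ‖ζ‖^{2k}` and
`I(u) = (1/T) ∫ wt(t/T) ζ(t) F(t+u) dt`, `F(t) = ev t F`, `x(t) = ev t G ≥ 0`.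

(1) For every real `u`: `(1/T) ∫ wt(t/T) x(t+u) dt ≤ Wm G_0 + C₁ nrm G / T^4 ≤ Wm G_0 + C₁/T ≤ b`
(`mean_TP` with `A = 4`, `nrm G ≤ T^3`).

(2) For every real `u`: `‖I(u)‖^{2k} ≤ M b^{2k-1}`. Either Hoelder's inequality, or directly: for
`λ > 0`, `bernoulli_ineq` (Analytic.lean) gives pointwise
`2k λ^{2k-1} ‖ζ‖ ‖F‖ ≤ ‖ζ‖^{2k} + (2k-1) λ^{2k} x`, as `‖F‖ = y^{2k-1}` with `y = x^{1/(2k)}`.
Integrate against `wt(t/T)/T` (`0 ≤ wt ≤ 1`, `wt = 0` outside `[1/4, 1]`), so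
`2k λ^{2k-1} ‖I‖ ≤ M + (2k-1) λ^{2k} b`, and choose `λ = ‖I‖/b` (if `I ≠ 0`).

(3) `‖∫ K_B(u) I(u) du‖ ≤ κ sup ‖I‖`, hence `(‖∫ K_B I‖/κ)^{2k} ≤ M b^{2k-1}`.

(4) Fubini: `∫ K_B(u) I(u) du = (1/T) ∫ wt(t/T) ζ(t) F_β(t) dt`, where
`F_β(t) = ∫ K_B(u) F(t+u) du = ∑_q F(q) β(fr q / B) osc q t`.

(5) Replace `ζ(t)` by `D(t) = DP (fun _ => 1) ⌈T^{3/2}⌉₊ t` (`zeta_approx_asymp`, error
`21 T^{-1/4}` on the support of the weight): the cost is at most
`21 T^{-1/4} (1/T) ∫ wt(t/T) ‖F_β(t)‖ dt ≤ 21 T^{-1/4} κ (Wm + Wm G_0 + C₁)`, since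
`‖F_β(t)‖ ≤ ∫ ‖K_B(u)‖ ‖F(t+u)‖ du`, `‖F‖ ≤ 1 + x` and (1).

(6) `(1/T) ∫ wt(t/T) D(t) F_β(t) dt = ∑_q F(q) β(fr q/B) (Wm wr 1 q + O(C₂/T^4))` by `zeta_first`
with `A = 4` (only `|fr q| < B` matters, by `Cut.zero`), and this is
`Wm NB β B F + O(C₂ nrm F / T^4)`, because `wr 1 q = 0` unless `0 ≤ q`, and then `fr q = ln q`;
`nrm F/T^4 ≤ 1/T ≤ T^{-1/4}`, `0 ≤ β ≤ 1`.

So `‖∫ K_B I‖ ≥ Wm NB β B F - C (1 + G_0) T^{-1/4}` and (3) gives the claim.
-/

namespace Pool.Agent.MomW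

open Filter Topology MeasureTheory
open Pool.Agent.SixthMoment (QQ ln fr osc)
open Pool.Agent.ZetaMoment (wt Wm C0 aG DP)

private lemma mi_point (n : ℕ) {z f x l : ℝ} (hz : 0 ≤ z) (hf : 0 ≤ f) (hx : 0 ≤ x) (hl : 0 ≤ l)
    (h : f ^ (n + 1) = x ^ n) :
    ((n : ℝ) + 1) * l ^ n * (z * f) ≤ z ^ (n + 1) + n * l ^ (n + 1) * x := by
  set y : ℝ := x ^ (((n + 1 : ℕ) : ℝ)⁻¹) with hy
  have hy0 : 0 ≤ y := Real.rpow_nonneg hx _
  have hy1 : y ^ (n + 1) = x := Real.rpow_inv_natCast_pow hx (Nat.succ_ne_zero n)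
  have hy2 : y ^ n = f := by
    refine (pow_left_inj₀ (pow_nonneg hy0 n) hf (Nat.succ_ne_zero n)).mp ?_
    rw [← pow_mul, mul_comm n, pow_mul, hy1, h]
  have hb := Pool.Agent.ZetaMoment.bernoulli_ineq hz (mul_nonneg hl hy0) n
  rw [mul_pow, mul_pow, hy1, hy2] at hb
  have e : ((n : ℝ) + 1) * l ^ n * (z * f) = (n + 1) * (z * (l ^ n * f)) := by ring
  have e2 : (n : ℝ) * l ^ (n + 1) * x = n * (l ^ (n + 1) * x) := by ring
  rw [e, e2]
  linarith

private lemma mi_norm {T : ℝ} (hT : 0 < T) : ‖(1 / T : ℂ)‖ = 1 / T := by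
  rw [norm_div, norm_one, Complex.norm_real, Real.norm_of_nonneg hT.le]

private lemma mi_holder {T : ℝ} (hT : 0 < T) (n : ℕ) {M b : ℝ} (hb : 0 < b)
    {Z Fn : ℝ → ℂ} {x : ℝ → ℝ} (hZ : Continuous Z) (hF : Continuous Fn) (hx : Continuous x)
    (hx0 : ∀ t, 0 ≤ x t) (hrel : ∀ t, ‖Fn t‖ ^ (n + 1) = x t ^ n)
    (hM : (1 / T) * ∫ t : ℝ, wt (t / T) * ‖Z t‖ ^ (n + 1) ≤ M)
    (hB : (1 / T) * ∫ t : ℝ, wt (t / T) * x t ≤ b) :
    ‖(1 / T : ℂ) * ∫ t : ℝ, (wt (t / T) : ℂ) * (Z t * Fn t)‖ ^ (n + 1) ≤ M * b ^ n := by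
  set J : ℝ := (1 / T) * ∫ t : ℝ, wt (t / T) * (‖Z t‖ * ‖Fn t‖) with hJ
  have hJ0 : 0 ≤ J := by
    refine mul_nonneg (by positivity) (integral_nonneg fun t => ?_)
    exact mul_nonneg (Pool.Agent.ZetaMoment.wt_nonneg _) (by positivity)
  have hle : ‖(1 / T : ℂ) * ∫ t : ℝ, (wt (t / T) : ℂ) * (Z t * Fn t)‖ ≤ J := by
    rw [norm_mul, hJ, mi_norm hT]
    refine mul_le_mul_of_nonneg_left ?_ (by positivity)
    refine (norm_integral_le_integral_norm _).trans (le_of_eq ?_)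
    refine integral_congr_ae (ae_of_all _ fun t => ?_)
    simp only [norm_mul, Complex.norm_real,
      Real.norm_of_nonneg (Pool.Agent.ZetaMoment.wt_nonneg _)]
  have hkey : ∀ l : ℝ, 0 ≤ l → ((n : ℝ) + 1) * l ^ n * J ≤ M + n * l ^ (n + 1) * b := by
    intro l hl
    have i1 : Integrable fun t => wt (t / T) * (‖Z t‖ * ‖Fn t‖) :=
      Pool.Agent.ZetaMoment.integrable_w_real hT (hZ.norm.mul hF.norm)
    have i2 : Integrable fun t => wt (t / T) * ‖Z t‖ ^ (n + 1) :=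
      Pool.Agent.ZetaMoment.integrable_w_real hT (hZ.norm.pow _)
    have i3 : Integrable fun t => wt (t / T) * x t :=
      Pool.Agent.ZetaMoment.integrable_w_real hT hx
    have h1 : ∫ t : ℝ, (((n : ℝ) + 1) * l ^ n) * (wt (t / T) * (‖Z t‖ * ‖Fn t‖)) ≤
        ∫ t : ℝ, (wt (t / T) * ‖Z t‖ ^ (n + 1) + (n * l ^ (n + 1)) * (wt (t / T) * x t)) := by
      refine integral_mono (i1.const_mul _) (i2.add (i3.const_mul _)) fun t => ?_
      have h2 := mul_le_mul_of_nonneg_left (mi_point n (norm_nonneg (Z t)) (norm_nonneg (Fn t))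
        (hx0 t) hl (hrel t)) (Pool.Agent.ZetaMoment.wt_nonneg (t / T))
      calc (((n : ℝ) + 1) * l ^ n) * (wt (t / T) * (‖Z t‖ * ‖Fn t‖))
          = wt (t / T) * (((n : ℝ) + 1) * l ^ n * (‖Z t‖ * ‖Fn t‖)) := by ring
        _ ≤ wt (t / T) * (‖Z t‖ ^ (n + 1) + n * l ^ (n + 1) * x t) := h2
        _ = wt (t / T) * ‖Z t‖ ^ (n + 1) + (n * l ^ (n + 1)) * (wt (t / T) * x t) := by ring
    rw [integral_const_mul, integral_add i2 (i3.const_mul _), integral_const_mul] at h1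
    have h4 := mul_le_mul_of_nonneg_left h1 (by positivity : 0 ≤ 1 / T)
    calc ((n : ℝ) + 1) * l ^ n * J
        = 1 / T * (((n : ℝ) + 1) * l ^ n * ∫ t : ℝ, wt (t / T) * (‖Z t‖ * ‖Fn t‖)) := by
          rw [hJ]; ring
      _ ≤ _ := h4
      _ = (1 / T * ∫ t : ℝ, wt (t / T) * ‖Z t‖ ^ (n + 1)) +
          n * l ^ (n + 1) * (1 / T * ∫ t : ℝ, wt (t / T) * x t) := by ring
      _ ≤ M + n * l ^ (n + 1) * b := by gcongr
  have hJb := hkey (J / b) (by positivity)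
  have h5 : J ^ (n + 1) ≤ M * b ^ n := by
    have e1 : ((n : ℝ) + 1) * (J / b) ^ n * J = (n + 1) * (J ^ (n + 1) / b ^ n) := by
      rw [div_pow]; ring
    have e2 : (n : ℝ) * (J / b) ^ (n + 1) * b = n * (J ^ (n + 1) / b ^ n) := by
      rw [div_pow, pow_succ b n]; field_simp
    rw [e1, e2] at hJb
    have h6 : J ^ (n + 1) / b ^ n ≤ M := by linarith
    rwa [div_le_iff₀ (by positivity)] at h6
  exact (pow_le_pow_left₀ (norm_nonneg _) hle _).trans h5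

private lemma mi_kernel {K : ℝ → ℂ} {β : ℝ → ℝ} (hKi : Integrable K)
    (hK : ∀ x : ℝ, ∫ u : ℝ, K u * Complex.exp (u * x * Complex.I) = (β x : ℂ)) {B : ℝ}
    (hB : 0 < B) :
    (Integrable fun u : ℝ => (B : ℂ) * K (B * u)) ∧
    (∫ u : ℝ, ‖(B : ℂ) * K (B * u)‖ = ∫ u, ‖K u‖) ∧
    ∀ q : QQ, ∫ u : ℝ, ((B : ℂ) * K (B * u)) * osc q u = (β (fr q / B) : ℂ) := by
  refine ⟨(hKi.comp_mul_left' hB.ne').const_mul _, ?_, fun q => ?_⟩
  · simp only [norm_mul, Complex.norm_real, Real.norm_of_nonneg hB.le]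
    rw [integral_const_mul, Measure.integral_comp_mul_left (fun u : ℝ => ‖K u‖) B,
      abs_of_pos (inv_pos.mpr hB), smul_eq_mul, ← mul_assoc, mul_inv_cancel₀ hB.ne', one_mul]
  · rw [← hK]
    have h1 : ∀ u : ℝ, ((B : ℂ) * K (B * u)) * osc q u =
        (B : ℂ) * (K (B * u) * Complex.exp ((B * u : ℝ) * (fr q / B : ℝ) * Complex.I)) := by
      intro u
      have hBc : (B : ℂ) ≠ 0 := by exact_mod_cast hB.ne'
      have h2 : ((B * u : ℝ) : ℂ) * (fr q / B : ℝ) * Complex.I = u * (fr q : ℝ) * Complex.I := by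
        push_cast
        field_simp
      rw [h2]
      unfold Pool.Agent.SixthMoment.osc
      ring
    rw [integral_congr_ae (ae_of_all _ h1), integral_const_mul,
      Measure.integral_comp_mul_left (fun v : ℝ =>
        K v * Complex.exp (v * (fr q / B : ℝ) * Complex.I)) B,
      abs_of_pos (inv_pos.mpr hB), Complex.real_smul, ← mul_assoc]
    push_cast
    rw [mul_inv_cancel₀ (by exact_mod_cast hB.ne'), one_mul]

private lemma mi_osc (q : QQ) (t u : ℝ) : osc q (t + u) = osc q t * osc q u := by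
  unfold Pool.Agent.SixthMoment.osc
  rw [← Complex.exp_add]
  congr 1
  push_cast
  ring

private lemma mi_norm_osc (q : QQ) (t : ℝ) : ‖osc q t‖ = 1 := by
  unfold Pool.Agent.SixthMoment.osc
  have h1 : (t : ℂ) * (fr q : ℝ) * Complex.I = ((t * fr q : ℝ) : ℂ) * Complex.I := by
    push_cast
    ring
  rw [h1, Complex.norm_exp_ofReal_mul_I]

/-- the moment with the weight is at most the moment -/
private lemma mi_moment {T : ℝ} (hT : 0 < T) (n : ℕ) :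
    (1 / T) * ∫ t : ℝ, wt (t / T) * ‖riemannZeta (1 / 2 + t * Complex.I)‖ ^ n ≤
      (1 / T) * ∫ t in (0 : ℝ)..T, ‖riemannZeta (1 / 2 + t * Complex.I)‖ ^ n := by
  set f : ℝ → ℝ := fun t => ‖riemannZeta (1 / 2 + t * Complex.I)‖ ^ n with hf
  have hfc : Continuous f := (Pool.Agent.ZetaMoment.zeta_cont.norm).pow _
  have hf0 : ∀ t, 0 ≤ f t := fun t => by positivity
  have j5 : Integrable fun t => wt (t / T) * f t :=
    Pool.Agent.ZetaMoment.integrable_w_real hT hfc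
  refine mul_le_mul_of_nonneg_left ?_ (by positivity)
  rw [intervalIntegral.integral_of_le hT.le]
  have h1 : ∫ t in Set.Ioc 0 T, wt (t / T) * f t = ∫ t : ℝ, wt (t / T) * f t := by
    refine setIntegral_eq_integral_of_forall_compl_eq_zero fun t ht => ?_
    have : t ∉ Set.Icc (T / 4) T := by
      intro h; apply ht
      exact ⟨lt_of_lt_of_le (by positivity) h.1, h.2⟩
    rw [Pool.Agent.ZetaMoment.wt_scale_zero hT this, zero_mul]
  rw [← h1]
  refine setIntegral_mono_on j5.integrableOn ?_ measurableSet_Ioc fun t _ => ?_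
  · exact (hfc.integrableOn_Icc (a := 0) (b := T)).mono_set Set.Ioc_subset_Icc_self
  · have := Pool.Agent.ZetaMoment.wt_le_one (t / T)
    nlinarith [hf0 t]

private lemma mi_expand {T : ℝ} (hT : 0 < T) {D : ℝ → ℂ} (hD : Continuous D) (F : TP) (u : ℝ) :
    (1 / T : ℂ) * ∫ t : ℝ, (wt (t / T) : ℂ) * (D t * ev (t + u) F) =
      ∑ q ∈ F.coeff.support, ((F.coeff q : ℂ) *
        ((1 / T : ℂ) * ∫ t : ℝ, (wt (t / T) : ℂ) * (D t * osc q t))) * osc q u := by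
  have h1 : ∀ t : ℝ, (wt (t / T) : ℂ) * (D t * ev (t + u) F) =
      ∑ q ∈ F.coeff.support, ((F.coeff q : ℂ) * osc q u) *
        ((wt (t / T) : ℂ) * (D t * osc q t)) := by
    intro t
    rw [ev_eq_sum, Finsupp.sum, Finset.mul_sum, Finset.mul_sum]
    refine Finset.sum_congr rfl fun q _ => ?_
    rw [mi_osc]
    ring
  rw [integral_congr_ae (ae_of_all _ h1), integral_finsetSum]
  · rw [Finset.mul_sum]
    refine Finset.sum_congr rfl fun q _ => ?_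
    rw [integral_const_mul]
    ring
  · intro q _
    exact (Pool.Agent.ZetaMoment.integrable_w hT
      (hD.mul (Pool.Agent.SixthMoment.osc_cont q))).const_mul _

/-- comparison of the two functionals -/
private lemma mi_coeff (β : ℝ → ℝ) (B : ℝ) (q : QQ) :
    wr 1 q * β (ln q / B) = wr 1 q * β (fr q / B) := by
  by_cases hq : 0 ≤ q
  · rw [fr_eq_ln hq]
  · have h0 : wr 1 q = 0 := by
      unfold wr
      rw [if_neg hq]
    rw [h0, zero_mul, zero_mul]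

private lemma mi_le_one_add (n : ℕ) {f x : ℝ} (hf : 0 ≤ f) (hx : 0 ≤ x)
    (h : f ^ (n + 1) = x ^ n) : f ≤ 1 + x := by
  have h1 := mi_point n zero_le_one hf hx zero_le_one h
  simp only [one_pow, mul_one, one_mul] at h1
  have hn : (0 : ℝ) ≤ n := Nat.cast_nonneg n
  by_contra hc
  push Not at hc
  nlinarith [mul_nonneg hn hf]

theorem main_ineq : ∃ (κ : ℝ) (β : ℝ → ℝ), 0 < κ ∧ Cut β ∧ ∀ ε : ℝ, 0 < ε → ε < 1 →
    ∀ k : ℕ, 1 ≤ k → ∃ C T₀ : ℝ, 0 < C ∧ 1 ≤ T₀ ∧ ∀ T : ℝ, T₀ ≤ T → ∀ F G : TP,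
      Len F ((2 - ε) * Real.log T) → Len G ((2 - ε) * Real.log T) →
      nrm F ≤ T ^ 3 → nrm G ≤ T ^ 3 → 0 ≤ G.coeff 0 →
      (∀ t : ℝ, ∃ x : ℝ, 0 ≤ x ∧ ev t G = (x : ℂ) ∧ ‖ev t F‖ ^ (2 * k) = x ^ (2 * k - 1)) →
      ∀ a b : ℝ, 0 ≤ a → 0 < b →
        κ * a ≤ Wm * NB β (ε / 4 * Real.log T) F - C * (1 + G.coeff 0) * T ^ (-(1 / 4) : ℝ) →
        Wm * G.coeff 0 + C / T ≤ b →
        a ^ (2 * k) / b ^ (2 * k - 1) ≤
          (1 / T) * ∫ t in (0 : ℝ)..T, ‖riemannZeta (1 / 2 + t * Complex.I)‖ ^ (2 * k) := by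
  obtain ⟨K, β, hβ, -, hKc, hKi, hK⟩ := exists_kernel
  set κ : ℝ := ∫ u : ℝ, ‖K u‖ with hκ
  have hκ1 : 1 ≤ κ := by
    have h0 := hK 0
    have hone : β 0 = 1 := hβ.one 0 (by norm_num)
    rw [hone] at h0
    simp only [Complex.ofReal_zero, mul_zero, zero_mul, Complex.exp_zero, mul_one,
      Complex.ofReal_one] at h0
    have h1 := norm_integral_le_integral_norm (μ := volume) K
    rw [h0, norm_one] at h1
    exact h1
  have hκ0 : 0 < κ := by linarith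
  refine ⟨κ, β, hκ0, hβ, fun ε hε hε1 k hk => ?_⟩
  obtain ⟨C₁, T₁, hC₁, hT₁, hmean⟩ := mean_TP hε 4
  obtain ⟨C₂, T₂, hC₂, hT₂, hzeta⟩ := zeta_first hε hε1 4
  have hWm := Pool.Agent.ZetaMoment.Wm_pos
  refine ⟨21 * κ * (Wm + C₁) + C₂ + C₁, max (max T₁ T₂) 2, by positivity,
    le_trans (by norm_num) (le_max_right _ _), fun T hT F G hFl hGl hFn hGn hG0 hrel a b ha hb
      hab hGb => ?_⟩
  have hTT₁ : T₁ ≤ T := ((le_max_left _ _).trans (le_max_left _ _)).trans hT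
  have hTT₂ : T₂ ≤ T := ((le_max_right _ _).trans (le_max_left _ _)).trans hT
  have hT2 : 2 ≤ T := (le_max_right _ _).trans hT
  have hT0 : 0 < T := by linarith
  have hT1 : 1 ≤ T := by linarith
  have hTc : (T : ℂ) ≠ 0 := by exact_mod_cast hT0.ne'
  have hL : 0 < Real.log T := Real.log_pos (by linarith)
  obtain ⟨n, hn1, hn2⟩ : ∃ n : ℕ, 2 * k = n + 1 ∧ 2 * k - 1 = n := ⟨2 * k - 1, by omega, rfl⟩
  rw [hn2, hn1]
  rw [hn2, hn1] at hrel
  set B : ℝ := ε / 4 * Real.log T with hB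
  have hB0 : 0 < B := by positivity
  set x : ℝ → ℝ := fun t => (ev t G).re with hx
  have hxev : ∀ t, ev t G = (x t : ℂ) := by
    intro t
    obtain ⟨y, -, hy, -⟩ := hrel t
    simp only [hx, hy, Complex.ofReal_re]
  have hx0 : ∀ t, 0 ≤ x t := by
    intro t
    obtain ⟨y, hy0, hy, -⟩ := hrel t
    simp only [hx, hy, Complex.ofReal_re]
    exact hy0
  have hxF : ∀ t, ‖ev t F‖ ^ (n + 1) = x t ^ n := by
    intro t
    obtain ⟨y, -, hy, h1⟩ := hrel t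
    simp only [hx, hy, Complex.ofReal_re]
    exact h1
  have hxc : Continuous x := Complex.continuous_re.comp (ev_cont G)
  have hsh : ∀ u : ℝ, Continuous fun t : ℝ => t + u := fun u => by fun_prop
  -- step 1
  have hGT : C₁ * nrm G / T ^ 4 ≤ C₁ / T := by
    rw [div_le_div_iff₀ (by positivity) hT0]
    nlinarith [mul_le_mul_of_nonneg_left hGn (mul_pos hC₁ hT0).le]
  have hstep1 : ∀ u : ℝ, (1 / T) * ∫ t : ℝ, wt (t / T) * x (t + u) ≤ Wm * G.coeff 0 + C₁ / T := by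
    intro u
    have h1 := hmean T hTT₁ G u hGl
    have h2 : (1 / T : ℂ) * (∫ t : ℝ, (wt (t / T) : ℂ) * ev (t + u) G) =
        (((1 / T) * ∫ t : ℝ, wt (t / T) * x (t + u) : ℝ) : ℂ) := by
      have h3 : ∀ t : ℝ, (wt (t / T) : ℂ) * ev (t + u) G = ((wt (t / T) * x (t + u) : ℝ) : ℂ) := by
        intro t
        rw [hxev]
        push_cast
        ring
      rw [integral_congr_ae (ae_of_all _ h3), integral_complex_ofReal]
      push_cast
      ring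
    rw [h2, ← Complex.ofReal_sub, Complex.norm_real] at h1
    have h4 := (le_abs_self _).trans h1
    linarith
  have hC1T : C₁ / T ≤ C₁ := div_le_self hC₁.le hT1
  have hb1 : ∀ u : ℝ, (1 / T) * ∫ t : ℝ, wt (t / T) * x (t + u) ≤ b := by
    intro u
    refine ((hstep1 u).trans ?_).trans hGb
    have h1 : C₁ / T ≤ (21 * κ * (Wm + C₁) + C₂ + C₁) / T :=
      div_le_div_of_nonneg_right (by nlinarith [mul_pos hκ0 (add_pos hWm hC₁)]) hT0.le
    linarith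
  -- step 2
  set M : ℝ := (1 / T) * ∫ t in (0 : ℝ)..T, ‖riemannZeta (1 / 2 + t * Complex.I)‖ ^ (n + 1) with hM
  set Z : ℝ → ℂ := fun t => riemannZeta (1 / 2 + t * Complex.I) with hZ
  have hZc : Continuous Z := Pool.Agent.ZetaMoment.zeta_cont
  have hMle : (1 / T) * ∫ t : ℝ, wt (t / T) * ‖Z t‖ ^ (n + 1) ≤ M := mi_moment hT0 (n + 1)
  have hM0 : 0 ≤ M := by
    refine le_trans (mul_nonneg (by positivity) (integral_nonneg fun t => ?_)) hMle
    exact mul_nonneg (Pool.Agent.ZetaMoment.wt_nonneg _) (by positivity)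
  have hstep2 : ∀ u : ℝ, ‖(1 / T : ℂ) * ∫ t : ℝ, (wt (t / T) : ℂ) * (Z t * ev (t + u) F)‖ ^ (n + 1)
      ≤ M * b ^ n := fun u =>
    mi_holder hT0 n hb hZc ((ev_cont F).comp (hsh u)) (hxc.comp (hsh u)) (fun t => hx0 _)
      (fun t => hxF _) hMle (hb1 u)
  set S : ℝ := (M * b ^ n) ^ (((n + 1 : ℕ) : ℝ)⁻¹) with hS
  have hMb : 0 ≤ M * b ^ n := by positivity
  have hS0 : 0 ≤ S := Real.rpow_nonneg hMb _
  have hS1 : S ^ (n + 1) = M * b ^ n := Real.rpow_inv_natCast_pow hMb (Nat.succ_ne_zero n)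
  have hstep2' : ∀ u : ℝ, ‖(1 / T : ℂ) * ∫ t : ℝ, (wt (t / T) : ℂ) * (Z t * ev (t + u) F)‖ ≤ S := by
    intro u
    refine (pow_le_pow_iff_left₀ (norm_nonneg _) hS0 (Nat.succ_ne_zero n)).mp ?_
    rw [hS1]
    exact hstep2 u
  -- step 5
  set D : ℝ → ℂ := DP (fun _ => 1) ⌈T ^ (3 / 2 : ℝ)⌉₊ with hD
  have hDc : Continuous D := Pool.Agent.ZetaMoment.DP_cont _ _
  set E : ℝ := 21 * T ^ (-(1 / 4) : ℝ) * (Wm + (Wm * G.coeff 0 + C₁ / T)) with hE
  have hT4 : 0 < T ^ (-(1 / 4) : ℝ) := by positivity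
  have hE0 : 0 ≤ E := by positivity
  have hstep5 : ∀ u : ℝ, ‖(1 / T : ℂ) * ∫ t : ℝ, (wt (t / T) : ℂ) * (D t * ev (t + u) F)‖ ≤
      S + E := by
    intro u
    have hFc : Continuous fun t : ℝ => ev (t + u) F := (ev_cont F).comp (hsh u)
    have hxuc : Continuous fun t : ℝ => x (t + u) := hxc.comp (hsh u)
    have i2 : Integrable fun t => (wt (t / T) : ℂ) * (Z t * ev (t + u) F) :=
      Pool.Agent.ZetaMoment.integrable_w hT0 (hZc.mul hFc)
    have i1 : Integrable fun t => (wt (t / T) : ℂ) * ((Z t - D t) * ev (t + u) F) :=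
      Pool.Agent.ZetaMoment.integrable_w hT0 ((hZc.sub hDc).mul hFc)
    have i3 : Integrable fun t => wt (t / T) * (1 : ℝ) :=
      Pool.Agent.ZetaMoment.integrable_w_real hT0 continuous_const
    have i4 : Integrable fun t => wt (t / T) * x (t + u) :=
      Pool.Agent.ZetaMoment.integrable_w_real hT0 hxuc
    have e1 : (1 / T : ℂ) * ∫ t : ℝ, (wt (t / T) : ℂ) * (D t * ev (t + u) F) =
        (1 / T : ℂ) * (∫ t : ℝ, (wt (t / T) : ℂ) * (Z t * ev (t + u) F)) -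
        (1 / T : ℂ) * ∫ t : ℝ, (wt (t / T) : ℂ) * ((Z t - D t) * ev (t + u) F) := by
      rw [← mul_sub, ← integral_sub i2 i1]
      congr 1
      refine integral_congr_ae (ae_of_all _ fun t => ?_)
      simp only
      ring
    rw [e1]
    refine (norm_sub_le _ _).trans (add_le_add (hstep2' u) ?_)
    rw [norm_mul, mi_norm hT0]
    have h1 : ‖∫ t : ℝ, (wt (t / T) : ℂ) * ((Z t - D t) * ev (t + u) F)‖ ≤
        ∫ t : ℝ, 21 * T ^ (-(1 / 4) : ℝ) * (wt (t / T) * 1 + wt (t / T) * x (t + u)) := by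
      refine norm_integral_le_of_norm_le ((i3.add i4).const_mul _) (ae_of_all _ fun t => ?_)
      rw [norm_mul, norm_mul, Complex.norm_real,
        Real.norm_of_nonneg (Pool.Agent.ZetaMoment.wt_nonneg _)]
      by_cases ht : t ∈ Set.Icc (T / 4) T
      · have h2 := Pool.Agent.ZetaMoment.zeta_approx_asymp hT1 ht
        have h3 := mi_le_one_add n (norm_nonneg _) (hx0 (t + u)) (hxF (t + u))
        have h4 : ‖Z t - D t‖ * ‖ev (t + u) F‖ ≤ 21 * T ^ (-(1 / 4) : ℝ) * (1 + x (t + u)) :=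
          mul_le_mul h2 h3 (norm_nonneg _) (by positivity)
        have h5 := mul_le_mul_of_nonneg_left h4 (Pool.Agent.ZetaMoment.wt_nonneg (t / T))
        refine h5.trans (le_of_eq ?_)
        ring
      · rw [Pool.Agent.ZetaMoment.wt_scale_zero hT0 ht]
        simp
    rw [integral_const_mul, integral_add i3 i4] at h1
    have i5 : ∫ t : ℝ, wt (t / T) * (1 : ℝ) = T * Wm := by
      simp only [mul_one]
      rw [Measure.integral_comp_div (fun x => wt x) T, abs_of_pos hT0, smul_eq_mul]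
      rfl
    rw [i5] at h1
    have h6 := mul_le_mul_of_nonneg_left h1 (by positivity : 0 ≤ 1 / T)
    refine h6.trans ?_
    rw [hE]
    calc 1 / T * (21 * T ^ (-(1 / 4) : ℝ) * (T * Wm + ∫ t : ℝ, wt (t / T) * x (t + u)))
        = 21 * T ^ (-(1 / 4) : ℝ) * (1 / T * T * Wm + 1 / T * ∫ t : ℝ, wt (t / T) * x (t + u)) := by
          ring
      _ = 21 * T ^ (-(1 / 4) : ℝ) * (Wm + 1 / T * ∫ t : ℝ, wt (t / T) * x (t + u)) := by
          rw [one_div_mul_cancel hT0.ne', one_mul]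
      _ ≤ _ := by
          have := hstep1 u
          gcongr
  -- step 4
  obtain ⟨hki, hkn, hkq⟩ := mi_kernel hKi hK hB0
  set KB : ℝ → ℂ := fun u => (B : ℂ) * K (B * u) with hKB
  set Iq : QQ → ℂ := fun q => (1 / T : ℂ) * ∫ t : ℝ, (wt (t / T) : ℂ) * (D t * osc q t) with hIq
  have hstep4 : ∫ u : ℝ, KB u * ((1 / T : ℂ) * ∫ t : ℝ, (wt (t / T) : ℂ) * (D t * ev (t + u) F)) =
      ∑ q ∈ F.coeff.support, ((F.coeff q : ℂ) * Iq q) * (β (fr q / B) : ℂ) := by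
    have h1 : ∀ u : ℝ, KB u * ((1 / T : ℂ) * ∫ t : ℝ, (wt (t / T) : ℂ) * (D t * ev (t + u) F)) =
        ∑ q ∈ F.coeff.support, ((F.coeff q : ℂ) * Iq q) * (KB u * osc q u) := by
      intro u
      rw [mi_expand hT0 hDc, Finset.mul_sum]
      refine Finset.sum_congr rfl fun q _ => ?_
      simp only [hIq]
      ring
    rw [integral_congr_ae (ae_of_all _ h1), integral_finsetSum]
    · refine Finset.sum_congr rfl fun q _ => ?_
      rw [integral_const_mul, hkq]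
    · intro q _
      refine Integrable.const_mul ?_ _
      exact hki.mul_bdd (c := 1) (Pool.Agent.SixthMoment.osc_cont q).aestronglyMeasurable
        (ae_of_all _ fun u => (mi_norm_osc q u).le)
  -- upper bound
  have hup : ‖∑ q ∈ F.coeff.support, ((F.coeff q : ℂ) * Iq q) * (β (fr q / B) : ℂ)‖ ≤
      κ * (S + E) := by
    rw [← hstep4, hκ, ← hkn, ← integral_mul_const]
    refine norm_integral_le_of_norm_le (hki.norm.mul_const _) (ae_of_all _ fun u => ?_)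
    rw [norm_mul]
    exact mul_le_mul_of_nonneg_left (hstep5 u) (norm_nonneg _)
  -- step 6
  have hFT : C₂ * nrm F / T ^ 4 ≤ C₂ / T := by
    rw [div_le_div_iff₀ (by positivity) hT0]
    nlinarith [mul_le_mul_of_nonneg_left hFn (mul_pos hC₂ hT0).le]
  have hlow : ‖∑ q ∈ F.coeff.support, ((F.coeff q : ℂ) * Iq q) * (β (fr q / B) : ℂ) -
      ((Wm * NB β B F : ℝ) : ℂ)‖ ≤ C₂ / T := by
    have h1 : ((Wm * NB β B F : ℝ) : ℂ) =
        ∑ q ∈ F.coeff.support, ((F.coeff q : ℂ) * ((Wm * wr 1 q : ℝ) : ℂ)) * (β (fr q / B) : ℂ) := by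
      unfold NB
      rw [Finsupp.sum, Finset.mul_sum, Complex.ofReal_sum]
      refine Finset.sum_congr rfl fun q _ => ?_
      rw [mi_coeff β B]
      push_cast
      ring
    rw [h1, ← Finset.sum_sub_distrib]
    refine (norm_sum_le _ _).trans (le_trans ?_ hFT)
    have h2 : C₂ * nrm F / T ^ 4 = ∑ q ∈ F.coeff.support, |F.coeff q| * (C₂ / T ^ 4) := by
      unfold nrm
      rw [Finsupp.sum, ← Finset.sum_mul]
      ring
    rw [h2]
    refine Finset.sum_le_sum fun q hq => ?_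
    have h3 : ((F.coeff q : ℂ) * Iq q) * (β (fr q / B) : ℂ) -
        ((F.coeff q : ℂ) * ((Wm * wr 1 q : ℝ) : ℂ)) * (β (fr q / B) : ℂ) =
        (F.coeff q : ℂ) * ((Iq q - ((Wm * wr 1 q : ℝ) : ℂ)) * (β (fr q / B) : ℂ)) := by
      ring
    rw [h3, norm_mul, Complex.norm_real, Real.norm_eq_abs]
    refine mul_le_mul_of_nonneg_left ?_ (abs_nonneg _)
    rw [norm_mul, Complex.norm_real, Real.norm_of_nonneg (hβ.nonneg _)]
    by_cases hfq : |fr q| ≤ B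
    · have h4 := hzeta T hTT₂ q (hFl q hq) hfq
      calc ‖Iq q - ((Wm * wr 1 q : ℝ) : ℂ)‖ * β (fr q / B)
          ≤ C₂ / T ^ 4 * 1 := mul_le_mul h4 (hβ.le_one _) (hβ.nonneg _) (by positivity)
        _ = C₂ / T ^ 4 := mul_one _
    · push Not at hfq
      have h5 : β (fr q / B) = 0 := by
        refine hβ.zero _ ?_
        rw [abs_div, abs_of_pos hB0, le_div_iff₀ hB0, one_mul]
        exact hfq.le
      rw [h5, mul_zero]
      positivity
  -- conclusion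
  have hNB : Wm * NB β B F ≤ κ * (S + E) + C₂ / T := by
    have h1 : Wm * NB β B F ≤ ‖((Wm * NB β B F : ℝ) : ℂ)‖ := by
      rw [Complex.norm_real]
      exact Real.le_norm_self _
    have h2 := norm_sub_rev (∑ q ∈ F.coeff.support, ((F.coeff q : ℂ) * Iq q) *
      (β (fr q / B) : ℂ)) ((Wm * NB β B F : ℝ) : ℂ)
    have h3 := norm_sub_norm_le ((Wm * NB β B F : ℝ) : ℂ)
      (∑ q ∈ F.coeff.support, ((F.coeff q : ℂ) * Iq q) * (β (fr q / B) : ℂ))
    linarith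
  have hTm : 1 / T ≤ T ^ (-(1 / 4) : ℝ) := by
    rw [one_div, ← Real.rpow_neg_one]
    exact Real.rpow_le_rpow_of_exponent_le hT1 (by norm_num)
  have hfinal : κ * E + C₂ / T ≤
      (21 * κ * (Wm + C₁) + C₂ + C₁) * (1 + G.coeff 0) * T ^ (-(1 / 4) : ℝ) := by
    have h1 : C₂ / T ≤ C₂ * (1 + G.coeff 0) * T ^ (-(1 / 4) : ℝ) := by
      calc C₂ / T = C₂ * 1 * (1 / T) := by ring
        _ ≤ C₂ * (1 + G.coeff 0) * T ^ (-(1 / 4) : ℝ) := by
          gcongr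
          linarith
    have h2 : κ * E ≤ 21 * κ * (Wm + C₁) * (1 + G.coeff 0) * T ^ (-(1 / 4) : ℝ) := by
      have h3 : Wm + (Wm * G.coeff 0 + C₁ / T) ≤ (Wm + C₁) * (1 + G.coeff 0) := by
        nlinarith [mul_nonneg hC₁.le hG0]
      calc κ * E = 21 * κ * T ^ (-(1 / 4) : ℝ) * (Wm + (Wm * G.coeff 0 + C₁ / T)) := by
            rw [hE]; ring
        _ ≤ 21 * κ * T ^ (-(1 / 4) : ℝ) * ((Wm + C₁) * (1 + G.coeff 0)) := by gcongr
        _ = _ := by ring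
    have h4 : 0 ≤ C₁ * (1 + G.coeff 0) * T ^ (-(1 / 4) : ℝ) := by positivity
    nlinarith
  have haS : a ≤ S := by
    have h1 : κ * a ≤ κ * S := by
      have h2 : κ * (S + E) = κ * S + κ * E := by ring
      linarith
    exact le_of_mul_le_mul_left h1 hκ0
  rw [div_le_iff₀ (by positivity)]
  calc a ^ (n + 1) ≤ S ^ (n + 1) := pow_le_pow_left₀ ha haS _
    _ = M * b ^ n := hS1

end Pool.Agent.MomW
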