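import Pool.Agent.Lib_MP_112ba8_w.Alg

/-!
# Piece MTP: mean value of a trigonometric polynomial

PROOF. `wt_Wgt`: `wt` is the `ContDiffBump` `wB` centred at `5/8` with outer radius `3/8`
(`ZetaMoment.wB`, `wt_nonneg`, `wt_zero`); smoothness from `ContDiffBump.contDiff`; support
parameter `a = 1/4`.

`mean_TP`: `ev_eq_sum` and `SixthMoment.osc_add`-type identity `osc q (t + u) = osc q t * osc q u`
(`osc q t = exp (t * fr q * I)`, norm `1`), so the integral is
`∑ q ∈ supp f, f q * osc q u * ∫ wt(t/T) osc q t`; the term `q = 0` gives `Wm * f.coeff 0`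
(`SixthMoment.osc_one`), the other terms are at most `|f q| * C / T^A` (`SixthMoment.osc_small`
with `w = wt`).
-/

namespace Pool.Agent.MomW

open Filter Topology MeasureTheory
open Pool.Agent.SixthMoment (QQ ln fr osc)
open Pool.Agent.ZetaMoment (wt Wm C0 aG DP)

theorem wt_Wgt : Pool.Agent.EvenMoment.Wgt wt := by
  refine ⟨Pool.Agent.ZetaMoment.wB.contDiff, Pool.Agent.ZetaMoment.wt_nonneg, 1 / 4, by norm_num,
    by norm_num, ?_⟩
  intro x hx
  apply Pool.Agent.ZetaMoment.wB.zero_of_le_dist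
  rw [Real.dist_eq]
  change (3 / 8 : ℝ) ≤ _
  rcases hx with hx | hx
  · rw [abs_sub_comm]
    exact le_trans (by linarith) (le_abs_self _)
  · exact le_trans (by linarith) (le_abs_self _)

private lemma mtp_osc_add (q : QQ) (t u : ℝ) : osc q (t + u) = osc q t * osc q u := by
  unfold osc
  rw [← Complex.exp_add]
  congr 1
  push_cast
  ring

private lemma mtp_integrable {T : ℝ} (hT : 0 < T) (q : QQ) :
    Integrable fun t : ℝ => (wt (t / T) : ℂ) * osc q t :=
  Pool.Agent.EvenMoment.dg_integrable wt_Wgt hT (Pool.Agent.SixthMoment.osc_cont q)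

theorem mean_TP {ε : ℝ} (hε : 0 < ε) (A : ℕ) : ∃ C T₀ : ℝ, 0 < C ∧ 1 ≤ T₀ ∧ ∀ T : ℝ, T₀ ≤ T →
    ∀ (f : TP) (u : ℝ), Len f ((2 - ε) * Real.log T) →
      ‖(1 / T : ℂ) * (∫ t : ℝ, (wt (t / T) : ℂ) * ev (t + u) f) - ((Wm * f.coeff 0 : ℝ) : ℂ)‖ ≤
        C * nrm f / T ^ A := by
  classical
  obtain ⟨C, T₀, hC, hT₀, hosc⟩ := Pool.Agent.SixthMoment.osc_small wt_Wgt hε A
  refine ⟨C, T₀, hC, hT₀, fun T hT f u hf => ?_⟩
  have hTpos : 0 < T := by linarith
  have hTA : 0 < T ^ A := by positivity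
  -- expansion of the integral
  have h1 : ∀ t : ℝ, (wt (t / T) : ℂ) * ev (t + u) f =
      ∑ q ∈ f.coeff.support, ((f.coeff q : ℂ) * osc q u) * ((wt (t / T) : ℂ) * osc q t) := by
    intro t
    rw [ev_eq_sum, Finsupp.sum, Finset.mul_sum]
    refine Finset.sum_congr rfl fun q _ => ?_
    rw [mtp_osc_add]
    ring
  have h2 : (1 / T : ℂ) * (∫ t : ℝ, (wt (t / T) : ℂ) * ev (t + u) f) =
      ∑ q ∈ f.coeff.support, ((f.coeff q : ℂ) * osc q u) *
        ((1 / T : ℂ) * ∫ t : ℝ, (wt (t / T) : ℂ) * osc q t) := by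
    simp_rw [h1]
    rw [integral_finsetSum _ fun q _ => (mtp_integrable hTpos q).const_mul _, Finset.mul_sum]
    refine Finset.sum_congr rfl fun q _ => ?_
    rw [integral_const_mul]
    ring
  have h3 : ((Wm * f.coeff 0 : ℝ) : ℂ) =
      ∑ q ∈ f.coeff.support, if q = 0 then ((Wm * f.coeff 0 : ℝ) : ℂ) else 0 := by
    rw [Finset.sum_ite_eq']
    split_ifs with h0
    · rfl
    · rw [Finsupp.notMem_support_iff.mp h0, mul_zero, Complex.ofReal_zero]
  rw [h2, h3, ← Finset.sum_sub_distrib]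
  refine (norm_sum_le _ _).trans ?_
  have h4 : C * nrm f / T ^ A = ∑ q ∈ f.coeff.support, |f.coeff q| * (C / T ^ A) := by
    unfold nrm
    rw [Finsupp.sum, ← Finset.sum_mul]
    ring
  rw [h4]
  refine Finset.sum_le_sum fun q hq => ?_
  by_cases h0 : q = 0
  · subst h0
    rw [if_pos rfl, Pool.Agent.SixthMoment.osc_one wt_Wgt hTpos]
    have h5 : osc (0 : QQ) u = 1 := Pool.Agent.SixthMoment.osc_zero u
    have h6 : ((f.coeff 0 : ℂ) * osc (0 : QQ) u) * ((∫ x, wt x : ℝ) : ℂ) -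
        ((Wm * f.coeff 0 : ℝ) : ℂ) = 0 := by
      rw [h5]
      unfold Wm
      push_cast
      ring
    rw [h6, norm_zero]
    positivity
  · rw [if_neg h0, sub_zero, norm_mul, norm_mul, Complex.norm_real,
      Pool.Agent.SixthMoment.osc_norm, mul_one, Real.norm_eq_abs]
    exact mul_le_mul_of_nonneg_left (hosc T hT q h0 (hf q hq)) (abs_nonneg _)

end Pool.Agent.MomW
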