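import Pool.Agent.Lib_MP_112ba8_w.Defs
import Pool.Agent.Lib_MP_f55cd4.MertC
import Pool.Agent.Lib_MP_112ba8.Consts
import Pool.Agent.Lib_MP_112ba8.PrimeSums

/-!
# Piece PW: sums over primes

Values: `∑_{log p ≤ x} 1/p = log x + γ + C0 + o(1)` (Mertens; `C0` is
`∑_p (log (1 - 1/p) + 1/p)`, Gen.lean), and
`∑_{log p ≤ a L} (1 - e^{-z log p / L})/p → ∫_0^a (1 - e^{-z y}) dy/y = ∫_0^1 (1 - e^{-z a x}) dx/x`.

Proof: the measures `L⁻¹ ∑_p (log p/p) δ_{log p/L}` converge to Lebesgue measure on `[u, v]`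
(`pw_weak`: Mertens' first theorem, Abel summation for polynomials and Weierstrass
approximation). This gives `prime_block`. For `prime_small` compare with
`∑_p p^{-1-1/L} = log L + C0 + o(1)` (`Ps_tendsto`): the difference on `log p ≤ a L` is a block sum
with a continuous function, the tail `log p > a L` tends to `∫_a^∞ e^{-y} dy/y`.
-/

namespace Pool.Agent.MomW

open Filter Topology MeasureTheory
open Pool.Agent.ZetaMoment (C0)

lemma pw_logpos (p : Nat.Primes) : 0 < Real.log ((p : ℕ) : ℝ) :=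
  Real.log_pos (by exact_mod_cast p.2.one_lt)

lemma pw_ppos (p : Nat.Primes) : (0 : ℝ) < ((p : ℕ) : ℝ) := by exact_mod_cast p.2.pos

/-- the sum of `log p / p` over `log p ≤ t` -/
noncomputable def pwM (t : ℝ) : ℝ :=
  ∑ p ∈ (primes_finite t).toFinset, Real.log ((p : ℕ) : ℝ) / ((p : ℕ) : ℝ)

lemma pwM_eq (t : ℝ) : pwM t =
    ∑ p ∈ (Finset.Icc 1 ⌊Real.exp t⌋₊).filter (fun p => p.Prime), Real.log p / p := by
  unfold pwM
  refine Finset.sum_bij (fun p _ => (p : ℕ)) ?_ ?_ ?_ ?_
  · intro p hp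
    rw [Set.Finite.mem_toFinset, Set.mem_ofPred_eq, Real.log_le_iff_le_exp (pw_ppos p)] at hp
    rw [Finset.mem_filter, Finset.mem_Icc]
    exact ⟨⟨p.2.pos, Nat.le_floor hp⟩, p.2⟩
  · intro p _ q _ h
    exact Subtype.ext h
  · intro n hn
    rw [Finset.mem_filter, Finset.mem_Icc] at hn
    refine ⟨⟨n, hn.2⟩, ?_, rfl⟩
    rw [Set.Finite.mem_toFinset, Set.mem_ofPred_eq,
      Real.log_le_iff_le_exp (by exact_mod_cast hn.2.pos)]
    exact (Nat.le_floor_iff (Real.exp_pos _).le).1 hn.1.2
  · intro p _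
    rfl

lemma pwM_bound : ∃ C : ℝ, 0 ≤ C ∧ ∀ t : ℝ, 0 ≤ t → |pwM t - t| ≤ C := by
  obtain ⟨C, hC⟩ := MPf55cd4.ms_log
  have hC0 : 0 ≤ C := (abs_nonneg _).trans (hC 2 le_rfl)
  have hl2 : 0 ≤ Real.log 2 := Real.log_nonneg one_le_two
  refine ⟨C + Real.log 2, by linarith, fun t ht => ?_⟩
  by_cases h : Real.log 2 ≤ t
  · have h2 : 2 ≤ Real.exp t := by rwa [← Real.log_le_iff_le_exp two_pos]
    have h3 := hC (Real.exp t) h2
    rw [← pwM_eq, Real.log_exp] at h3
    linarith
  · push Not at h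
    have h0 : pwM t = 0 := by
      unfold pwM
      have : (primes_finite t).toFinset = ∅ := by
        rw [Set.Finite.toFinset_eq_empty, Set.eq_empty_iff_forall_notMem]
        intro p hp
        have : Real.log 2 ≤ Real.log ((p : ℕ) : ℝ) :=
          Real.log_le_log two_pos (by exact_mod_cast p.2.two_le)
        rw [Set.mem_ofPred_eq] at hp
        linarith
      rw [this, Finset.sum_empty]
    rw [h0, zero_sub, abs_neg, abs_of_nonneg ht]
    linarith

/-- the weight `log p / (p L)` -/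
noncomputable def pww (L : ℝ) (p : Nat.Primes) : ℝ :=
  Real.log ((p : ℕ) : ℝ) / (((p : ℕ) : ℝ) * L)

lemma pww_nonneg {L : ℝ} (hL : 0 < L) (p : Nat.Primes) : 0 ≤ pww L p :=
  div_nonneg (pw_logpos p).le (mul_pos (pw_ppos p) hL).le

lemma pw_mass : ∃ C : ℝ, 0 ≤ C ∧ ∀ L u v : ℝ, 0 < L → 0 ≤ u → u ≤ v →
    |∑ p ∈ BP u v L, pww L p - (v - u)| ≤ C / L := by
  classical
  obtain ⟨C, hC0, hC⟩ := pwM_bound
  refine ⟨2 * C, by positivity, fun L u v hL hu huv => ?_⟩
  have h1 : ∑ p ∈ BP u v L, Real.log ((p : ℕ) : ℝ) / ((p : ℕ) : ℝ) =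
      pwM (v * L) - pwM (u * L) := by
    have h3 := Finset.sum_filter_add_sum_filter_not (primes_finite (v * L)).toFinset
      (fun p : Nat.Primes => u * L < Real.log ((p : ℕ) : ℝ))
      (fun p : Nat.Primes => Real.log ((p : ℕ) : ℝ) / ((p : ℕ) : ℝ))
    have h4 : (primes_finite (v * L)).toFinset.filter
        (fun p : Nat.Primes => ¬ u * L < Real.log ((p : ℕ) : ℝ)) = (primes_finite (u * L)).toFinset := by
      ext p
      rw [Finset.mem_filter, Set.Finite.mem_toFinset, Set.Finite.mem_toFinset, Set.mem_ofPred_eq,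
        Set.mem_ofPred_eq, not_lt]
      exact ⟨fun h => h.2, fun h => ⟨h.trans (mul_le_mul_of_nonneg_right huv hL.le), h⟩⟩
    have h5 : (primes_finite (v * L)).toFinset.filter
        (fun p : Nat.Primes => u * L < Real.log ((p : ℕ) : ℝ)) = BP u v L := by
      ext p
      rw [Finset.mem_filter, Set.Finite.mem_toFinset, Set.mem_ofPred_eq, mem_BP, and_comm]
    rw [h4, h5] at h3
    unfold pwM
    linarith
  have h2 : ∑ p ∈ BP u v L, pww L p - (v - u) =
      ((pwM (v * L) - v * L) - (pwM (u * L) - u * L)) / L := by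
    have : ∑ p ∈ BP u v L, pww L p =
        (∑ p ∈ BP u v L, Real.log ((p : ℕ) : ℝ) / ((p : ℕ) : ℝ)) / L := by
      rw [Finset.sum_div]
      refine Finset.sum_congr rfl fun p _ => ?_
      unfold pww
      rw [div_div]
    rw [this, h1]
    field_simp
    ring
  rw [h2, abs_div, abs_of_pos hL]
  refine div_le_div_of_nonneg_right ?_ hL.le
  have a1 := hC (v * L) (mul_nonneg (hu.trans huv) hL.le)
  have a2 := hC (u * L) (mul_nonneg hu hL.le)
  calc _ ≤ |pwM (v * L) - v * L| + |pwM (u * L) - u * L| := abs_sub _ _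
    _ ≤ 2 * C := by linarith

/-- Abel summation -/
lemma pw_abel {u v L : ℝ} (hL : 0 < L) (huv : u ≤ v) {P P' : ℝ → ℝ}
    (hP : ∀ x, HasDerivAt P (P' x) x) (hP' : Continuous P') :
    ∑ p ∈ BP u v L, P (Real.log ((p : ℕ) : ℝ) / L) * pww L p - ∫ y in u..v, P y =
      P v * (∑ p ∈ BP u v L, pww L p - (v - u)) -
        ∫ y in u..v, P' y * (∑ p ∈ BP u y L, pww L p - (y - u)) := by
  classical
  -- the value at a prime
  have hval : ∀ p ∈ BP u v L, P (Real.log ((p : ℕ) : ℝ) / L) =
      P v - ∫ y in u..v, (Set.Ici (Real.log ((p : ℕ) : ℝ) / L)).indicator P' y := by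
    intro p hp
    rw [mem_BP] at hp
    set x := Real.log ((p : ℕ) : ℝ) / L with hx
    have hux : u < x := by rw [hx, lt_div_iff₀ hL]; exact hp.1
    have hxv : x ≤ v := by rw [hx, div_le_iff₀ hL]; exact hp.2
    have h1 : ∫ y in u..v, (Set.Ici x).indicator P' y = ∫ y in x..v, P' y := by
      rw [intervalIntegral.integral_of_le huv, intervalIntegral.integral_of_le hxv,
        setIntegral_indicator measurableSet_Ici]
      have : Set.Ioc u v ∩ Set.Ici x = Set.Icc x v := by
        ext y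
        simp only [Set.mem_inter_iff, Set.mem_Ioc, Set.mem_Ici, Set.mem_Icc]
        constructor
        · rintro ⟨⟨_, h2⟩, h3⟩
          exact ⟨h3, h2⟩
        · rintro ⟨h2, h3⟩
          exact ⟨⟨lt_of_lt_of_le hux h2, h3⟩, h2⟩
      rw [this, integral_Icc_eq_integral_Ioc]
    rw [h1, intervalIntegral.integral_eq_sub_of_hasDerivAt (fun y _ => hP y)
      (hP'.intervalIntegrable _ _)]
    ring
  have hii : ∀ x : ℝ, IntervalIntegrable ((Set.Ici x).indicator P') volume u v := by
    intro x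
    rw [intervalIntegrable_iff]
    exact ((intervalIntegrable_iff.1 (hP'.intervalIntegrable u v))).indicator measurableSet_Ici
  have hsum : ∑ p ∈ BP u v L, P (Real.log ((p : ℕ) : ℝ) / L) * pww L p =
      P v * ∑ p ∈ BP u v L, pww L p - ∫ y in u..v, P' y * ∑ p ∈ BP u y L, pww L p := by
    have h1 : ∀ p ∈ BP u v L, P (Real.log ((p : ℕ) : ℝ) / L) * pww L p =
        P v * pww L p - ∫ y in u..v,
          (Set.Ici (Real.log ((p : ℕ) : ℝ) / L)).indicator P' y * pww L p := by
      intro p hp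
      rw [hval p hp, intervalIntegral.integral_mul_const]
      ring
    rw [Finset.sum_congr rfl h1, Finset.sum_sub_distrib, ← Finset.mul_sum,
      ← intervalIntegral.integral_finsetSum (fun p _ => (hii _).mul_const _)]
    congr 1
    refine intervalIntegral.integral_congr_ae (ae_of_all _ fun y hy => ?_)
    rw [Set.uIoc_of_le huv] at hy
    rw [Finset.mul_sum, ← Finset.sum_subset (s₁ := BP u y L) (s₂ := BP u v L)]
    · refine Finset.sum_congr rfl fun p hp => ?_
      rw [mem_BP] at hp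
      rw [Set.indicator_of_mem]
      rw [Set.mem_Ici, div_le_iff₀ hL]
      exact hp.2
    · intro p hp
      rw [mem_BP] at hp ⊢
      exact ⟨hp.1, hp.2.trans (mul_le_mul_of_nonneg_right hy.2 hL.le)⟩
    · intro p hp hp'
      rw [mem_BP] at hp hp'
      rw [Set.indicator_of_notMem, zero_mul]
      rw [Set.mem_Ici, div_le_iff₀ hL]
      exact fun h => hp' ⟨hp.1, h⟩
  have hparts : ∫ y in u..v, P y = P v * (v - u) - ∫ y in u..v, P' y * (y - u) := by
    have h1 : ∀ y ∈ Set.uIcc u v, HasDerivAt (fun y => P y * (y - u)) (P' y * (y - u) + P y * 1) y :=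
      fun y _ => (hP y).mul ((hasDerivAt_id y).sub_const u)
    have hPc : Continuous P := continuous_iff_continuousAt.2 fun y => (hP y).continuousAt
    have h2 := intervalIntegral.integral_eq_sub_of_hasDerivAt h1
      (by apply Continuous.intervalIntegrable; fun_prop)
    rw [intervalIntegral.integral_add (by apply Continuous.intervalIntegrable; fun_prop)
      (by apply Continuous.intervalIntegrable; fun_prop)] at h2
    simp only [mul_one, sub_self, mul_zero, sub_zero] at h2
    linarith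
  have hi1 : IntervalIntegrable (fun y => P' y * ∑ p ∈ BP u y L, pww L p) volume u v := by
    have h1 : IntervalIntegrable (fun y => ∑ p ∈ BP u v L,
        (Set.Ici (Real.log ((p : ℕ) : ℝ) / L)).indicator P' y * pww L p) volume u v := by
      have := IntervalIntegrable.sum (BP u v L) (μ := volume) (a := u) (b := v)
        (f := fun p y => (Set.Ici (Real.log ((p : ℕ) : ℝ) / L)).indicator P' y * pww L p)
        (fun p _ => (hii _).mul_const _)
      refine (intervalIntegrable_congr fun y _ => ?_).1 this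
      simp
    refine (intervalIntegrable_congr fun y hy => ?_).1 h1
    rw [Set.uIoc_of_le huv] at hy
    rw [Finset.mul_sum, ← Finset.sum_subset (s₁ := BP u y L) (s₂ := BP u v L)]
    · refine Finset.sum_congr rfl fun p hp => ?_
      rw [mem_BP] at hp
      rw [Set.indicator_of_mem]
      rw [Set.mem_Ici, div_le_iff₀ hL]
      exact hp.2
    · intro p hp
      rw [mem_BP] at hp ⊢
      exact ⟨hp.1, hp.2.trans (mul_le_mul_of_nonneg_right hy.2 hL.le)⟩
    · intro p hp hp'
      rw [mem_BP] at hp hp'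
      rw [Set.indicator_of_notMem, zero_mul]
      rw [Set.mem_Ici, div_le_iff₀ hL]
      exact fun h => hp' ⟨hp.1, h⟩
  have hi2 : IntervalIntegrable (fun y => P' y * (y - u)) volume u v := by
    apply Continuous.intervalIntegrable
    fun_prop
  have hsplit : ∫ y in u..v, P' y * (∑ p ∈ BP u y L, pww L p - (y - u)) =
      (∫ y in u..v, P' y * ∑ p ∈ BP u y L, pww L p) - ∫ y in u..v, P' y * (y - u) := by
    rw [← intervalIntegral.integral_sub hi1 hi2]
    refine intervalIntegral.integral_congr fun y _ => ?_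
    ring
  rw [hsum, hparts, hsplit]
  ring

lemma pw_poly {u v : ℝ} (hu : 0 ≤ u) (huv : u ≤ v) {P P' : ℝ → ℝ}
    (hP : ∀ x, HasDerivAt P (P' x) x) (hP' : Continuous P') :
    Tendsto (fun L : ℝ => ∑ p ∈ BP u v L, P (Real.log ((p : ℕ) : ℝ) / L) * pww L p) atTop
      (𝓝 (∫ y in u..v, P y)) := by
  obtain ⟨C, hC0, hC⟩ := pw_mass
  obtain ⟨K, hK⟩ := (isCompact_Icc (a := u) (b := v)).exists_bound_of_continuousOn hP'.continuousOn
  have hb : ∀ L : ℝ, 0 < L →
      |∑ p ∈ BP u v L, P (Real.log ((p : ℕ) : ℝ) / L) * pww L p - ∫ y in u..v, P y| ≤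
        (|P v| * C + K * C * |v - u|) / L := by
    intro L hL
    rw [pw_abel hL huv hP hP']
    have h1 : |P v * (∑ p ∈ BP u v L, pww L p - (v - u))| ≤ |P v| * (C / L) := by
      rw [abs_mul]
      exact mul_le_mul_of_nonneg_left (hC L u v hL hu huv) (abs_nonneg _)
    have h2 : |∫ y in u..v, P' y * (∑ p ∈ BP u y L, pww L p - (y - u))| ≤
        K * (C / L) * |v - u| := by
      rw [← Real.norm_eq_abs]
      refine intervalIntegral.norm_integral_le_of_norm_le_const fun y hy => ?_
      rw [Set.uIoc_of_le huv] at hy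
      have hKy := hK y ⟨hy.1.le, hy.2⟩
      rw [norm_mul, Real.norm_eq_abs (∑ p ∈ BP u y L, pww L p - (y - u))]
      exact mul_le_mul hKy (hC L u y hL hu hy.1.le) (abs_nonneg _) ((norm_nonneg _).trans hKy)
    calc _ ≤ |P v * (∑ p ∈ BP u v L, pww L p - (v - u))| +
          |∫ y in u..v, P' y * (∑ p ∈ BP u y L, pww L p - (y - u))| := abs_sub _ _
      _ ≤ |P v| * (C / L) + K * (C / L) * |v - u| := add_le_add h1 h2
      _ = _ := by ring
  rw [tendsto_iff_norm_sub_tendsto_zero]
  refine squeeze_zero' (Eventually.of_forall fun _ => norm_nonneg _) ?_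
    (tendsto_const_nhds.div_atTop tendsto_id :
      Tendsto (fun L : ℝ => (|P v| * C + K * C * |v - u|) / L) atTop (𝓝 0))
  filter_upwards [eventually_gt_atTop (0 : ℝ)] with L hL
  exact hb L hL

lemma pw_weak {u v : ℝ} (hu : 0 ≤ u) (huv : u ≤ v) {φ : ℝ → ℝ}
    (hφ : ContinuousOn φ (Set.Icc u v)) :
    Tendsto (fun L : ℝ => ∑ p ∈ BP u v L, φ (Real.log ((p : ℕ) : ℝ) / L) * pww L p) atTop
      (𝓝 (∫ y in u..v, φ y)) := by
  rw [Metric.tendsto_nhds]
  intro ε hε
  have hD : 0 ≤ v - u := by linarith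
  set δ := ε / (4 * (v - u + 1)) with hδ
  have hδ0 : 0 < δ := by positivity
  obtain ⟨Q, hQ⟩ := exists_polynomial_near_of_continuousOn u v φ hφ δ hδ0
  have h1 := pw_poly hu huv (P := fun x => Q.eval x) (P' := fun x => Q.derivative.eval x)
    (fun x => Q.hasDerivAt x) (by fun_prop)
  have h2 := pw_poly hu huv (P := fun _ => (1 : ℝ)) (P' := fun _ => 0)
    (fun x => hasDerivAt_const x 1) continuous_const
  simp only [one_mul, intervalIntegral.integral_const, smul_eq_mul, mul_one] at h2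
  have e1 := (Metric.tendsto_nhds.1 h1) (ε / 4) (by positivity)
  have e2 := h2.eventually_lt_const (show v - u < v - u + 1 by linarith)
  filter_upwards [e1, e2, eventually_gt_atTop (0 : ℝ)] with L g1 g2 hL
  rw [Real.dist_eq] at g1 ⊢
  have hI : |(∫ y in u..v, φ y) - ∫ y in u..v, Q.eval y| ≤ δ * (v - u) := by
    have hφi : IntervalIntegrable φ volume u v := by
      apply ContinuousOn.intervalIntegrable
      rwa [Set.uIcc_of_le huv]
    have hQi : IntervalIntegrable (fun y => Q.eval y) volume u v := by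
      apply Continuous.intervalIntegrable
      fun_prop
    rw [← intervalIntegral.integral_sub hφi hQi, ← Real.norm_eq_abs]
    have := intervalIntegral.norm_integral_le_of_norm_le_const (a := u) (b := v) (C := δ)
      (f := fun y => φ y - Q.eval y) (fun y hy => by
        rw [Set.uIoc_of_le huv] at hy
        have := hQ y ⟨hy.1.le, hy.2⟩
        rw [Real.norm_eq_abs, abs_sub_comm]
        exact this.le)
    rwa [abs_of_nonneg hD] at this
  have hS : |∑ p ∈ BP u v L, φ (Real.log ((p : ℕ) : ℝ) / L) * pww L p -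
      ∑ p ∈ BP u v L, Q.eval (Real.log ((p : ℕ) : ℝ) / L) * pww L p| ≤ δ * (v - u + 1) := by
    rw [← Finset.sum_sub_distrib]
    calc |∑ p ∈ BP u v L, (φ (Real.log ((p : ℕ) : ℝ) / L) * pww L p -
          Q.eval (Real.log ((p : ℕ) : ℝ) / L) * pww L p)|
        ≤ ∑ p ∈ BP u v L, |φ (Real.log ((p : ℕ) : ℝ) / L) * pww L p -
          Q.eval (Real.log ((p : ℕ) : ℝ) / L) * pww L p| := Finset.abs_sum_le_sum_abs _ _
      _ ≤ ∑ p ∈ BP u v L, δ * pww L p := by
          refine Finset.sum_le_sum fun p hp => ?_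
          rw [mem_BP] at hp
          rw [← sub_mul, abs_mul, abs_of_nonneg (pww_nonneg hL p)]
          refine mul_le_mul_of_nonneg_right ?_ (pww_nonneg hL p)
          have := hQ (Real.log ((p : ℕ) : ℝ) / L)
            ⟨by rw [le_div_iff₀ hL]; exact hp.1.le, by rw [div_le_iff₀ hL]; exact hp.2⟩
          rw [abs_sub_comm]
          exact this.le
      _ = δ * ∑ p ∈ BP u v L, pww L p := by rw [Finset.mul_sum]
      _ ≤ δ * (v - u + 1) := mul_le_mul_of_nonneg_left g2.le hδ0.le
  have hδ1 : δ * (v - u + 1) = ε / 4 := by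
    rw [hδ]
    field_simp
  have hδ2 : δ * (v - u) ≤ ε / 4 := by
    rw [← hδ1]
    nlinarith
  rw [hδ1] at hS
  have a1 := abs_le.1 hS
  have a2 := abs_le.1 (hI.trans hδ2)
  have a3 := abs_lt.1 g1
  rw [abs_lt]
  constructor <;> linarith [a1.1, a1.2, a2.1, a2.2, a3.1, a3.2]

theorem prime_block {u v : ℝ} (hu : 0 < u) (huv : u ≤ v) :
    Tendsto (fun L : ℝ => ∑ p ∈ BP u v L, 1 / ((p : ℕ) : ℝ)) atTop (𝓝 (Real.log (v / u))) := by
  have h := pw_weak hu.le huv (φ := fun y => 1 / y)
    (continuousOn_const.div continuousOn_id fun y hy => (hu.trans_le hy.1).ne')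
  rw [integral_one_div_of_pos hu (hu.trans_le huv)] at h
  refine h.congr' ?_
  filter_upwards [eventually_gt_atTop (0 : ℝ)] with L hL
  refine Finset.sum_congr rfl fun p _ => ?_
  have h1 := pw_logpos p
  have h2 := pw_ppos p
  unfold pww
  field_simp

/-- `(1 - e^{-cy}) / y` with the removable singularity removed -/
noncomputable def pwg (c : ℝ) : ℝ → ℝ := dslope (fun y : ℝ => -Real.exp (-(c * y))) 0

lemma pwg_cont (c : ℝ) : Continuous (pwg c) := by
  unfold pwg
  rw [continuous_iff_continuousAt]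
  intro y
  by_cases hy : y = 0
  · subst hy
    exact continuousAt_dslope_same.2 (by fun_prop)
  · exact (continuousAt_dslope_of_ne hy).2 (by fun_prop)

lemma pwg_apply (c : ℝ) {y : ℝ} (hy : y ≠ 0) : pwg c y = (1 - Real.exp (-(c * y))) / y := by
  unfold pwg
  rw [dslope_of_ne _ hy, slope_def_field]
  simp only [mul_zero, neg_zero, Real.exp_zero, sub_zero]
  ring

lemma pwg_int (c : ℝ) {a : ℝ} (ha : 0 < a) :
    ∫ y in (0 : ℝ)..a, (1 - Real.exp (-(c * y))) / y = ∫ y in (0 : ℝ)..a, pwg c y := by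
  refine intervalIntegral.integral_congr_ae (ae_of_all _ fun y hy => ?_)
  rw [Set.uIoc_of_le ha.le] at hy
  exact (pwg_apply c hy.1.ne').symm

lemma pw_E_int {a : ℝ} (ha : 0 < a) : IntegrableOn (fun y : ℝ => Real.exp (-y) / y) (Set.Ioi a) := by
  have h1 : IntegrableOn (fun y : ℝ => Real.exp (-y) * a⁻¹) (Set.Ioi a) :=
    (ZetaMoment.int_e0.mono_set (Set.Ioi_subset_Ioi ha.le)).mul_const _
  refine Integrable.mono' h1 ?_ ?_
  · exact (by fun_prop : Measurable fun y : ℝ => Real.exp (-y) / y).aestronglyMeasurable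
  · filter_upwards [ae_restrict_mem measurableSet_Ioi] with y hy
    have hy' : a < y := hy
    have hy0 : 0 < y := ha.trans hy'
    rw [Real.norm_of_nonneg (by positivity), div_eq_mul_inv]
    have : y⁻¹ ≤ a⁻¹ := inv_anti₀ ha hy'.le
    exact mul_le_mul_of_nonneg_left this (Real.exp_pos _).le

/-- `Ein(a) - E_1(a) = γ + log a` -/
lemma pw_const {a : ℝ} (ha : 0 < a) :
    (∫ y in (0 : ℝ)..a, pwg 1 y) - ∫ y in Set.Ioi a, Real.exp (-y) / y =
      Real.eulerMascheroniConstant + Real.log a := by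
  have hl := ZetaMoment.int_log0
  have hla := hl.mono_set (Set.Ioi_subset_Ioi ha.le)
  have h0 := intervalIntegral.integral_interval_add_Ioi hl hla
  rw [ZetaMoment.int_log0_eq] at h0
  have hli : IntervalIntegrable (fun u : ℝ => Real.exp (-u) * Real.log u) volume 0 a := by
    rw [intervalIntegrable_iff_integrableOn_Ioc_of_le ha.le]
    exact hl.mono_set Set.Ioc_subset_Ioi_self
  have hgi : IntervalIntegrable (pwg 1) volume 0 a := (pwg_cont 1).intervalIntegrable _ _
  -- on `[0, a]`
  have h1 : ∫ u in (0 : ℝ)..a, (Real.exp (-u) * Real.log u + pwg 1 u) =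
      (1 - Real.exp (-a)) * Real.log a := by
    have := intervalIntegral.integral_eq_sub_of_hasDerivAt_of_le (a := 0) (b := a)
      (f := fun u => pwg 1 u * (u * Real.log u))
      (f' := fun u => Real.exp (-u) * Real.log u + pwg 1 u) ha.le
      ((pwg_cont 1).mul Real.continuous_mul_log).continuousOn
      (fun u hu => by
        have hu0 : u ≠ 0 := hu.1.ne'
        have k1 : HasDerivAt (fun u : ℝ => (1 - Real.exp (-u)) * Real.log u)
            (-(Real.exp (-u) * (-1)) * Real.log u + (1 - Real.exp (-u)) * u⁻¹) u := by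
          refine HasDerivAt.mul ?_ (Real.hasDerivAt_log hu0)
          exact ((hasDerivAt_id u).neg.exp).const_sub 1
        have k2 : -(Real.exp (-u) * (-1)) * Real.log u + (1 - Real.exp (-u)) * u⁻¹ =
            Real.exp (-u) * Real.log u + pwg 1 u := by
          rw [pwg_apply 1 hu0, one_mul]
          ring
        rw [k2] at k1
        refine k1.congr_of_eventuallyEq ?_
        filter_upwards [eventually_ne_nhds hu0] with w hw
        rw [pwg_apply 1 hw, one_mul]
        field_simp)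
      (hli.add hgi)
    rw [this, pwg_apply 1 ha.ne', one_mul]
    simp only [Real.log_zero, mul_zero, sub_zero]
    field_simp
  rw [intervalIntegral.integral_add hli hgi] at h1
  -- on `(a, ∞)`
  have h2 : ∫ u in Set.Ioi a, (Real.exp (-u) * Real.log u - Real.exp (-u) / u) =
      Real.exp (-a) * Real.log a := by
    have ht : Tendsto (fun u : ℝ => -(Real.exp (-u) * Real.log u)) atTop (𝓝 0) := by
      rw [← neg_zero]
      refine Tendsto.neg ?_
      have h3 := Real.tendsto_pow_mul_exp_neg_atTop_nhds_zero 1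
      refine squeeze_zero' ?_ ?_ h3
      · filter_upwards [eventually_ge_atTop (1 : ℝ)] with u hu
        exact mul_nonneg (Real.exp_pos _).le (Real.log_nonneg hu)
      · filter_upwards [eventually_ge_atTop (1 : ℝ)] with u hu
        rw [pow_one, mul_comm]
        refine mul_le_mul_of_nonneg_right ?_ (Real.exp_pos _).le
        have := Real.log_le_sub_one_of_pos (show 0 < u by linarith)
        linarith
    have hderiv : ∀ u : ℝ, 0 < u → HasDerivAt (fun u : ℝ => -(Real.exp (-u) * Real.log u))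
        (Real.exp (-u) * Real.log u - Real.exp (-u) / u) u := by
      intro u hu
      have k1 := ((((hasDerivAt_id u).neg).exp).mul (Real.hasDerivAt_log hu.ne')).neg
      refine k1.congr_deriv ?_
      simp
      ring
    have := integral_Ioi_of_hasDerivAt_of_tendsto (a := a) (m := 0)
      (f := fun u : ℝ => -(Real.exp (-u) * Real.log u))
      (f' := fun u : ℝ => Real.exp (-u) * Real.log u - Real.exp (-u) / u)
      ((hderiv a ha).continuousAt.continuousWithinAt)
      (fun u hu => hderiv u (ha.trans hu)) (hla.sub (pw_E_int ha)) ht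
    rw [this]
    ring
  rw [integral_sub hla (pw_E_int ha)] at h2
  linarith

lemma pw_rpow (p : Nat.Primes) (L z : ℝ) :
    ((p : ℕ) : ℝ) ^ (-(1 + z / L)) =
      Real.exp (-(z * Real.log ((p : ℕ) : ℝ) / L)) / ((p : ℕ) : ℝ) := by
  have hp := pw_ppos p
  rw [neg_add, Real.rpow_add hp, Real.rpow_neg_one, Real.rpow_def_of_pos hp (-(z / L))]
  have : Real.log ((p : ℕ) : ℝ) * -(z / L) = -(z * Real.log ((p : ℕ) : ℝ) / L) := by ring
  rw [this]
  field_simp

/-- the tail of `∑_p p^{-1-1/L}` -/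
lemma pw_tail_bound {N L : ℝ} (hN : 1 ≤ N) (hL : 0 < L) :
    0 ≤ ZetaMoment.Ps (1 / L) -
      ∑ p ∈ BP 0 N L, Real.exp (-(1 * Real.log ((p : ℕ) : ℝ) / L)) / ((p : ℕ) : ℝ) ∧
    ZetaMoment.Ps (1 / L) -
      ∑ p ∈ BP 0 N L, Real.exp (-(1 * Real.log ((p : ℕ) : ℝ) / L)) / ((p : ℕ) : ℝ) ≤
      3 * Real.exp (-(N / 2)) * (ZetaMoment.Ps ((1 / 2) / L) - ZetaMoment.Ps (1 / L)) := by
  classical
  have s1 := ZetaMoment.Ps_summable (s := 1 / L) (by positivity)
  have s2 := ZetaMoment.Ps_summable (s := (1 / 2) / L) (by positivity)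
  have hS : ∑ p ∈ BP 0 N L, Real.exp (-(1 * Real.log ((p : ℕ) : ℝ) / L)) / ((p : ℕ) : ℝ) =
      ∑ p ∈ BP 0 N L, ((p : ℕ) : ℝ) ^ (-(1 + 1 / L)) :=
    Finset.sum_congr rfl fun p _ => (pw_rpow p L 1).symm
  rw [hS]
  unfold ZetaMoment.Ps
  constructor
  · have := s1.sum_le_tsum (BP 0 N L) (fun p _ => by positivity)
    linarith
  · set K := 3 * Real.exp (-(N / 2)) with hK
    have hK0 : 0 < K := by positivity
    have hterm : ∀ p : Nat.Primes, ((p : ℕ) : ℝ) ^ (-(1 + 1 / L)) ≤
        (if p ∈ BP 0 N L then ((p : ℕ) : ℝ) ^ (-(1 + 1 / L)) else 0) +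
          K * (((p : ℕ) : ℝ) ^ (-(1 + (1 / 2) / L)) - ((p : ℕ) : ℝ) ^ (-(1 + 1 / L))) := by
      intro p
      have hp := pw_ppos p
      have hlp := pw_logpos p
      rw [pw_rpow p L 1, pw_rpow p L (1 / 2)]
      set x := Real.log ((p : ℕ) : ℝ) / L with hx
      have hx0 : 0 < x := by positivity
      have e1 : -(1 * Real.log ((p : ℕ) : ℝ) / L) = -x := by rw [hx]; ring
      have e2 : -(1 / 2 * Real.log ((p : ℕ) : ℝ) / L) = -(x / 2) := by rw [hx]; ring
      rw [e1, e2]
      have hle : Real.exp (-x) ≤ Real.exp (-(x / 2)) := Real.exp_le_exp.2 (by linarith)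
      by_cases hm : p ∈ BP 0 N L
      · rw [if_pos hm]
        have : 0 ≤ K * (Real.exp (-(x / 2)) / ((p : ℕ) : ℝ) - Real.exp (-x) / ((p : ℕ) : ℝ)) := by
          refine mul_nonneg hK0.le (sub_nonneg.2 ?_)
          exact div_le_div_of_nonneg_right hle hp.le
        linarith
      · rw [if_neg hm, zero_add, ← sub_div, ← mul_div_assoc]
        refine div_le_div_of_nonneg_right ?_ hp.le
        have hxN : N < x := by
          rw [mem_BP] at hm
          by_contra hcon
          push Not at hcon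
          apply hm
          rw [zero_mul]
          refine ⟨hlp, ?_⟩
          rwa [hx, div_le_iff₀ hL] at hcon
        have e3 : Real.exp (-x) = Real.exp (-(x / 2)) * Real.exp (-(x / 2)) := by
          rw [← Real.exp_add]
          congr 1
          ring
        have e4 : Real.exp (-(x / 2)) ≤ Real.exp (-(N / 2)) := Real.exp_le_exp.2 (by linarith)
        have e5 : Real.exp (-(x / 2)) ≤ 2 / 3 := by
          have h1 : Real.exp (-(x / 2)) ≤ Real.exp (-(1 / 2)) := Real.exp_le_exp.2 (by linarith)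
          have h2 : (3 / 2 : ℝ) ≤ Real.exp (1 / 2) := by
            have := Real.add_one_le_exp (1 / 2 : ℝ)
            linarith
          have h3 : Real.exp (-(1 / 2)) ≤ 2 / 3 := by
            rw [Real.exp_neg]
            have := inv_anti₀ (by norm_num : (0 : ℝ) < 3 / 2) h2
            refine this.trans (by norm_num)
          exact h1.trans h3
        have e6 := Real.exp_pos (-(x / 2))
        have e7 := Real.exp_pos (-(N / 2))
        rw [e3, hK]
        have e8 : Real.exp (-(x / 2)) * Real.exp (-(x / 2)) ≤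
            Real.exp (-(N / 2)) * Real.exp (-(x / 2)) := mul_le_mul_of_nonneg_right e4 e6.le
        have e9 : Real.exp (-(N / 2)) * Real.exp (-(x / 2)) ≤
            3 * Real.exp (-(N / 2)) * (Real.exp (-(x / 2)) - Real.exp (-(x / 2)) *
              Real.exp (-(x / 2))) := by
          have : Real.exp (-(x / 2)) ≤ 3 * (Real.exp (-(x / 2)) - Real.exp (-(x / 2)) *
              Real.exp (-(x / 2))) := by nlinarith
          calc Real.exp (-(N / 2)) * Real.exp (-(x / 2)) ≤ Real.exp (-(N / 2)) *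
                (3 * (Real.exp (-(x / 2)) - Real.exp (-(x / 2)) * Real.exp (-(x / 2)))) :=
                mul_le_mul_of_nonneg_left this e7.le
            _ = _ := by ring
        exact e8.trans e9
    have hfin : HasSum (fun p : Nat.Primes => if p ∈ BP 0 N L then ((p : ℕ) : ℝ) ^ (-(1 + 1 / L))
        else 0) (∑ p ∈ BP 0 N L, ((p : ℕ) : ℝ) ^ (-(1 + 1 / L))) := by
      have := hasSum_sum_of_ne_finset_zero (L := SummationFilter.unconditional _)
        (f := fun p : Nat.Primes => if p ∈ BP 0 N L then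
        ((p : ℕ) : ℝ) ^ (-(1 + 1 / L)) else 0) (s := BP 0 N L) (fun p hp => if_neg hp)
      rwa [Finset.sum_congr rfl fun p hp => if_pos hp] at this
    have hr := hfin.add ((s2.hasSum.sub s1.hasSum).mul_left K)
    have := hasSum_le hterm s1.hasSum hr
    linarith

lemma pw_tail {a : ℝ} (ha : 0 < a) :
    Tendsto (fun L : ℝ => ZetaMoment.Ps (1 / L) -
      ∑ p ∈ BP 0 a L, Real.exp (-(1 * Real.log ((p : ℕ) : ℝ) / L)) / ((p : ℕ) : ℝ)) atTop
      (𝓝 (∫ y in Set.Ioi a, Real.exp (-y) / y)) := by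
  classical
  rw [Metric.tendsto_nhds]
  intro ε hε
  -- the choice of `N`
  obtain ⟨N, hNa, hN1, hN2, hN3⟩ : ∃ N : ℝ, a ≤ N ∧ 1 ≤ N ∧
      3 * Real.exp (-(N / 2)) * (Real.log 2 + 1) < ε / 3 ∧
      |∫ y in Set.Ioi N, Real.exp (-y) / y| < ε / 3 := by
    have h1 : Tendsto (fun N : ℝ => 3 * Real.exp (-(N / 2)) * (Real.log 2 + 1)) atTop (𝓝 0) := by
      have h2 : Tendsto (fun N : ℝ => Real.exp (-(N / 2))) atTop (𝓝 0) :=
        Real.tendsto_exp_neg_atTop_nhds_zero.comp (tendsto_id.atTop_div_const two_pos)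
      have := (h2.const_mul 3).mul_const (Real.log 2 + 1)
      simpa using this
    have h3 : Tendsto (fun N : ℝ => |∫ y in Set.Ioi N, Real.exp (-y) / y|) atTop (𝓝 0) := by
      have hb : ∀ᶠ N : ℝ in atTop, |∫ y in Set.Ioi N, Real.exp (-y) / y| ≤ Real.exp (-N) := by
        filter_upwards [eventually_ge_atTop (1 : ℝ)] with N hN
        rw [← integral_exp_neg_Ioi N, abs_of_nonneg]
        · refine setIntegral_mono_on (pw_E_int (by linarith)) ?_ measurableSet_Ioi fun y hy => ?_
          · exact integrableOn_exp_neg_Ioi N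
          · have hy' : N < y := hy
            have : (1 : ℝ) ≤ y := by linarith
            exact div_le_self (Real.exp_pos _).le this
        · refine setIntegral_nonneg measurableSet_Ioi fun y hy => ?_
          have hy' : N < y := hy
          have : (0 : ℝ) < y := by linarith
          positivity
      exact squeeze_zero' (Eventually.of_forall fun _ => abs_nonneg _) hb
        Real.tendsto_exp_neg_atTop_nhds_zero
    have h4 := (h1.eventually_lt_const (by positivity : (0 : ℝ) < ε / 3)).and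
      ((h3.eventually_lt_const (by positivity : (0 : ℝ) < ε / 3)).and
      ((eventually_ge_atTop a).and (eventually_ge_atTop (1 : ℝ))))
    obtain ⟨N, hN⟩ := h4.exists
    exact ⟨N, hN.2.2.1, hN.2.2.2, hN.1, hN.2.1⟩
  -- the block `(a, N]`
  have h1 := pw_weak ha.le hNa (φ := fun y => Real.exp (-y) / y)
    (ContinuousOn.div (by fun_prop) continuousOn_id fun y hy => (ha.trans_le hy.1).ne')
  have h2 : Tendsto (fun L : ℝ => ZetaMoment.Ps ((1 / 2) / L) - ZetaMoment.Ps (1 / L)) atTop
      (𝓝 (Real.log 2)) := by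
    have k1 := (ZetaMoment.Ps_tendsto (z := 1 / 2) (by norm_num)).sub
      (ZetaMoment.Ps_tendsto one_pos)
    have k2 : ZetaMoment.C0 - Real.log (1 / 2) - (ZetaMoment.C0 - Real.log 1) = Real.log 2 := by
      rw [one_div, Real.log_inv, Real.log_one]
      ring
    rw [k2] at k1
    refine k1.congr fun L => ?_
    ring
  have e1 := (Metric.tendsto_nhds.1 h1) (ε / 3) (by positivity)
  have e2 := h2.eventually_lt_const (show Real.log 2 < Real.log 2 + 1 by linarith)
  filter_upwards [e1, e2, eventually_gt_atTop (0 : ℝ)] with L g1 g2 hL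
  rw [Real.dist_eq] at g1 ⊢
  obtain ⟨t1, t2⟩ := pw_tail_bound hN1 hL
  have t3 : 3 * Real.exp (-(N / 2)) * (ZetaMoment.Ps ((1 / 2) / L) - ZetaMoment.Ps (1 / L)) ≤
      3 * Real.exp (-(N / 2)) * (Real.log 2 + 1) :=
    mul_le_mul_of_nonneg_left g2.le (by positivity)
  -- splitting the integral
  have hI : (∫ y in a..N, Real.exp (-y) / y) + ∫ y in Set.Ioi N, Real.exp (-y) / y =
      ∫ y in Set.Ioi a, Real.exp (-y) / y :=
    intervalIntegral.integral_interval_add_Ioi (pw_E_int ha) (pw_E_int (ha.trans_le hNa))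
  -- splitting the sum
  have hB : ∑ p ∈ BP 0 N L, Real.exp (-(1 * Real.log ((p : ℕ) : ℝ) / L)) / ((p : ℕ) : ℝ) =
      ∑ p ∈ BP 0 a L, Real.exp (-(1 * Real.log ((p : ℕ) : ℝ) / L)) / ((p : ℕ) : ℝ) +
      ∑ p ∈ BP a N L, Real.exp (-(1 * Real.log ((p : ℕ) : ℝ) / L)) / ((p : ℕ) : ℝ) := by
    rw [← Finset.sum_union]
    · congr 1
      ext p
      rw [Finset.mem_union, mem_BP, mem_BP, mem_BP]
      have hlp := pw_logpos p
      constructor
      · rintro ⟨_, h⟩
        rcases le_or_gt (Real.log ((p : ℕ) : ℝ)) (a * L) with h' | h'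
        · exact Or.inl ⟨by rwa [zero_mul], h'⟩
        · exact Or.inr ⟨h', h⟩
      · rintro (⟨_, h⟩ | ⟨_, h⟩)
        · exact ⟨by rwa [zero_mul], h.trans (mul_le_mul_of_nonneg_right hNa hL.le)⟩
        · exact ⟨by rwa [zero_mul], h⟩
    · rw [Finset.disjoint_left]
      intro p hp hp'
      rw [mem_BP] at hp hp'
      linarith [hp.2, hp'.1]
  have hB2 : ∑ p ∈ BP a N L, Real.exp (-(1 * Real.log ((p : ℕ) : ℝ) / L)) / ((p : ℕ) : ℝ) =
      ∑ p ∈ BP a N L, Real.exp (-(Real.log ((p : ℕ) : ℝ) / L)) / (Real.log ((p : ℕ) : ℝ) / L) *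
        pww L p := by
    refine Finset.sum_congr rfl fun p _ => ?_
    have k1 := pw_logpos p
    have k2 := pw_ppos p
    unfold pww
    rw [one_mul]
    field_simp
  rw [hB, hB2] at t1 t2
  have a1 := abs_lt.1 g1
  have a2 := abs_lt.1 hN3
  rw [abs_lt]
  constructor <;> linarith [a1.1, a1.2, a2.1, a2.2]

theorem prime_small {a z : ℝ} (ha : 0 < a) (hz : 0 ≤ z) :
    Tendsto (fun L : ℝ => (∑ p ∈ BP 0 a L,
      Real.exp (-(z * Real.log ((p : ℕ) : ℝ) / L)) / ((p : ℕ) : ℝ)) - Real.log L) atTop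
      (𝓝 (C0 + el0 a z)) := by
  have h1 := pw_weak le_rfl ha.le (φ := fun y => pwg 1 y - pwg z y)
    ((pwg_cont 1).sub (pwg_cont z)).continuousOn
  have h2 := pw_tail ha
  have h3 := ZetaMoment.Ps_tendsto one_pos
  rw [Real.log_one, sub_zero] at h3
  have h4 := (h1.sub h2).add h3
  have hlim : (∫ y in (0 : ℝ)..a, (pwg 1 y - pwg z y)) - (∫ y in Set.Ioi a, Real.exp (-y) / y) +
      C0 = C0 + el0 a z := by
    rw [intervalIntegral.integral_sub ((pwg_cont 1).intervalIntegrable _ _)
      ((pwg_cont z).intervalIntegrable _ _)]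
    have k1 := pw_const ha
    have k2 : ∫ x in (0 : ℝ)..1, (1 - Real.exp (-(z * a * x))) / x =
        ∫ y in (0 : ℝ)..a, pwg z y := by
      rw [← pwg_int z ha]
      have k3 := intervalIntegral.integral_comp_mul_right (a := 0) (b := 1)
        (fun y : ℝ => (1 - Real.exp (-(z * y))) / y) ha.ne'
      rw [zero_mul, one_mul] at k3
      have k4 : ∫ x in (0 : ℝ)..1, (1 - Real.exp (-(z * a * x))) / x =
          a * ∫ x in (0 : ℝ)..1, (1 - Real.exp (-(z * (x * a)))) / (x * a) := by
        rw [← intervalIntegral.integral_const_mul]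
        refine intervalIntegral.integral_congr fun x _ => ?_
        have e1 : z * a * x = z * (x * a) := by ring
        simp only [e1]
        by_cases hx : x = 0
        · subst hx
          simp
        · field_simp
      rw [k4, k3, smul_eq_mul, ← mul_assoc, mul_inv_cancel₀ ha.ne', one_mul]
    unfold el0
    rw [k2]
    linarith
  rw [hlim] at h4
  refine h4.congr' ?_
  filter_upwards [eventually_gt_atTop (0 : ℝ)] with L hL
  have h5 : ∑ p ∈ BP 0 a L, (pwg 1 (Real.log ((p : ℕ) : ℝ) / L) -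
      pwg z (Real.log ((p : ℕ) : ℝ) / L)) * pww L p =
      ∑ p ∈ BP 0 a L, Real.exp (-(z * Real.log ((p : ℕ) : ℝ) / L)) / ((p : ℕ) : ℝ) -
      ∑ p ∈ BP 0 a L, Real.exp (-(1 * Real.log ((p : ℕ) : ℝ) / L)) / ((p : ℕ) : ℝ) := by
    rw [← Finset.sum_sub_distrib]
    refine Finset.sum_congr rfl fun p _ => ?_
    have k1 := pw_logpos p
    have k2 := pw_ppos p
    have k3 : Real.log ((p : ℕ) : ℝ) / L ≠ 0 := (div_pos k1 hL).ne'
    rw [pwg_apply 1 k3, pwg_apply z k3, ← sub_div]
    unfold pww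
    rw [one_mul, one_mul, mul_div_assoc z]
    field_simp
    ring
  rw [h5]
  ring

end Pool.Agent.MomW
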