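import Pool.Agent.Lib_MP_112ba8_w.Alg

/-!
# Piece TL: tails and positivity, used in the assembly

(helper5)
-/

namespace Pool.Agent.MomW

open Filter Topology MeasureTheory
open Pool.Agent.SixthMoment (QQ ln fr osc)
open Pool.Agent.ZetaMoment (wt Wm C0 aG DP)

/-- the part of large length -/
noncomputable def TL (D : ℝ) (g : TP) : ℝ :=
  ∑ q ∈ g.coeff.support, (open Classical in if D < ln q then |g.coeff q| * wr 1 q else 0)

lemma TL_le {g G : TP} (h : Dom g G) {r : ℝ} (hr : 1 ≤ r) {D a : ℝ}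
    (ha : ∀ q ∈ g.coeff.support, 0 ≤ q → D < ln q → a ≤ (Om q : ℝ)) :
    TL D g ≤ r ^ (-a) * NR r G := by
  classical
  have hr0 : 0 < r := by linarith
  rw [NR_eq_lf, lf_eq (wr r) (f := G) (s := g.coeff.support ∪ G.coeff.support)
    Finset.subset_union_right, Finset.mul_sum]
  unfold TL
  have h1 : ∑ q ∈ g.coeff.support, (if D < ln q then |g.coeff q| * wr 1 q else 0) ≤
      ∑ q ∈ g.coeff.support, r ^ (-a) * (G.coeff q * wr r q) := by
    refine Finset.sum_le_sum fun q hq => ?_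
    have hG := h.coeff_nonneg q
    split_ifs with hD
    · by_cases h0 : 0 ≤ q
      · have h2 := ha q hq h0 hD
        have h3 : wr 1 q ≤ r ^ (-a) * wr r q := by
          unfold wr
          rw [if_pos h0, if_pos h0, one_pow, one_mul, ← mul_assoc]
          refine le_mul_of_one_le_left (Real.exp_pos _).le ?_
          have h4 : r ^ (-a) * r ^ (Om q).toNat = r ^ ((Om q : ℝ) - a) := by
            rw [← Real.rpow_natCast r (Om q).toNat, ← Real.rpow_add hr0]
            congr 1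
            have h5 : (((Om q).toNat : ℕ) : ℝ) = (Om q : ℝ) := by
              have h6 : (((Om q).toNat : ℕ) : ℤ) = Om q := Int.toNat_of_nonneg (Om_nonneg h0)
              exact_mod_cast congrArg (fun z : ℤ => (z : ℝ)) h6
            rw [h5]
            ring
          rw [h4]
          exact Real.one_le_rpow hr (by linarith)
        calc |g.coeff q| * wr 1 q ≤ G.coeff q * (r ^ (-a) * wr r q) :=
              mul_le_mul (h q) h3 (wr_nonneg zero_le_one q) hG
          _ = r ^ (-a) * (G.coeff q * wr r q) := by ring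
      · have h2 : wr 1 q = 0 := if_neg h0
        rw [h2, mul_zero]
        exact mul_nonneg (Real.rpow_nonneg hr0.le _) (mul_nonneg hG (wr_nonneg hr0.le q))
    · exact mul_nonneg (Real.rpow_nonneg hr0.le _) (mul_nonneg hG (wr_nonneg hr0.le q))
  refine h1.trans (Finset.sum_le_sum_of_subset_of_nonneg Finset.subset_union_left
    fun q _ _ => ?_)
  exact mul_nonneg (Real.rpow_nonneg hr0.le _) (mul_nonneg (h.coeff_nonneg q) (wr_nonneg hr0.le q))

/-- Lower bound of the smoothed functional. -/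
lemma NB_ge {β : ℝ → ℝ} (hβ : Cut β) {B D D1 : ℝ} (hB : 0 < B) (hD : D1 + D ≤ B / 2) {f g : TP}
    {S S' : Set Nat.Primes} (hf0 : ∀ q, 0 ≤ f.coeff q) (hf : Prm f S) (hg : Prm g S')
    (h : Disjoint S S') (hl : Len f D1) :
    NR 1 f * (NR 1 g - TL D g) ≤ NB β B (f * g) := by
  classical
  rw [NB_eq_lf, lf_mul, NR_eq_lf, NR_eq_lf, lf_eq (wr 1) (f := f) subset_rfl,
    lf_eq (wr 1) (f := g) subset_rfl]
  unfold TL
  rw [← Finset.sum_sub_distrib, Finset.sum_mul_sum]
  refine Finset.sum_le_sum fun a ha => Finset.sum_le_sum fun b hb => ?_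
  rw [wr_add_disj 1 (hf a ha) (hg b hb) h]
  by_cases ha0 : 0 ≤ a
  swap
  · have h1 : wr 1 a = 0 := if_neg ha0
    rw [h1]
    simp
  by_cases hb0 : 0 ≤ b
  swap
  · have h1 : wr 1 b = 0 := if_neg hb0
    rw [h1]
    simp
  rw [ln_add_eq ha0 hb0]
  have hwa := wr_nonneg zero_le_one a
  have hwb := wr_nonneg zero_le_one b
  have hfa := hf0 a
  set β' := β ((ln a + ln b) / B) with hβ'
  have hβ0 : 0 ≤ β' := hβ.nonneg _
  have hβ1 : β' ≤ 1 := hβ.le_one _
  have key : g.coeff b * wr 1 b - (if D < ln b then |g.coeff b| * wr 1 b else 0) ≤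
      g.coeff b * wr 1 b * β' := by
    split_ifs with hDb
    · have h1 : 0 ≤ g.coeff b * β' - g.coeff b + |g.coeff b| := by
        rcases le_total 0 (g.coeff b) with h2 | h2
        · rw [abs_of_nonneg h2]
          nlinarith [mul_nonneg h2 hβ0]
        · rw [abs_of_nonpos h2]
          nlinarith [mul_nonneg_of_nonpos_of_nonpos h2 (sub_nonpos.mpr hβ1)]
      have h2 := mul_nonneg h1 hwb
      linarith
    · have h1 : β' = 1 := by
        rw [hβ']
        refine hβ.one _ ?_
        have h2 := Pool.Agent.SixthMoment.ln_nonneg a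
        have h3 := Pool.Agent.SixthMoment.ln_nonneg b
        have h4 := hl a ha
        rw [abs_of_nonneg (by positivity), div_le_iff₀ hB]
        linarith
      rw [h1]
      simp
  calc f.coeff a * wr 1 a * (g.coeff b * wr 1 b - (if D < ln b then |g.coeff b| * wr 1 b else 0))
      ≤ f.coeff a * wr 1 a * (g.coeff b * wr 1 b * β') :=
        mul_le_mul_of_nonneg_left key (mul_nonneg hfa hwa)
    _ = f.coeff a * g.coeff b * (wr 1 a * wr 1 b * β') := by ring

/-! ## nonnegative coefficients -/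

/-- nonnegative coefficients -/
def Nn (f : TP) : Prop := ∀ q, 0 ≤ f.coeff q

lemma Nn.dom {f : TP} (h : Nn f) : Dom f f := fun q => (abs_of_nonneg (h q)).le

lemma Dom.nn {f g : TP} (h : Dom f g) : Nn g := fun q => h.coeff_nonneg q

lemma Nn.mul {f g : TP} (hf : Nn f) (hg : Nn g) : Nn (f * g) := (hf.dom.mul hg.dom).nn

lemma Nn.pow {f : TP} (hf : Nn f) (n : ℕ) : Nn (f ^ n) := (hf.dom.pow n).nn

lemma Nn.st {f : TP} (hf : Nn f) : Nn (st f) := fun q => by
  rw [coeff_st]
  exact hf _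

lemma NR_nonneg {r : ℝ} (hr : 0 ≤ r) {f : TP} (hf : Nn f) : 0 ≤ NR r f := by
  rw [NR_eq_lf, lf_eq (wr r) (f := f) subset_rfl]
  exact Finset.sum_nonneg fun q _ => mul_nonneg (hf q) (wr_nonneg hr q)

lemma coeff_mul_st (f R : TP) :
    (f * st R).coeff 0 = ∑ a ∈ f.coeff.support, f.coeff a * R.coeff a := by
  classical
  rw [coeff_mul_eq f (st R) 0 subset_rfl
    (s' := (st R).coeff.support ∪ f.coeff.support.image (fun a => -a)) Finset.subset_union_left]
  refine Finset.sum_congr rfl fun a ha => ?_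
  rw [Finset.sum_eq_single_of_mem (-a)]
  · rw [if_pos (add_neg_cancel a), coeff_st, neg_neg]
  · exact Finset.mem_union_right _ (Finset.mem_image_of_mem _ ha)
  · intro b _ hb
    rw [if_neg]
    intro h0
    exact hb (eq_neg_of_add_eq_zero_right h0)

lemma coeff_le_NR {f R : TP} (hf : Nn f) (hR : ∀ q, R.coeff q ≤ wr 1 q) :
    (f * st R).coeff 0 ≤ NR 1 f := by
  rw [coeff_mul_st, NR_eq_lf, lf_eq (wr 1) (f := f) subset_rfl]
  exact Finset.sum_le_sum fun a _ => mul_le_mul_of_nonneg_left (hR a) (hf a)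

/-! ## norms of block polynomials -/

/-- sum of the absolute values of the coefficients -/
noncomputable def cb (B : Polynomial ℝ) : ℝ :=
  ∑ i ∈ Finset.range (B.natDegree + 1), |B.coeff i|

lemma cb_nonneg (B : Polynomial ℝ) : 0 ≤ cb B := Finset.sum_nonneg fun _ _ => abs_nonneg _

lemma nrm_aeval_le {X : TP} {M : ℝ} (hM : 1 ≤ M) (hX : nrm X ≤ M) (B : Polynomial ℝ) :
    nrm (Polynomial.aeval X B) ≤ cb B * M ^ B.natDegree := by
  rw [Polynomial.aeval_eq_sum_range]
  refine (nrm_sum_le _ _).trans ?_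
  unfold cb
  rw [Finset.sum_mul]
  refine Finset.sum_le_sum fun i hi => ?_
  rw [nrm_smul]
  refine mul_le_mul_of_nonneg_left ?_ (abs_nonneg _)
  calc nrm (X ^ i) ≤ nrm X ^ i := nrm_pow_le X i
    _ ≤ M ^ i := pow_le_pow_left₀ (nrm_nonneg X) hX i
    _ ≤ M ^ B.natDegree :=
        pow_le_pow_right₀ hM (Nat.lt_succ_iff.mp (Finset.mem_range.mp hi))

lemma card_BP_le (u v L : ℝ) : ((BP u v L).card : ℝ) ≤ Real.exp (v * L) := by
  classical
  have h1 : ((BP u v L).image fun p : Nat.Primes => (p : ℕ)) ⊆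
      Finset.Icc 1 ⌊Real.exp (v * L)⌋₊ := by
    intro n hn
    obtain ⟨p, hp, rfl⟩ := Finset.mem_image.mp hn
    have hp0 : (0 : ℝ) < ((p : ℕ) : ℝ) := by exact_mod_cast p.2.pos
    rw [Finset.mem_Icc]
    refine ⟨p.2.pos, Nat.le_floor ?_⟩
    rw [← Real.log_le_iff_le_exp hp0]
    exact (mem_BP.mp hp).2
  have h2 : (BP u v L).card ≤ ⌊Real.exp (v * L)⌋₊ := by
    rw [← Finset.card_image_of_injective (BP u v L)
      (f := fun p : Nat.Primes => (p : ℕ)) (fun a b h => Subtype.ext h)]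
    refine (Finset.card_le_card h1).trans ?_
    rw [Nat.card_Icc]
    omega
  exact (by exact_mod_cast h2 : ((BP u v L).card : ℝ) ≤ (⌊Real.exp (v * L)⌋₊ : ℝ)).trans
    (Nat.floor_le (Real.exp_pos _).le)

lemma nrm_PS_le (S : Finset Nat.Primes) : nrm (PS S) ≤ S.card := by
  unfold PS
  refine (nrm_sum_le _ _).trans ?_
  rw [Finset.card_eq_sum_ones, Nat.cast_sum]
  refine Finset.sum_le_sum fun p _ => ?_
  rw [nrm_single, abs_of_nonneg (by positivity), Nat.cast_one]
  have h1 : (1 : ℝ) ≤ ((p : ℕ) : ℝ) := by exact_mod_cast p.2.one_lt.le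
  exact Real.rpow_le_one_of_one_le_of_nonpos h1 (by norm_num)

lemma nrm_XX_le (u v L : ℝ) : nrm (XX (BP u v L)) ≤ Real.exp (v * L) := by
  unfold XX
  rw [nrm_smul, abs_of_nonneg (by norm_num)]
  have h1 := nrm_add_le (PS (BP u v L)) (st (PS (BP u v L)))
  rw [nrm_st] at h1
  have h2 := nrm_PS_le (BP u v L)
  have h3 := card_BP_le u v L
  linarith

/-! ## lengths and the number of prime factors -/

lemma ln_le_Om {q : QQ} (hq : 0 ≤ q) {v : ℝ}
    (h : ∀ p ∈ q.support, Real.log ((p : ℕ) : ℝ) ≤ v) : ln q ≤ (Om q : ℝ) * v := by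
  unfold Om Pool.Agent.SixthMoment.ln Finsupp.sum
  push_cast
  rw [Finset.sum_mul]
  refine Finset.sum_le_sum fun p hp => ?_
  have h1 : (0 : ℝ) ≤ (q p : ℝ) := by exact_mod_cast hq p
  rw [abs_of_nonneg h1]
  exact mul_le_mul_of_nonneg_left (h p hp) h1

/-! ## real values -/

lemma ev_real {f : TP} (hf : st f = f) (t : ℝ) : ∃ x : ℝ, ev t f = (x : ℂ) := by
  have h1 := ev_st t f
  rw [hf] at h1
  exact ⟨(ev t f).re, ((Complex.conj_eq_iff_re.mp h1.symm)).symm⟩

lemma st_aeval {X : TP} (hX : st X = X) (B : Polynomial ℝ) :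
    st (Polynomial.aeval X B) = Polynomial.aeval X B := by
  rw [← Polynomial.aeval_algHom_apply, hX]

end Pool.Agent.MomW
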