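import Pool.Agent.Lib_MP_112ba8_w.Defs

/-!
# Piece VEC: exponent vectors of positive integers

(helper5)
-/

namespace Pool.Agent.MomW

open Filter Topology MeasureTheory
open Pool.Agent.SixthMoment (QQ ln fr osc)
open Pool.Agent.ZetaMoment (wt Wm C0 aG DP)

/-- exponent vector of `n` -/
noncomputable def vec (n : ℕ) : QQ :=
  (n.factorization.subtypeDomain Nat.Prime).mapRange (fun e : ℕ => (e : ℤ)) (by simp)

lemma vec_apply (n : ℕ) (p : Nat.Primes) : vec n p = (n.factorization p : ℤ) := rfl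

lemma vec_one : vec 1 = 0 := by
  ext p
  rw [vec_apply, Nat.factorization_one]
  rfl

lemma vec_mul {m n : ℕ} (hm : m ≠ 0) (hn : n ≠ 0) : vec (m * n) = vec m + vec n := by
  ext p
  rw [Finsupp.add_apply, vec_apply, vec_apply, vec_apply, Nat.factorization_mul hm hn,
    Finsupp.add_apply]
  push_cast
  rfl

lemma vec_nonneg (n : ℕ) : 0 ≤ vec n := by
  intro p
  rw [vec_apply]
  exact Int.natCast_nonneg _

lemma vec_inj {m n : ℕ} (hm : m ≠ 0) (hn : n ≠ 0) (h : vec m = vec n) : m = n := by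
  refine Nat.eq_of_factorization_eq hm hn fun p => ?_
  by_cases hp : p.Prime
  · obtain ⟨P, rfl⟩ : ∃ P : Nat.Primes, (P : ℕ) = p := ⟨⟨p, hp⟩, rfl⟩
    have h1 := DFunLike.congr_fun h P
    rw [vec_apply, vec_apply] at h1
    exact_mod_cast h1
  · rw [Nat.factorization_eq_zero_of_not_prime _ hp, Nat.factorization_eq_zero_of_not_prime _ hp]

lemma vec_prime (P : Nat.Primes) : vec P = ip P := by
  classical
  ext r
  unfold ip
  rw [vec_apply, P.2.factorization, Finsupp.single_apply, Finsupp.single_apply]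
  by_cases hr : P = r
  · rw [if_pos hr, if_pos (congrArg Subtype.val hr)]
    rfl
  · rw [if_neg hr, if_neg (fun h => hr (Subtype.ext h))]
    rfl

lemma fr_ip (P : Nat.Primes) : fr (ip P) = Real.log ((P : ℕ) : ℝ) := by
  unfold Pool.Agent.SixthMoment.fr ip
  rw [Finsupp.sum_single_index]
  · rw [Int.cast_one, one_mul]
  · rw [Int.cast_zero, zero_mul]

lemma exists_vec {q : QQ} (hq : 0 ≤ q) : ∃ n : ℕ, n ≠ 0 ∧ vec n = q := by
  classical
  induction q using Finsupp.induction with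
  | zero => exact ⟨1, one_ne_zero, vec_one⟩
  | single_add p b f hp hb ih =>
    have hf : 0 ≤ f := by
      intro r
      by_cases hr : r = p
      · rw [hr, Finsupp.notMem_support_iff.mp hp]
        exact le_rfl
      · have h1 := hq r
        rw [Finsupp.add_apply, Finsupp.single_eq_of_ne hr, zero_add] at h1
        exact h1
    have hb0 : 0 ≤ b := by
      have h1 := hq p
      rw [Finsupp.add_apply, Finsupp.single_eq_same, Finsupp.notMem_support_iff.mp hp,
        add_zero] at h1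
      exact h1
    obtain ⟨n, hn, hnf⟩ := ih hf
    refine ⟨(p : ℕ) ^ b.toNat * n, mul_ne_zero (pow_ne_zero _ p.2.ne_zero) hn, ?_⟩
    rw [vec_mul (pow_ne_zero _ p.2.ne_zero) hn, hnf]
    congr 1
    ext r
    rw [vec_apply, p.2.factorization_pow, Finsupp.single_apply, Finsupp.single_apply]
    by_cases hr : p = r
    · rw [if_pos (congrArg Subtype.val hr), if_pos hr, Int.toNat_of_nonneg hb0]
    · rw [if_neg (fun h => hr (Subtype.ext h)), if_neg hr]
      rfl

lemma fr_vec {n : ℕ} (hn : n ≠ 0) : fr (vec n) = Real.log n := by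
  induction n using Nat.recOnMul with
  | zero => exact absurd rfl hn
  | one => rw [vec_one, Pool.Agent.SixthMoment.fr_zero]; simp
  | prime p hp =>
    obtain ⟨P, rfl⟩ : ∃ P : Nat.Primes, (P : ℕ) = p := ⟨⟨p, hp⟩, rfl⟩
    rw [vec_prime, fr_ip]
  | mul a b ha hb =>
    have ha0 : a ≠ 0 := left_ne_zero_of_mul hn
    have hb0 : b ≠ 0 := right_ne_zero_of_mul hn
    rw [vec_mul ha0 hb0, Pool.Agent.SixthMoment.fr_add, ha ha0, hb hb0]
    push_cast
    rw [Real.log_mul (by exact_mod_cast ha0) (by exact_mod_cast hb0)]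

/-- for integers the two logarithms agree -/
lemma fr_eq_ln {q : QQ} (hq : 0 ≤ q) : fr q = ln q := by
  unfold Pool.Agent.SixthMoment.fr Pool.Agent.SixthMoment.ln
  refine Finsupp.sum_congr fun p _ => ?_
  have h1 : (0 : ℝ) ≤ (q p : ℝ) := by exact_mod_cast hq p
  rw [abs_of_nonneg h1]

lemma ln_vec {n : ℕ} (hn : n ≠ 0) : ln (vec n) = Real.log n := by
  rw [← fr_eq_ln (vec_nonneg n), fr_vec hn]

lemma wr_one_vec {n : ℕ} (hn : n ≠ 0) : wr 1 (vec n) = (Real.sqrt n)⁻¹ := by
  have hn0 : (0 : ℝ) < n := by exact_mod_cast Nat.pos_of_ne_zero hn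
  unfold wr
  rw [if_pos (vec_nonneg n), one_pow, one_mul, ln_vec hn, Real.exp_neg,
    ← Real.log_sqrt hn0.le, Real.exp_log (Real.sqrt_pos.mpr hn0)]

lemma mem_support_vec {n : ℕ} (hn : n ≠ 0) {p : Nat.Primes} :
    p ∈ (vec n).support ↔ (p : ℕ) ∣ n := by
  rw [Finsupp.mem_support_iff, vec_apply]
  have h1 : ((n.factorization p : ℕ) : ℤ) ≠ 0 ↔ n.factorization p ≠ 0 := by
    exact_mod_cast Iff.rfl
  rw [h1, ← Nat.pos_iff_ne_zero, Nat.Prime.dvd_iff_one_le_factorization p.2 hn]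
  exact Nat.succ_le_iff.symm

/-- the terms of the Dirichlet polynomial -/
lemma cpow_vec {n : ℕ} (hn : n ≠ 0) (t : ℝ) : (n : ℂ) ^ (-(1 / 2 + t * Complex.I) : ℂ) =
    (((Real.sqrt n)⁻¹ : ℝ) : ℂ) * osc (-vec n) t := by
  have hn0 : (0 : ℝ) < n := by exact_mod_cast Nat.pos_of_ne_zero hn
  have hnc : (n : ℂ) ≠ 0 := by exact_mod_cast hn
  unfold Pool.Agent.SixthMoment.osc
  rw [Pool.Agent.SixthMoment.fr_neg, fr_vec hn, Complex.cpow_def_of_ne_zero hnc]
  have h1 : (((Real.sqrt n)⁻¹ : ℝ) : ℂ) = Complex.exp ((-(Real.log n / 2) : ℝ) : ℂ) := by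
    rw [← Complex.ofReal_exp, Real.exp_neg, ← Real.log_sqrt hn0.le,
      Real.exp_log (Real.sqrt_pos.mpr hn0)]
  rw [h1, ← Complex.exp_add]
  congr 1
  rw [← Complex.natCast_log]
  push_cast
  ring

end Pool.Agent.MomW
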