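import Pool.Agent.Lib_MP_112ba8_w.MeanTP
import Pool.Agent.Lib_MP_112ba8_w.Vec

/-!
# Piece ZTP: the first moment of zeta times a single oscillation

PROOF. `DP (fun _ => 1) N t = ∑_{n ≤ N} n^{-1/2 - it}` with `N = ⌈T^{3/2}⌉₊` and
`osc q t = exp (i t fr q)`. So the integral is
`∑_{n ≤ N} n^{-1/2} (1/T) ∫ wt(t/T) exp (i t (fr q - log n)) dt`.
For `n ≥ 1` let `vec n : QQ` be the exponent vector of `n` (Vec.lean: `fr_vec`, `ln_vec`,
`vec_nonneg`, `cpow_vec`, `exists_vec`), so the `n`-th term is `n^{-1/2} osc (q - vec n) t`.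

* `n ≤ 2 T^{ε/4}`: the frequency is `fr (q - vec n)` and
  `ln (q - vec n) ≤ ln q + log n ≤ (2 - ε) L + (ε/4) L + log 2 ≤ (2 - ε/2) L` for `T` large
  (`SixthMoment.ln_add_le`, `ln_neg`). If `q ≠ vec n` the term is at most `C/T^{A+1}` by
  `SixthMoment.osc_small wt_Wgt` (with `ε/2`), and there are at most `2 T^{ε/4} ≤ 2 T` of them
  (use exponent `A + 2`).
* `n > 2 T^{ε/4}`: `|fr q - log n| ≥ log n - (ε/4) log T ≥ log 2`, so by
  `EvenMoment.osc_decay wt_Wgt (A + 3)` the term is at most `C (T log 2)^{-(A+3)}`, and there are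
  at most `2 T^{3/2}` of them.
* the term with `q = vec n` exists iff `0 ≤ q` (then `n = exp (ln q) = exp (fr q) ≤ T^{ε/4}`, in
  particular `n ≤ N`), and it equals `n^{-1/2} Wm = Wm * wr 1 q` (`SixthMoment.osc_one`).
-/

namespace Pool.Agent.MomW

open Filter Topology MeasureTheory
open Pool.Agent.SixthMoment (QQ ln fr osc)
open Pool.Agent.ZetaMoment (wt Wm C0 aG DP)

private theorem ztp_term (n : ℕ) (hn : n ≠ 0) (q : QQ) (T : ℝ) :
    (∫ t : ℝ, (wt (t / T) : ℂ) * ((n : ℂ) ^ (-(1 / 2 + t * Complex.I) : ℂ) * osc q t)) =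
      (((Real.sqrt n)⁻¹ : ℝ) : ℂ) * ∫ t : ℝ, (wt (t / T) : ℂ) * osc (q - vec n) t := by
  rw [← integral_const_mul]
  refine integral_congr_ae (ae_of_all _ fun t => ?_)
  show (wt (t / T) : ℂ) * ((n : ℂ) ^ (-(1 / 2 + t * Complex.I) : ℂ) * osc q t) =
    (((Real.sqrt n)⁻¹ : ℝ) : ℂ) * ((wt (t / T) : ℂ) * osc (q - vec n) t)
  rw [cpow_vec hn, sub_eq_add_neg, Pool.Agent.SixthMoment.osc_add]
  ring

private theorem ztp_sum (N : ℕ) (q : QQ) {T : ℝ} (hT : 0 < T) :
    (∫ t : ℝ, (wt (t / T) : ℂ) * (DP (fun _ => 1) N t * osc q t)) =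
      ∑ n ∈ Finset.Icc 1 N, (((Real.sqrt n)⁻¹ : ℝ) : ℂ) *
        ∫ t : ℝ, (wt (t / T) : ℂ) * osc (q - vec n) t := by
  have h1 : ∀ t : ℝ, (wt (t / T) : ℂ) * (DP (fun _ => 1) N t * osc q t) =
      ∑ n ∈ Finset.Icc 1 N,
        (wt (t / T) : ℂ) * ((n : ℂ) ^ (-(1 / 2 + t * Complex.I) : ℂ) * osc q t) := by
    intro t
    unfold Pool.Agent.ZetaMoment.DP
    rw [Finset.sum_mul, Finset.mul_sum]
    refine Finset.sum_congr rfl fun n _ => ?_
    push_cast
    ring
  rw [integral_congr_ae (ae_of_all _ h1), integral_finsetSum]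
  · refine Finset.sum_congr rfl fun n hn => ?_
    exact ztp_term n (by have := (Finset.mem_Icc.mp hn).1; omega) q T
  · intro n hn
    have hn0 : (n : ℂ) ≠ 0 := by
      have := (Finset.mem_Icc.mp hn).1
      exact_mod_cast (by omega : n ≠ 0)
    refine Pool.Agent.ZetaMoment.integrable_w hT ?_
    refine Continuous.mul ?_ (Pool.Agent.SixthMoment.osc_cont q)
    refine Continuous.const_cpow ?_ (Or.inl hn0)
    fun_prop

private theorem ztp_main (N : ℕ) (q : QQ) (hN : ∀ n : ℕ, n ≠ 0 → vec n = q → n ≤ N) :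
    open Classical in
    (∑ n ∈ Finset.Icc 1 N, (if vec n = q then (((Real.sqrt n)⁻¹ : ℝ) : ℂ) * (Wm : ℂ) else 0)) =
      ((Wm * wr 1 q : ℝ) : ℂ) := by
  classical
  by_cases hq : 0 ≤ q
  · obtain ⟨m, hm, hmq⟩ := exists_vec hq
    rw [Finset.sum_eq_single m]
    · rw [if_pos hmq, ← hmq, wr_one_vec hm]
      push_cast
      ring
    · intro n hn hnm
      rw [if_neg]
      intro h
      exact hnm (vec_inj (by have := (Finset.mem_Icc.mp hn).1; omega) hm (h.trans hmq.symm))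
    · intro h
      exfalso
      exact h (Finset.mem_Icc.mpr ⟨Nat.one_le_iff_ne_zero.mpr hm, hN m hm hmq⟩)
  · rw [Finset.sum_eq_zero]
    · have h1 : wr 1 q = 0 := by
        unfold wr
        rw [if_neg hq]
      rw [h1]
      simp
    · intro n _
      rw [if_neg]
      intro h
      exact hq (h ▸ vec_nonneg n)

theorem zeta_first {ε : ℝ} (hε : 0 < ε) (hε1 : ε < 1) (A : ℕ) :
    ∃ C T₀ : ℝ, 0 < C ∧ 1 ≤ T₀ ∧ ∀ T : ℝ, T₀ ≤ T → ∀ q : QQ,
      ln q ≤ (2 - ε) * Real.log T → |fr q| ≤ ε / 4 * Real.log T →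
      ‖(1 / T : ℂ) * (∫ t : ℝ, (wt (t / T) : ℂ) *
        (DP (fun _ => 1) ⌈T ^ (3 / 2 : ℝ)⌉₊ t * osc q t)) - ((Wm * wr 1 q : ℝ) : ℂ)‖ ≤
        C / T ^ A := by
  classical
  obtain ⟨C₁, T₁, hC₁, hT₁, hosc⟩ := Pool.Agent.SixthMoment.osc_small wt_Wgt
    (half_pos hε) (A + 2)
  obtain ⟨C₂, hC₂, hdec⟩ := Pool.Agent.EvenMoment.osc_decay wt_Wgt (A + 2)
  have hlog2 : (0 : ℝ) < Real.log 2 := Real.log_pos (by norm_num)
  have hlog2' : Real.log 2 ≤ 1 := by
    have := Real.log_two_lt_d9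
    linarith
  set C₃ : ℝ := C₁ + C₂ * (Real.log 2)⁻¹ ^ (A + 2) with hC₃
  have hC₃0 : 0 < C₃ := by positivity
  refine ⟨2 * C₃, max T₁ (Real.exp (4 / ε)), by positivity, le_trans hT₁ (le_max_left _ _),
    fun T hT q hq hfr => ?_⟩
  have hTT₁ : T₁ ≤ T := le_trans (le_max_left _ _) hT
  have hTe : Real.exp (4 / ε) ≤ T := le_trans (le_max_right _ _) hT
  have hT1 : 1 ≤ T := le_trans hT₁ hTT₁
  have hT0 : 0 < T := by linarith
  set L := Real.log T with hL
  have hL0 : 0 ≤ L := Real.log_nonneg hT1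
  have hLe : 4 / ε ≤ L := by
    rw [hL, Real.le_log_iff_exp_le hT0]
    exact hTe
  have hεL : 1 ≤ ε / 4 * L := by
    have h1 := mul_le_mul_of_nonneg_left hLe (by positivity : 0 ≤ ε / 4)
    have h2 : ε / 4 * (4 / ε) = 1 := by field_simp
    linarith
  set N := ⌈T ^ (3 / 2 : ℝ)⌉₊ with hN
  have hNlog : ∀ n : ℕ, n ≠ 0 → vec n = q → n ≤ N := by
    intro n hn hnq
    have h1 : Real.log n = fr q := by rw [← hnq, fr_vec hn]
    have h2 : Real.log n ≤ 3 / 2 * L := by
      rw [h1]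
      have h3 := le_trans (le_abs_self _) hfr
      nlinarith
    have hn0 : (0 : ℝ) < n := by exact_mod_cast Nat.pos_of_ne_zero hn
    have h3 : (n : ℝ) ≤ T ^ (3 / 2 : ℝ) := by
      rw [Real.rpow_def_of_pos hT0, ← Real.log_le_iff_le_exp hn0]
      linarith
    exact_mod_cast h3.trans (Nat.le_ceil _)
  have hNle : (N : ℝ) ≤ 2 * T ^ 2 := by
    have h1 : (N : ℝ) < T ^ (3 / 2 : ℝ) + 1 := Nat.ceil_lt_add_one (by positivity)
    have h2 : T ^ (3 / 2 : ℝ) ≤ T ^ (2 : ℝ) := Real.rpow_le_rpow_of_exponent_le hT1 (by norm_num)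
    rw [Real.rpow_two] at h2
    have h3 : 1 ≤ T ^ 2 := one_le_pow₀ hT1
    linarith
  have hnT : ‖(1 / T : ℂ)‖ = 1 / T := by
    rw [norm_div, norm_one, Complex.norm_real, Real.norm_of_nonneg hT0.le]
  -- the single terms
  have hterm : ∀ n ∈ Finset.Icc 1 N, ‖(1 / T : ℂ) * ((((Real.sqrt n)⁻¹ : ℝ) : ℂ) *
      ∫ t : ℝ, (wt (t / T) : ℂ) * osc (q - vec n) t) -
      (if vec n = q then (((Real.sqrt n)⁻¹ : ℝ) : ℂ) * (Wm : ℂ) else 0)‖ ≤ C₃ / T ^ (A + 2) := by
    intro n hn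
    have hn1 : 1 ≤ n := (Finset.mem_Icc.mp hn).1
    have hn0 : n ≠ 0 := by omega
    have hnr : (1 : ℝ) ≤ n := by exact_mod_cast hn1
    have hnr0 : (0 : ℝ) < n := by linarith
    by_cases hv : vec n = q
    · rw [if_pos hv]
      have h1 := Pool.Agent.SixthMoment.osc_one wt_Wgt hT0
      have h2 : q - vec n = 0 := by rw [hv, sub_self]
      have h3 : (1 / T : ℂ) * ((((Real.sqrt n)⁻¹ : ℝ) : ℂ) *
          ∫ t : ℝ, (wt (t / T) : ℂ) * osc (q - vec n) t) =
          (((Real.sqrt n)⁻¹ : ℝ) : ℂ) * (Wm : ℂ) := by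
        rw [h2, mul_left_comm, h1]
        rfl
      rw [h3, sub_self, norm_zero]
      positivity
    · rw [if_neg hv, sub_zero, mul_left_comm, norm_mul, Complex.norm_real,
        Real.norm_of_nonneg (by positivity)]
      have hsq : (Real.sqrt n)⁻¹ ≤ 1 := by
        apply inv_le_one_of_one_le₀
        rw [Real.one_le_sqrt]
        exact hnr
      have hJ : ‖(1 / T : ℂ) * ∫ t : ℝ, (wt (t / T) : ℂ) * osc (q - vec n) t‖ ≤
          C₃ / T ^ (A + 2) := by
        have hTp : 0 < T ^ (A + 2) := by positivity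
        by_cases hsmall : Real.log n ≤ Real.log 2 + ε / 4 * L
        · have h1 : ln (q - vec n) ≤ (2 - ε / 2) * L := by
            have h2 := Pool.Agent.SixthMoment.ln_add_le q (-vec n)
            rw [Pool.Agent.SixthMoment.ln_neg, ln_vec hn0, ← sub_eq_add_neg] at h2
            nlinarith
          have h2 := hosc T hTT₁ (q - vec n) (sub_ne_zero.mpr (Ne.symm hv)) h1
          refine h2.trans ?_
          apply div_le_div_of_nonneg_right _ hTp.le
          rw [hC₃]
          have : 0 < C₂ * (Real.log 2)⁻¹ ^ (A + 2) := by positivity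
          linarith
        · rw [not_le] at hsmall
          have hfrn : fr (q - vec n) = fr q - Real.log n := by
            rw [sub_eq_add_neg, Pool.Agent.SixthMoment.fr_add, Pool.Agent.SixthMoment.fr_neg,
              fr_vec hn0]
            ring
          have hu : Real.log 2 ≤ |fr (q - vec n)| := by
            rw [hfrn, abs_sub_comm]
            refine le_trans ?_ (le_abs_self _)
            have := le_trans (le_abs_self _) hfr
            linarith
          have hu0 : 0 < |fr (q - vec n)| := lt_of_lt_of_le hlog2 hu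
          have h1 := hdec T hT0 (fr (q - vec n)) (abs_pos.mp hu0)
          have h2 : ∫ t : ℝ, (wt (t / T) : ℂ) * osc (q - vec n) t =
              ∫ t : ℝ, (wt (t / T) : ℂ) *
                Complex.exp (t * (fr (q - vec n) : ℝ) * Complex.I) := rfl
          rw [h2, norm_mul, hnT]
          have h3 : (T * |fr (q - vec n)|)⁻¹ ^ (A + 2) ≤
              (Real.log 2)⁻¹ ^ (A + 2) / T ^ (A + 2) := by
            have h4 : (T * |fr (q - vec n)|)⁻¹ ≤ (T * Real.log 2)⁻¹ := by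
              apply inv_anti₀ (by positivity)
              exact mul_le_mul_of_nonneg_left hu hT0.le
            refine (pow_le_pow_left₀ (by positivity) h4 _).trans (le_of_eq ?_)
            rw [mul_inv, mul_pow, inv_pow T]
            field_simp
          calc 1 / T * ‖∫ t : ℝ, (wt (t / T) : ℂ) *
                Complex.exp (t * (fr (q - vec n) : ℝ) * Complex.I)‖
              ≤ 1 / T * (C₂ * T * (T * |fr (q - vec n)|)⁻¹ ^ (A + 2)) :=
                mul_le_mul_of_nonneg_left h1 (by positivity)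
            _ = C₂ * (T * |fr (q - vec n)|)⁻¹ ^ (A + 2) := by field_simp
            _ ≤ C₂ * ((Real.log 2)⁻¹ ^ (A + 2) / T ^ (A + 2)) :=
                mul_le_mul_of_nonneg_left h3 hC₂.le
            _ = C₂ * (Real.log 2)⁻¹ ^ (A + 2) / T ^ (A + 2) := by ring
            _ ≤ C₃ / T ^ (A + 2) := by
                apply div_le_div_of_nonneg_right _ hTp.le
                rw [hC₃]
                linarith
      calc (Real.sqrt n)⁻¹ * ‖(1 / T : ℂ) * ∫ t : ℝ, (wt (t / T) : ℂ) * osc (q - vec n) t‖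
          ≤ 1 * (C₃ / T ^ (A + 2)) := by
            apply mul_le_mul hsq hJ (norm_nonneg _) zero_le_one
        _ = C₃ / T ^ (A + 2) := one_mul _
  rw [ztp_sum N q hT0, Finset.mul_sum, ← ztp_main N q hNlog, ← Finset.sum_sub_distrib]
  refine (norm_sum_le _ _).trans ((Finset.sum_le_sum hterm).trans ?_)
  rw [Finset.sum_const, Nat.card_Icc, nsmul_eq_mul, Nat.add_sub_cancel]
  calc (N : ℝ) * (C₃ / T ^ (A + 2)) ≤ (2 * T ^ 2) * (C₃ / T ^ (A + 2)) := by
        apply mul_le_mul_of_nonneg_right hNle (by positivity)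
    _ = 2 * C₃ / T ^ A := by
        rw [pow_add]
        field_simp

end Pool.Agent.MomW
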